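import Pool.Agent.GH.LN.DefsN
import Pool.Agent.GH.FExp

/-!
# Level `N`: the expansion of a power series in powers of `f = q + ⋯`
-/

open PowerSeries Filter Topology

noncomputable section

namespace GH

namespace LN

/-! The expansion of a power series in powers of `f = hauptN p N`. -/

variable {R : Type*} [CommRing R] (p N : ℕ)

theorem constantCoeff_inv {F : PowerSeries R} (_h : PowerSeries.constantCoeff F = 1) :
    PowerSeries.constantCoeff (invOfUnit F 1) = 1 := by
  rw [PowerSeries.constantCoeff_invOfUnit]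
  simp

theorem mul_inv_of {F : PowerSeries R} (h : PowerSeries.constantCoeff F = 1) :
    F * invOfUnit F 1 = 1 :=
  PowerSeries.mul_invOfUnit _ _ (by rw [h]; rfl)

theorem map_inv_of {S : Type*} [CommRing S] (φ : R →+* S) {F : PowerSeries R}
    (h : PowerSeries.constantCoeff F = 1) :
    PowerSeries.map φ (invOfUnit F 1) = invOfUnit (PowerSeries.map φ F) 1 := by
  have hc : PowerSeries.constantCoeff (PowerSeries.map φ F) = 1 := by
    rw [← PowerSeries.coeff_zero_eq_constantCoeff_apply, PowerSeries.coeff_map,
      PowerSeries.coeff_zero_eq_constantCoeff_apply, h, map_one]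
  have h1 : PowerSeries.map φ F * PowerSeries.map φ (invOfUnit F 1) = 1 := by
    rw [← map_mul, mul_inv_of h, map_one]
  have h2 := mul_inv_of hc
  calc PowerSeries.map φ (invOfUnit F 1)
      = (PowerSeries.map φ F * invOfUnit (PowerSeries.map φ F) 1) *
          PowerSeries.map φ (invOfUnit F 1) := by rw [h2, one_mul]
    _ = invOfUnit (PowerSeries.map φ F) 1 *
          (PowerSeries.map φ F * PowerSeries.map φ (invOfUnit F 1)) := by ring
    _ = invOfUnit (PowerSeries.map φ F) 1 := by rw [h1, mul_one]

theorem constantCoeff_etaN : PowerSeries.constantCoeff (etaN N R) = 1 := by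
  unfold etaN
  split_ifs <;>
    simp only [map_mul, map_pow, fx_constantCoeff_euler, one_pow, one_mul,
      constantCoeff_inv (fx_constantCoeff_euler R _)]

theorem constantCoeff_etaNp : PowerSeries.constantCoeff (etaNp p N R) = 1 := by
  unfold etaNp
  split_ifs <;>
    simp only [map_mul, map_pow, fx_constantCoeff_euler, one_pow, one_mul,
      constantCoeff_inv (fx_constantCoeff_euler R _)]

theorem map_etaN {S : Type*} [CommRing S] (φ : R →+* S) :
    PowerSeries.map φ (etaN N R) = etaN N S := by
  unfold etaN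
  split_ifs <;>
    simp only [map_mul, map_pow, fx_map_euler, map_inv_of φ (fx_constantCoeff_euler R _)]

theorem map_etaNp {S : Type*} [CommRing S] (φ : R →+* S) :
    PowerSeries.map φ (etaNp p N R) = etaNp p N S := by
  unfold etaNp
  split_ifs <;>
    simp only [map_mul, map_pow, fx_map_euler, map_inv_of φ (fx_constantCoeff_euler R _)]

theorem map_inv_etaN {S : Type*} [CommRing S] (φ : R →+* S) :
    PowerSeries.map φ (invOfUnit (etaN N R) 1) = invOfUnit (etaN N S) 1 := by
  rw [map_inv_of φ (constantCoeff_etaN N), map_etaN]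

/-- the quotient of `f` by `q` -/
def fxU (p N : ℕ) (R : Type*) [CommRing R] : PowerSeries R :=
  (etaNp p N R * invOfUnit (etaN N R) 1) ^ (orderN N / (p - 1))

lemma fx_haupt (R : Type*) [CommRing R] : hauptN p N R = X * fxU p N R := rfl

lemma fx_constantCoeff_U (R : Type*) [CommRing R] :
    PowerSeries.constantCoeff (fxU p N R) = 1 := by
  unfold fxU
  rw [map_pow, map_mul, constantCoeff_etaNp, constantCoeff_inv (constantCoeff_etaN N)]
  simp

theorem coeff_zero_hauptN : PowerSeries.coeff 0 (hauptN p N R) = 0 := by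
  rw [fx_haupt]
  simp

theorem coeff_one_hauptN : PowerSeries.coeff 1 (hauptN p N R) = 1 := by
  rw [fx_haupt]
  have h := PowerSeries.coeff_succ_X_mul 0 (fxU p N R)
  rw [zero_add] at h
  rw [h, PowerSeries.coeff_zero_eq_constantCoeff_apply, fx_constantCoeff_U]

theorem map_hauptN {S : Type*} [CommRing S] (φ : R →+* S) :
    PowerSeries.map φ (hauptN p N R) = hauptN p N S := by
  unfold hauptN
  rw [map_mul, map_pow, map_mul, map_etaNp, map_inv_etaN, PowerSeries.map_X]

lemma fx_hasSubst : HasSubst (hauptN p N R) := by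
  apply HasSubst.of_constantCoeff_zero'
  rw [← PowerSeries.coeff_zero_eq_constantCoeff_apply]
  exact coeff_zero_hauptN p N

lemma fx_coeff_pow_lt {n m : ℕ} (h : n < m) :
    PowerSeries.coeff n (hauptN p N R ^ m) = 0 := by
  rw [fx_haupt, mul_pow, PowerSeries.coeff_X_pow_mul', if_neg (by omega)]

lemma fx_coeff_pow_self (n : ℕ) : PowerSeries.coeff n (hauptN p N R ^ n) = 1 := by
  rw [fx_haupt, mul_pow, PowerSeries.coeff_X_pow_mul', if_pos le_rfl, Nat.sub_self,
    PowerSeries.coeff_zero_eq_constantCoeff_apply, map_pow, fx_constantCoeff_U, one_pow]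

lemma fx_coeff_subst (g : PowerSeries R) (n : ℕ) :
    PowerSeries.coeff n (g.subst (hauptN p N R)) =
      ∑ m ∈ Finset.range n, PowerSeries.coeff m g * PowerSeries.coeff n (hauptN p N R ^ m) +
        PowerSeries.coeff n g := by
  rw [PowerSeries.coeff_subst' (fx_hasSubst p N), finsum_eq_sum_of_support_subset (s := Finset.range (n + 1))]
  · rw [Finset.sum_range_succ, fx_coeff_pow_self]
    simp only [smul_eq_mul, mul_one]
  · intro m hm
    rw [Function.mem_support] at hm
    rw [Finset.coe_range, Set.mem_Iio]
    by_contra h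
    exact hm (by rw [fx_coeff_pow_lt p N (by omega), smul_zero])

lemma fx_fcoeff (F : PowerSeries R) (n : ℕ) :
    fcoeffN p N F n = PowerSeries.coeff n F -
      ∑ m ∈ Finset.range n, fcoeffN p N F m * PowerSeries.coeff n (hauptN p N R ^ m) := by
  rw [fcoeffN, Finset.sum_range]

theorem subst_fcoeff (F : PowerSeries R) :
    (PowerSeries.mk (fcoeffN p N F)).subst (hauptN p N R) = F := by
  ext n
  rw [fx_coeff_subst]
  simp only [PowerSeries.coeff_mk]
  rw [fx_fcoeff p N F n]
  ring

theorem fcoeff_subst (g : PowerSeries R) :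
    fcoeffN p N (g.subst (hauptN p N R)) = fun n ↦ PowerSeries.coeff n g := by
  funext n
  induction n using Nat.strong_induction_on with
  | _ n ih =>
    rw [fx_fcoeff, fx_coeff_subst]
    have h : ∑ m ∈ Finset.range n, fcoeffN p N (g.subst (hauptN p N R)) m *
        PowerSeries.coeff n (hauptN p N R ^ m) =
        ∑ m ∈ Finset.range n, PowerSeries.coeff m g *
          PowerSeries.coeff n (hauptN p N R ^ m) :=
      Finset.sum_congr rfl fun m hm => by rw [ih m (Finset.mem_range.1 hm)]
    rw [h]
    ring

theorem fcoeff_mul (F G : PowerSeries R) (n : ℕ) :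
    fcoeffN p N (F * G) n = ∑ ij ∈ Finset.HasAntidiagonal.antidiagonal n, fcoeffN p N F ij.1 * fcoeffN p N G ij.2 := by
  have h : F * G = (PowerSeries.mk (fcoeffN p N F) * PowerSeries.mk (fcoeffN p N G)).subst
      (hauptN p N R) := by
    rw [PowerSeries.subst_mul (fx_hasSubst p N), subst_fcoeff, subst_fcoeff]
  rw [h, fcoeff_subst]
  show PowerSeries.coeff n (PowerSeries.mk (fcoeffN p N F) * PowerSeries.mk (fcoeffN p N G)) = _
  rw [PowerSeries.coeff_mul]
  simp only [PowerSeries.coeff_mk]

theorem fcoeff_zero (F : PowerSeries R) : fcoeffN p N F 0 = PowerSeries.coeff 0 F := by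
  rw [fx_fcoeff]
  simp

theorem fcoeff_map {S : Type*} [CommRing S] (φ : R →+* S) (F : PowerSeries R) (n : ℕ) :
    fcoeffN p N (PowerSeries.map φ F) n = φ (fcoeffN p N F n) := by
  induction n using Nat.strong_induction_on with
  | _ n ih =>
    rw [fx_fcoeff, fx_fcoeff p N F n, map_sub, map_sum, PowerSeries.coeff_map]
    congr 1
    refine Finset.sum_congr rfl fun m hm => ?_
    have e : hauptN p N S ^ m = PowerSeries.map φ (hauptN p N R ^ m) := by
      rw [map_pow, map_hauptN]
    rw [ih m (Finset.mem_range.1 hm), map_mul, e, PowerSeries.coeff_map]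

theorem map_cuspN {S : Type*} [CommRing S] (φ : R →+* S) :
    PowerSeries.map φ (cuspN p N R) = cuspN p N S := by
  unfold cuspN
  split_ifs <;> simp only [map_one, map_sub, map_pow, map_hauptN]

theorem constantCoeff_hauptN : PowerSeries.constantCoeff (hauptN p N R) = 0 := by
  rw [← PowerSeries.coeff_zero_eq_constantCoeff_apply, coeff_zero_hauptN]

theorem constantCoeff_cuspN : PowerSeries.constantCoeff (cuspN p N R) = 1 := by
  unfold cuspN
  split_ifs <;> simp [constantCoeff_hauptN]

/-- For `N = 1` the Hauptmodul is that of `Defs`. -/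
theorem hauptN_one (p : ℕ) (R : Type*) [CommRing R] : hauptN p 1 R = hauptmodul p R := rfl

theorem fcoeffN_one {R : Type*} [CommRing R] (F : PowerSeries R) (n : ℕ) :
    fcoeffN p 1 F n = fcoeff p F n := by
  induction n using Nat.strong_induction_on with
  | _ n ih =>
    rw [fx_fcoeff, GH.fx_fcoeff]
    congr 1
    refine Finset.sum_congr rfl fun m hm => ?_
    rw [ih m (Finset.mem_range.1 hm), hauptN_one]

end LN

end GH
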