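import Pool.Agent.GH.LN.LagN

/-!
# Level `N`: the series `S` with `S(f) = A(q^p)/A(q)`, `A = (Ψ^p/Ψ(q^p))^e`, `e = orderN N/(p-1)`
-/

open PowerSeries Filter Topology

noncomputable section

namespace GH

namespace LN

/-! ### Products and expansion -/

lemma sr_stab (K : Type*) [CommRing K] (k n m : ℕ) (h : n < k * (m + 1)) :
    ∀ M, m ≤ M → PowerSeries.coeff n (∏ l ∈ Finset.range M,
      (1 - (X : PowerSeries K) ^ (k * (l + 1)))) =
      PowerSeries.coeff n (∏ l ∈ Finset.range m, (1 - (X : PowerSeries K) ^ (k * (l + 1)))) := by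
  intro M hM
  induction M, hM using Nat.le_induction with
  | base => rfl
  | succ M hM ih =>
    rw [Finset.prod_range_succ, mul_sub, mul_one, map_sub, ih, PowerSeries.coeff_mul_X_pow',
      if_neg, sub_zero]
    have h1 : k * (m + 1) ≤ k * (M + 1) := Nat.mul_le_mul_left _ (by omega)
    omega

lemma sr_ceu (K : Type*) [CommRing K] (k n M : ℕ) (hk : 1 ≤ k) (hM : n ≤ M) :
    PowerSeries.coeff n (euler K k) =
      PowerSeries.coeff n (∏ m ∈ Finset.range M, (1 - (X : PowerSeries K) ^ (k * (m + 1)))) := by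
  unfold euler
  rw [PowerSeries.coeff_mk]
  refine (sr_stab K k n n ?_ M hM).symm
  nlinarith

lemma sr_xprod (K : Type*) [CommRing K] (p : ℕ) (hp : p ≠ 0) (k m : ℕ) :
    (∏ l ∈ Finset.range m,
      (1 - (X : PowerSeries K) ^ (k * (l + 1)))).expand p hp =
      ∏ l ∈ Finset.range m, (1 - (X : PowerSeries K) ^ (p * k * (l + 1))) := by
  rw [map_prod]
  refine Finset.prod_congr rfl fun l _ => ?_
  rw [map_sub, map_one, map_pow, PowerSeries.expand_X, ← pow_mul, mul_assoc]

/-- `E(q^k)` at `q^p`. -/
theorem euler_expand (K : Type*) [CommRing K] (p : ℕ) (hp : p ≠ 0) (k : ℕ) (hk : 1 ≤ k) :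
    (euler K k).expand p hp = euler K (p * k) := by
  have hp1 : 1 ≤ p := Nat.one_le_iff_ne_zero.2 hp
  ext n
  rw [PowerSeries.coeff_expand]
  split_ifs with h
  · obtain ⟨l, rfl⟩ := h
    have hpk : 1 ≤ p * k := Nat.mul_pos hp1 hk
    rw [Nat.mul_div_cancel_left l hp1, sr_ceu K k l l hk le_rfl,
      sr_ceu K (p * k) (p * l) (p * l) hpk le_rfl,
      ← PowerSeries.coeff_expand_mul p hp, sr_xprod]
    refine (sr_stab K (p * k) (p * l) l ?_ (p * l) (Nat.le_mul_of_pos_left _ hp1)).symm
    rw [mul_assoc]
    refine Nat.mul_lt_mul_of_pos_left ?_ hp1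
    nlinarith
  · unfold euler
    rw [PowerSeries.coeff_mk, ← sr_xprod K p hp,
      PowerSeries.coeff_expand_of_not_dvd p hp _ h]

theorem expand_inv_of {R : Type*} [CommRing R] (p : ℕ) (hp : p ≠ 0) {F : PowerSeries R}
    (h : PowerSeries.constantCoeff F = 1) :
    (invOfUnit F 1).expand p hp = invOfUnit (F.expand p hp) 1 := by
  have h1 : F.expand p hp * (invOfUnit F 1).expand p hp = 1 := by
    rw [← map_mul, mul_inv_of h, map_one]
  have h2 : F.expand p hp * invOfUnit (F.expand p hp) 1 = 1 :=
    mul_inv_of (by rw [PowerSeries.constantCoeff_expand, h])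
  linear_combination (invOfUnit (F.expand p hp) 1) * h1 - (invOfUnit F 1).expand p hp * h2

section

variable (p N : ℕ) (hp : p ≠ 0) (R : Type*) [CommRing R]

theorem etaN_expand : (etaN N R).expand p hp = etaNp p N R := by
  unfold etaN etaNp
  split_ifs
  · rw [euler_expand R p hp 1 le_rfl, mul_one]
  · rw [map_mul, map_pow, expand_inv_of p hp (fx_constantCoeff_euler R _),
      euler_expand R p hp 1 le_rfl, euler_expand R p hp 2 (by norm_num), mul_one, mul_comm p 2]
  · rw [map_mul, map_pow, expand_inv_of p hp (fx_constantCoeff_euler R _),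
      euler_expand R p hp 4 (by norm_num), euler_expand R p hp 2 (by norm_num), mul_comm p 2,
      mul_comm p 4]

/-- `A = (Ψ^p/Ψ(q^p))^e`. -/
def AN : PowerSeries R :=
  etaN N R ^ (p * (orderN N / (p - 1))) * invOfUnit (etaNp p N R) 1 ^ (orderN N / (p - 1))

theorem constantCoeff_AN : PowerSeries.constantCoeff (AN p N R) = 1 := by
  unfold AN
  rw [map_mul, map_pow, map_pow, constantCoeff_etaN, constantCoeff_inv (constantCoeff_etaNp p N),
    one_pow, one_pow, one_mul]

/-- The series `S` in one variable `h` with `S(f(q)) = A(q^p)/A(q)`. -/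
def SN : PowerSeries R :=
  PowerSeries.mk fun n ↦ fcoeffN p N ((AN p N R).expand p hp * invOfUnit (AN p N R) 1) n

/-- `g = h^p/S(h)`. -/
def gsN : PowerSeries R := X ^ p * invOfUnit (SN p N hp R) 1

theorem SN_subst : (SN p N hp R).subst (hauptN p N R) =
    (AN p N R).expand p hp * invOfUnit (AN p N R) 1 := subst_fcoeff p N _

theorem AN_expand : (AN p N R).expand p hp = AN p N R * (SN p N hp R).subst (hauptN p N R) := by
  have h := mul_inv_of (constantCoeff_AN p N R)
  rw [SN_subst]
  linear_combination (-((AN p N R).expand p hp)) * h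

theorem constantCoeff_SN : PowerSeries.constantCoeff (SN p N hp R) = 1 := by
  rw [← PowerSeries.coeff_zero_eq_constantCoeff_apply, SN, PowerSeries.coeff_mk, fcoeff_zero,
    PowerSeries.coeff_zero_eq_constantCoeff_apply, map_mul, PowerSeries.constantCoeff_expand,
    constantCoeff_AN, constantCoeff_inv (constantCoeff_AN p N R), one_mul]

theorem gsN_mul : gsN p N hp R * SN p N hp R = X ^ p := by
  have h := mul_inv_of (constantCoeff_SN p N hp R)
  unfold gsN
  linear_combination X ^ p * h

theorem constantCoeff_gsN : PowerSeries.constantCoeff (gsN p N hp R) = 0 := by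
  unfold gsN
  rw [map_mul, map_pow, PowerSeries.constantCoeff_X, zero_pow hp, zero_mul]

/-- `A f^p = (A f)(q^p)`. -/
theorem AN_mul_pow : AN p N R * hauptN p N R ^ p =
    (AN p N R).expand p hp * (hauptN p N R).expand p hp := by
  set e := orderN N / (p - 1) with he
  set a := etaN N R with ha
  set b := etaNp p N R with hb
  set ai := invOfUnit a 1 with hai
  set bi := invOfUnit b 1 with hbi
  have h1 : a * ai = 1 := mul_inv_of (constantCoeff_etaN N)
  have h2 : b * bi = 1 := mul_inv_of (constantCoeff_etaNp p N)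
  have hA : AN p N R = a ^ (p * e) * bi ^ e := rfl
  have hf : hauptN p N R = X * (b * ai) ^ e := rfl
  -- `A f = q a^((p-1) e)`
  obtain ⟨m, hm⟩ : ∃ m, p = m + 1 := ⟨p - 1, by omega⟩
  have hAf : AN p N R * hauptN p N R = X * a ^ (m * e) := by
    rw [hA, hf, mul_pow]
    calc a ^ (p * e) * bi ^ e * (X * (b ^ e * ai ^ e))
        = X * a ^ (p * e) * (b * bi) ^ e * ai ^ e := by ring
      _ = X * (a ^ (m * e) * (a * ai) ^ e) := by
          rw [h2, one_pow, mul_one, hm, add_mul, one_mul, pow_add]
          ring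
      _ = X * a ^ (m * e) := by rw [h1, one_pow, mul_one]
  have hAfp : AN p N R * hauptN p N R ^ p = X ^ p * b ^ (m * e) := by
    rw [hA, hf, mul_pow X, mul_pow b, mul_pow _ _ p, ← pow_mul, ← pow_mul]
    calc a ^ (p * e) * bi ^ e * (X ^ p * (b ^ (e * p) * ai ^ (e * p)))
        = X ^ p * (a * ai) ^ (p * e) * (b ^ (e * p) * bi ^ e) := by
          rw [mul_pow a ai, mul_comm e p]
          ring
      _ = X ^ p * (b ^ (m * e) * (b * bi) ^ e) := by
          have e1 : e * p = m * e + e := by rw [hm]; ring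
          rw [h1, one_pow, mul_one, e1, pow_add]
          ring
      _ = X ^ p * b ^ (m * e) := by rw [h2, one_pow, mul_one]
  rw [hAfp, ← map_mul, hAf, map_mul, expand_X, map_pow, ha, etaN_expand p N hp R]

/-- `f(q^p) S(f) = f^p`. -/
theorem hauptN_expand : (hauptN p N R).expand p hp * (SN p N hp R).subst (hauptN p N R) =
    hauptN p N R ^ p := by
  have h := mul_inv_of (constantCoeff_AN p N R)
  have h2 := AN_mul_pow p N hp R
  rw [SN_subst]
  linear_combination (-(invOfUnit (AN p N R) 1)) * h2 + hauptN p N R ^ p * h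

theorem map_AN {S : Type*} [CommRing S] (φ : R →+* S) :
    PowerSeries.map φ (AN p N R) = AN p N S := by
  unfold AN
  rw [map_mul, map_pow, map_pow, map_etaN, map_inv_of φ (constantCoeff_etaNp p N), map_etaNp]

theorem map_SN {S : Type*} [CommRing S] (φ : R →+* S) :
    PowerSeries.map φ (SN p N hp R) = SN p N hp S := by
  ext n
  rw [PowerSeries.coeff_map, SN, SN, PowerSeries.coeff_mk, PowerSeries.coeff_mk,
    ← fcoeff_map p N φ, map_mul, map_inv_of φ (constantCoeff_AN p N R), map_AN,
    PowerSeries.map_expand, map_AN]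

theorem map_gsN {S : Type*} [CommRing S] (φ : R →+* S) :
    PowerSeries.map φ (gsN p N hp R) = gsN p N hp S := by
  unfold gsN
  rw [map_mul, map_pow, PowerSeries.map_X, map_inv_of φ (constantCoeff_SN p N hp R), map_SN]

/-- `g(f) = f(q^p)`. -/
theorem gsN_subst : (gsN p N hp R).subst (hauptN p N R) = (hauptN p N R).expand p hp := by
  have hs : HasSubst (hauptN p N R) := fx_hasSubst p N
  have h1 := hauptN_expand p N hp R
  have h2 := mul_inv_of (constantCoeff_SN p N hp R)
  have h3 : (SN p N hp R).subst (hauptN p N R) *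
      (invOfUnit (SN p N hp R) 1).subst (hauptN p N R) = 1 := by
    rw [← subst_mul hs, h2, ← coe_substAlgHom hs, map_one]
  rw [gsN, subst_mul hs, subst_pow hs, subst_X hs]
  linear_combination (-((invOfUnit (SN p N hp R) 1).subst (hauptN p N R))) * h1 +
    (hauptN p N R).expand p hp * h3

/-- Series in `f` are determined by their values. -/
theorem subst_injN {F G : PowerSeries R}
    (h : F.subst (hauptN p N R) = G.subst (hauptN p N R)) : F = G := by
  have h1 := congrArg (fcoeffN p N) h
  rw [fcoeff_subst, fcoeff_subst] at h1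
  ext n
  exact congrFun h1 n

end

/-- The substitution `F ↦ F(f)` as a ring homomorphism. -/
def sbN (p N : ℕ) (R : Type*) [CommRing R] : PowerSeries R →+* PowerSeries R :=
  ((substAlgHom (fx_hasSubst (R := R) p N) : PowerSeries R →ₐ[R] PowerSeries R) :
    PowerSeries R →+* PowerSeries R)

theorem sbN_apply (p N : ℕ) (R : Type*) [CommRing R] (F : PowerSeries R) :
    sbN p N R F = F.subst (hauptN p N R) := by
  show (substAlgHom (fx_hasSubst (R := R) p N)) F = _
  rw [coe_substAlgHom]

theorem sbN_X (p N : ℕ) (R : Type*) [CommRing R] : sbN p N R X = hauptN p N R := by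
  rw [sbN_apply, subst_X (fx_hasSubst p N)]

theorem sbN_inj (p N : ℕ) (R : Type*) [CommRing R] : Function.Injective (sbN p N R) := by
  intro F G h
  rw [sbN_apply, sbN_apply] at h
  exact subst_injN p N R h

end LN

end GH
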