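import Pool.Agent.GH.LN.CDef
import Pool.Agent.GH.LN.SerN
import Pool.Agent.GH.UMatB_a
import Pool.Agent.GH.FamA

/-!
# Level `N`: Gauss norms and the matrices `[h^{pi-j}] P S^i`
-/

open PowerSeries Filter Topology

noncomputable section

namespace GH

namespace LN

section bd

variable {K : Type*} [NormedField K] {ρ c d : ℝ} {F G : PowerSeries K}

theorem Bd.nonneg (h : Bd ρ c F) : 0 ≤ c := by
  have h1 := h 0
  rw [pow_zero, mul_one] at h1
  exact (norm_nonneg _).trans h1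

theorem Bd.mono_c (h : Bd ρ c F) (hcd : c ≤ d) : Bd ρ d F := fun n ↦ (h n).trans hcd

theorem Bd.mono_r {ρ' : ℝ} (h : Bd ρ c F) (h0 : 0 ≤ ρ') (hr : ρ' ≤ ρ) : Bd ρ' c F := fun n ↦
  (mul_le_mul_of_nonneg_left (pow_le_pow_left₀ h0 hr n) (norm_nonneg _)).trans (h n)

theorem Bd.neg (h : Bd ρ c F) : Bd ρ c (-F) := fun n ↦ by
  rw [map_neg, norm_neg]
  exact h n

theorem Bd.of_C {a : K} (ha : ‖a‖ ≤ c) : Bd ρ c (C a : PowerSeries K) := fun n ↦ by
  rw [PowerSeries.coeff_C]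
  split_ifs with h
  · rw [h, pow_zero, mul_one]
    exact ha
  · rw [norm_zero, zero_mul]
    exact (norm_nonneg _).trans ha

theorem Bd.one (hc : 1 ≤ c) : Bd ρ c (1 : PowerSeries K) := by
  have h : Bd ρ c (C (1 : K)) := Bd.of_C (by rw [norm_one]; exact hc)
  rwa [map_one] at h

theorem Bd.zero (hc : 0 ≤ c) : Bd ρ c (0 : PowerSeries K) := fun n ↦ by
  rw [map_zero, norm_zero, zero_mul]
  exact hc

theorem Bd.X_le (hρ : 0 ≤ ρ) (hc : ρ ≤ c) : Bd ρ c (X : PowerSeries K) := fun n ↦ by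
  rw [PowerSeries.coeff_X]
  split_ifs with h
  · rw [h, norm_one, one_mul, pow_one]
    exact hc
  · rw [norm_zero, zero_mul]
    exact hρ.trans hc

variable [IsUltrametricDist K]

theorem Bd.add (hρ : 0 ≤ ρ) (hF : Bd ρ c F) (hG : Bd ρ c G) : Bd ρ c (F + G) := fun n ↦ by
  rw [map_add]
  have h1 := IsUltrametricDist.norm_add_le_max (PowerSeries.coeff n F) (PowerSeries.coeff n G)
  rcases le_max_iff.1 h1 with h | h
  · exact (mul_le_mul_of_nonneg_right h (by positivity)).trans (hF n)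
  · exact (mul_le_mul_of_nonneg_right h (by positivity)).trans (hG n)

theorem Bd.sub (hρ : 0 ≤ ρ) (hF : Bd ρ c F) (hG : Bd ρ c G) : Bd ρ c (F - G) := by
  rw [sub_eq_add_neg]
  exact hF.add hρ hG.neg

theorem bd_iff (hρ : 0 < ρ) : Bd ρ c F ↔ ∀ m, ‖PowerSeries.coeff m F‖ ≤ c / ρ ^ m := by
  unfold Bd
  refine forall_congr' fun m => ?_
  rw [le_div_iff₀ (by positivity)]

theorem Bd.mul (hρ : 0 < ρ) (hF : Bd ρ c F) (hG : Bd ρ d G) : Bd ρ (c * d) (F * G) := by
  have hc := hF.nonneg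
  have hc' := hG.nonneg
  rw [bd_iff hρ]
  intro n
  rw [PowerSeries.coeff_mul]
  refine IsUltrametricDist.norm_sum_le_of_forall_le_of_nonneg (by positivity) fun ij hij => ?_
  rw [Finset.HasAntidiagonal.mem_antidiagonal] at hij
  rw [norm_mul, ← hij, le_div_iff₀ (by positivity), pow_add]
  calc ‖PowerSeries.coeff ij.1 F‖ * ‖PowerSeries.coeff ij.2 G‖ * (ρ ^ ij.1 * ρ ^ ij.2)
      = (‖PowerSeries.coeff ij.1 F‖ * ρ ^ ij.1) * (‖PowerSeries.coeff ij.2 G‖ * ρ ^ ij.2) := by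
        ring
    _ ≤ c * d := mul_le_mul (hF _) (hG _) (by positivity) hc

theorem Bd.mul1 (hρ : 0 < ρ) (hF : Bd ρ c F) (hG : Bd ρ 1 G) : Bd ρ c (F * G) := by
  have h := hF.mul hρ hG
  rwa [mul_one] at h

theorem Bd.pow (hρ : 0 < ρ) (hF : Bd ρ c F) (m : ℕ) : Bd ρ (c ^ m) (F ^ m) := by
  induction m with
  | zero =>
    rw [pow_zero, pow_zero]
    exact Bd.one le_rfl
  | succ m ih =>
    rw [pow_succ, pow_succ]
    exact ih.mul hρ hF

theorem Bd.pow1 (hρ : 0 < ρ) (hF : Bd ρ 1 F) (m : ℕ) : Bd ρ 1 (F ^ m) := by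
  have h := hF.pow hρ m
  rwa [one_pow] at h

/-- Multiplication by a monomial. -/
theorem Bd.CX (hρ : 0 < ρ) {e : ℝ} (hF : Bd ρ c F) {a : K} {k : ℕ}
    (hk : ‖a‖ * ρ ^ k * c ≤ e) : Bd ρ e (C a * (X ^ k * F)) := by
  have hc := hF.nonneg
  intro n
  rw [PowerSeries.coeff_C_mul, PowerSeries.coeff_X_pow_mul']
  split_ifs with h
  · refine le_trans ?_ hk
    rw [norm_mul]
    have h1 := hF (n - k)
    have h2 : ρ ^ n = ρ ^ k * ρ ^ (n - k) := by rw [← pow_add]; congr 1; omega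
    rw [h2]
    calc ‖a‖ * ‖PowerSeries.coeff (n - k) F‖ * (ρ ^ k * ρ ^ (n - k))
        = ‖a‖ * ρ ^ k * (‖PowerSeries.coeff (n - k) F‖ * ρ ^ (n - k)) := by ring
      _ ≤ ‖a‖ * ρ ^ k * c := mul_le_mul_of_nonneg_left h1 (by positivity)
  · rw [mul_zero, norm_zero, zero_mul]
    refine le_trans ?_ hk
    positivity

/-- The inverse of a series with constant term `1`. -/
theorem Bd.inv (hρ : 0 < ρ) (hF : Bd ρ 1 F) (h0 : PowerSeries.constantCoeff F = 1)
    (h : F * G = 1) : Bd ρ 1 G := by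
  intro n
  induction n using Nat.strong_induction_on with
  | _ n ih =>
    have e : G = 1 + (1 - F) * G := by linear_combination h
    have e2 := congrArg (PowerSeries.coeff n) e
    rw [map_add, PowerSeries.coeff_mul] at e2
    rw [e2, ← le_div_iff₀ (by positivity)]
    refine (IsUltrametricDist.norm_add_le_max _ _).trans (max_le ?_ ?_)
    · have h1 : Bd ρ 1 (1 : PowerSeries K) := Bd.one le_rfl
      exact (bd_iff hρ).1 h1 n
    · refine IsUltrametricDist.norm_sum_le_of_forall_le_of_nonneg (by positivity) fun x hx => ?_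
      have hx' := Finset.HasAntidiagonal.mem_antidiagonal.mp hx
      by_cases h1 : x.1 = 0
      · have h2 : PowerSeries.coeff x.1 (1 - F) = 0 := by rw [h1]; simp [h0]
        rw [h2, zero_mul, norm_zero]
        positivity
      · have h2 : PowerSeries.coeff x.1 (1 - F) = -PowerSeries.coeff x.1 F := by
          simp [PowerSeries.coeff_one, h1]
        rw [h2, norm_mul, norm_neg, le_div_iff₀ (by positivity), ← hx', pow_add]
        calc ‖PowerSeries.coeff x.1 F‖ * ‖PowerSeries.coeff x.2 G‖ * (ρ ^ x.1 * ρ ^ x.2)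
            = (‖PowerSeries.coeff x.1 F‖ * ρ ^ x.1) * (‖PowerSeries.coeff x.2 G‖ * ρ ^ x.2) := by
              ring
          _ ≤ 1 * 1 := mul_le_mul (hF _) (ih x.2 (by omega)) (by positivity) zero_le_one
          _ = 1 := one_mul 1

/-- Powers `F^s` with an arbitrary exponent. -/
theorem Bd.ppow [CharZero K] (hρ : 0 < ρ) (hF : Bd ρ c (F - 1))
    (h0 : PowerSeries.constantCoeff F = 1) {t : ℝ} (ht : ∀ n : ℕ, ‖((n.factorial : ℕ) : K)‖⁻¹ ≤ t ^ n)
    (hc : t * c ≤ 1) {s : K} (hs : ∀ l : ℕ, ‖s - l‖ ≤ 1) : Bd ρ 1 (GH.ppow F s) := by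
  have hc0 := hF.nonneg
  have ht0 : 0 ≤ t := by
    have h1 := ht 1
    rw [pow_one] at h1
    exact (inv_nonneg.2 (norm_nonneg _)).trans h1
  have hF0 : PowerSeries.constantCoeff (F - 1) = 0 := by rw [map_sub, h0, map_one, sub_self]
  rw [bd_iff hρ]
  intro m
  unfold GH.ppow
  rw [fa_coeff_subst hF0]
  refine IsUltrametricDist.norm_sum_le_of_forall_le_of_nonneg (by positivity) fun n _ => ?_
  rw [le_div_iff₀ (by positivity), norm_mul, binS, coeff_mk, norm_div, div_eq_mul_inv]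
  have h1 := hF.pow hρ n m
  have hp : ‖∏ i ∈ Finset.range n, (s - i)‖ ≤ 1 := by
    rw [norm_prod]
    calc ∏ i ∈ Finset.range n, ‖s - i‖ ≤ ∏ _i ∈ Finset.range n, (1 : ℝ) :=
          Finset.prod_le_prod (fun i _ => norm_nonneg _) (fun i _ => hs i)
      _ = 1 := by rw [Finset.prod_const_one]
  calc ‖∏ i ∈ Finset.range n, (s - i)‖ * ‖((n.factorial : ℕ) : K)‖⁻¹ *
        ‖PowerSeries.coeff m ((F - 1) ^ n)‖ * ρ ^ m
      = (‖∏ i ∈ Finset.range n, (s - i)‖ * ‖((n.factorial : ℕ) : K)‖⁻¹) *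
        (‖PowerSeries.coeff m ((F - 1) ^ n)‖ * ρ ^ m) := by ring
    _ ≤ (1 * t ^ n) * c ^ n := by
        refine mul_le_mul ?_ h1 (by positivity) (by positivity)
        exact mul_le_mul hp (ht n) (by positivity) (by norm_num)
    _ = (t * c) ^ n := by rw [one_mul, mul_pow]
    _ ≤ 1 := pow_le_one₀ (by positivity) hc

end bd

section mt

variable {K : Type*} [Field K] {p : ℕ} {S P P' g : PowerSeries K}

theorem mt_zero (i j : ℕ) (h : p * i < j) : mt p S P i j = 0 := by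
  unfold mt
  rw [if_neg (by omega)]

/-- Change of the frame by `1 - a f`. -/
theorem mt_rel (hg : g * S = X ^ p) (a : K)
    (h : P * (1 - C a * X) = (1 - C a * g) * P') (i j : ℕ) (hi : 1 ≤ i) (hj : 1 ≤ j) :
    mt p S P i j - a * mt p S P i (j + 1) = mt p S P' i j - a * mt p S P' (i - 1) j := by
  obtain ⟨k, rfl⟩ : ∃ k, i = k + 1 := ⟨i - 1, by omega⟩
  rw [Nat.add_sub_cancel]
  have h1 : (P * S ^ (k + 1)) - C a * (X * (P * S ^ (k + 1))) =
      P' * S ^ (k + 1) - C a * (X ^ p * (P' * S ^ k)) := by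
    rw [← hg]
    linear_combination S ^ (k + 1) * h
  unfold mt
  have e0 : p * (k + 1) = p * k + p := by ring
  by_cases hjp : j ≤ p * (k + 1)
  · have h2 := congrArg (PowerSeries.coeff (p * (k + 1) - j)) h1
    rw [map_sub, map_sub, coeff_C_mul, coeff_C_mul, coeff_X_pow_mul'] at h2
    rw [if_pos hjp, if_pos hjp]
    have e1 : PowerSeries.coeff (p * (k + 1) - j) (X * (P * S ^ (k + 1))) =
        if j + 1 ≤ p * (k + 1) then PowerSeries.coeff (p * (k + 1) - (j + 1)) (P * S ^ (k + 1))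
          else 0 := by
      split_ifs with h3
      · have e2 : p * (k + 1) - j = (p * (k + 1) - (j + 1)) + 1 := by omega
        rw [e2, coeff_succ_X_mul]
      · have e2 : p * (k + 1) - j = 0 := by omega
        rw [e2, coeff_zero_X_mul]
    have e3 : (if p ≤ p * (k + 1) - j then
        PowerSeries.coeff (p * (k + 1) - j - p) (P' * S ^ k) else 0) =
        if j ≤ p * k then PowerSeries.coeff (p * k - j) (P' * S ^ k) else 0 := by
      by_cases h3 : j ≤ p * k
      · rw [if_pos h3, if_pos (by omega)]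
        congr 2
        omega
      · by_cases h4 : p ≤ p * (k + 1) - j
        · exfalso
          omega
        · rw [if_neg h3, if_neg h4]
    rw [e1, e3] at h2
    exact h2
  · rw [if_neg hjp, if_neg (by omega), if_neg hjp, if_neg (by omega)]

end mt

section mtn

variable {K : Type*} [NormedField K] [IsUltrametricDist K] {p : ℕ} {ρ c : ℝ}
  {S P P' g : PowerSeries K}

theorem mt_dec (hρ : 0 < ρ) (hS : Bd ρ 1 S) (hP : Bd ρ c P) (i j : ℕ) (h : j ≤ p * i) :
    ‖mt p S P i j‖ ≤ c * ρ⁻¹ ^ (p * i - j) := by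
  unfold mt
  rw [if_pos h, inv_pow, ← div_eq_mul_inv]
  exact (bd_iff hρ).1 (hP.mul1 hρ (hS.pow1 hρ i)) _

theorem mt_le_one (hS : Bd 1 1 S) (hP : Bd 1 1 P) (i j : ℕ) : ‖mt p S P i j‖ ≤ 1 := by
  by_cases h : j ≤ p * i
  · have h1 := mt_dec (p := p) one_pos hS hP i j h
    simpa using h1
  · rw [mt_zero i j (by omega), norm_zero]
    exact zero_le_one

/-- The functional `G ↦ ∑ a^i [h^{pi}] G S^i` kills the multiples of `1 - a g`. -/
theorem ev_tel (hg : g * S = X ^ p) (hg0 : PowerSeries.constantCoeff g = 0) {a : K}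
    (ha : a * a = 1) (G : PowerSeries K) (n : ℕ) :
    ∑ i ∈ Finset.range (n + 1), a ^ i * PowerSeries.coeff (p * i) ((1 - C a * g) * G * S ^ i) =
      a ^ n * PowerSeries.coeff (p * n) (G * S ^ n) := by
  induction n with
  | zero =>
    rw [zero_add, Finset.sum_range_one, pow_zero, one_mul, mul_zero, pow_zero, mul_one, mul_one,
      one_mul, PowerSeries.coeff_zero_eq_constantCoeff_apply, map_mul, map_sub, map_mul, hg0,
      mul_zero, sub_zero, map_one, one_mul, PowerSeries.coeff_zero_eq_constantCoeff_apply]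
  | succ n ih =>
    rw [Finset.sum_range_succ, ih]
    have h1 : (1 - C a * g) * G * S ^ (n + 1) =
        G * S ^ (n + 1) - C a * (X ^ p * (G * S ^ n)) := by
      rw [← hg]
      ring
    have hp : p ≤ p * (n + 1) := Nat.le_mul_of_pos_right p (Nat.succ_pos n)
    rw [h1, map_sub, coeff_C_mul, coeff_X_pow_mul', if_pos hp]
    have e : p * (n + 1) - p = p * n := by
      rw [mul_add, mul_one, Nat.add_sub_cancel]
    rw [e]
    have h2 : a ^ (n + 1) * a = a ^ n := by rw [pow_succ, mul_assoc, ha, mul_one]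
    linear_combination (-(PowerSeries.coeff (p * n) (G * S ^ n))) * h2

/-- `[h^{pi}] G S^i` tends to zero. -/
theorem tendsto_coeff_pow (hp : 1 ≤ p) (hρ : 1 < ρ) (hS : Bd ρ 1 S) {G : PowerSeries K}
    (hG : Bd ρ c G) {a : K} (ha : ‖a‖ = 1) :
    Tendsto (fun n : ℕ ↦ a ^ n * PowerSeries.coeff (p * n) (G * S ^ n)) atTop (𝓝 0) := by
  have hρ0 : 0 < ρ := zero_lt_one.trans hρ
  have hc := hG.nonneg
  refine squeeze_zero_norm (a := fun n ↦ c * ρ⁻¹ ^ n) (fun n ↦ ?_) ?_
  · rw [norm_mul, norm_pow, ha, one_pow, one_mul]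
    have h1 := (bd_iff hρ0).1 (hG.mul1 hρ0 (hS.pow1 hρ0 n)) (p * n)
    refine h1.trans ?_
    rw [div_eq_mul_inv, ← inv_pow]
    refine mul_le_mul_of_nonneg_left ?_ hc
    refine pow_le_pow_of_le_one (by positivity) (inv_le_one_of_one_le₀ hρ.le) ?_
    exact Nat.le_mul_of_pos_left n hp
  · have h1 : Tendsto (fun i : ℕ ↦ ρ⁻¹ ^ i) atTop (𝓝 0) :=
      tendsto_pow_atTop_nhds_zero_of_lt_one (by positivity) (inv_lt_one_of_one_lt₀ hρ)
    simpa using h1.const_mul c

/-- `[h^{pi}] R S^i = 0` for `i ≥ 1`. -/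
theorem coeff_R_pow [CharZero K] (hp : p ≠ 0) {R : PowerSeries K}
    (hR : (p : PowerSeries K) * (S * R) = (p : PowerSeries K) * S - X * derivative K S)
    (hS0 : PowerSeries.constantCoeff S = 1) (i : ℕ) (hi : 1 ≤ i) :
    PowerSeries.coeff (p * i) (R * S ^ i) = 0 := by
  have hSne : S ≠ 0 := by
    rintro rfl
    rw [map_zero] at hS0
    exact zero_ne_one hS0
  obtain ⟨m, rfl⟩ : ∃ m, i = m + 1 := ⟨i - 1, by omega⟩
  -- `p (m+1) R S^(m+1) = p (m+1) S^(m+1) - X (S^(m+1))'`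
  have h1 : ((p * (m + 1) : ℕ) : PowerSeries K) * (R * S ^ (m + 1)) =
      ((p * (m + 1) : ℕ) : PowerSeries K) * S ^ (m + 1) - X * derivative K (S ^ (m + 1)) := by
    rw [Derivation.leibniz_pow, Nat.add_sub_cancel, nsmul_eq_mul, smul_eq_mul]
    push_cast
    linear_combination ((m : PowerSeries K) + 1) * S ^ m * hR
  have hc : ((p * (m + 1) : ℕ) : PowerSeries K) = C ((p * (m + 1) : ℕ) : K) := by
    rw [map_natCast]
  have h2 := congrArg (PowerSeries.coeff (p * (m + 1))) h1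
  have hpos : 1 ≤ p * (m + 1) := Nat.mul_pos (Nat.pos_of_ne_zero hp) (Nat.succ_pos m)
  obtain ⟨k, hk⟩ : ∃ k, p * (m + 1) = k + 1 := ⟨p * (m + 1) - 1, by omega⟩
  have h3 : PowerSeries.coeff (p * (m + 1)) (X * derivative K (S ^ (m + 1))) =
      ((p * (m + 1) : ℕ) : K) * PowerSeries.coeff (p * (m + 1)) (S ^ (m + 1)) := by
    rw [hk, coeff_succ_X_mul, coeff_derivative]
    push_cast
    ring
  rw [hc, map_sub, coeff_C_mul, coeff_C_mul, h3, sub_self] at h2
  rcases mul_eq_zero.1 h2 with h4 | h4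
  · exact absurd (Nat.cast_eq_zero.1 h4) (by omega)
  · exact h4

/-- **The eigenvalue `1` at the cusp `f = a`.** -/
theorem ev_cusp [CharZero K] (hp : p ≠ 0) (hρ : 1 < ρ) (hg : g * S = X ^ p)
    (hg0 : PowerSeries.constantCoeff g = 0) (hS0 : PowerSeries.constantCoeff S = 1)
    {R R1 T T1 : PowerSeries K}
    (hR : (p : PowerSeries K) * (S * R) = (p : PowerSeries K) * S - X * derivative K S)
    (hS : Bd ρ 1 S) (hR1 : Bd ρ c R1) {d : ℝ} (hT1 : Bd ρ d T1) {a : K} (ha : a * a = 1)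
    (h1 : R * (1 - C a * X) = (1 - C a * g) * R1) (h2 : T = 1 + (1 - C a * X) * T1) :
    Tendsto (fun n ↦ ∑ i ∈ Finset.range (n + 1), a ^ i * mt p S (R * T) i 1) atTop (𝓝 a) := by
  have hρ0 : 0 < ρ := zero_lt_one.trans hρ
  have hna : ‖a‖ = 1 := by
    have h := congrArg norm ha
    rw [norm_mul, norm_one] at h
    nlinarith [norm_nonneg a]
  have hR0 : PowerSeries.constantCoeff R = 1 := by
    have h := congrArg PowerSeries.constantCoeff hR
    rw [map_mul, map_mul, map_sub, map_mul, map_mul, hS0, constantCoeff_X, zero_mul, sub_zero,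
      mul_one, one_mul, map_natCast] at h
    exact mul_left_cancel₀ (Nat.cast_ne_zero.2 hp) (h.trans (mul_one _).symm)
  have hca : (C a : PowerSeries K) * C a = 1 := by rw [← map_mul, ha, map_one]
  -- `X T = a + (1 - a X) G`
  obtain ⟨G, hG⟩ : ∃ G : PowerSeries K, G = X * T1 - C a := ⟨_, rfl⟩
  have hXT : X * T = C a + (1 - C a * X) * G := by
    rw [h2, hG]
    linear_combination (-(X : PowerSeries K)) * hca
  have hGb : Bd ρ (max (ρ * d) 1) G := by
    rw [hG]
    refine Bd.sub hρ0.le ?_ (Bd.of_C (hna.le.trans (le_max_right _ _)))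
    exact ((Bd.X_le hρ0.le le_rfl).mul hρ0 hT1).mono_c (le_max_left _ _)
  have hterm : ∀ i : ℕ, a ^ i * mt p S (R * T) i 1 =
      a * (a ^ i * PowerSeries.coeff (p * i) (R * S ^ i)) +
        a ^ i * PowerSeries.coeff (p * i) ((1 - C a * g) * (G * R1) * S ^ i) := by
    intro i
    have e1 : (1 - C a * g) * (G * R1) * S ^ i = (1 - C a * X) * G * R * S ^ i := by
      linear_combination (-(G * S ^ i)) * h1
    have e2 : X * (R * T * S ^ i) = C a * (R * S ^ i) + (1 - C a * X) * G * R * S ^ i := by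
      linear_combination R * S ^ i * hXT
    have e3 : mt p S (R * T) i 1 = PowerSeries.coeff (p * i) (X * (R * T * S ^ i)) := by
      unfold mt
      split_ifs with h
      · obtain ⟨k, hk⟩ : ∃ k, p * i = k + 1 := ⟨p * i - 1, by omega⟩
        rw [hk, coeff_succ_X_mul, Nat.add_sub_cancel]
      · have : p * i = 0 := by omega
        rw [this, coeff_zero_X_mul]
    rw [e3, e2, e1, map_add, coeff_C_mul]
    ring
  have hfun : (fun n ↦ ∑ i ∈ Finset.range (n + 1), a ^ i * mt p S (R * T) i 1) =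
      fun n ↦ a + a ^ n * PowerSeries.coeff (p * n) (G * R1 * S ^ n) := by
    funext n
    rw [Finset.sum_congr rfl fun i _ ↦ hterm i, Finset.sum_add_distrib,
      ev_tel hg hg0 ha (G * R1) n, ← Finset.mul_sum, Finset.sum_range_succ']
    rw [Finset.sum_eq_zero fun i _ ↦ by
      rw [coeff_R_pow hp hR hS0 (i + 1) (by omega), mul_zero]]
    rw [mul_zero, pow_zero, pow_zero, mul_one, PowerSeries.coeff_zero_eq_constantCoeff_apply, hR0]
    ring
  rw [hfun]
  have h3 := tendsto_coeff_pow (p := p) (Nat.one_le_iff_ne_zero.2 hp) hρ hS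
    (hGb.mul hρ0 hR1) hna
  simpa using h3.const_add a

/-- The evaluation at another cusp `b`: from the frame `B` to the frame `B (1 - a f)`. -/
theorem ev_cusp2 (hp : p ≠ 0) (hρ : 1 < ρ) {M M' : ℕ → ℕ → K} {a b : K} (ha : a * a = 1)
    (hb : b * b = 1) (hab : a * b ≠ 1)
    (h0 : ∀ i j, p * i < j → M i j = 0) (h0' : ∀ i j, p * i < j → M' i j = 0)
    (hd' : ∀ i j, j ≤ p * i → ‖M' i j‖ ≤ c * ρ⁻¹ ^ (p * i - j))
    (hrel : ∀ i j, 1 ≤ i → 1 ≤ j → M i j - a * M i (j + 1) = M' i j - a * M' (i - 1) j)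
    (h1 : Tendsto (fun n ↦ ∑ i ∈ Finset.range (n + 1), b ^ i * M i 1) atTop (𝓝 b))
    (h2 : Tendsto (fun n ↦ ∑ i ∈ Finset.range (n + 1), b ^ i * M i 2) atTop (𝓝 (b * b))) :
    Tendsto (fun n ↦ ∑ i ∈ Finset.range (n + 1), b ^ i * M' i 1) atTop (𝓝 b) := by
  have hnb : ‖b‖ = 1 := by
    have h := congrArg norm hb
    rw [norm_mul, norm_one] at h
    nlinarith [norm_nonneg b]
  have hρ0 : 0 < ρ := zero_lt_one.trans hρ
  have hsum : ∀ n, ∑ i ∈ Finset.range (n + 1), b ^ i * M i 1 -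
      a * ∑ i ∈ Finset.range (n + 1), b ^ i * M i 2 =
      (1 - a * b) * ∑ i ∈ Finset.range (n + 1), b ^ i * M' i 1 + a * b * (b ^ n * M' n 1) := by
    intro n
    induction n with
    | zero =>
      rw [zero_add, Finset.sum_range_one, Finset.sum_range_one, Finset.sum_range_one,
        h0 0 1 (by omega), h0 0 2 (by omega), h0' 0 1 (by omega)]
      ring
    | succ n ih =>
      rw [Finset.sum_range_succ, Finset.sum_range_succ _ (n + 1),
        Finset.sum_range_succ (fun i ↦ b ^ i * M' i 1) (n + 1)]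
      have h3 := hrel (n + 1) 1 (by omega) le_rfl
      rw [Nat.add_sub_cancel] at h3
      linear_combination ih + b ^ (n + 1) * h3
  have hlim : Tendsto (fun n ↦ a * b * (b ^ n * M' n 1)) atTop (𝓝 0) := by
    have h3 : Tendsto (fun n ↦ b ^ n * M' n 1) atTop (𝓝 0) := by
      refine squeeze_zero_norm' (a := fun n ↦ (c * ρ) * ρ⁻¹ ^ n) ?_ ?_
      · refine Filter.eventually_atTop.2 ⟨1, fun n hn ↦ ?_⟩
        have hpn : n ≤ p * n := Nat.le_mul_of_pos_left n (Nat.pos_of_ne_zero hp)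
        have hc : 0 ≤ c := by
          have h4 := (norm_nonneg _).trans (hd' n 1 (by omega))
          have h5 : 0 < ρ⁻¹ ^ (p * n - 1) := by positivity
          by_contra hc
          push Not at hc
          have := mul_neg_of_neg_of_pos hc h5
          linarith
        rw [norm_mul, norm_pow, hnb, one_pow, one_mul]
        refine (hd' n 1 (by omega)).trans ?_
        have h6 : ρ⁻¹ ^ (p * n - 1) ≤ ρ⁻¹ ^ (n - 1) :=
          pow_le_pow_of_le_one (by positivity) (inv_le_one_of_one_le₀ hρ.le) (by omega)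
        have h7 : ρ⁻¹ ^ (n - 1) = ρ * ρ⁻¹ ^ n := by
          obtain ⟨k, rfl⟩ : ∃ k, n = k + 1 := ⟨n - 1, by omega⟩
          rw [Nat.add_sub_cancel, pow_succ]
          field_simp
        calc c * ρ⁻¹ ^ (p * n - 1) ≤ c * (ρ * ρ⁻¹ ^ n) := by
              rw [← h7]
              exact mul_le_mul_of_nonneg_left h6 hc
          _ = c * ρ * ρ⁻¹ ^ n := by ring
      · have h4 : Tendsto (fun i : ℕ ↦ ρ⁻¹ ^ i) atTop (𝓝 0) :=
          tendsto_pow_atTop_nhds_zero_of_lt_one (by positivity) (inv_lt_one_of_one_lt₀ hρ)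
        simpa using h4.const_mul (c * ρ)
    simpa using h3.const_mul (a * b)
  have h3 : Tendsto (fun n ↦ (1 - a * b)⁻¹ * ((∑ i ∈ Finset.range (n + 1), b ^ i * M i 1 -
      a * ∑ i ∈ Finset.range (n + 1), b ^ i * M i 2) - a * b * (b ^ n * M' n 1))) atTop
      (𝓝 ((1 - a * b)⁻¹ * ((b - a * (b * b)) - 0))) :=
    ((h1.sub (h2.const_mul a)).sub hlim).const_mul _
  have hne : (1 - a * b) ≠ 0 := sub_ne_zero.2 (Ne.symm hab)
  have e : (1 - a * b)⁻¹ * ((b - a * (b * b)) - 0) = b := by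
    field_simp
    ring
  rw [e] at h3
  refine h3.congr fun n ↦ ?_
  rw [hsum n]
  field_simp
  ring

/-- The next evaluation: `∑ b^i M_{i,2} = b²`. -/
theorem ev_next (hp : p ≠ 0) (hρ : 1 < ρ) {M M' : ℕ → ℕ → K} {b : K}
    (hb : b * b = 1)
    (h0 : ∀ i j, p * i < j → M i j = 0) (h0' : ∀ i j, p * i < j → M' i j = 0)
    (hd' : ∀ i j, j ≤ p * i → ‖M' i j‖ ≤ c * ρ⁻¹ ^ (p * i - j))
    (hrel : ∀ i j, 1 ≤ i → 1 ≤ j → M i j - b * M i (j + 1) = M' i j - b * M' (i - 1) j)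
    (j : ℕ) (hj : 1 ≤ j)
    (h1 : Tendsto (fun n ↦ ∑ i ∈ Finset.range (n + 1), b ^ i * M i j) atTop (𝓝 (b ^ j))) :
    Tendsto (fun n ↦ ∑ i ∈ Finset.range (n + 1), b ^ i * M i (j + 1)) atTop
      (𝓝 (b ^ (j + 1))) := by
  have hnb : ‖b‖ = 1 := by
    have h := congrArg norm hb
    rw [norm_mul, norm_one] at h
    nlinarith [norm_nonneg b]
  have hρ0 : 0 < ρ := zero_lt_one.trans hρ
  have hsum : ∀ n, ∑ i ∈ Finset.range (n + 1), b ^ i * M i j -
      b * ∑ i ∈ Finset.range (n + 1), b ^ i * M i (j + 1) = b ^ n * M' n j := by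
    intro n
    induction n with
    | zero =>
      rw [zero_add, Finset.sum_range_one, Finset.sum_range_one,
        h0 0 j (by omega), h0 0 (j + 1) (by omega), h0' 0 j (by omega)]
      ring
    | succ n ih =>
      rw [Finset.sum_range_succ, Finset.sum_range_succ _ (n + 1)]
      have h3 := hrel (n + 1) j (by omega) hj
      rw [Nat.add_sub_cancel] at h3
      linear_combination ih + b ^ (n + 1) * h3 - b ^ n * M' n j * hb
  have hlim : Tendsto (fun n ↦ b ^ n * M' n j) atTop (𝓝 0) := by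
    refine squeeze_zero_norm' (a := fun n ↦ (c * ρ ^ j) * ρ⁻¹ ^ n) ?_ ?_
    · refine Filter.eventually_atTop.2 ⟨j, fun n hn ↦ ?_⟩
      have hpn : n ≤ p * n := Nat.le_mul_of_pos_left n (Nat.pos_of_ne_zero hp)
      have hc : 0 ≤ c := by
        have h4 := (norm_nonneg _).trans (hd' n j (by omega))
        have h5 : 0 < ρ⁻¹ ^ (p * n - j) := by positivity
        by_contra hc
        push Not at hc
        have := mul_neg_of_neg_of_pos hc h5
        linarith
      rw [norm_mul, norm_pow, hnb, one_pow, one_mul]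
      refine (hd' n j (by omega)).trans ?_
      have h6 : ρ⁻¹ ^ (p * n - j) ≤ ρ⁻¹ ^ (n - j) :=
        pow_le_pow_of_le_one (by positivity) (inv_le_one_of_one_le₀ hρ.le) (by omega)
      have h7 : ρ⁻¹ ^ (n - j) = ρ ^ j * ρ⁻¹ ^ n := by
        obtain ⟨k, rfl⟩ : ∃ k, n = k + j := ⟨n - j, by omega⟩
        rw [Nat.add_sub_cancel, pow_add, mul_comm (ρ⁻¹ ^ k), ← mul_assoc, ← mul_pow,
          mul_inv_cancel₀ hρ0.ne', one_pow, one_mul]
      calc c * ρ⁻¹ ^ (p * n - j) ≤ c * (ρ ^ j * ρ⁻¹ ^ n) := by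
            rw [← h7]
            exact mul_le_mul_of_nonneg_left h6 hc
        _ = c * ρ ^ j * ρ⁻¹ ^ n := by ring
    · have h4 : Tendsto (fun i : ℕ ↦ ρ⁻¹ ^ i) atTop (𝓝 0) :=
        tendsto_pow_atTop_nhds_zero_of_lt_one (by positivity) (inv_lt_one_of_one_lt₀ hρ)
      simpa using h4.const_mul (c * ρ ^ j)
  have h3 : Tendsto (fun n ↦ b * ((∑ i ∈ Finset.range (n + 1), b ^ i * M i j) -
      b ^ n * M' n j)) atTop (𝓝 (b * (b ^ j - 0))) := (h1.sub hlim).const_mul _
  have e : b * (b ^ j - 0) = b ^ (j + 1) := by rw [sub_zero, pow_succ, mul_comm]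
  rw [e] at h3
  refine h3.congr fun n ↦ ?_
  have h4 := hsum n
  linear_combination b * h4 + (∑ i ∈ Finset.range (n + 1), b ^ i * M i (j + 1)) * hb

end mtn

end LN

end GH
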