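import Pool.Agent.GH.LN.PStm
import Pool.Agent.GH.CombU.PLN

/-!
# Level `N`: the norms of the ghost coefficients of the three pairs
-/

open PowerSeries Filter Topology

noncomputable section

namespace GH

namespace LN

open GP DP CombU

/-! ### The ghost zeros -/

theorem norm_zeroLN (p : ℕ) [Fact p.Prime] (k : ℕ) : ‖zeroLN p k‖ ≤ (p : ℝ)⁻¹ := by
  have h1 : (2 * (p : ℤ_[p])) ∣ zeroLN p k := by
    have h2 := sub_dvd_pow_sub_pow (1 + 2 * (p : ℤ_[p])) 1 ((p - 1) * k)
    rw [one_pow, add_sub_cancel_left] at h2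
    exact h2
  obtain ⟨c, hc⟩ := h1
  rw [hc, show 2 * (p : ℤ_[p]) * c = (p : ℤ_[p]) * (2 * c) by ring, norm_mul, PadicInt.norm_p]
  exact mul_le_of_le_one_right (by positivity) (PadicInt.norm_le_one _)

private theorem lp9_io (p : ℕ) [Fact p.Prime] (k : ℕ) :
    io p (zeroLN p k) = (1 + 2 * (p : PadicComplex p)) ^ ((p - 1) * k) - 1 := by
  unfold zeroLN
  rw [map_sub, map_pow, map_one, map_add, map_mul, map_natCast, map_one, map_ofNat]

private theorem lp9_norm_one (p : ℕ) [hp : Fact p.Prime] :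
    ‖1 + 2 * (p : PadicComplex p)‖ = 1 := by
  have h1 : 1 + 2 * (p : PadicComplex p) = io p (1 + 2 * (p : ℤ_[p])) := by
    rw [map_add, map_mul, map_natCast, map_one, map_ofNat]
  have h2 : ‖2 * (p : ℤ_[p])‖ < 1 := by
    rw [norm_mul, PadicInt.norm_p]
    have h3 : ((p : ℝ))⁻¹ < 1 := by
      have h4 : (1 : ℝ) < p := by exact_mod_cast hp.out.one_lt
      exact inv_lt_one_of_one_lt₀ h4
    have h5 : 0 ≤ ((p : ℝ))⁻¹ := by positivity
    have h6 := PadicInt.norm_le_one (2 : ℤ_[p])
    nlinarith [norm_nonneg (2 : ℤ_[p])]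
  have h7 : ‖(1 : ℤ_[p])‖ ≠ ‖2 * (p : ℤ_[p])‖ := by
    rw [norm_one]
    exact h2.ne'
  rw [h1, norm_io, PadicInt.norm_add_eq_max_of_ne h7, norm_one]
  exact max_eq_left h2.le

private theorem lp9_sub_le {p : ℕ} [Fact p.Prime] (x y : PadicComplex p) :
    ‖x - y‖ ≤ max ‖x‖ ‖y‖ := by
  have h := IsUltrametricDist.norm_add_le_max x (-y)
  rwa [norm_neg, ← sub_eq_add_neg] at h

theorem ghostN_zero_eq (p N ν : ℕ) {K : Type*} [Field K] (w : K) : ghostN p N ν w 0 = 1 := by
  unfold ghostN
  have h1 : ∀ k : ℕ, multN p N 0 k = 0 := by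
    intro k
    unfold multN
    rw [if_neg]
    omega
  simp only [h1, pow_zero, ite_self, finprod_one]

theorem norm_ghostN_le (p N ν : ℕ) [Fact p.Prime] {w : PadicComplex p} (hw : ‖w‖ ≤ 1) (n : ℕ) :
    ‖ghostN p N ν w n‖ ≤ 1 := by
  unfold ghostN
  refine finprod_induction (p := fun x : PadicComplex p => ‖x‖ ≤ 1) ?_ ?_ ?_
  · exact norm_one.le
  · intro x y hx hy
    rw [norm_mul]
    exact mul_le_one₀ hx (norm_nonneg _) hy
  · intro k
    split_ifs with h
    · rw [norm_pow]
      refine pow_le_one₀ (norm_nonneg _) ?_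
      have h1 : ‖(1 + 2 * (p : PadicComplex p)) ^ k - 1‖ ≤ 1 := by
        refine (lp9_sub_le _ _).trans (max_le ?_ norm_one.le)
        rw [norm_pow, lp9_norm_one, one_pow]
      exact (lp9_sub_le _ _).trans (max_le hw h1)
    · exact norm_one.le

/-! ### The product over the weights -/

private theorem lp9_main (p N ν i a : ℕ) [Fact p.Prime] (hp2 : Even (p - 1))
    (hν : 2 * ν < p - 1) (hm : ∀ n l, multN p N n (2 * ν + (p - 1) * l) = TLN i (n + a) l) :
    GhoLN p N ν i a := by
  classical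
  intro w _ n
  have hfac : ∀ l, (1 + 2 * (p : PadicComplex p)) ^ (2 * ν) * (1 + w) - 1 -
      ((1 + 2 * (p : PadicComplex p)) ^ (2 * ν + (p - 1) * l) - 1) =
      (1 + 2 * (p : PadicComplex p)) ^ (2 * ν) * (w - io p (zeroLN p l)) := by
    intro l
    rw [lp9_io, pow_add]
    ring
  have hp1 : 0 < p - 1 := by omega
  have hprod : ghostN p N ν ((1 + 2 * (p : PadicComplex p)) ^ (2 * ν) * (1 + w) - 1) n =
      ∏ l ∈ Finset.range (ZLN (n + a)), ((1 + 2 * (p : PadicComplex p)) ^ (2 * ν) *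
        (w - io p (zeroLN p l))) ^ TLN i (n + a) l := by
    unfold ghostN
    rw [finprod_eq_prod_of_mulSupport_subset
      (s := (Finset.range (ZLN (n + a))).image fun l => 2 * ν + (p - 1) * l)]
    · rw [Finset.prod_image]
      · refine Finset.prod_congr rfl fun l _ => ?_
        rw [if_pos, hfac, hm]
        refine ⟨?_, ?_⟩
        · exact (even_two_mul ν).add (hp2.mul_right l)
        · exact (Nat.modEq_iff_dvd' (Nat.le_add_right _ _)).2 ⟨l, by omega⟩ |>.symm
      · intro x _ y _ h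
        have h1 : (p - 1) * x = (p - 1) * y := by
          have h2 : 2 * ν + (p - 1) * x = 2 * ν + (p - 1) * y := h
          omega
        exact Nat.eq_of_mul_eq_mul_left hp1 h1
    · intro k hk
      rw [Function.mem_mulSupport] at hk
      by_cases hev : Even k ∧ k ≡ 2 * ν [MOD p - 1]
      · rw [if_pos hev] at hk
        obtain ⟨hev1, hev2⟩ := hev
        unfold Nat.ModEq at hev2
        rw [Nat.mod_eq_of_lt hν] at hev2
        have hk2 : k = 2 * ν + (p - 1) * (k / (p - 1)) := by
          have h3 := Nat.div_add_mod k (p - 1)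
          rw [hev2] at h3
          omega
        rw [Finset.coe_image, Set.mem_image]
        refine ⟨k / (p - 1), ?_, hk2.symm⟩
        rw [Finset.mem_coe, Finset.mem_range]
        by_contra hc
        apply hk
        have h4 : multN p N n k = 0 := by
          rw [hk2, hm]
          exact TLN_supp i (n + a) _ (by omega)
        rw [h4, pow_zero]
      · rw [if_neg hev] at hk
        exact absurd rfl hk
  rw [hprod, norm_prod]
  refine Finset.prod_congr rfl fun l _ => ?_
  rw [norm_pow, norm_mul, norm_pow, lp9_norm_one, one_pow, one_mul]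

/-! ### The multiplicities -/

private theorem lp9_c2 : numCusps 2 = 2 := by decide

private theorem lp9_c4 : numCusps 4 = 3 := by decide

private theorem lp9_c6 : numCusps 6 = 4 := by decide

private theorem lp9_c10 : numCusps 10 = 4 := by decide

private theorem lp9_c12 : numCusps 12 = 6 := by decide

private theorem lp9_e2 : numEll2 2 = 1 ∧ numEll3 2 = 0 := by decide

private theorem lp9_e4 : numEll2 4 = 0 ∧ numEll3 4 = 0 := by decide

private theorem lp9_e6 : numEll2 6 = 0 ∧ numEll3 6 = 0 := by decide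

private theorem lp9_e10 : numEll2 10 = 2 ∧ numEll3 10 = 0 := by decide

private theorem lp9_e12 : numEll2 12 = 0 ∧ numEll3 12 = 0 := by decide

private theorem lp9_m32 (n l : ℕ) : multN 3 2 n (2 * 0 + (3 - 1) * l) = TLN 0 (n + 1) l := by
  unfold multN dimNewN sfun TLN cenLN tLN dimS
  rw [show 2 * 3 = 6 by norm_num, lp9_c2, lp9_c6, lp9_e2.1, lp9_e2.2, lp9_e6.1, lp9_e6.2]
  norm_num only [if_true, if_false]
  split_ifs <;> omega

private theorem lp9_m34 (n l : ℕ) : multN 3 4 n (2 * 0 + (3 - 1) * l) = TLN 1 (n + 2) l := by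
  unfold multN dimNewN sfun TLN cenLN tLN dimS
  rw [show 4 * 3 = 12 by norm_num, lp9_c4, lp9_c12, lp9_e4.1, lp9_e4.2, lp9_e12.1, lp9_e12.2]
  norm_num only [if_true, if_false]
  split_ifs <;> omega

private theorem lp9_m52 (c : ℕ) (hc : c ≤ 1) (n l : ℕ) :
    multN 5 2 n (2 * c + (5 - 1) * l) = TLN (2 + c) (n + 1) l := by
  unfold multN dimNewN sfun TLN cenLN tLN dimS
  rw [show 2 * 5 = 10 by norm_num, lp9_c2, lp9_c10, lp9_e2.1, lp9_e2.2, lp9_e10.1, lp9_e10.2]
  rcases (show c = 0 ∨ c = 1 by omega) with rfl | rfl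
  · norm_num only [if_true, if_false]
    split_ifs <;> omega
  · norm_num only [if_true, if_false]
    split_ifs <;> omega

/-! ### The three pairs -/

theorem gho32 : GhoLN 3 2 0 0 1 :=
  lp9_main 3 2 0 0 1 (by decide) (by norm_num) lp9_m32

theorem gho34 : GhoLN 3 4 0 1 2 :=
  lp9_main 3 4 0 1 2 (by decide) (by norm_num) lp9_m34

theorem gho52 (c : ℕ) (hc : c ≤ 1) : GhoLN 5 2 c (2 + c) 1 :=
  lp9_main 5 2 c (2 + c) 1 (by decide) (by omega) (lp9_m52 c hc)

end LN

end GH
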