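import Pool.Agent.GH.LN.SerN

/-!
# Level `N`: growth of power series over `ℤ`: `p^⌈n/d⌉` divides the coefficient of `X^n`
-/

open PowerSeries Filter Topology

noncomputable section

namespace GH

namespace LN

/-- `p^⌈n/d⌉` divides the coefficient of `X^n` for `n < m`. -/
def Gr (p d m : ℕ) (F : PowerSeries ℤ) : Prop :=
  ∀ n < m, (p : ℤ) ^ ((n + (d - 1)) / d) ∣ PowerSeries.coeff n F

variable {p d : ℕ}

theorem gr_ceil (hd : 1 ≤ d) (a b : ℕ) :
    (a + b + (d - 1)) / d ≤ (a + (d - 1)) / d + (b + (d - 1)) / d := by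
  have h1 : a ≤ d * ((a + (d - 1)) / d) := by
    have := Nat.lt_mul_div_succ (a + (d - 1)) (show 0 < d by omega)
    have h2 := Nat.div_add_mod (a + (d - 1)) d
    have h3 := Nat.mod_lt (a + (d - 1)) (show d > 0 by omega)
    omega
  have h1' : b ≤ d * ((b + (d - 1)) / d) := by
    have h2 := Nat.div_add_mod (b + (d - 1)) d
    have h3 := Nat.mod_lt (b + (d - 1)) (show d > 0 by omega)
    omega
  rw [Nat.div_le_iff_le_mul_add_pred (by omega)]
  have h4 : d * ((a + (d - 1)) / d + (b + (d - 1)) / d) =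
      d * ((a + (d - 1)) / d) + d * ((b + (d - 1)) / d) := by ring
  omega

theorem Gr.mono {m m' : ℕ} {F : PowerSeries ℤ} (h : Gr p d m F) (hm : m' ≤ m) : Gr p d m' F :=
  fun n hn ↦ h n (by omega)

theorem gr_one (hd : 1 ≤ d) (m : ℕ) : Gr p d m 1 := by
  intro n _
  rw [PowerSeries.coeff_one]
  split_ifs with h
  · subst h
    have : (0 + (d - 1)) / d = 0 := Nat.div_eq_of_lt (by omega)
    rw [this, pow_zero]
  · exact dvd_zero _

theorem Gr.add {m : ℕ} {F G : PowerSeries ℤ} (hF : Gr p d m F) (hG : Gr p d m G) :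
    Gr p d m (F + G) := by
  intro n hn
  rw [map_add]
  exact dvd_add (hF n hn) (hG n hn)

theorem Gr.neg {m : ℕ} {F : PowerSeries ℤ} (hF : Gr p d m F) : Gr p d m (-F) := by
  intro n hn
  rw [map_neg]
  exact (hF n hn).neg_right

theorem Gr.sub {m : ℕ} {F G : PowerSeries ℤ} (hF : Gr p d m F) (hG : Gr p d m G) :
    Gr p d m (F - G) := by
  rw [sub_eq_add_neg]
  exact hF.add hG.neg

theorem Gr.mul (hd : 1 ≤ d) {m : ℕ} {F G : PowerSeries ℤ} (hF : Gr p d m F)
    (hG : Gr p d m G) : Gr p d m (F * G) := by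
  intro n hn
  rw [PowerSeries.coeff_mul]
  refine Finset.dvd_sum fun x hx ↦ ?_
  have hx' := Finset.HasAntidiagonal.mem_antidiagonal.mp hx
  have h1 : (p : ℤ) ^ ((n + (d - 1)) / d) ∣
      (p : ℤ) ^ ((x.1 + (d - 1)) / d) * (p : ℤ) ^ ((x.2 + (d - 1)) / d) := by
    rw [← pow_add]
    refine pow_dvd_pow _ ?_
    rw [← hx']
    exact gr_ceil hd x.1 x.2
  exact h1.trans (mul_dvd_mul (hF _ (by omega)) (hG _ (by omega)))

theorem Gr.pow (hd : 1 ≤ d) {m : ℕ} {F : PowerSeries ℤ} (hF : Gr p d m F) (k : ℕ) :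
    Gr p d m (F ^ k) := by
  induction k with
  | zero => rw [pow_zero]; exact gr_one hd m
  | succ k ih => rw [pow_succ]; exact ih.mul hd hF

theorem Gr.inv (hd : 1 ≤ d) {m : ℕ} {F G : PowerSeries ℤ} (hF : Gr p d m F)
    (h0 : PowerSeries.constantCoeff F = 1) (h : F * G = 1) : Gr p d m G := by
  intro n
  induction n using Nat.strong_induction_on with
  | _ n ih =>
    intro hn
    have e : G = 1 + (1 - F) * G := by linear_combination h
    have e2 := congrArg (PowerSeries.coeff n) e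
    rw [map_add, PowerSeries.coeff_mul] at e2
    rw [e2]
    refine dvd_add (gr_one hd m n hn) (Finset.dvd_sum fun x hx ↦ ?_)
    have hx' := Finset.HasAntidiagonal.mem_antidiagonal.mp hx
    by_cases h1 : x.1 = 0
    · have h2 : PowerSeries.coeff x.1 (1 - F) = 0 := by rw [h1]; simp [h0]
      rw [h2, zero_mul]
      exact dvd_zero _
    · have h2 : PowerSeries.coeff x.1 (1 - F) = -PowerSeries.coeff x.1 F := by
        simp [PowerSeries.coeff_one, h1]
      rw [h2]
      have h3 : (p : ℤ) ^ ((n + (d - 1)) / d) ∣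
          (p : ℤ) ^ ((x.1 + (d - 1)) / d) * (p : ℤ) ^ ((x.2 + (d - 1)) / d) := by
        rw [← pow_add]
        refine pow_dvd_pow _ ?_
        rw [← hx']
        exact gr_ceil hd x.1 x.2
      exact h3.trans (mul_dvd_mul ((hF _ (by omega)).neg_right) (ih x.2 (by omega) (by omega)))

/-- Multiplication by `c X^k`, `p^a ∣ c`, `k ≤ d a`. -/
theorem Gr.CX (hd : 1 ≤ d) {m m' : ℕ} {F : PowerSeries ℤ} (hF : Gr p d m F) (c : ℤ) (a k : ℕ)
    (hc : (p : ℤ) ^ a ∣ c) (hk : k ≤ d * a) (hm : m' ≤ m + k) :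
    Gr p d m' (C c * (X ^ k * F)) := by
  intro n hn
  rw [PowerSeries.coeff_C_mul, PowerSeries.coeff_X_pow_mul']
  split_ifs with h
  · have h1 : (p : ℤ) ^ ((n + (d - 1)) / d) ∣
        (p : ℤ) ^ a * (p : ℤ) ^ ((n - k + (d - 1)) / d) := by
      rw [← pow_add]
      refine pow_dvd_pow _ ?_
      rw [Nat.div_le_iff_le_mul_add_pred (by omega)]
      have h2 := Nat.div_add_mod (n - k + (d - 1)) d
      have h3 := Nat.mod_lt (n - k + (d - 1)) (show d > 0 by omega)
      have h4 : d * (a + (n - k + (d - 1)) / d) = d * a + d * ((n - k + (d - 1)) / d) := by ring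
      omega
    exact h1.trans (mul_dvd_mul hc (hF _ (by omega)))
  · rw [mul_zero]
    exact dvd_zero _

/-- All coefficients. -/
def GrA (p d : ℕ) (F : PowerSeries ℤ) : Prop :=
  ∀ n, (p : ℤ) ^ ((n + (d - 1)) / d) ∣ PowerSeries.coeff n F

theorem grA_iff {F : PowerSeries ℤ} : GrA p d F ↔ ∀ m, Gr p d m F :=
  ⟨fun h _ n _ ↦ h n, fun h n ↦ h (n + 1) n (Nat.lt_succ_self n)⟩

/-- The growth of a solution of `F = L + T`: `T` gains at least one. -/
theorem grA_of_step {F : PowerSeries ℤ} (h : ∀ m, Gr p d m F → Gr p d (m + 1) F) :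
    GrA p d F := by
  rw [grA_iff]
  intro m
  induction m with
  | zero => intro n hn; omega
  | succ m ih => exact h m ih

end LN

end GH
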