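import Pool.Agent.GH.LN.EvN
import Pool.Agent.GH.DP.FamP

/-!
# Level `N`: transfer from level one along `f_1 = r(f)`
-/

open PowerSeries Filter Topology

noncomputable section

namespace GH

namespace LN

open GP DP

variable {p : ℕ} [Fact p.Prime] {N : ℕ}

/-- Composition of substitutions. -/
theorem cm_subst {K : Type*} [CommRing K] {r f u : PowerSeries K}
    (hr0 : PowerSeries.constantCoeff r = 0) (hf0 : PowerSeries.constantCoeff f = 0) :
    PowerSeries.subst (PowerSeries.subst f r) u =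
      PowerSeries.subst f (PowerSeries.subst r u) :=
  (subst_comp_subst_apply (HasSubst.of_constantCoeff_zero' hr0)
    (HasSubst.of_constantCoeff_zero' hf0) u).symm

/-- The decay of `E(q)/E(q^p)` in powers of the Hauptmodul of level `Np`. -/
theorem phiN_of (E : PowerSeries (PowerSeries ℤ_[p])) (hE : EisFamilyP E)
    {r : PowerSeries (PadicComplex p)} (hr0 : PowerSeries.constantCoeff r = 0)
    (hr : hauptmodul p (PadicComplex p) = r.subst (hauptN p N (PadicComplex p)))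
    {ρ R : ℝ} (hρ : 0 < ρ) (hR : 0 < R) (hrb : Bd ρ R r)
    {w : PadicComplex p} (hw : ‖w‖ < 1) (h : ∀ l, ‖evp w (PhiP E l)‖ * R ^ l ≤ 1) (l : ℕ) :
    ‖evp w (PhiN N E l)‖ * ρ ^ l ≤ 1 := by
  set G := evSp w E * ((evSp w E).expand p (Fact.out : p.Prime).ne_zero)⁻¹ with hG
  have h1 : (PowerSeries.mk fun l ↦ evp w (PhiP E l)) = PowerSeries.mk (fcoeff p G) := by
    ext l
    rw [coeff_mk, coeff_mk, dp_fm_ev_Phi hE hw]
  have h2 : (PowerSeries.mk fun l ↦ evp w (PhiP E l)).subst (hauptmodul p (PadicComplex p)) =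
      G := by
    rw [h1]
    exact GH.subst_fcoeff p G
  rw [hr, cm_subst hr0 (constantCoeff_hauptN p N)] at h2
  have h3 : evp w (PhiN N E l) =
      PowerSeries.coeff l ((PowerSeries.mk fun l ↦ evp w (PhiP E l)).subst r) := by
    rw [ln_fm_ev_Phi hE hw, ← hG, ← h2, fcoeff_subst]
  rw [h3]
  have hu : Bd R 1 (PowerSeries.mk fun l ↦ evp w (PhiP E l)) := fun n ↦ by
    rw [coeff_mk]
    exact h n
  exact Bd.comp hρ hR hu hrb hr0 l

/-- The glue: `E_{κ₀} = B_1 u(f_1)`, `B_1 = B Q(f)`. -/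
theorem glueN_of {E1 B1 B Q : PowerSeries (PadicComplex p)} {u : ℕ → PadicComplex p}
    {r : PowerSeries (PadicComplex p)} (hr0 : PowerSeries.constantCoeff r = 0)
    (hr : hauptmodul p (PadicComplex p) = r.subst (hauptN p N (PadicComplex p)))
    {ρ R : ℝ} (hρ : 0 < ρ) (hR : 0 < R) (hrb : Bd ρ R r)
    (hu0 : u 0 = 1) (hu : ∀ n, ‖u n‖ * R ^ n ≤ 1)
    (h1 : E1 = B1 * (PowerSeries.mk u).subst (hauptmodul p (PadicComplex p)))
    (h2 : B1 = B * Q.subst (hauptN p N (PadicComplex p))) (hQ : Bd ρ 1 Q)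
    (hQ0 : PowerSeries.constantCoeff Q = 1) :
    ∃ v : ℕ → PadicComplex p, v 0 = 1 ∧ (∀ n, ‖v n‖ * ρ ^ n ≤ 1) ∧
      E1 = B * (PowerSeries.mk v).subst (hauptN p N (PadicComplex p)) := by
  have hs : HasSubst (hauptN p N (PadicComplex p)) := fx_hasSubst p N
  have hub : Bd R 1 (PowerSeries.mk u) := fun n ↦ by
    rw [coeff_mk]
    exact hu n
  have hV : (PowerSeries.mk fun n ↦ PowerSeries.coeff n (Q * (PowerSeries.mk u).subst r)) =
      Q * (PowerSeries.mk u).subst r := by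
    ext n
    rw [coeff_mk]
  refine ⟨fun n ↦ PowerSeries.coeff n (Q * (PowerSeries.mk u).subst r), ?_, ?_, ?_⟩
  · show PowerSeries.coeff 0 (Q * (PowerSeries.mk u).subst r) = 1
    rw [PowerSeries.coeff_zero_eq_constantCoeff_apply, map_mul, hQ0, one_mul,
      ← PowerSeries.coeff_zero_eq_constantCoeff_apply, fa_coeff_subst hr0]
    simp [hu0]
  · have h3 : Bd ρ 1 (Q * (PowerSeries.mk u).subst r) :=
      hQ.mul1 hρ (Bd.comp hρ hR hub hrb hr0)
    exact h3
  · rw [hV, subst_mul hs, ← cm_subst hr0 (constantCoeff_hauptN p N), ← hr, h1, h2]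
    ring

end LN

end GH
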