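import Pool.Agent.GH.LN.FamN

/-!
# Level `N`: the matrix of `U_p`

If `f(q^p) S(f) = f^p`, `B = B(q^p) T(f)` and `p S R = p S - X S'` then the matrix of `U_p` in the
basis `B f^j` is `[h^{pi-j}] R S^i T`.
-/

open PowerSeries Filter Topology

noncomputable section

namespace GH

namespace LN

/-- `θF = q dF/dq`. -/
def thqN {R : Type*} [CommRing R] (F : PowerSeries R) : PowerSeries R :=
  PowerSeries.mk fun n ↦ (n : R) * PowerSeries.coeff n F

/-- `θf/f` for the series `f = hauptN p N`, computed as `θ(u)/u + 1` for `f = q u`. -/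
def dlogN (p N : ℕ) (R : Type*) [CommRing R] : PowerSeries R :=
  1 + thqN (fxU p N R) * invOfUnit (fxU p N R) 1

section lag

variable {K : Type*} [Field K] (p N : ℕ)

/-- `q/f`. -/
def lg_w (K : Type*) [Field K] : PowerSeries K := invOfUnit (fxU p N K) 1

theorem lg_wu : lg_w p N K * fxU p N K = 1 := by
  rw [mul_comm]
  exact mul_inv_of (fx_constantCoeff_U p N K)

theorem lg_fw : hauptN p N K * lg_w p N K = X := by
  have h := lg_wu p N (K := K)
  rw [fx_haupt]
  linear_combination X * h

theorem lg_dlog : dlogN p N K = 1 + thqN (fxU p N K) * lg_w p N K := rfl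

theorem lg_thq_eq (F : PowerSeries K) : thqN F = X * derivative K F := by
  ext n
  rcases n with _ | n
  · simp [thqN]
  · rw [thqN, coeff_mk, coeff_succ_X_mul, coeff_derivative]
    push_cast
    ring

theorem lg_thq_mul (F G : PowerSeries K) : thqN (F * G) = thqN F * G + F * thqN G := by
  rw [lg_thq_eq, lg_thq_eq, lg_thq_eq, Derivation.leibniz, smul_eq_mul, smul_eq_mul]
  ring

theorem lg_thq_one : thqN (1 : PowerSeries K) = 0 := by
  rw [lg_thq_eq, Derivation.map_one_eq_zero, mul_zero]

theorem lg_thq_w : thqN (lg_w p N K) * fxU p N K = -(lg_w p N K * thqN (fxU p N K)) := by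
  have h := congrArg thqN (lg_wu p N (K := K))
  rw [lg_thq_mul, lg_thq_one] at h
  linear_combination h

/-- `θf = f θf/f`. -/
theorem thq_hauptN : thqN (hauptN p N K) = hauptN p N K * dlogN p N K := by
  have h1 : thqN (X : PowerSeries K) = X := by
    rw [lg_thq_eq, derivative_X, mul_one]
  have h2 := lg_wu p N (K := K)
  rw [fx_haupt, lg_thq_mul, h1, lg_dlog]
  linear_combination (-(X * thqN (fxU p N K))) * h2

/-- `θ (w^m) = - m w^m (θ u) w`. -/
theorem lg_thq_pow (m : ℕ) : thqN (lg_w p N K ^ m) =
    -((m : PowerSeries K) * (lg_w p N K ^ m * (thqN (fxU p N K) * lg_w p N K))) := by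
  induction m with
  | zero => rw [pow_zero, lg_thq_one]; simp
  | succ m ih =>
      have h1 := lg_thq_w p N (K := K)
      have h2 := lg_wu p N (K := K)
      have h3 : thqN (lg_w p N K) = -(lg_w p N K * (thqN (fxU p N K) * lg_w p N K)) := by
        linear_combination lg_w p N K * h1 - thqN (lg_w p N K) * h2
      rw [pow_succ, lg_thq_mul, ih, h3]
      push_cast
      ring

variable [CharZero K]

theorem lg_coeff_pos {m : ℕ} (hm : m ≠ 0) :
    PowerSeries.coeff m (lg_w p N K ^ m * dlogN p N K) = 0 := by
  have h1 : (m : PowerSeries K) * (lg_w p N K ^ m * dlogN p N K) =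
      (m : PowerSeries K) * lg_w p N K ^ m - thqN (lg_w p N K ^ m) := by
    rw [lg_thq_pow, lg_dlog]
    ring
  have h2 := congrArg (PowerSeries.coeff m) h1
  have hc : (m : PowerSeries K) = C (m : K) := by
    rw [map_natCast]
  rw [hc, map_sub, coeff_C_mul, coeff_C_mul, thqN, coeff_mk, sub_self] at h2
  rcases mul_eq_zero.mp h2 with h3 | h3
  · exact absurd (Nat.cast_eq_zero.mp h3) hm
  · exact h3

omit [CharZero K] in
theorem constantCoeff_dlogN : PowerSeries.constantCoeff (dlogN p N K) = 1 := by
  rw [lg_dlog, map_add, map_mul, map_one, ← PowerSeries.coeff_zero_eq_constantCoeff_apply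
    (thqN _), thqN, coeff_mk, Nat.cast_zero, zero_mul, zero_mul, add_zero]

/-- The formula for a power of `f`. -/
theorem lg_coeff_pow (m n : ℕ) : PowerSeries.coeff n (hauptN p N K ^ m *
    (lg_w p N K ^ n * dlogN p N K)) = if n = m then 1 else 0 := by
  rcases lt_trichotomy n m with h | h | h
  · rw [if_neg (by omega), fx_haupt, mul_pow, mul_assoc, PowerSeries.coeff_X_pow_mul',
      if_neg (by omega)]
  · subst h
    have e : hauptN p N K ^ n * (lg_w p N K ^ n * dlogN p N K) = X ^ n * dlogN p N K := by
      rw [← mul_assoc, ← mul_pow, lg_fw]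
    rw [if_pos rfl, e, PowerSeries.coeff_X_pow_mul', if_pos le_rfl, Nat.sub_self,
      PowerSeries.coeff_zero_eq_constantCoeff_apply, constantCoeff_dlogN]
  · obtain ⟨k, rfl⟩ : ∃ k, n = m + k := ⟨n - m, by omega⟩
    have e : hauptN p N K ^ m * (lg_w p N K ^ (m + k) * dlogN p N K) =
        X ^ m * (lg_w p N K ^ k * dlogN p N K) := by
      rw [pow_add, ← lg_fw p N (K := K), mul_pow]
      ring
    rw [if_neg (by omega), e, PowerSeries.coeff_X_pow_mul', if_pos (by omega),
      Nat.add_sub_cancel_left]
    exact lg_coeff_pos p N (by omega)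

omit [CharZero K] in
theorem lg_subst_C (a : K) : (C a : PowerSeries K).subst (hauptN p N K) = C a :=
  PowerSeries.subst_C a

/-- Lagrange's formula: `[T^n] G = [q^n] G(f) (q/f)^n θf/f`. -/
theorem lagrangeN (G : PowerSeries K) (n : ℕ) : PowerSeries.coeff n G =
    PowerSeries.coeff n (G.subst (hauptN p N K) * lg_w p N K ^ n * dlogN p N K) := by
  have hs : HasSubst (hauptN p N K) := fx_hasSubst p N
  have h1 : ∀ k < n + 1, PowerSeries.coeff k (G -
      ∑ m ∈ Finset.range (n + 1), C (PowerSeries.coeff m G) * X ^ m) = 0 := by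
    intro k hk
    rw [map_sub, map_sum, Finset.sum_eq_single k]
    · rw [coeff_C_mul, coeff_X_pow_self, mul_one, sub_self]
    · intro m _ hm
      rw [coeff_C_mul, coeff_X_pow, if_neg (fun h ↦ hm h.symm), mul_zero]
    · intro h
      exact absurd (Finset.mem_range.mpr hk) h
  obtain ⟨H, hH⟩ := PowerSeries.X_pow_dvd_iff.mpr h1
  have h2 : G = ∑ m ∈ Finset.range (n + 1), C (PowerSeries.coeff m G) * X ^ m +
      X ^ (n + 1) * H := by
    rw [← hH]
    ring
  have h3 : G.subst (hauptN p N K) = ∑ m ∈ Finset.range (n + 1),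
      C (PowerSeries.coeff m G) * hauptN p N K ^ m +
      hauptN p N K ^ (n + 1) * H.subst (hauptN p N K) := by
    conv_lhs => rw [h2]
    rw [subst_add hs, subst_mul hs, subst_pow hs, subst_X hs]
    congr 1
    have e : ∀ F : PowerSeries K, F.subst (hauptN p N K) = substAlgHom hs F := fun F ↦ by
      rw [coe_substAlgHom hs]
    rw [e, map_sum]
    refine Finset.sum_congr rfl fun m _ ↦ ?_
    rw [← e, subst_mul hs, subst_pow hs, subst_X hs, lg_subst_C]
  rw [h3, mul_assoc, add_mul, map_add, Finset.sum_mul, map_sum]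
  have h4 : PowerSeries.coeff n (hauptN p N K ^ (n + 1) * H.subst (hauptN p N K) *
      (lg_w p N K ^ n * dlogN p N K)) = 0 := by
    rw [fx_haupt, mul_pow, mul_assoc, mul_assoc, PowerSeries.coeff_X_pow_mul', if_neg (by omega)]
  rw [h4, add_zero, Finset.sum_eq_single n]
  · rw [mul_assoc, coeff_C_mul, lg_coeff_pow, if_pos rfl, mul_one]
  · intro m _ hm
    rw [mul_assoc, coeff_C_mul, lg_coeff_pow, if_neg (fun h ↦ hm h.symm), mul_zero]
  · intro h
    exact absurd (Finset.mem_range.mpr (Nat.lt_succ_self n)) h

variable (hp : p ≠ 0)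

omit [CharZero K] in
/-- `q^p/f(q^p) = (q/f)^p S(f)`. -/
theorem lg_expand_w {S : PowerSeries K}
    (hS : (hauptN p N K).expand p hp * S.subst (hauptN p N K) = hauptN p N K ^ p) :
    (lg_w p N K).expand p hp = lg_w p N K ^ p * S.subst (hauptN p N K) := by
  have h1 := congrArg (PowerSeries.expand p hp) (lg_fw p N (K := K))
  rw [map_mul, expand_X] at h1
  have h3 := lg_fw p N (K := K)
  have h4 : (X : PowerSeries K) ^ p ≠ 0 := pow_ne_zero p X_ne_zero
  have h5 : (hauptN p N K) ^ p ≠ 0 := by
    intro h
    apply h4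
    rw [← h3, mul_pow, h, zero_mul]
  have h6 : hauptN p N K ^ p * (lg_w p N K).expand p hp =
      hauptN p N K ^ p * (lg_w p N K ^ p * S.subst (hauptN p N K)) := by
    have h7 : hauptN p N K ^ p * lg_w p N K ^ p = X ^ p := by rw [← mul_pow, h3]
    linear_combination (-((lg_w p N K).expand p hp)) * hS +
      S.subst (hauptN p N K) * h1 - S.subst (hauptN p N K) * h7
  exact mul_left_cancel₀ h5 h6

omit [CharZero K] in
theorem lg_thq_expand (F : PowerSeries K) :
    thqN (F.expand p hp) = (p : PowerSeries K) * (thqN F).expand p hp := by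
  have hc : (p : PowerSeries K) = C (p : K) := by rw [map_natCast]
  ext n
  rw [hc, coeff_C_mul, thqN, coeff_mk]
  by_cases h : p ∣ n
  · obtain ⟨m, rfl⟩ := h
    rw [coeff_expand_mul, coeff_expand_mul, thqN, coeff_mk]
    push_cast
    ring
  · rw [coeff_expand_of_not_dvd _ _ _ h, coeff_expand_of_not_dvd _ _ _ h, mul_zero, mul_zero]

omit [CharZero K] in
theorem lg_thq_pow_gen (F : PowerSeries K) (m : ℕ) :
    thqN (F ^ m) * F = (m : PowerSeries K) * (F ^ m * thqN F) := by
  induction m with
  | zero => rw [pow_zero, lg_thq_one]; simp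
  | succ m ih =>
    rw [pow_succ, lg_thq_mul]
    push_cast
    linear_combination F * ih

omit [CharZero K] in
/-- `θ(F(f)) = F'(f) θf`. -/
theorem lg_thq_subst (F : PowerSeries K) :
    thqN (F.subst (hauptN p N K)) = (derivative K F).subst (hauptN p N K) *
      thqN (hauptN p N K) := by
  rw [lg_thq_eq, derivative_subst (fx_hasSubst p N), lg_thq_eq]
  ring

/-- The logarithmic derivative at `q^p`. -/
theorem dlogN_expand {S R : PowerSeries K}
    (hS : (hauptN p N K).expand p hp * S.subst (hauptN p N K) = hauptN p N K ^ p)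
    (hR : (p : PowerSeries K) * (S * R) = (p : PowerSeries K) * S - X * derivative K S) :
    (dlogN p N K).expand p hp = dlogN p N K * R.subst (hauptN p N K) := by
  have hs : HasSubst (hauptN p N K) := fx_hasSubst p N
  set f := hauptN p N K with hf
  set d := dlogN p N K with hd
  have hf0 : f ≠ 0 := by
    intro h
    have h3 := lg_fw p N (K := K)
    rw [← hf, h, zero_mul] at h3
    exact X_ne_zero h3.symm
  have hpK : (p : PowerSeries K) ≠ 0 := by
    have hc : (p : PowerSeries K) = C (p : K) := by rw [map_natCast]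
    rw [hc]
    intro h
    have := congrArg (PowerSeries.coeff 0) h
    rw [coeff_zero_C, map_zero] at this
    exact hp (Nat.cast_eq_zero.1 this)
  have hfe : f.expand p hp ≠ 0 := by
    intro h
    have h2 : f ^ p = 0 := by rw [← hS, h, zero_mul]
    exact hf0 (pow_eq_zero_iff hp |>.1 h2)
  have hSf : S.subst f ≠ 0 := by
    intro h
    have h2 : f ^ p = 0 := by rw [← hS, h, mul_zero]
    exact hf0 (pow_eq_zero_iff hp |>.1 h2)
  have hthf : thqN f = f * d := thq_hauptN p N
  -- differentiate
  have h1 := congrArg thqN hS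
  rw [lg_thq_mul, lg_thq_expand, hthf, map_mul, lg_thq_subst, ← hf, hthf] at h1
  have h2 := lg_thq_pow_gen f p
  rw [hthf] at h2
  -- the equation for `R`
  have hco : ∀ F : PowerSeries K, F.subst f =
      ((substAlgHom hs : PowerSeries K →ₐ[K] PowerSeries K) :
        PowerSeries K →+* PowerSeries K) F := by
    intro F
    exact (congrFun (coe_substAlgHom hs) F).symm
  have h3 : (p : PowerSeries K) * (S.subst f * R.subst f) =
      (p : PowerSeries K) * S.subst f - f * (derivative K S).subst f := by
    have h4 := congrArg ((substAlgHom hs : PowerSeries K →ₐ[K] PowerSeries K) :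
        PowerSeries K →+* PowerSeries K) hR
    rw [map_mul, map_sub, map_mul, map_mul, map_mul, map_natCast] at h4
    rw [← hco, ← hco, ← hco, ← hco] at h4
    rw [subst_X hs] at h4
    exact h4
  -- conclusion
  have h5 : (p : PowerSeries K) * (f.expand p hp * S.subst f * f) * (d.expand p hp) =
      (p : PowerSeries K) * (f.expand p hp * S.subst f * f) * (d * R.subst f) := by
    linear_combination f * h1 + h2 - (p : PowerSeries K) * f * d * hS -
      f.expand p hp * f * d * h3
  exact mul_left_cancel₀ (mul_ne_zero hpK (mul_ne_zero (mul_ne_zero hfe hSf) hf0)) h5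

end lag

section mat

variable {p : ℕ} [Fact p.Prime] {N : ℕ} {K : Type*} [Field K] [CharZero K]

/-- `U_p (G(f)) = ∑ b_i f^i`, `b_i = [h^{pi}] R S^i G(h)`. -/
theorem U_substN {S R : PowerSeries K}
    (hS : (hauptN p N K).expand p (Fact.out : p.Prime).ne_zero *
      S.subst (hauptN p N K) = hauptN p N K ^ p)
    (hR : (p : PowerSeries K) * (S * R) = (p : PowerSeries K) * S - X * derivative K S)
    (G : PowerSeries K) :
    U p (G.subst (hauptN p N K)) =
      (PowerSeries.mk fun i ↦ PowerSeries.coeff (p * i) (R * S ^ i * G)).subst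
        (hauptN p N K) := by
  have hp : p ≠ 0 := (Fact.out : p.Prime).ne_zero
  have hs : HasSubst (hauptN p N K) := fx_hasSubst p N
  have hB : U p (G.subst (hauptN p N K)) =
      (PowerSeries.mk (fcoeffN p N (U p (G.subst (hauptN p N K))))).subst (hauptN p N K) :=
    (subst_fcoeff p N _).symm
  set B : PowerSeries K := PowerSeries.mk (fcoeffN p N (U p (G.subst (hauptN p N K)))) with hBd
  clear_value B
  rw [hB]
  congr 1
  ext i
  rw [coeff_mk, lagrangeN p N B i, ← hB]
  have h1 : U p (G.subst (hauptN p N K)) * lg_w p N K ^ i * dlogN p N K =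
      U p ((lg_w p N K ^ i * dlogN p N K).expand p hp * G.subst (hauptN p N K)) := by
    rw [ln_fm_U_expand_mul]
    ring
  have hd := dlogN_expand p N hp hS hR
  have h2 : (lg_w p N K ^ i * dlogN p N K).expand p hp * G.subst (hauptN p N K) =
      (R * S ^ i * G).subst (hauptN p N K) * lg_w p N K ^ (p * i) * dlogN p N K := by
    rw [map_mul, map_pow, lg_expand_w p N hp hS, hd, subst_mul hs _ G, subst_mul hs _ (S ^ i),
      subst_pow hs S i, mul_pow, ← pow_mul]
    ring
  rw [h1, h2, U, coeff_mk]
  exact (lagrangeN p N _ (p * i)).symm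

/-- **The action of `U_p`** on `B u(f)`. -/
theorem U_mul_substN {S R T B : PowerSeries K}
    (hS : (hauptN p N K).expand p (Fact.out : p.Prime).ne_zero *
      S.subst (hauptN p N K) = hauptN p N K ^ p)
    (hR : (p : PowerSeries K) * (S * R) = (p : PowerSeries K) * S - X * derivative K S)
    (hT : B = B.expand p (Fact.out : p.Prime).ne_zero * T.subst (hauptN p N K))
    (u : PowerSeries K) :
    U p (B * u.subst (hauptN p N K)) = B * (PowerSeries.mk fun i ↦
        ∑ j ∈ Finset.range (p * i + 1), PowerSeries.coeff (p * i - j) (R * S ^ i * T) *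
          PowerSeries.coeff j u).subst (hauptN p N K) := by
  have hs : HasSubst (hauptN p N K) := fx_hasSubst p N
  have h1 : B * u.subst (hauptN p N K) =
      B.expand p (Fact.out : p.Prime).ne_zero * (T * u).subst (hauptN p N K) := by
    rw [subst_mul hs]
    linear_combination u.subst (hauptN p N K) * hT
  rw [h1, ln_fm_U_expand_mul, U_substN hS hR]
  congr 2
  ext i
  rw [coeff_mk, coeff_mk, ← mul_assoc, mul_comm (R * S ^ i * T) u, coeff_mul,
    Finset.Nat.sum_antidiagonal_eq_sum_range_succ
      (fun a b ↦ PowerSeries.coeff a u * PowerSeries.coeff b (R * S ^ i * T))]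
  refine Finset.sum_congr rfl fun j hj ↦ ?_
  rw [mul_comm]

/-- **The matrix of `U_p`.** -/
theorem isUMatN_gen {S R T B : PowerSeries (PadicComplex p)}
    (hS : (hauptN p N (PadicComplex p)).expand p (Fact.out : p.Prime).ne_zero *
      S.subst (hauptN p N (PadicComplex p)) = hauptN p N (PadicComplex p) ^ p)
    (hR : (p : PowerSeries (PadicComplex p)) * (S * R) =
      (p : PowerSeries (PadicComplex p)) * S - X * derivative (PadicComplex p) S)
    (hB : PowerSeries.constantCoeff B = 1)
    (hT : B = B.expand p (Fact.out : p.Prime).ne_zero * T.subst (hauptN p N (PadicComplex p)))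
    (M : ℕ → ℕ → PadicComplex p)
    (hM : ∀ i j, M i j = if j ≤ p * i then PowerSeries.coeff (p * i - j) (R * S ^ i * T) else 0) :
    IsUMatN N B M := by
  refine ⟨hB, fun i j h ↦ by rw [hM, if_neg (by omega)], fun u _ ↦ ?_⟩
  rw [U_mul_substN hS hR hT]
  congr 2
  ext i
  rw [coeff_mk, coeff_mk]
  refine Finset.sum_congr rfl fun j hj ↦ ?_
  rw [hM, if_pos (by rw [Finset.mem_range] at hj; omega)]

end mat

section poly

variable {K : Type*} [Field K]

/-- The logarithmic derivative of `S` from its equation `S P(g) = P~(X)`, `g = X^p/S`. -/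
theorem polyR (p : ℕ) (P Pt : Polynomial K) {S g : PowerSeries K} (hg : g * S = X ^ p)
    (hP : S * Polynomial.aeval g P = (Pt : PowerSeries K)) :
    ((p : PowerSeries K) * S - X * derivative K S) *
      Polynomial.aeval g (P - Polynomial.X * Polynomial.derivative P) =
      (p : PowerSeries K) * (Pt : PowerSeries K) -
        X * ((Polynomial.derivative Pt : Polynomial K) : PowerSeries K) := by
  have h1 := congrArg (derivative K) hg
  have h2 := congrArg (derivative K) hP
  rw [Derivation.leibniz, smul_eq_mul, smul_eq_mul] at h1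
  rw [Derivation.leibniz, smul_eq_mul, smul_eq_mul, Derivation.map_aeval, smul_eq_mul] at h2
  have h3 : X * derivative K ((X : PowerSeries K) ^ p) = (p : PowerSeries K) * X ^ p := by
    rw [Derivation.leibniz_pow, derivative_X]
    rcases Nat.eq_zero_or_pos p with rfl | hp
    · simp
    · rw [smul_eq_mul, mul_one, nsmul_eq_mul]
      have : (X : PowerSeries K) ^ p = X ^ (p - 1) * X := by
        rw [← pow_succ, Nat.sub_add_cancel hp]
      rw [this]
      ring
  have h4 : derivative K ((Pt : Polynomial K) : PowerSeries K) =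
      ((Polynomial.derivative Pt : Polynomial K) : PowerSeries K) := derivative_coe _
  rw [h4] at h2
  have e : Polynomial.aeval g (P - Polynomial.X * Polynomial.derivative P) =
      Polynomial.aeval g P - g * Polynomial.aeval g (Polynomial.derivative P) := by
    rw [map_sub, map_mul, Polynomial.aeval_X]
  rw [e]
  linear_combination (Polynomial.aeval g (Polynomial.derivative P)) * h3 +
    (X * Polynomial.aeval g (Polynomial.derivative P)) * h1 -
    (p : PowerSeries K) * (Polynomial.aeval g (Polynomial.derivative P)) * hg - X * h2 +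
    (p : PowerSeries K) * hP

end poly

end LN

end GH
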