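import Pool.Agent.GH.LN.CDef
import Pool.Agent.GH.NP

/-!
# Level `N`: Newton polygons and the factor `1 - t`
-/

open PowerSeries Filter Topology

noncomputable section

namespace GH

namespace LN

/-- sequences with the same Newton polygon have the same minorants -/
theorem lc2_minorant {K K' : Type*} [NormedField K] [NormedField K'] {p : ℕ} {a : ℕ → K}
    {b : ℕ → K'} (h : newtonPolygon p a = newtonPolygon p b) {α β : ℝ}
    (ha : IsMinorant p a α β) : IsMinorant p b α β := by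
  intro i hi
  have h1 : ((α * i + β : ℝ) : EReal) ≤ newtonPolygon p a i := by
    unfold newtonPolygon
    exact le_iSup_of_le α (le_iSup_of_le β (le_iSup_of_le ha le_rfl))
  have h2 : newtonPolygon p b i ≤ ((- Real.logb p ‖b i‖ : ℝ) : EReal) := by
    unfold newtonPolygon
    refine iSup_le fun α' => iSup_le fun β' => iSup_le fun h' => ?_
    exact EReal.coe_le_coe_iff.2 (h' i hi)
  rw [h] at h1
  exact EReal.coe_le_coe_iff.1 (h1.trans h2)

section

variable {K : Type*} [NormedField K]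

/-- lines of slope at most `0` -/
theorem lc2_flat {a : ℕ → K} (h0 : a 0 = 1) (h1 : ∀ n, ‖a n‖ ≤ 1) {A r : ℝ} (hr : 1 ≤ r) :
    (∀ i, ‖a i‖ ≤ A * r ^ i) ↔ 1 ≤ A := by
  constructor
  · intro h
    have h2 := h 0
    rwa [h0, norm_one, pow_zero, mul_one] at h2
  · intro hA i
    refine (h1 i).trans ?_
    have h2 : 1 ≤ r ^ i := one_le_pow₀ hr
    nlinarith

theorem lc2_sub [IsUltrametricDist K] (x y : K) : ‖x - y‖ ≤ max ‖x‖ ‖y‖ := by
  have h := IsUltrametricDist.norm_add_le_max x (-y)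
  rwa [norm_neg, ← sub_eq_add_neg] at h

/-- lines of positive slope, the factor `1 - t` -/
theorem lc2_pos [IsUltrametricDist K] {a a' : ℕ → K} (ha0 : a 0 = 1) (ha'0 : a' 0 = 1)
    (ha : ∀ n, a (n + 1) = a' (n + 1) - a' n) (ha't : Tendsto (fun n ↦ ‖a' n‖) atTop (𝓝 0))
    {A r : ℝ} (hA : 0 < A) (hr0 : 0 < r) (hr : r < 1) :
    (∀ i, ‖a' i‖ ≤ A * r ^ i) ↔ ∀ i, ‖a i‖ ≤ A * r⁻¹ * r ^ i := by
  have e : ∀ k : ℕ, A * r⁻¹ * r ^ (k + 1) = A * r ^ k := by
    intro k
    rw [pow_succ]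
    field_simp
  constructor
  · intro h i
    rcases i with _ | k
    · have h1 := h 0
      rw [ha'0, norm_one, pow_zero, mul_one] at h1
      rw [ha0, norm_one, pow_zero, mul_one]
      have h2 : 1 ≤ r⁻¹ := (one_le_inv₀ hr0).2 hr.le
      nlinarith
    · rw [ha, e]
      refine (lc2_sub _ _).trans (max_le ?_ (h k))
      refine (h (k + 1)).trans (mul_le_mul_of_nonneg_left ?_ hA.le)
      exact pow_le_pow_of_le_one hr0.le hr.le (Nat.le_succ k)
  · intro h n
    have key : ∀ m : ℕ, ‖a' n‖ ≤ max ‖a' (n + m)‖ (A * r ^ n) := by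
      intro m
      induction m with
      | zero => exact le_max_left _ _
      | succ m ih =>
        have h1 : a' (n + m) = a' (n + m + 1) - a (n + m + 1) := by
          rw [ha]
          ring
        have h2 : ‖a' (n + m)‖ ≤ max ‖a' (n + m + 1)‖ ‖a (n + m + 1)‖ := by
          conv_lhs => rw [h1]
          exact lc2_sub _ _
        have h3 : ‖a (n + m + 1)‖ ≤ A * r ^ n := by
          refine (h (n + m + 1)).trans ?_
          rw [e]
          exact mul_le_mul_of_nonneg_left (pow_le_pow_of_le_one hr0.le hr.le (by omega)) hA.le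
        refine ih.trans (max_le ?_ (le_max_right _ _))
        exact h2.trans (max_le_max (le_refl _) h3)
    have hpos : 0 < A * r ^ n := mul_pos hA (pow_pos hr0 _)
    have h1 : ∀ᶠ m in atTop, ‖a' m‖ < A * r ^ n := ha't.eventually (gt_mem_nhds hpos)
    obtain ⟨M, hM⟩ := eventually_atTop.1 h1
    have h2 := key M
    rwa [max_eq_right (hM (n + M) (Nat.le_add_left M n)).le] at h2

/-- lines of positive slope, the shift -/
theorem lc2_shf {b : ℕ → K} (hb0 : b 0 = 1) {A r : ℝ} (hr0 : 0 < r) (hr : r < 1) :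
    (∀ i, ‖b i‖ ≤ A * r ^ i) ↔ ∀ i, ‖shf b i‖ ≤ A * r⁻¹ * r ^ i := by
  have e : ∀ k : ℕ, A * r⁻¹ * r ^ (k + 1) = A * r ^ k := by
    intro k
    rw [pow_succ]
    field_simp
  have es : ∀ k : ℕ, shf b (k + 1) = b k := by
    intro k
    unfold shf
    rw [if_neg (by omega), Nat.add_sub_cancel]
  constructor
  · intro h i
    rcases i with _ | k
    · have h1 := h 0
      rw [hb0, norm_one, pow_zero, mul_one] at h1
      have h3 : shf b 0 = 1 := by
        unfold shf
        rw [if_pos (by omega)]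
      rw [h3, norm_one, pow_zero, mul_one]
      have h2 : 1 ≤ r⁻¹ := (one_le_inv₀ hr0).2 hr.le
      nlinarith
    · rw [es, e]
      exact h k
  · intro h i
    have h1 := h (i + 1)
    rwa [es, e] at h1

end

/-- Newton polygons and the factor `1 - t` -/
theorem np_shift {K : Type*} [NormedField K] [IsUltrametricDist K] {p : ℕ} (hp : 1 < p)
    {a a' b : ℕ → K} (ha0 : a 0 = 1) (ha'0 : a' 0 = 1) (ha : ∀ n, a (n + 1) = a' (n + 1) - a' n)
    (ha'1 : ∀ n, ‖a' n‖ ≤ 1) (ha't : Tendsto (fun n ↦ ‖a' n‖) atTop (𝓝 0))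
    (hb0 : b 0 = 1) (hb1 : ∀ n, ‖b n‖ ≤ 1)
    (h : newtonPolygon p a = newtonPolygon p (shf b)) :
    newtonPolygon p a' = newtonPolygon p b := by
  have hp1 : (1 : ℝ) < p := by exact_mod_cast hp
  have hp0 : (0 : ℝ) < p := zero_lt_one.trans hp1
  refine newtonPolygon_congr fun α β => ?_
  have hA0 : 0 < (p : ℝ) ^ (-β) := Real.rpow_pos_of_pos hp0 _
  have hr0 : 0 < (p : ℝ) ^ (-α) := Real.rpow_pos_of_pos hp0 _
  rcases le_or_gt α 0 with hα | hα
  · have hr : 1 ≤ (p : ℝ) ^ (-α) := Real.one_le_rpow hp1.le (by linarith)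
    rw [isMinorant_iff hp, isMinorant_iff hp, lc2_flat ha'0 ha'1 hr, lc2_flat hb0 hb1 hr]
  · have hr : (p : ℝ) ^ (-α) < 1 := Real.rpow_lt_one_of_one_lt_of_neg hp1 (by linarith)
    have hAr : (p : ℝ) ^ (-β) * ((p : ℝ) ^ (-α))⁻¹ = (p : ℝ) ^ (-(β - α)) := by
      rw [← Real.rpow_neg hp0.le, ← Real.rpow_add hp0]
      congr 1
      ring
    have h1 : IsMinorant p a' α β ↔ IsMinorant p a α (β - α) := by
      rw [isMinorant_iff hp, isMinorant_iff hp, lc2_pos ha0 ha'0 ha ha't hA0 hr0 hr, hAr]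
    have h2 : IsMinorant p b α β ↔ IsMinorant p (shf b) α (β - α) := by
      rw [isMinorant_iff hp, isMinorant_iff hp, lc2_shf hb0 hr0 hr, hAr]
    rw [h1, h2]
    exact ⟨fun h3 => lc2_minorant h h3, fun h3 => lc2_minorant h.symm h3⟩

end LN

end GH
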