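import Pool.Agent.GH.LN.ConvDet
import Pool.Agent.GH.LN.ConvNP
import Pool.Agent.GH.LN.MtN

/-!
# Level `N`: splitting off the cusps
-/

open PowerSeries Filter Topology

noncomputable section

namespace GH

namespace LN

section conv

variable {K : Type*} [NontriviallyNormedField K] [IsUltrametricDist K] [CompleteSpace K] [CharZero K]
  {p : ℕ} {ρ c : ℝ} {S g : PowerSeries K}

theorem cv_fred_zero (hp : 2 ≤ p) {M : ℕ → ℕ → K} (hρ : 1 < ρ)
    (h0 : ∀ i j, p * i < j → M i j = 0)
    (hd : ∀ i j, j ≤ p * i → ‖M i j‖ ≤ c * ρ⁻¹ ^ (p * i - j)) : fred M 0 = 1 := by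
  have h := D3.d3_decay p M h0 ρ c hρ hd
  rw [D3.DecayP.fred_eq hp h]
  exact fredCoeff_zero _

theorem cv_fred_tendsto (hp : 2 ≤ p) {M : ℕ → ℕ → K} (hρ : 1 < ρ)
    (h0 : ∀ i j, p * i < j → M i j = 0)
    (hd : ∀ i j, j ≤ p * i → ‖M i j‖ ≤ c * ρ⁻¹ ^ (p * i - j)) :
    Tendsto (fun n ↦ ‖fred M n‖) atTop (𝓝 0) := by
  have h := D3.d3_decay p M h0 ρ c hρ hd
  have h1 := fredCoeff_entire (D3.DecayP.cpt hp h) 1
  refine h1.congr fun n ↦ ?_
  rw [one_pow, mul_one, D3.DecayP.fred_eq hp h]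

theorem cv_fred_le_one (hp : 2 ≤ p) {M : ℕ → ℕ → K} (hρ : 1 < ρ)
    (h0 : ∀ i j, p * i < j → M i j = 0)
    (hd : ∀ i j, j ≤ p * i → ‖M i j‖ ≤ c * ρ⁻¹ ^ (p * i - j))
    (h1 : ∀ i j, ‖M i j‖ ≤ 1) (n : ℕ) : ‖fred M n‖ ≤ 1 := by
  have h := D3.d3_decay p M h0 ρ c hρ hd
  refine le_of_tendsto (D3.DecayP.tendsto hp h n).norm (Filter.Eventually.of_forall fun m ↦ ?_)
  rw [fredBlock_eq, ← fr_charpolyRev, fr_norm_neg_one_pow_mul]
  refine IsUltrametricDist.norm_sum_le_of_forall_le_of_nonneg zero_le_one fun T _ ↦ ?_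
  have h2 := ud_det_le (Matrix.of fun i j : T => sh M i j) (fun _ : T => (1 : ℝ))
    (fun _ => one_pos) (fun _ : T => (1 : ℝ)) (fun i j => by
      rw [one_mul, one_mul]
      exact h1 _ _)
  rw [Finset.prod_const_one] at h2
  exact h2

/-- **One cusp.** -/
theorem np_cusp (hp : 2 ≤ p) (hρ : 1 < ρ) (hg : g * S = X ^ p)
    (hg0 : PowerSeries.constantCoeff g = 0) (hS0 : PowerSeries.constantCoeff S = 1)
    {M M' : ℕ → ℕ → K} {P P' : PowerSeries K} (hM : M = mt p S P) (hM' : M' = mt p S P')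
    (hS : Bd ρ 1 S) (hP : Bd ρ c P) (hP' : Bd ρ c P') (hP1 : Bd 1 1 P) (hP1' : Bd 1 1 P')
    {a : K} (ha : a * a = 1) (h1 : P * (1 - C a * X) = (1 - C a * g) * P')
    (hev : Tendsto (fun n ↦ ∑ i ∈ Finset.range (n + 1), a ^ i * M i 1) atTop (𝓝 a))
    {b : ℕ → K} (hb0 : b 0 = 1) (hb1 : ∀ n, ‖b n‖ ≤ 1)
    (h : newtonPolygon p (fred M) = newtonPolygon p (shf b)) :
    newtonPolygon p (fred M') = newtonPolygon p b := by
  have hρ0 : 0 < ρ := zero_lt_one.trans hρ
  have hS1 : Bd 1 1 S := hS.mono_r zero_le_one hρ.le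
  have z : ∀ i j, p * i < j → M i j = 0 := fun i j hij ↦ by rw [hM, mt_zero i j hij]
  have z' : ∀ i j, p * i < j → M' i j = 0 := fun i j hij ↦ by rw [hM', mt_zero i j hij]
  have d : ∀ i j, j ≤ p * i → ‖M i j‖ ≤ c * ρ⁻¹ ^ (p * i - j) := fun i j hij ↦ by
    rw [hM]
    exact mt_dec hρ0 hS hP i j hij
  have d' : ∀ i j, j ≤ p * i → ‖M' i j‖ ≤ c * ρ⁻¹ ^ (p * i - j) := fun i j hij ↦ by
    rw [hM']
    exact mt_dec hρ0 hS hP' i j hij
  have o : ∀ i j, ‖M i j‖ ≤ 1 := fun i j ↦ by
    rw [hM]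
    exact mt_le_one hS1 hP1 i j
  have o' : ∀ i j, ‖M' i j‖ ≤ 1 := fun i j ↦ by
    rw [hM']
    exact mt_le_one hS1 hP1' i j
  refine np_shift (by omega) (a := fred M) (cv_fred_zero hp hρ z d) (cv_fred_zero hp hρ z' d')
    (fun n ↦ fred_cusp hp M M' a ha ρ c hρ z z' d d' (fun i j _ ↦ o i j) (fun i j _ ↦ o' i j)
      ?_ hev n) (cv_fred_le_one hp hρ z' d' o') (cv_fred_tendsto hp hρ z' d') hb0 hb1 h
  intro i j hi hj
  rw [hM, hM']
  exact mt_rel hg a h1 i j hi hj

end conv

section toep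

variable {K : Type*} [NontriviallyNormedField K] [IsUltrametricDist K] [CompleteSpace K]
  {p : ℕ} {ρ c : ℝ} {S g : PowerSeries K}

/-- Change of the frame by an invertible function `w(f)`. -/
theorem fred_toep (hp : 2 ≤ p) (hρ : 1 < ρ) (hg : g * S = X ^ p)
    (hg0 : PowerSeries.constantCoeff g = 0) {P P' w : PowerSeries K}
    (hS : Bd ρ 1 S) (hP : Bd ρ c P) (hP' : Bd ρ c P') (hw : Bd ρ 1 w)
    (hw0 : PowerSeries.constantCoeff w = 1) (h : P * w = w.subst g * P') (m : ℕ) :
    fred (mt p S P) m = fred (mt p S P') m := by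
  have hρ0 : 0 < ρ := zero_lt_one.trans hρ
  have hs : HasSubst g := HasSubst.of_constantCoeff_zero' hg0
  refine D3.fred_eq_of_toeplitz_p p hp _ _ (fun n ↦ PowerSeries.coeff n w) ρ c hρ
    (fun i j hij ↦ mt_zero i j hij) (fun i j hij ↦ mt_zero i j hij) (mt_dec hρ0 hS hP)
    (mt_dec hρ0 hS hP') (by rw [PowerSeries.coeff_zero_eq_constantCoeff_apply, hw0]) hw ?_ m
  intro i j hi hj
  -- truncate `w`
  have h1 : ∀ k < i + 1, PowerSeries.coeff k (w -
      ∑ m ∈ Finset.range (i + 1), C (PowerSeries.coeff m w) * X ^ m) = 0 := by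
    intro k hk
    rw [map_sub, map_sum, Finset.sum_eq_single k]
    · rw [coeff_C_mul, coeff_X_pow_self, mul_one, sub_self]
    · intro m _ hm
      rw [coeff_C_mul, coeff_X_pow, if_neg (fun h ↦ hm h.symm), mul_zero]
    · intro h
      exact absurd (Finset.mem_range.mpr hk) h
  obtain ⟨v, hv⟩ := PowerSeries.X_pow_dvd_iff.mpr h1
  have h2 : w = ∑ m ∈ Finset.range (i + 1), C (PowerSeries.coeff m w) * X ^ m +
      X ^ (i + 1) * v := by
    rw [← hv]
    ring
  have h3 : w.subst g = ∑ m ∈ Finset.range (i + 1), C (PowerSeries.coeff m w) * g ^ m +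
      g ^ (i + 1) * v.subst g := by
    conv_lhs => rw [h2]
    have e : ∀ F : PowerSeries K, F.subst g = substAlgHom hs F := fun F ↦ by
      rw [coe_substAlgHom hs]
    rw [e, map_add, map_sum, map_mul, map_pow, substAlgHom_X, ← e]
    congr 1
    refine Finset.sum_congr rfl fun m _ ↦ ?_
    rw [map_mul, map_pow, substAlgHom_X]
    congr 1
    rw [← e]
    exact PowerSeries.subst_C _
  have h4 : P * S ^ i * w = ∑ m ∈ Finset.range (i + 1),
      C (PowerSeries.coeff m w) * (X ^ (p * m) * (P' * S ^ (i - m))) +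
        X ^ (p * i) * (g * v.subst g * P') := by
    have e1 : P * S ^ i * w = S ^ i * (w.subst g * P') := by
      linear_combination S ^ i * h
    rw [e1, h3, add_mul, mul_add, Finset.sum_mul, Finset.mul_sum]
    congr 1
    · refine Finset.sum_congr rfl fun m hm ↦ ?_
      rw [Finset.mem_range] at hm
      have e2 : S ^ i = S ^ m * S ^ (i - m) := by rw [← pow_add]; congr 1; omega
      have e3 : X ^ (p * m) = g ^ m * S ^ m := by rw [← mul_pow, hg, ← pow_mul]
      rw [e2, e3]
      ring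
    · have e3 : X ^ (p * i) = g ^ i * S ^ i := by rw [← mul_pow, hg, ← pow_mul]
      rw [e3, pow_succ]
      ring
  by_cases hji : j ≤ p * i
  · have h5 := congrArg (PowerSeries.coeff (p * i - j)) h4
    have h6 : PowerSeries.coeff (p * i - j) (X ^ (p * i) * (g * v.subst g * P')) = 0 := by
      rw [coeff_X_pow_mul', if_neg (by omega)]
    rw [map_add, h6, add_zero, map_sum, coeff_mul,
      Finset.Nat.sum_antidiagonal_eq_sum_range_succ
        (fun a b ↦ PowerSeries.coeff a (P * S ^ i) * PowerSeries.coeff b w)] at h5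
    -- left side
    have hL : ∑ k ∈ Finset.range (p * i + 1),
        (if j ≤ k then mt p S P i k * PowerSeries.coeff (k - j) w else 0) =
        ∑ k ∈ Finset.range (p * i - j + 1),
          PowerSeries.coeff k (P * S ^ i) * PowerSeries.coeff (p * i - j - k) w := by
      rw [← Finset.sum_filter]
      refine Finset.sum_bij' (fun k _ ↦ p * i - k) (fun k _ ↦ p * i - k) ?_ ?_ ?_ ?_ ?_
      · intro k hk
        rw [Finset.mem_filter, Finset.mem_range] at hk
        rw [Finset.mem_range]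
        omega
      · intro k hk
        rw [Finset.mem_range] at hk
        rw [Finset.mem_filter, Finset.mem_range]
        omega
      · intro k hk
        rw [Finset.mem_filter, Finset.mem_range] at hk
        omega
      · intro k hk
        rw [Finset.mem_range] at hk
        omega
      · intro k hk
        rw [Finset.mem_filter, Finset.mem_range] at hk
        unfold mt
        have e7 : p * i - j - (p * i - k) = k - j := by omega
        rw [if_pos (by omega), e7]
    rw [hL, h5]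
    -- right side
    symm
    rw [← Finset.sum_range_reflect]
    refine Finset.sum_congr rfl fun m hm ↦ ?_
    rw [Finset.mem_range] at hm
    have e4 : i + 1 - 1 - m = i - m := by omega
    have e5 : i - (i - m) = m := by omega
    rw [e4, e5, coeff_C_mul, coeff_X_pow_mul']
    congr 1
    unfold mt
    have e6 : p * i = p * (i - m) + p * m := by rw [← mul_add]; congr 1; omega
    by_cases hjm : j ≤ p * (i - m)
    · rw [if_pos hjm, if_pos (by omega)]
      congr 2
      omega
    · by_cases h7 : p * m ≤ p * i - j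
      · exfalso
        omega
      · rw [if_neg hjm, if_neg h7]
  · rw [Finset.sum_eq_zero, Finset.sum_eq_zero]
    · intro k hk
      rw [Finset.mem_range] at hk
      have : p * k ≤ p * i := Nat.mul_le_mul_left p (by omega)
      rw [mt_zero k j (by omega), mul_zero]
    · intro k hk
      rw [Finset.mem_range] at hk
      rw [if_neg (by omega)]

end toep

end LN

end GH
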