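import Pool.Agent.GH.LN.MtN

/-!
# Level `N`: evaluation at a cusp, general frames; powers of `S`
-/

open PowerSeries Filter Topology

noncomputable section

namespace GH

namespace LN

section evg

variable {K : Type*} [NormedField K] [IsUltrametricDist K] {p : ℕ} {ρ c : ℝ}
  {S g : PowerSeries K}

/-- The eigenvalue at the cusp `f = a` for the frame with the series `P T`, if it is `1` for `P`. -/
theorem ev_cusp_gen (hp : p ≠ 0) (hρ : 1 < ρ) (hg : g * S = X ^ p)
    (hg0 : PowerSeries.constantCoeff g = 0)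
    {P P1 T T1 : PowerSeries K}
    (hS : Bd ρ 1 S) (hP1 : Bd ρ c P1) {d : ℝ} (hT1 : Bd ρ d T1) {a : K} (ha : a * a = 1)
    (h1 : P * (1 - C a * X) = (1 - C a * g) * P1) (h2 : T = 1 + (1 - C a * X) * T1)
    (hL : Tendsto (fun n ↦ ∑ i ∈ Finset.range (n + 1),
      a ^ i * PowerSeries.coeff (p * i) (P * S ^ i)) atTop (𝓝 1)) :
    Tendsto (fun n ↦ ∑ i ∈ Finset.range (n + 1), a ^ i * mt p S (P * T) i 1) atTop (𝓝 a) := by
  have hρ0 : 0 < ρ := zero_lt_one.trans hρ
  have hna : ‖a‖ = 1 := by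
    have h := congrArg norm ha
    rw [norm_mul, norm_one] at h
    nlinarith [norm_nonneg a]
  have hca : (C a : PowerSeries K) * C a = 1 := by rw [← map_mul, ha, map_one]
  -- `X T = a + (1 - a X) G`
  obtain ⟨G, hG⟩ : ∃ G : PowerSeries K, G = X * T1 - C a := ⟨_, rfl⟩
  have hXT : X * T = C a + (1 - C a * X) * G := by
    rw [h2, hG]
    linear_combination (-(X : PowerSeries K)) * hca
  have hGb : Bd ρ (max (ρ * d) 1) G := by
    rw [hG]
    refine Bd.sub hρ0.le ?_ (Bd.of_C (hna.le.trans (le_max_right _ _)))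
    exact ((Bd.X_le hρ0.le le_rfl).mul hρ0 hT1).mono_c (le_max_left _ _)
  have hterm : ∀ i : ℕ, a ^ i * mt p S (P * T) i 1 =
      a * (a ^ i * PowerSeries.coeff (p * i) (P * S ^ i)) +
        a ^ i * PowerSeries.coeff (p * i) ((1 - C a * g) * (G * P1) * S ^ i) := by
    intro i
    have e1 : (1 - C a * g) * (G * P1) * S ^ i = (1 - C a * X) * G * P * S ^ i := by
      linear_combination (-(G * S ^ i)) * h1
    have e2 : X * (P * T * S ^ i) = C a * (P * S ^ i) + (1 - C a * X) * G * P * S ^ i := by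
      linear_combination P * S ^ i * hXT
    have e3 : mt p S (P * T) i 1 = PowerSeries.coeff (p * i) (X * (P * T * S ^ i)) := by
      unfold mt
      split_ifs with h
      · obtain ⟨k, hk⟩ : ∃ k, p * i = k + 1 := ⟨p * i - 1, by omega⟩
        rw [hk, coeff_succ_X_mul, Nat.add_sub_cancel]
      · have : p * i = 0 := by omega
        rw [this, coeff_zero_X_mul]
    rw [e3, e2, e1, map_add, coeff_C_mul]
    ring
  have hfun : (fun n ↦ ∑ i ∈ Finset.range (n + 1), a ^ i * mt p S (P * T) i 1) =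
      fun n ↦ a * (∑ i ∈ Finset.range (n + 1), a ^ i * PowerSeries.coeff (p * i) (P * S ^ i)) +
        a ^ n * PowerSeries.coeff (p * n) (G * P1 * S ^ n) := by
    funext n
    rw [Finset.sum_congr rfl fun i _ ↦ hterm i, Finset.sum_add_distrib,
      ev_tel hg hg0 ha (G * P1) n, ← Finset.mul_sum]
  rw [hfun]
  have h3 := tendsto_coeff_pow (p := p) (Nat.one_le_iff_ne_zero.2 hp) hρ hS
    (hGb.mul hρ0 hP1) hna
  have h4 := (hL.const_mul a).add h3
  simpa using h4

/-- The same functional on a general series: if `∑ a^i [h^{pi}] P v S^i = v(a)`, `v(a) ≠ 0`, then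
`∑ a^i [h^{pi}] P S^i = 1`. -/
theorem ev_one_of (hp : p ≠ 0) (hρ : 1 < ρ) (hg : g * S = X ^ p)
    (hg0 : PowerSeries.constantCoeff g = 0)
    {P P1 v v1 : PowerSeries K} {va : K}
    (hS : Bd ρ 1 S) (hP1 : Bd ρ c P1) {d : ℝ} (hv1 : Bd ρ d v1) {a : K} (ha : a * a = 1)
    (h1 : P * (1 - C a * X) = (1 - C a * g) * P1)
    (hv : v = C va + (1 - C a * X) * v1) (hva : va ≠ 0)
    (hL : Tendsto (fun n ↦ ∑ i ∈ Finset.range (n + 1),
      a ^ i * PowerSeries.coeff (p * i) (P * v * S ^ i)) atTop (𝓝 va)) :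
    Tendsto (fun n ↦ ∑ i ∈ Finset.range (n + 1),
      a ^ i * PowerSeries.coeff (p * i) (P * S ^ i)) atTop (𝓝 1) := by
  have hρ0 : 0 < ρ := zero_lt_one.trans hρ
  have hna : ‖a‖ = 1 := by
    have h := congrArg norm ha
    rw [norm_mul, norm_one] at h
    nlinarith [norm_nonneg a]
  have hterm : ∀ i : ℕ, a ^ i * PowerSeries.coeff (p * i) (P * v * S ^ i) =
      va * (a ^ i * PowerSeries.coeff (p * i) (P * S ^ i)) +
        a ^ i * PowerSeries.coeff (p * i) ((1 - C a * g) * (v1 * P1) * S ^ i) := by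
    intro i
    have e2 : P * v * S ^ i = C va * (P * S ^ i) + (1 - C a * g) * (v1 * P1) * S ^ i := by
      rw [hv]
      linear_combination v1 * S ^ i * h1
    rw [e2, map_add, coeff_C_mul]
    ring
  have h3 := tendsto_coeff_pow (p := p) (Nat.one_le_iff_ne_zero.2 hp) hρ hS
    (hv1.mul hρ0 hP1) hna
  have h4 := (hL.sub h3).const_mul va⁻¹
  rw [sub_zero, inv_mul_cancel₀ hva] at h4
  refine h4.congr fun n ↦ ?_
  rw [Finset.sum_congr rfl fun i _ ↦ hterm i, Finset.sum_add_distrib,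
    ev_tel hg hg0 ha (v1 * P1) n, ← Finset.mul_sum, add_sub_cancel_right,
    inv_mul_cancel_left₀ hva]

/-- For the weight zero frame the functional is `1`. -/
theorem ev_one_R [CharZero K] (hp : p ≠ 0) {R : PowerSeries K}
    (hR : (p : PowerSeries K) * (S * R) = (p : PowerSeries K) * S - X * derivative K S)
    (hS0 : PowerSeries.constantCoeff S = 1) (a : K) :
    Tendsto (fun n ↦ ∑ i ∈ Finset.range (n + 1),
      a ^ i * PowerSeries.coeff (p * i) (R * S ^ i)) atTop (𝓝 1) := by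
  have hR0 : PowerSeries.constantCoeff R = 1 := by
    have h := congrArg PowerSeries.constantCoeff hR
    rw [map_mul, map_mul, map_sub, map_mul, map_mul, hS0, constantCoeff_X, zero_mul, sub_zero,
      mul_one, one_mul, map_natCast] at h
    exact mul_left_cancel₀ (Nat.cast_ne_zero.2 hp) (h.trans (mul_one _).symm)
  have hfun : (fun n ↦ ∑ i ∈ Finset.range (n + 1),
      a ^ i * PowerSeries.coeff (p * i) (R * S ^ i)) = fun _ ↦ 1 := by
    funext n
    rw [Finset.sum_range_succ']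
    rw [Finset.sum_eq_zero fun i _ ↦ by
      rw [coeff_R_pow hp hR hS0 (i + 1) (by omega), mul_zero]]
    rw [mul_zero, pow_zero, pow_zero, mul_one, PowerSeries.coeff_zero_eq_constantCoeff_apply, hR0]
    ring
  rw [hfun]
  exact tendsto_const_nhds

end evg

section ppw

variable {K : Type*} [NormedField K] [IsUltrametricDist K] [CharZero K] {ρ c : ℝ}
  {S : PowerSeries K}

/-- `S^s`, `|s - l| ≤ m` for all natural `l`. -/
theorem Bd.ppow_gen (hρ : 0 < ρ) (hF : Bd ρ c (S - 1))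
    (h0 : PowerSeries.constantCoeff S = 1) {t m : ℝ}
    (ht : ∀ n : ℕ, ‖((n.factorial : ℕ) : K)‖⁻¹ ≤ t ^ n)
    (hc : m * t * c ≤ 1) {s : K} (hs : ∀ l : ℕ, ‖s - l‖ ≤ m) : Bd ρ 1 (GH.ppow S s) := by
  have hc0 := hF.nonneg
  have hm0 : 0 ≤ m := (norm_nonneg _).trans (hs 0)
  have ht0 : 0 ≤ t := by
    have h1 := ht 1
    rw [pow_one] at h1
    exact (inv_nonneg.2 (norm_nonneg _)).trans h1
  have hF0 : PowerSeries.constantCoeff (S - 1) = 0 := by rw [map_sub, h0, map_one, sub_self]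
  rw [bd_iff hρ]
  intro k
  unfold GH.ppow
  rw [fa_coeff_subst hF0]
  refine IsUltrametricDist.norm_sum_le_of_forall_le_of_nonneg (by positivity) fun n _ => ?_
  rw [le_div_iff₀ (by positivity), norm_mul, binS, coeff_mk, norm_div, div_eq_mul_inv]
  have h1 := hF.pow hρ n k
  have hp : ‖∏ i ∈ Finset.range n, (s - i)‖ ≤ m ^ n := by
    rw [norm_prod]
    calc ∏ i ∈ Finset.range n, ‖s - i‖ ≤ ∏ _i ∈ Finset.range n, m :=
          Finset.prod_le_prod (fun i _ => norm_nonneg _) (fun i _ => hs i)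
      _ = m ^ n := by rw [Finset.prod_const, Finset.card_range]
  calc ‖∏ i ∈ Finset.range n, (s - i)‖ * ‖((n.factorial : ℕ) : K)‖⁻¹ *
        ‖PowerSeries.coeff k ((S - 1) ^ n)‖ * ρ ^ k
      = (‖∏ i ∈ Finset.range n, (s - i)‖ * ‖((n.factorial : ℕ) : K)‖⁻¹) *
        (‖PowerSeries.coeff k ((S - 1) ^ n)‖ * ρ ^ k) := by ring
    _ ≤ (m ^ n * t ^ n) * c ^ n := by
        refine mul_le_mul ?_ h1 (by positivity) (by positivity)
        exact mul_le_mul hp (ht n) (by positivity) (by positivity)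
    _ = (m * t * c) ^ n := by rw [mul_pow, mul_pow]
    _ ≤ 1 := pow_le_one₀ (by positivity) hc

/-- `S^s - 1` is divisible by `1 - aX` if `S - 1` is. -/
theorem ppow_div (hρ : 0 < ρ) (hF : Bd ρ c (S - 1))
    (h0 : PowerSeries.constantCoeff S = 1) {t : ℝ}
    (ht : ∀ n : ℕ, ‖((n.factorial : ℕ) : K)‖⁻¹ ≤ t ^ n)
    (hc : t * c ≤ 1) {s : K} (hs : ∀ l : ℕ, ‖s - l‖ ≤ 1) {a : K} {S1 : PowerSeries K} {d : ℝ}
    (hS1 : Bd ρ d S1) (h : S = 1 + (1 - C a * X) * S1) :
    ∃ T1 : PowerSeries K, Bd ρ (d * t) T1 ∧ GH.ppow S s = 1 + (1 - C a * X) * T1 := by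
  have hc0 := hF.nonneg
  have ht0 : 0 ≤ t := by
    have h1 := ht 1
    rw [pow_one] at h1
    exact (inv_nonneg.2 (norm_nonneg _)).trans h1
  have hF0 : PowerSeries.constantCoeff (S - 1) = 0 := by rw [map_sub, h0, map_one, sub_self]
  have hsub : HasSubst (S - 1) := HasSubst.of_constantCoeff_zero' hF0
  obtain ⟨V, hV⟩ : ∃ V : PowerSeries K,
      V = (PowerSeries.mk fun n ↦ PowerSeries.coeff (n + 1) (binS s)).subst (S - 1) := ⟨_, rfl⟩
  have hb : binS s = 1 + X * PowerSeries.mk fun n ↦ PowerSeries.coeff (n + 1) (binS s) := by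
    ext n
    rcases n with _ | n
    · rw [map_add, coeff_zero_X_mul, add_zero, PowerSeries.coeff_zero_eq_constantCoeff_apply,
        ub_const_binS, PowerSeries.coeff_zero_eq_constantCoeff_apply, map_one]
    · rw [map_add, coeff_succ_X_mul, coeff_mk, coeff_one, if_neg (by omega), zero_add]
  have e : GH.ppow S s = 1 + (S - 1) * V := by
    unfold GH.ppow
    conv_lhs => rw [hb]
    rw [← coe_substAlgHom hsub, map_add, map_mul, map_one, substAlgHom_X, coe_substAlgHom, hV]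
  refine ⟨S1 * V, ?_, ?_⟩
  · refine hS1.mul hρ ?_
    rw [hV, bd_iff hρ]
    intro k
    rw [fa_coeff_subst hF0]
    refine IsUltrametricDist.norm_sum_le_of_forall_le_of_nonneg (by positivity) fun n _ => ?_
    rw [le_div_iff₀ (by positivity), norm_mul, coeff_mk, binS, coeff_mk, norm_div,
      div_eq_mul_inv]
    have h1 := hF.pow hρ n k
    have hp : ‖∏ i ∈ Finset.range (n + 1), (s - i)‖ ≤ 1 := by
      rw [norm_prod]
      calc ∏ i ∈ Finset.range (n + 1), ‖s - i‖ ≤ ∏ _i ∈ Finset.range (n + 1), (1 : ℝ) :=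
            Finset.prod_le_prod (fun i _ => norm_nonneg _) (fun i _ => hs i)
        _ = 1 := by rw [Finset.prod_const_one]
    calc ‖∏ i ∈ Finset.range (n + 1), (s - i)‖ * ‖(((n + 1).factorial : ℕ) : K)‖⁻¹ *
          ‖PowerSeries.coeff k ((S - 1) ^ n)‖ * ρ ^ k
        = (‖∏ i ∈ Finset.range (n + 1), (s - i)‖ * ‖(((n + 1).factorial : ℕ) : K)‖⁻¹) *
          (‖PowerSeries.coeff k ((S - 1) ^ n)‖ * ρ ^ k) := by ring
      _ ≤ (1 * t ^ (n + 1)) * c ^ n := by
          refine mul_le_mul ?_ h1 (by positivity) (by positivity)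
          exact mul_le_mul hp (ht (n + 1)) (by positivity) zero_le_one
      _ = (t * c) ^ n * t := by rw [one_mul, mul_pow]; ring
      _ ≤ 1 * t := mul_le_mul_of_nonneg_right (pow_le_one₀ (by positivity) hc) ht0
      _ = t := one_mul t
  · rw [e, h]
    ring

/-- Composition with `r`, `r(0) = 0`. -/
theorem Bd.comp {K : Type*} [NormedField K] [IsUltrametricDist K] {ρ R : ℝ} (hρ : 0 < ρ)
    (hR : 0 < R) {u r : PowerSeries K} (hu : Bd R 1 u) (hr : Bd ρ R r)
    (hr0 : PowerSeries.constantCoeff r = 0) : Bd ρ 1 (u.subst r) := by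
  rw [bd_iff hρ]
  intro k
  rw [fa_coeff_subst hr0]
  refine IsUltrametricDist.norm_sum_le_of_forall_le_of_nonneg (by positivity) fun n _ => ?_
  rw [le_div_iff₀ (by positivity), norm_mul]
  have h1 := hr.pow hρ n k
  calc ‖PowerSeries.coeff n u‖ * ‖PowerSeries.coeff k (r ^ n)‖ * ρ ^ k
      = ‖PowerSeries.coeff n u‖ * (‖PowerSeries.coeff k (r ^ n)‖ * ρ ^ k) := by ring
    _ ≤ ‖PowerSeries.coeff n u‖ * R ^ n := mul_le_mul_of_nonneg_left h1 (norm_nonneg _)
    _ ≤ 1 := hu n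

end ppw

end LN

end GH
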