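import Pool.Agent.GH.LN.PStm
import Pool.Agent.GH.LN.Conv
import Pool.Agent.GH.LN.EvN
import Pool.Agent.GH.LN.SerN
import Pool.Agent.GH.UMatB_a
import Pool.Agent.GH.D3.UBound3
import Pool.Agent.GH.D5.UBound5

/-!
# Level `N`: common lemmas for the three pairs
-/

open PowerSeries Filter Topology

noncomputable section

namespace GH

namespace LN

open GP DP

section mat

variable {K : Type*} [Field K] [CharZero K]

omit [CharZero K] in
/-- `(u^e)(t) = (u(t))^e`. -/
theorem ppow_substN {u t : PowerSeries K} (hu : PowerSeries.constantCoeff u = 1)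
    (ht : PowerSeries.constantCoeff t = 0) (e : K) :
    PowerSeries.subst t (GH.ppow u e) = GH.ppow (PowerSeries.subst t u) e := by
  have hs : HasSubst t := HasSubst.of_constantCoeff_zero' ht
  unfold GH.ppow
  rw [subst_comp_subst_apply (ub_hs hu) hs]
  congr 1
  rw [← coe_substAlgHom hs, map_sub, map_one]

/-- `S^{i-x-1} Z = S⁻¹ Z S^{-x} S^i`. -/
theorem ppow_split {S : PowerSeries K} (hS0 : PowerSeries.constantCoeff S = 1)
    (Z : PowerSeries K) (x : K) (i : ℕ) :
    GH.ppow S ((i : K) - x - 1) * Z = invOfUnit S 1 * Z * GH.ppow S (-x) * S ^ i := by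
  have h1 : ((i : K) - x - 1) = (-x) + (-1) + (i : K) := by ring
  rw [h1, ub_ppow_add hS0, ub_ppow_add hS0, ub_ppow_nat hS0]
  have h2 : GH.ppow S (-1 : K) = invOfUnit S 1 := by
    have h3 := ub_ppow_add hS0 (-1 : K) 1
    rw [neg_add_cancel, ub_ppow_zero hS0, ub_ppow_one hS0] at h3
    have h4 := mul_inv_of hS0
    calc GH.ppow S (-1 : K) = GH.ppow S (-1 : K) * (S * invOfUnit S 1) := by rw [h4, mul_one]
      _ = (GH.ppow S (-1 : K) * S) * invOfUnit S 1 := by ring
      _ = invOfUnit S 1 := by rw [← h3, one_mul]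
  rw [h2]
  ring

/-- The matrices of the matrix side are matrices `mt`. -/
theorem mat_eq_mt (p : ℕ) {S : PowerSeries K} (hS0 : PowerSeries.constantCoeff S = 1)
    (Z : PowerSeries K) (x : K) (i j : ℕ) :
    (if j ≤ p * i then PowerSeries.coeff (p * i - j) (GH.ppow S ((i : K) - x - 1) * Z) else 0) =
      mt p S (invOfUnit S 1 * Z * GH.ppow S (-x)) i j := by
  unfold mt
  rw [ppow_split hS0]

end mat

section um

variable {p : ℕ} [Fact p.Prime] {N : ℕ}

/-- The matrix of `U_p` in the basis `A^x W f^j`. -/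
theorem isUMatN_mt {R V Pc : PowerSeries (PadicComplex p)} {W : PowerSeries (PadicComplex p)}
    (hR : RelR p (SN p N (Fact.out : p.Prime).ne_zero (PadicComplex p)) R)
    (hW0 : PowerSeries.constantCoeff W = 1)
    (hW : W = W.expand p (Fact.out : p.Prime).ne_zero *
      V.subst (hauptN p N (PadicComplex p)))
    (hP : R * V = Pc) (x : PadicComplex p) :
    IsUMatN N (GH.ppow (AN p N (PadicComplex p)) x * W)
      (mt p (SN p N (Fact.out : p.Prime).ne_zero (PadicComplex p))
        (Pc * GH.ppow (SN p N (Fact.out : p.Prime).ne_zero (PadicComplex p)) (-x))) := by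
  set hp : p ≠ 0 := (Fact.out : p.Prime).ne_zero with hpd
  set S := SN p N hp (PadicComplex p) with hS
  set A := AN p N (PadicComplex p) with hA
  have hS0 : PowerSeries.constantCoeff S = 1 := constantCoeff_SN p N hp _
  have hA0 : PowerSeries.constantCoeff A = 1 := constantCoeff_AN p N _
  have hs : HasSubst (hauptN p N (PadicComplex p)) := fx_hasSubst p N
  have hAe : A.expand p hp = A * S.subst (hauptN p N (PadicComplex p)) := AN_expand p N hp _
  have hSf0 : PowerSeries.constantCoeff (S.subst (hauptN p N (PadicComplex p))) = 1 := by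
    rw [← PowerSeries.coeff_zero_eq_constantCoeff_apply, fx_coeff_subst]
    simp [hS0]
  -- `A^x(q^p) = A^x (S^x)(f)`
  have h1 : (GH.ppow A x).expand p hp =
      GH.ppow A x * (GH.ppow S x).subst (hauptN p N (PadicComplex p)) := by
    have e1 : (GH.ppow A x).expand p hp = GH.ppow (A.expand p hp) x := by
      unfold GH.ppow
      rw [PowerSeries.expand_apply, PowerSeries.expand_apply,
        subst_comp_subst_apply (HasSubst.of_constantCoeff_zero'
          (by rw [map_sub, hA0, map_one, sub_self])) (HasSubst.X_pow hp)]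
      congr 1
      have e2 : ∀ F : PowerSeries (PadicComplex p), F.subst (X ^ p : PowerSeries (PadicComplex p))
          = PowerSeries.expand p hp F := fun F ↦ by rw [PowerSeries.expand_apply]
      rw [e2, e2, map_sub, map_one]
    rw [e1, hAe, ub_ppow_mul hA0 hSf0, ppow_substN hS0 (constantCoeff_hauptN p N)]
  have h2 : (GH.ppow S x).subst (hauptN p N (PadicComplex p)) *
      (GH.ppow S (-x)).subst (hauptN p N (PadicComplex p)) = 1 := by
    rw [← subst_mul hs, ← ub_ppow_add hS0, add_neg_cancel, ub_ppow_zero hS0,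
      ← coe_substAlgHom hs, map_one]
  refine isUMatN_gen (S := S) (R := R) (T := V * GH.ppow S (-x)) (hauptN_expand p N hp _) hR ?_ ?_
    _ fun i j ↦ ?_
  · rw [map_mul, ub_const_ppow hA0, hW0, one_mul]
  · rw [map_mul, h1, subst_mul hs]
    linear_combination GH.ppow A x * hW -
      GH.ppow A x * (W.expand p hp * V.subst (hauptN p N (PadicComplex p))) * h2
  · unfold mt
    split_ifs
    · congr 1
      rw [← hP]
      ring
    · rfl

end um

/-! ### Factorials -/

theorem fac3 (n : ℕ) : ‖((n.factorial : ℕ) : D3.C3)‖⁻¹ ≤ (7 / 4 : ℝ) ^ n := by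
  rw [D3.d3_ubn_fac_val]
  have h1 := sub_one_mul_padicValNat_factorial (p := 3) n
  have h2 : 2 * padicValNat 3 n.factorial ≤ n := by omega
  calc (3 : ℝ) ^ (padicValNat 3 n.factorial)
      ≤ ((7 / 4 : ℝ) ^ 2) ^ (padicValNat 3 n.factorial) :=
        pow_le_pow_left₀ (by norm_num) (by norm_num) _
    _ = (7 / 4 : ℝ) ^ (2 * padicValNat 3 n.factorial) := by rw [pow_mul]
    _ ≤ (7 / 4 : ℝ) ^ n := pow_le_pow_right₀ (by norm_num) h2

theorem fac5 (n : ℕ) : ‖((n.factorial : ℕ) : D5.C5)‖⁻¹ ≤ (3 / 2 : ℝ) ^ n := D5.d5_ubn_fac n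

end LN

end GH
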