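import Pool.Agent.GH.QTheta
import Pool.Agent.GH.LN.SerN
import Pool.Agent.GH.D3.Base3
import Pool.Agent.GH.D52.Base52
import Pool.Agent.GH.D32.Base32
import Pool.Agent.GH.D34.Base34

/-!
# Level `N`: the `q`-series identities (statements)
-/

open PowerSeries Filter Topology

noncomputable section

namespace GH

namespace LN

/-! ### Jacobi's triple product -/

/-- `α j(j+1)/2 + β j(j-1)/2`. -/
def jte (α β : ℕ) (j : ℤ) : ℤ := (α * (j * (j + 1)) + β * (j * (j - 1))) / 2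

theorem two_jte (α β : ℕ) (j : ℤ) : 2 * jte α β j = α * (j * (j + 1)) + β * (j * (j - 1)) := by
  unfold jte
  refine Int.mul_ediv_cancel' ?_
  have h1 : (2 : ℤ) ∣ j * (j + 1) := (Int.even_mul_succ_self j).two_dvd
  have h2 : (2 : ℤ) ∣ j * (j - 1) := (Int.even_mul_pred_self j).two_dvd
  exact dvd_add (h1.mul_left _) (h2.mul_left _)

theorem le_jte {α β : ℕ} (hα : 1 ≤ α) (hβ : 1 ≤ β) (j : ℤ) : j * j ≤ jte α β j := by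
  have h := two_jte α β j
  have h1 : 0 ≤ j * (j + 1) := by
    rcases le_or_gt 0 j with h | h
    · positivity
    · nlinarith
  have h2 : 0 ≤ j * (j - 1) := by
    rcases le_or_gt j 0 with h | h
    · nlinarith
    · nlinarith
  have h3 : (1 : ℤ) ≤ α := by exact_mod_cast hα
  have h4 : (1 : ℤ) ≤ β := by exact_mod_cast hβ
  nlinarith

theorem jte_ff {α β : ℕ} (hα : 1 ≤ α) (hβ : 1 ≤ β) : qtFF (jte α β) := by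
  refine ⟨fun j ↦ (mul_self_nonneg j).trans (le_jte hα hβ j), fun m ↦
    (Set.finite_Icc (-m) m).subset fun j hj ↦ ?_⟩
  have h1 : jte α β j = m := hj
  have h2 := le_jte hα hβ j
  constructor
  · rcases le_or_gt 0 j with h | h
    · have := mul_self_nonneg j
      omega
    · nlinarith
  · rcases le_or_gt j 0 with h | h
    · have := mul_self_nonneg j
      omega
    · nlinarith

/-- The sign. -/
def jts (s : Bool) : ℤ := if s then -1 else 1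

/-- The weight `(±1)^j`. -/
def jtw (s : Bool) (j : ℤ) : ℤ := if s then (j.negOnePow : ℤ) else 1

/-- `∑_j (±1)^j q^{α j(j+1)/2 + β j(j-1)/2}`, Ramanujan's `f(±q^α, ±q^β)`. -/
def rf (s : Bool) (α β : ℕ) (hα : 1 ≤ α) (hβ : 1 ≤ β) : PowerSeries ℤ :=
  qtgs (jte α β) (jte_ff hα hβ) (jtw s)

/-- `∏_{i < m} (1 ± q^{α+Mi}) (1 ± q^{β+Mi}) (1 - q^{M(i+1)})`, `M = α + β`. -/
def jtF (s : Bool) (α β m : ℕ) : PowerSeries ℤ :=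
  ∏ i ∈ Finset.range m, ((1 + C (jts s) * X ^ (α + (α + β) * i)) *
    (1 + C (jts s) * X ^ (β + (α + β) * i)) * (1 - X ^ ((α + β) * (i + 1))))

/-- Jacobi's triple product identity. -/
def JTP : Prop := ∀ (s : Bool) (α β : ℕ) (hα : 1 ≤ α) (hβ : 1 ≤ β) (n m : ℕ), n ≤ m →
  PowerSeries.coeff n (rf s α β hα hβ) = PowerSeries.coeff n (jtF s α β m)

/-! ### Level six and level ten -/

/-- `1 - f` for `(p, N) = (3, 2)`. -/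
def J1 : Prop := (1 - hauptN 3 2 ℤ) * (euler ℤ 2 ^ 5 * euler ℤ 6) = euler ℤ 1 * euler ℤ 3 ^ 5

/-- `1 - 9f` for `(p, N) = (3, 2)`. -/
def J2 : Prop := (1 - 9 * hauptN 3 2 ℤ) * (euler ℤ 2 ^ 9 * euler ℤ 3 ^ 3) =
  euler ℤ 1 ^ 9 * euler ℤ 6 ^ 3

/-- `1 - f` for `(p, N) = (5, 2)`. -/
def K1 : Prop := (1 - hauptN 5 2 ℤ) * (euler ℤ 2 ^ 3 * euler ℤ 10) = euler ℤ 1 * euler ℤ 5 ^ 3

/-- `1 - 5f` for `(p, N) = (5, 2)`. -/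
def K2 : Prop := (1 - 5 * hauptN 5 2 ℤ) * (euler ℤ 2 ^ 5 * euler ℤ 5) =
  euler ℤ 1 ^ 5 * euler ℤ 10

/-- The relations of level six. -/
structure K32 : Prop where
  g1 : AN 3 2 ℤ * (1 - hauptN 3 2 ℤ) * (1 - 9 * hauptN 3 2 ℤ) ^ 3 * euler ℤ 2 ^ 8 =
    euler ℤ 1 ^ 16
  rel : (AN 3 2 ℤ).expand 3 D32.three_ne * (1 - (hauptN 3 2 ℤ).expand 3 D32.three_ne) *
      (1 - 9 * (hauptN 3 2 ℤ).expand 3 D32.three_ne) ^ 3 =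
    AN 3 2 ℤ * (1 - hauptN 3 2 ℤ) ^ 3 * (1 - 9 * hauptN 3 2 ℤ)
  f1 : hauptmodul 3 ℤ * (1 - 9 * hauptN 3 2 ℤ) ^ 2 =
    hauptN 3 2 ℤ * (1 - hauptN 3 2 ℤ) ^ 2
  b1 : D3.bser ℤ ^ 12 = AN 3 2 ℤ ^ 3 * (1 - 9 * hauptN 3 2 ℤ) ^ 8

/-- The relations of level twelve. -/
structure K34 : Prop where
  l1 : hauptN 3 2 ℤ * (1 + 3 * hauptN 3 4 ℤ) = hauptN 3 4 ℤ * (1 - hauptN 3 4 ℤ)
  l2 : AN 3 2 ℤ = AN 3 4 ℤ ^ 2 * (1 + 3 * hauptN 3 4 ℤ) ^ 4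
  relp : (AN 3 4 ℤ).expand 3 D32.three_ne * (1 + (hauptN 3 4 ℤ).expand 3 D32.three_ne) *
      (1 - 3 * (hauptN 3 4 ℤ).expand 3 D32.three_ne) ^ 3 =
    AN 3 4 ℤ * (1 + hauptN 3 4 ℤ) ^ 3 * (1 - 3 * hauptN 3 4 ℤ)
  relm : (AN 3 4 ℤ).expand 3 D32.three_ne * (1 - (hauptN 3 4 ℤ).expand 3 D32.three_ne) *
      (1 + 3 * (hauptN 3 4 ℤ).expand 3 D32.three_ne) ^ 3 =
    AN 3 4 ℤ * (1 - hauptN 3 4 ℤ) ^ 3 * (1 + 3 * hauptN 3 4 ℤ)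
  f1 : hauptmodul 3 ℤ * ((1 + 3 * hauptN 3 4 ℤ) * (1 - 3 * hauptN 3 4 ℤ) ^ 4) =
    hauptN 3 4 ℤ * (1 - hauptN 3 4 ℤ) * (1 + hauptN 3 4 ℤ) ^ 4
  b1 : D3.bser ℤ ^ 6 = AN 3 4 ℤ ^ 3 * ((1 + 3 * hauptN 3 4 ℤ) * (1 - 3 * hauptN 3 4 ℤ) ^ 4) ^ 2

/-- The relations of level ten. -/
structure K52 : Prop where
  g1 : AN 5 2 ℤ * (1 - hauptN 5 2 ℤ) * (1 - 5 * hauptN 5 2 ℤ) ^ 5 * euler ℤ 2 ^ 8 =
    euler ℤ 1 ^ 16
  rel : (AN 5 2 ℤ).expand 5 D52.five_ne * (1 - (hauptN 5 2 ℤ).expand 5 D52.five_ne) *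
      (1 - 5 * (hauptN 5 2 ℤ).expand 5 D52.five_ne) ^ 5 =
    AN 5 2 ℤ * (1 - hauptN 5 2 ℤ) ^ 5 * (1 - 5 * hauptN 5 2 ℤ)
  f1 : hauptmodul 5 ℤ * (1 - 5 * hauptN 5 2 ℤ) ^ 2 =
    hauptN 5 2 ℤ * (1 - hauptN 5 2 ℤ) ^ 2
  b1 : D5.phi5 ℤ ^ 2 = AN 5 2 ℤ * (1 - 5 * hauptN 5 2 ℤ) ^ 4

/-- `2E_2(2z) - E_2(z)` in terms of `θf/f`, level ten. -/
def W52 : Prop := eisTwo ℚ * ((1 - hauptN 5 2 ℚ) * (1 - 5 * hauptN 5 2 ℚ)) =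
  dlogN 5 2 ℚ * (1 + 20 * hauptN 5 2 ℚ - 25 * hauptN 5 2 ℚ ^ 2)

end LN

namespace D32

theorem A32_eq (R : Type*) [CommRing R] : A32 R = LN.AN 3 2 R := rfl

theorem S32_eq (R : Type*) [CommRing R] : S32 R = LN.SN 3 2 three_ne R := rfl

theorem gs32_eq (R : Type*) [CommRing R] : gs32 R = LN.gsN 3 2 three_ne R := rfl

/-- The equation of `S`. -/
def Eq32 : Prop := S32 ℤ * (1 - gs32 ℤ) * (1 - 9 * gs32 ℤ) ^ 3 =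
  (1 - (X : PowerSeries ℤ)) ^ 3 * (1 - 9 * X)

/-- The growth of `S`: `v(S_n) ≥ n/2`. -/
def Gr32 : Prop := ∀ n : ℕ, (3 : ℤ) ^ ((n + 1) / 2) ∣ PowerSeries.coeff n (S32 ℤ)

end D32

namespace D34

theorem A34_eq (R : Type*) [CommRing R] : A34 R = LN.AN 3 4 R := rfl

theorem S34_eq (R : Type*) [CommRing R] : S34 R = LN.SN 3 4 three_ne R := rfl

theorem gs34_eq (R : Type*) [CommRing R] : gs34 R = LN.gsN 3 4 three_ne R := rfl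

/-- The equations of `S`. -/
structure Eq34 : Prop where
  p : S34 ℤ * (1 + gs34 ℤ) * (1 - 3 * gs34 ℤ) ^ 3 =
    (1 + (X : PowerSeries ℤ)) ^ 3 * (1 - 3 * X)
  m : S34 ℤ * (1 - gs34 ℤ) * (1 + 3 * gs34 ℤ) ^ 3 =
    (1 - (X : PowerSeries ℤ)) ^ 3 * (1 + 3 * X)

/-- The growth of `S`: `v(S_n) ≥ n/4`. -/
def Gr34 : Prop := ∀ n : ℕ, (3 : ℤ) ^ ((n + 3) / 4) ∣ PowerSeries.coeff n (S34 ℤ)

end D34

namespace D52

theorem A52_eq (R : Type*) [CommRing R] : A52 R = LN.AN 5 2 R := rfl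

theorem S52_eq (R : Type*) [CommRing R] : S52 R = LN.SN 5 2 five_ne R := rfl

theorem gs52_eq (R : Type*) [CommRing R] : gs52 R = LN.gsN 5 2 five_ne R := rfl

theorem dlog52_eq (R : Type*) [CommRing R] : dlog52 R = LN.dlogN 5 2 R := rfl

/-- The equation of `S`. -/
def Eq52 : Prop := S52 ℤ * (1 - gs52 ℤ) * (1 - 5 * gs52 ℤ) ^ 5 =
  (1 - (X : PowerSeries ℤ)) ^ 5 * (1 - 5 * X)

/-- The growth of `S`: `v(S_n) ≥ n/6`. -/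
def Gr52 : Prop := ∀ n : ℕ, (5 : ℤ) ^ ((n + 5) / 6) ∣ PowerSeries.coeff n (S52 ℤ)

end D52

end GH
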