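import Pool.Agent.GH.LM.Dat32
import Pool.Agent.GH.LM.Dat34
import Pool.Agent.GH.LM.Dat52
import Pool.Agent.GH.D32.Fix32
import Pool.Agent.GH.D34.Fix34
import Pool.Agent.GH.D52.Fix52

/-!
# Level `N`: the input of the matrix side
-/

open PowerSeries Filter Topology

noncomputable section

namespace GH

namespace LN

theorem in32 (h : K32) : LM.In32 where
  fix := by
    intro R _
    have h1 := congrArg (PowerSeries.map (Int.castRingHom R)) (D32.eq32 h)
    simp only [D32.S32_eq, D32.gs32_eq] at h1 ⊢
    simp only [map_mul, map_pow, map_sub, map_one, map_ofNat, PowerSeries.map_X, map_SN,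
      map_gsN] at h1
    rw [← mul_assoc]
    exact h1
  S0 := fun R _ ↦ constantCoeff_SN 3 2 D32.three_ne R
  gr := D32.gr32 (D32.eq32 h)

theorem in34 (h : K34) : LM.In34 where
  fix := by
    intro R _
    have h1 := congrArg (PowerSeries.map (Int.castRingHom R)) (D34.eq34 h).p
    simp only [D34.S34_eq, D34.gs34_eq] at h1 ⊢
    simp only [map_mul, map_pow, map_sub, map_add, map_one, map_ofNat, PowerSeries.map_X, map_SN,
      map_gsN] at h1
    rw [← mul_assoc]
    exact h1
  S0 := fun R _ ↦ constantCoeff_SN 3 4 D34.three_ne R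
  gr := D34.gr34 (D34.eq34 h)

theorem in52 (h : K52) : LM.In52 where
  fix := by
    intro R _
    have h1 := congrArg (PowerSeries.map (Int.castRingHom R)) (D52.eq52 h)
    simp only [D52.S52_eq, D52.gs52_eq] at h1 ⊢
    simp only [map_mul, map_pow, map_sub, map_one, map_ofNat, PowerSeries.map_X, map_SN,
      map_gsN] at h1
    rw [← mul_assoc]
    exact h1
  S0 := fun R _ ↦ constantCoeff_SN 5 2 D52.five_ne R
  gr := D52.gr52 (D52.eq52 h)

end LN

end GH
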