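import Pool.Agent.GH.LN.EStm
import Pool.Agent.GH.D3.QHaupt3
import Pool.Agent.GH.QGauss

/-!
# Level `N`, row E1: `1 - f` at level six
-/

open PowerSeries

noncomputable section

namespace GH

namespace LN

open D3

open Classical in
/-- `ψ(q) = ∑ q^(m(m+1)/2)`. -/
def lj1_psi : PowerSeries ℤ :=
  PowerSeries.mk fun n ↦ if ∃ m : ℕ, 2 * n = m * (m + 1) then 1 else 0

theorem lj1_expand_inj {R : Type*} [CommRing R] (p : ℕ) (hp : p ≠ 0) {A B : PowerSeries R}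
    (h : A.expand p hp = B.expand p hp) : A = B := by
  ext n
  rw [← PowerSeries.coeff_expand_mul p hp, h, PowerSeries.coeff_expand_mul]

open Classical in
theorem lj1_coeff_psi (n : ℕ) : PowerSeries.coeff n lj1_psi =
    if ∃ m : ℕ, 2 * n = m * (m + 1) then 1 else 0 := by
  unfold lj1_psi
  rw [PowerSeries.coeff_mk]

theorem lj1_psi_two : lj1_psi.expand 2 two_ne_zero = psi2 ℤ := by
  classical
  ext n
  have h2 : PowerSeries.coeff n (psi2 ℤ) = if ∃ m : ℕ, n = m * (m + 1) then 1 else 0 := by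
    unfold psi2
    rw [PowerSeries.coeff_mk]
  rw [PowerSeries.coeff_expand, h2]
  by_cases h : 2 ∣ n
  · obtain ⟨l, rfl⟩ := h
    rw [if_pos (Dvd.intro l rfl), Nat.mul_div_cancel_left l two_pos, lj1_coeff_psi]
  · rw [if_neg h, if_neg]
    rintro ⟨m, rfl⟩
    exact h (Nat.even_mul_succ_self m).two_dvd

theorem lj1_psi_mul : lj1_psi * euler ℤ 1 = euler ℤ 2 ^ 2 := by
  apply lj1_expand_inj 2 two_ne_zero
  rw [map_mul, map_pow, lj1_psi_two, euler_expand ℤ 2 two_ne_zero 1 le_rfl,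
    euler_expand ℤ 2 two_ne_zero 2 (by norm_num)]
  exact psi2_mul_euler

/-- `A(q) = ∑_j q^(j(3j-1)/2)`. -/
def lj1_A : PowerSeries ℤ := rf false 1 2 le_rfl (by norm_num)

theorem lj1_inj {j k : ℤ} (h : j * (3 * j - 1) = k * (3 * k - 1)) : j = k := by
  have h1 : (j - k) * (3 * (j + k) - 1) = 0 := by linear_combination h
  rcases mul_eq_zero.1 h1 with h2 | h2
  · omega
  · omega

open Classical in
theorem lj1_coeff_A (l : ℕ) : PowerSeries.coeff l lj1_A =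
    if ∃ j : ℤ, 2 * (l : ℤ) = j * (3 * j - 1) then 1 else 0 := by
  have e : ∀ j : ℤ, jte 1 2 j = l ↔ 2 * (l : ℤ) = j * (3 * j - 1) := by
    intro j
    have h := two_jte 1 2 j
    have h2 : 2 * jte 1 2 j = j * (3 * j - 1) := by
      rw [h]
      push_cast
      ring
    constructor
    · intro h3
      rw [← h2, h3]
    · intro h3
      omega
  unfold lj1_A rf
  rw [qt_coeff]
  have hw : ∀ i : ℤ, jtw false i = 1 := fun i ↦ rfl
  simp only [hw]
  split_ifs with h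
  · obtain ⟨j, hj⟩ := h
    rw [Finset.sum_const, show ((jte_ff le_rfl (by norm_num : 1 ≤ 2)).fin (l : ℤ)).toFinset = {j} by
      ext k
      rw [Set.Finite.mem_toFinset, Finset.mem_singleton]
      show jte 1 2 k = l ↔ k = j
      rw [e]
      constructor
      · intro h1
        exact lj1_inj (by rw [← h1, hj])
      · rintro rfl
        exact hj]
    simp
  · rw [Finset.sum_eq_zero]
    intro k hk
    rw [Set.Finite.mem_toFinset] at hk
    exact absurd ⟨k, (e k).1 hk⟩ h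

theorem lj1_tri (l : ℕ) : (∃ m : ℕ, 2 * (3 * l) = m * (m + 1)) ↔
    ∃ j : ℤ, 2 * (l : ℤ) = j * (3 * j - 1) := by
  constructor
  · rintro ⟨m, hm⟩
    have h3 : 3 ∣ m * (m + 1) := ⟨2 * l, by rw [← hm]; ring⟩
    rcases (Nat.Prime.dvd_mul Nat.prime_three).1 h3 with ⟨k, rfl⟩ | ⟨k, hk⟩
    · refine ⟨-(k : ℤ), ?_⟩
      have h1 : 2 * l = k * (3 * k + 1) := by
        apply Nat.eq_of_mul_eq_mul_left three_pos
        linarith
      have h2 : (2 : ℤ) * l = k * (3 * k + 1) := by exact_mod_cast h1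
      rw [h2]
      ring
    · refine ⟨(k : ℤ), ?_⟩
      have h1 : (2 : ℤ) * (3 * l) = m * (m + 1) := by exact_mod_cast hm
      have h2 : (m : ℤ) + 1 = 3 * k := by exact_mod_cast hk
      have h4 : (m : ℤ) = 3 * k - 1 := by linarith
      rw [h4] at h1
      have h5 : (3 : ℤ) * (2 * l) = 3 * (k * (3 * k - 1)) := by linear_combination h1
      exact mul_left_cancel₀ (by norm_num) h5
  · rintro ⟨j, hj⟩
    rcases le_or_gt j 0 with h | h
    · obtain ⟨k, rfl⟩ : ∃ k : ℕ, j = -(k : ℤ) := ⟨j.natAbs, by omega⟩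
      refine ⟨3 * k, ?_⟩
      have h1 : (2 : ℤ) * (3 * l) = (3 * k) * (3 * k + 1) := by linear_combination 3 * hj
      exact_mod_cast h1
    · obtain ⟨k, rfl⟩ : ∃ k : ℕ, j = (k : ℤ) + 1 := ⟨(j - 1).toNat, by omega⟩
      refine ⟨3 * k + 2, ?_⟩
      have h1 : (2 : ℤ) * (3 * l) = (3 * k + 2) * (3 * k + 2 + 1) := by linear_combination 3 * hj
      exact_mod_cast h1

theorem lj1_mod (m : ℕ) : m * (m + 1) % 3 = if m % 3 = 1 then 2 else 0 := by
  have h : m % 3 = 0 ∨ m % 3 = 1 ∨ m % 3 = 2 := by omega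
  rcases h with h | h | h <;> simp [Nat.mul_mod, Nat.add_mod, h]

theorem lj1_nine (r : ℕ) : (∃ m : ℕ, 2 * (9 * r + 1) = m * (m + 1)) ↔
    ∃ m : ℕ, 2 * r = m * (m + 1) := by
  constructor
  · rintro ⟨m, hm⟩
    have h1 := lj1_mod m
    rw [← hm] at h1
    split_ifs at h1 with h2
    · obtain ⟨k, rfl⟩ : ∃ k, m = 3 * k + 1 := ⟨m / 3, by omega⟩
      refine ⟨k, ?_⟩
      nlinarith
    · omega
  · rintro ⟨m, hm⟩
    refine ⟨3 * m + 1, ?_⟩
    nlinarith

theorem lj1_six {l : ℕ} (hl : ¬ 3 ∣ l) : ¬ ∃ m : ℕ, 2 * (3 * l + 1) = m * (m + 1) := by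
  rintro ⟨m, hm⟩
  have h1 := lj1_mod m
  rw [← hm] at h1
  split_ifs at h1 with h2
  · obtain ⟨k, rfl⟩ : ∃ k, m = 3 * k + 1 := ⟨m / 3, by omega⟩
    have h3 : 2 * l = 3 * (k * (k + 1)) := by nlinarith
    omega
  · omega

/-- The dissection `ψ(q) = A(q³) + q ψ(q⁹)`. -/
theorem lj1_diss : lj1_psi = lj1_A.expand 3 three_ne_zero +
    X * (lj1_psi.expand 3 three_ne_zero).expand 3 three_ne_zero := by
  classical
  ext n
  rw [map_add, PowerSeries.coeff_expand]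
  rcases n with _ | n
  · rw [PowerSeries.coeff_zero_X_mul, if_pos (dvd_zero 3), Nat.zero_div, lj1_coeff_A,
      if_pos ⟨0, by simp⟩]
    unfold lj1_psi
    rw [PowerSeries.coeff_mk, if_pos ⟨0, by simp⟩, add_zero]
  · rw [PowerSeries.coeff_succ_X_mul, PowerSeries.coeff_expand, PowerSeries.coeff_expand]
    have h : (n + 1) % 3 = 0 ∨ (n + 1) % 3 = 1 ∨ (n + 1) % 3 = 2 := by omega
    rcases h with h | h | h
    · obtain ⟨l, hl⟩ : ∃ l, n + 1 = 3 * l := ⟨(n + 1) / 3, by omega⟩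
      rw [if_pos (show 3 ∣ n + 1 from ⟨l, hl⟩), if_neg (show ¬ 3 ∣ n by omega), add_zero, hl,
        Nat.mul_div_cancel_left l three_pos, lj1_coeff_A]
      unfold lj1_psi
      rw [PowerSeries.coeff_mk]
      by_cases h2 : ∃ j : ℤ, 2 * (l : ℤ) = j * (3 * j - 1)
      · rw [if_pos h2, if_pos ((lj1_tri l).2 h2)]
      · rw [if_neg h2, if_neg (fun h3 ↦ h2 ((lj1_tri l).1 h3))]
    · obtain ⟨l, rfl⟩ : ∃ l, n = 3 * l := ⟨n / 3, by omega⟩
      rw [if_neg (show ¬ 3 ∣ 3 * l + 1 by omega), zero_add, if_pos (Dvd.intro l rfl),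
        Nat.mul_div_cancel_left l three_pos]
      split_ifs with h3
      · obtain ⟨r, rfl⟩ := h3
        rw [Nat.mul_div_cancel_left r three_pos]
        unfold lj1_psi
        rw [PowerSeries.coeff_mk, PowerSeries.coeff_mk,
          show 3 * (3 * r) + 1 = 9 * r + 1 by ring]
        by_cases h2 : ∃ m : ℕ, 2 * r = m * (m + 1)
        · rw [if_pos h2, if_pos ((lj1_nine r).2 h2)]
        · rw [if_neg h2, if_neg (fun h3 ↦ h2 ((lj1_nine r).1 h3))]
      · unfold lj1_psi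
        rw [PowerSeries.coeff_mk, if_neg (lj1_six h3)]
    · rw [if_neg (show ¬ 3 ∣ n + 1 by omega), if_neg (show ¬ 3 ∣ n by omega), add_zero]
      unfold lj1_psi
      rw [PowerSeries.coeff_mk, if_neg]
      rintro ⟨m, hm⟩
      have h1 := lj1_mod m
      rw [← hm] at h1
      split_ifs at h1 with h2
      · omega
      · omega

/-! ### The product of `A` -/

theorem lj1_fin (N : ℕ) : jtF false 1 2 N *
    ((∏ m ∈ Finset.range (3 * N), (1 - (X : PowerSeries ℤ) ^ (1 * (m + 1)))) *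
      ∏ m ∈ Finset.range N, (1 - (X : PowerSeries ℤ) ^ (6 * (m + 1)))) =
    (∏ m ∈ Finset.range (3 * N), (1 - (X : PowerSeries ℤ) ^ (2 * (m + 1)))) *
      (∏ m ∈ Finset.range N, (1 - (X : PowerSeries ℤ) ^ (3 * (m + 1)))) ^ 2 := by
  unfold jtF
  have hs : (C (jts false) : PowerSeries ℤ) = 1 := by
    show (C (1 : ℤ) : PowerSeries ℤ) = 1
    exact map_one _
  rw [hs]
  induction N with
  | zero => simp
  | succ N ih =>
    have e : 3 * (N + 1) = 3 * N + 1 + 1 + 1 := by ring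
    rw [e]
    simp only [Finset.prod_range_succ]
    set P0 := ∏ i ∈ Finset.range N, ((1 + 1 * (X : PowerSeries ℤ) ^ (1 + (1 + 2) * i)) *
      (1 + 1 * X ^ (2 + (1 + 2) * i)) * (1 - X ^ ((1 + 2) * (i + 1))))
    set P1 := ∏ m ∈ Finset.range (3 * N), (1 - (X : PowerSeries ℤ) ^ (1 * (m + 1)))
    set P2 := ∏ m ∈ Finset.range (3 * N), (1 - (X : PowerSeries ℤ) ^ (2 * (m + 1)))
    set P3 := ∏ m ∈ Finset.range N, (1 - (X : PowerSeries ℤ) ^ (3 * (m + 1)))
    set P6 := ∏ m ∈ Finset.range N, (1 - (X : PowerSeries ℤ) ^ (6 * (m + 1)))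
    have e1 : 1 + (1 + 2) * N = 3 * N + 1 := by ring
    have e2 : 2 + (1 + 2) * N = 3 * N + 2 := by ring
    have e3 : (1 + 2) * (N + 1) = 3 * N + 3 := by ring
    have e4 : 1 * (3 * N + 1) = 3 * N + 1 := by ring
    have e5 : 1 * (3 * N + 1 + 1) = 3 * N + 2 := by ring
    have e6 : 1 * (3 * N + 1 + 1 + 1) = 3 * N + 3 := by ring
    have e7 : 6 * (N + 1) = (3 * N + 3) * 2 := by ring
    have e8 : 2 * (3 * N + 1) = (3 * N + 1) * 2 := by ring
    have e9 : 2 * (3 * N + 1 + 1) = (3 * N + 2) * 2 := by ring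
    have e10 : 2 * (3 * N + 1 + 1 + 1) = (3 * N + 3) * 2 := by ring
    have e11 : 3 * (N + 1) = 3 * N + 3 := by ring
    rw [e1, e2, e3, e4, e5, e6, e7, e8, e9, e10, ← e, e11, pow_mul, pow_mul, pow_mul]
    linear_combination ((1 + (X : PowerSeries ℤ) ^ (3 * N + 1)) * (1 + X ^ (3 * N + 2)) *
      (1 - X ^ (3 * N + 3)) * (1 - X ^ (3 * N + 1)) * (1 - X ^ (3 * N + 2)) *
      (1 - X ^ (3 * N + 3)) * (1 - (X ^ (3 * N + 3)) ^ 2)) * ih

theorem lj1_q {F G : PowerSeries ℤ} {N : ℕ} (h : (X : PowerSeries ℤ) ^ (N + 1) ∣ F - G) :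
    Ideal.Quotient.mk (Ideal.span {(X : PowerSeries ℤ) ^ (N + 1)}) F =
      Ideal.Quotient.mk (Ideal.span {(X : PowerSeries ℤ) ^ (N + 1)}) G := by
  rw [Ideal.Quotient.eq, Ideal.mem_span_singleton]
  exact h

theorem lj1_A_mul (h : JTP) : lj1_A * (euler ℤ 1 * euler ℤ 6) = euler ℤ 2 * euler ℤ 3 ^ 2 := by
  apply qg_ext
  intro N
  have hA : (X : PowerSeries ℤ) ^ (N + 1) ∣ lj1_A - jtF false 1 2 N := by
    rw [X_pow_dvd_iff]
    intro j hj
    rw [map_sub, sub_eq_zero]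
    exact h false 1 2 le_rfl (by norm_num) j N (by omega)
  have h1 : (X : PowerSeries ℤ) ^ (N + 1) ∣
      euler ℤ 1 - ∏ m ∈ Finset.range (3 * N), (1 - (X : PowerSeries ℤ) ^ (1 * (m + 1))) :=
    (pow_dvd_pow _ (by omega)).trans (qg_euler 1 (3 * N) (by norm_num))
  have h2 : (X : PowerSeries ℤ) ^ (N + 1) ∣
      euler ℤ 2 - ∏ m ∈ Finset.range (3 * N), (1 - (X : PowerSeries ℤ) ^ (2 * (m + 1))) :=
    (pow_dvd_pow _ (by omega)).trans (qg_euler 2 (3 * N) (by norm_num))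
  have h3 := qg_euler 3 N (by norm_num)
  have h6 := qg_euler 6 N (by norm_num)
  have key : Ideal.Quotient.mk (Ideal.span {(X : PowerSeries ℤ) ^ (N + 1)})
      (lj1_A * (euler ℤ 1 * euler ℤ 6)) =
      Ideal.Quotient.mk (Ideal.span {(X : PowerSeries ℤ) ^ (N + 1)})
      (euler ℤ 2 * euler ℤ 3 ^ 2) := by
    rw [map_mul, map_mul, map_mul, map_pow, lj1_q hA, lj1_q h1, lj1_q h2, lj1_q h3, lj1_q h6,
      ← map_mul, ← map_mul, lj1_fin, map_mul, map_pow]
  rw [Ideal.Quotient.eq, Ideal.mem_span_singleton] at key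
  exact key

/-! ### The norm -/

theorem lj1_rescale_two {K : Type*} [CommRing K] (y : K) (F : PowerSeries K) :
    (rescale (y ^ 2) F).expand 2 two_ne_zero = rescale y (F.expand 2 two_ne_zero) := by
  ext n
  rw [coeff_rescale, PowerSeries.coeff_expand, PowerSeries.coeff_expand]
  split_ifs with h
  · obtain ⟨l, rfl⟩ := h
    rw [Nat.mul_div_cancel_left l two_pos, coeff_rescale, pow_mul]
  · rw [mul_zero]

theorem lj1_norm {K : Type*} [CommRing K] {z : K} (hz : 1 + z + z ^ 2 = 0) :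
    euler K 2 * rescale z (euler K 2) * rescale (z ^ 2) (euler K 2) * euler K 18 =
      euler K 6 ^ 4 := by
  have hz2 : 1 + z ^ 2 + (z ^ 2) ^ 2 = 0 := by linear_combination (z ^ 2 - z + 1) * hz
  have h := congrArg (PowerSeries.expand 2 two_ne_zero) (d3_norm hz2)
  rw [map_mul, map_mul, map_mul, map_pow, lj1_rescale_two, lj1_rescale_two,
    euler_expand K 2 two_ne_zero 1 le_rfl, euler_expand K 2 two_ne_zero 9 (by norm_num),
    euler_expand K 2 two_ne_zero 3 (by norm_num)] at h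
  exact h

theorem lj1_key_C (P A : PowerSeries ℂ) (hP : P * euler ℂ 1 = euler ℂ 2 ^ 2)
    (hA : P = A.expand 3 three_ne_zero + X * (P.expand 3 three_ne_zero).expand 3 three_ne_zero) :
    (A ^ 3 + X * P.expand 3 three_ne_zero ^ 3) * (euler ℂ 1 ^ 4 * euler ℂ 6 ^ 2) =
      euler ℂ 2 ^ 8 * euler ℂ 3 := by
  obtain ⟨z, hz⟩ : ∃ z : ℂ, 1 + z + z ^ 2 = 0 := by
    obtain ⟨z, hz⟩ := IsAlgClosed.exists_root (Polynomial.X ^ 2 + Polynomial.X + 1 : Polynomial ℂ)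
      (by
        have h : (Polynomial.X ^ 2 + Polynomial.X + 1 : Polynomial ℂ).degree = 2 := by
          compute_degree!
        rw [h]
        decide)
    refine ⟨z, ?_⟩
    rw [Polynomial.IsRoot.def] at hz
    simp only [Polynomial.eval_add, Polynomial.eval_pow, Polynomial.eval_X,
      Polynomial.eval_one] at hz
    linear_combination hz
  have hz2 : 1 + z ^ 2 + (z ^ 2) ^ 2 = 0 := by linear_combination (z ^ 2 - z + 1) * hz
  set B := P.expand 3 three_ne_zero with hB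
  set A' := A.expand 3 three_ne_zero with hA'
  set Y := X * B.expand 3 three_ne_zero with hY
  have hres : ∀ y : ℂ, 1 + y + y ^ 2 = 0 → rescale y P = A' + C y * Y := by
    intro y hy
    have h1 := congrArg (rescale y) hA
    rw [map_add, hA', d3_rescale_expand hy, hY, map_mul, d3_rescale_expand hy, rescale_X] at h1
    rw [h1, hA', hY]
    ring
  have hn := d3_norm (K := ℂ) hz
  have hn2 := lj1_norm (K := ℂ) hz
  have h1 : (1 : PowerSeries ℂ) + C z + C z ^ 2 = 0 := by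
    rw [← map_pow, ← map_one (C : ℂ →+* PowerSeries ℂ), ← map_add, ← map_add, hz, map_zero]
  have h3 : (C z : PowerSeries ℂ) ^ 3 = 1 := by
    rw [← map_pow, d3_cube hz, map_one]
  have hq : ∀ y : ℂ, rescale y P * rescale y (euler ℂ 1) = rescale y (euler ℂ 2) ^ 2 := by
    intro y
    rw [← map_mul, hP, map_pow]
  have hfac : P * rescale z P * rescale (z ^ 2) P = A' ^ 3 + Y ^ 3 := by
    rw [hres z hz, hres (z ^ 2) hz2, map_pow]
    conv_lhs => rw [hA]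
    linear_combination (A' ^ 2 * Y + A' * Y ^ 2 * C z) * h1 + Y ^ 3 * h3
  have key : (A' ^ 3 + Y ^ 3) * (euler ℂ 3 ^ 4 * euler ℂ 18 ^ 2) =
      euler ℂ 6 ^ 8 * euler ℂ 9 := by
    rw [← hn, ← hfac]
    calc P * rescale z P * rescale (z ^ 2) P *
          (euler ℂ 1 * rescale z (euler ℂ 1) * rescale (z ^ 2) (euler ℂ 1) * euler ℂ 9 *
            euler ℂ 18 ^ 2)
        = (P * euler ℂ 1) * (rescale z P * rescale z (euler ℂ 1)) *
          (rescale (z ^ 2) P * rescale (z ^ 2) (euler ℂ 1)) * euler ℂ 9 * euler ℂ 18 ^ 2 := by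
          ring
      _ = (euler ℂ 2 * rescale z (euler ℂ 2) * rescale (z ^ 2) (euler ℂ 2) * euler ℂ 18) ^ 2 *
          euler ℂ 9 := by
          rw [hP, hq, hq]
          ring
      _ = euler ℂ 6 ^ 8 * euler ℂ 9 := by
          rw [hn2]
          ring
  apply lj1_expand_inj 3 three_ne_zero
  rw [map_mul, map_mul, map_mul, map_add, map_mul, map_pow, map_pow, map_pow, map_pow, map_pow,
    PowerSeries.expand_X, euler_expand ℂ 3 three_ne_zero 1 le_rfl,
    euler_expand ℂ 3 three_ne_zero 2 (by norm_num), euler_expand ℂ 3 three_ne_zero 3 (by norm_num),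
    euler_expand ℂ 3 three_ne_zero 6 (by norm_num)]
  show (A' ^ 3 + X ^ 3 * B.expand 3 three_ne_zero ^ 3) * (euler ℂ 3 ^ 4 * euler ℂ 18 ^ 2) =
    euler ℂ 6 ^ 8 * euler ℂ 9
  rw [← key, hY]
  ring

theorem lj1_key : (lj1_A ^ 3 + X * lj1_psi.expand 3 three_ne_zero ^ 3) *
    (euler ℤ 1 ^ 4 * euler ℤ 6 ^ 2) = euler ℤ 2 ^ 8 * euler ℤ 3 := by
  have h1 := congrArg (PowerSeries.map (Int.castRingHom ℂ)) lj1_psi_mul
  rw [map_mul, map_pow, fx_map_euler, fx_map_euler] at h1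
  have h2 := congrArg (PowerSeries.map (Int.castRingHom ℂ)) lj1_diss
  rw [map_add, map_mul, PowerSeries.map_expand, PowerSeries.map_expand, PowerSeries.map_expand,
    PowerSeries.map_X] at h2
  have h3 := lj1_key_C _ _ h1 h2
  apply d3_map_inj
  rw [map_mul, map_mul, map_mul, map_add, map_mul, map_pow, map_pow, map_pow, map_pow, map_pow,
    fx_map_euler, fx_map_euler, fx_map_euler, fx_map_euler, PowerSeries.map_X,
    PowerSeries.map_expand]
  exact h3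

theorem lj1_haupt : hauptN 3 2 ℤ * (euler ℤ 2 ^ 8 * euler ℤ 3 ^ 4) =
    X * (euler ℤ 6 ^ 8 * euler ℤ 1 ^ 4) := by
  have h1 : euler ℤ 1 * invOfUnit (euler ℤ 1) 1 = 1 := mul_inv_of (fx_constantCoeff_euler ℤ 1)
  have h3 : euler ℤ 3 * invOfUnit (euler ℤ 3) 1 = 1 := mul_inv_of (fx_constantCoeff_euler ℤ 3)
  have h2 : euler ℤ 2 ^ 2 * invOfUnit (euler ℤ 1) 1 *
      invOfUnit (euler ℤ 2 ^ 2 * invOfUnit (euler ℤ 1) 1) 1 = 1 :=
    mul_inv_of (by
      rw [map_mul, map_pow, fx_constantCoeff_euler, PowerSeries.constantCoeff_invOfUnit]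
      simp)
  show X * (euler ℤ 6 ^ 2 * invOfUnit (euler ℤ 3) 1 *
    invOfUnit (euler ℤ 2 ^ 2 * invOfUnit (euler ℤ 1) 1) 1) ^ 4 * (euler ℤ 2 ^ 8 * euler ℤ 3 ^ 4) =
    X * (euler ℤ 6 ^ 8 * euler ℤ 1 ^ 4)
  set a := invOfUnit (euler ℤ 1) 1
  set b := invOfUnit (euler ℤ 3) 1
  set c := invOfUnit (euler ℤ 2 ^ 2 * a) 1
  calc X * (euler ℤ 6 ^ 2 * b * c) ^ 4 * (euler ℤ 2 ^ 8 * euler ℤ 3 ^ 4)
      = X * euler ℤ 6 ^ 8 * (euler ℤ 3 * b) ^ 4 * (euler ℤ 2 ^ 2 * 1 * c) ^ 4 := by ring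
    _ = X * euler ℤ 6 ^ 8 * (euler ℤ 3 * b) ^ 4 * (euler ℤ 2 ^ 2 * (euler ℤ 1 * a) * c) ^ 4 := by
        rw [h1]
    _ = X * euler ℤ 6 ^ 8 * (euler ℤ 3 * b) ^ 4 * (euler ℤ 1 * (euler ℤ 2 ^ 2 * a * c)) ^ 4 := by
        ring
    _ = X * (euler ℤ 6 ^ 8 * euler ℤ 1 ^ 4) := by
        rw [h3, h2]
        ring

/-- `1 - f` at level six. -/
theorem j1 (h : JTP) : J1 := by
  have hf := lj1_haupt
  have key := lj1_key
  have hA3 : lj1_A ^ 3 * (euler ℤ 1 ^ 3 * euler ℤ 6 ^ 3) = euler ℤ 2 ^ 3 * euler ℤ 3 ^ 6 := by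
    have h1 := lj1_A_mul h
    calc lj1_A ^ 3 * (euler ℤ 1 ^ 3 * euler ℤ 6 ^ 3)
        = (lj1_A * (euler ℤ 1 * euler ℤ 6)) ^ 3 := by ring
      _ = euler ℤ 2 ^ 3 * euler ℤ 3 ^ 6 := by
        rw [h1]
        ring
  have hB3 : lj1_psi.expand 3 three_ne_zero ^ 3 * euler ℤ 3 ^ 3 = euler ℤ 6 ^ 6 := by
    have h1 := congrArg (PowerSeries.expand 3 three_ne_zero) lj1_psi_mul
    rw [map_mul, map_pow, euler_expand ℤ 3 three_ne_zero 1 le_rfl,
      euler_expand ℤ 3 three_ne_zero 2 (by norm_num)] at h1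
    have h2 : lj1_psi.expand 3 three_ne_zero * euler ℤ 3 = euler ℤ 6 ^ 2 := h1
    rw [← mul_pow, h2]
    ring
  have hb : euler ℤ 2 ^ 3 * euler ℤ 3 ^ 4 ≠ 0 :=
    mul_ne_zero (pow_ne_zero _ (d3_euler_ne 2)) (pow_ne_zero _ (d3_euler_ne 3))
  show (1 - hauptN 3 2 ℤ) * (euler ℤ 2 ^ 5 * euler ℤ 6) = euler ℤ 1 * euler ℤ 3 ^ 5
  apply mul_right_cancel₀ hb
  linear_combination (-euler ℤ 6) * hf - euler ℤ 6 * euler ℤ 3 ^ 3 * key +
    X * euler ℤ 1 ^ 4 * euler ℤ 6 ^ 3 * hB3 + euler ℤ 1 * euler ℤ 3 ^ 3 * hA3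

end LN

end GH
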