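import Pool.Agent.GH.LN.EStm
import Pool.Agent.GH.D3.QHaupt3
import Pool.Agent.GH.QHaupt
import Pool.Agent.GH.QGauss

/-!
# Level six: `1 - 9f`

The dissection `φ(-q) = φ(-q^9) - 2 q C(q^3)`, the norm over the cube roots of unity, and the
formula for `1 - f`.
-/

open PowerSeries Filter Topology

noncomputable section

namespace GH

namespace LN

/-! ### Generating series -/

theorem lj2_ff {I : Type} {e : I → ℤ} (he : qtFF e) {p : ℕ} (hp : p ≠ 0) :
    qtFF fun i => (p : ℤ) * e i := by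
  have hp' : (0 : ℤ) < p := by exact_mod_cast Nat.pos_of_ne_zero hp
  refine ⟨fun i => mul_nonneg hp'.le (he.nonneg i), fun m => ?_⟩
  refine (he.fin (m / p)).subset fun i hi => ?_
  have h1 : (p : ℤ) * e i = m := hi
  show e i = m / p
  rw [← h1, Int.mul_ediv_cancel_left _ hp'.ne']

theorem lj2_expand {I : Type} {e : I → ℤ} (he : qtFF e) {p : ℕ} (hp : p ≠ 0) (w : I → ℤ) :
    (qtgs e he w).expand p hp = qtgs (fun i => (p : ℤ) * e i) (lj2_ff he hp) w := by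
  have hp' : (0 : ℤ) < p := by exact_mod_cast Nat.pos_of_ne_zero hp
  ext m
  rw [PowerSeries.coeff_expand, qt_coeff]
  split_ifs with h
  · obtain ⟨l, rfl⟩ := h
    rw [Nat.mul_div_cancel_left l (Nat.pos_of_ne_zero hp), qt_coeff]
    refine Finset.sum_congr ?_ fun _ _ => rfl
    ext i
    rw [Set.Finite.mem_toFinset, Set.Finite.mem_toFinset]
    show e i = (l : ℤ) ↔ (p : ℤ) * e i = ((p * l : ℕ) : ℤ)
    rw [Nat.cast_mul]
    exact (mul_right_inj' hp'.ne').symm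
  · symm
    refine Finset.sum_eq_zero fun i hi => ?_
    rw [Set.Finite.mem_toFinset] at hi
    have h1 : (p : ℤ) * e i = (m : ℤ) := by simpa using hi
    exact absurd (Int.natCast_dvd_natCast.1 ⟨e i, h1.symm⟩) h

theorem lj2_inj0 : Function.Injective fun j : ℤ => 3 * j := fun a b h => by
  have h' : 3 * a = 3 * b := h
  omega

theorem lj2_inj1 : Function.Injective fun j : ℤ => 3 * j + 1 := fun a b h => by
  have h' : 3 * a + 1 = 3 * b + 1 := h
  omega

theorem lj2_inj2 : Function.Injective fun j : ℤ => 3 * j - 1 := fun a b h => by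
  have h' : 3 * a - 1 = 3 * b - 1 := h
  omega

theorem lj2_part {e : ℤ → ℤ} (he : qtFF e) (w : ℤ → ℤ) (r : ℤ) (σ : ℤ → ℤ)
    (hσ : Function.Injective σ) (h1 : ∀ j, σ j % 3 = r) (h2 : ∀ i, i % 3 = r → ∃ j, σ j = i)
    (m : ℕ) : ∑ i ∈ (he.fin m).toFinset.filter (fun i => i % 3 = r), w i =
      PowerSeries.coeff m (qtgs (fun j => e (σ j)) (he.comp σ hσ) fun j => w (σ j)) := by
  classical
  rw [qt_coeff]
  symm
  refine Finset.sum_bij (fun j _ => σ j) ?_ ?_ ?_ ?_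
  · intro j hj
    rw [Set.Finite.mem_toFinset] at hj
    rw [Finset.mem_filter, Set.Finite.mem_toFinset]
    exact ⟨hj, h1 j⟩
  · intro a _ b _ h
    exact hσ h
  · intro i hi
    rw [Finset.mem_filter, Set.Finite.mem_toFinset] at hi
    obtain ⟨j, hj⟩ := h2 i hi.2
    refine ⟨j, ?_, hj⟩
    rw [Set.Finite.mem_toFinset]
    show e (σ j) = m
    rw [hj]
    exact hi.1
  · intro _ _
    rfl

theorem lj2_split {e : ℤ → ℤ} (he : qtFF e) (w : ℤ → ℤ) :
    qtgs e he w = qtgs (fun j => e (3 * j)) (he.comp _ lj2_inj0) (fun j => w (3 * j)) +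
      qtgs (fun j => e (3 * j + 1)) (he.comp _ lj2_inj1) (fun j => w (3 * j + 1)) +
      qtgs (fun j => e (3 * j - 1)) (he.comp _ lj2_inj2) (fun j => w (3 * j - 1)) := by
  classical
  ext m
  rw [map_add, map_add,
    ← lj2_part he w 0 (fun j => 3 * j) lj2_inj0 (fun j => by omega)
      (fun i hi => ⟨i / 3, by show 3 * (i / 3) = i; omega⟩),
    ← lj2_part he w 1 (fun j => 3 * j + 1) lj2_inj1 (fun j => by omega)
      (fun i hi => ⟨i / 3, by show 3 * (i / 3) + 1 = i; omega⟩),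
    ← lj2_part he w 2 (fun j => 3 * j - 1) lj2_inj2 (fun j => by omega)
      (fun i hi => ⟨(i + 1) / 3, by show 3 * ((i + 1) / 3) - 1 = i; omega⟩), qt_coeff]
  rw [← Finset.sum_filter_add_sum_filter_not (he.fin m).toFinset (fun i => i % 3 = 0),
    ← Finset.sum_filter_add_sum_filter_not
      ((he.fin m).toFinset.filter fun i => ¬ i % 3 = 0) (fun i => i % 3 = 1),
    Finset.filter_filter, Finset.filter_filter, ← add_assoc]
  have e1 : ((he.fin m).toFinset.filter fun i => ¬ i % 3 = 0 ∧ i % 3 = 1) =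
      (he.fin m).toFinset.filter fun i => i % 3 = 1 :=
    Finset.filter_congr fun i _ => by omega
  have e2 : ((he.fin m).toFinset.filter fun i => ¬ i % 3 = 0 ∧ ¬ i % 3 = 1) =
      (he.fin m).toFinset.filter fun i => i % 3 = 2 :=
    Finset.filter_congr fun i _ => by omega
  rw [e1, e2]

/-! ### The dissection -/

/-- The series `C`. -/
def lj2_C : PowerSeries ℤ := rf true 1 5 le_rfl (by norm_num)

theorem lj2_jte (j : ℤ) : jte 1 5 j = 3 * (j * j) - 2 * j := by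
  have h := two_jte 1 5 j
  push_cast at h
  linarith

theorem lj2_sg3 (j : ℤ) : (3 * j).negOnePow = j.negOnePow :=
  (Int.negOnePow_eq_iff _ _).2 ⟨j, by ring⟩

theorem lj2_sg1 (j : ℤ) : ((3 * j + 1).negOnePow : ℤ) = -(j.negOnePow : ℤ) := by
  rw [Int.negOnePow_succ, lj2_sg3, Units.val_neg]

theorem lj2_sg2 (j : ℤ) : ((3 * j - 1).negOnePow : ℤ) = -(j.negOnePow : ℤ) := by
  have h : (3 * j - 1).negOnePow = (3 * j + 1).negOnePow :=
    (Int.negOnePow_eq_iff _ _).2 ⟨-1, by ring⟩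
  rw [h, lj2_sg1]

theorem lj2_dis : theta ℤ = ((theta ℤ).expand 3 three_ne_zero).expand 3 three_ne_zero -
    2 * X * lj2_C.expand 3 three_ne_zero := by
  have hC : X * lj2_C.expand 3 three_ne_zero = qtgs (fun j : ℤ => (3 : ℕ) * jte 1 5 j + 1)
      (lj2_ff (jte_ff le_rfl (by norm_num)) three_ne_zero).succ (jtw true) := by
    unfold lj2_C rf
    rw [lj2_expand, qt_X]
  have h9 : ((theta ℤ).expand 3 three_ne_zero).expand 3 three_ne_zero =
      qtgs (fun n : ℤ => (3 : ℕ) * ((3 : ℕ) * (n * n)))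
      (lj2_ff (lj2_ff qt_sq three_ne_zero) three_ne_zero) fun n => (n.negOnePow : ℤ) := by
    rw [qt_theta, qtB, lj2_expand, lj2_expand]
  have h0 : theta ℤ = qtgs (fun j : ℤ => (3 * j) * (3 * j)) (qt_sq.comp _ lj2_inj0)
        (fun j => ((3 * j).negOnePow : ℤ)) +
      qtgs (fun j : ℤ => (3 * j + 1) * (3 * j + 1)) (qt_sq.comp _ lj2_inj1)
        (fun j => ((3 * j + 1).negOnePow : ℤ)) +
      qtgs (fun j : ℤ => (3 * j - 1) * (3 * j - 1)) (qt_sq.comp _ lj2_inj2)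
        (fun j => ((3 * j - 1).negOnePow : ℤ)) := by
    rw [qt_theta, qtB]
    exact lj2_split qt_sq _
  have p1 : qtgs (fun j : ℤ => (3 * j) * (3 * j)) (qt_sq.comp _ lj2_inj0)
      (fun j => ((3 * j).negOnePow : ℤ)) =
      qtgs (fun n : ℤ => (3 : ℕ) * ((3 : ℕ) * (n * n)))
      (lj2_ff (lj2_ff qt_sq three_ne_zero) three_ne_zero) fun n => (n.negOnePow : ℤ) :=
    qt_congr _ (fun j => by push_cast; ring) fun j => by rw [lj2_sg3]
  have p3 : qtgs (fun j : ℤ => (3 * j - 1) * (3 * j - 1)) (qt_sq.comp _ lj2_inj2)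
      (fun j => ((3 * j - 1).negOnePow : ℤ)) = - (X * lj2_C.expand 3 three_ne_zero) := by
    rw [hC, ← qt_neg]
    exact qt_congr _ (fun j => by rw [lj2_jte]; push_cast; ring)
      fun j => by rw [lj2_sg2, jtw, if_pos rfl]
  have hE : qtFF fun j : ℤ => (3 : ℕ) * jte 1 5 (Equiv.neg ℤ j) + 1 :=
    ((lj2_ff (jte_ff le_rfl (by norm_num)) three_ne_zero).succ).comp _
      (Equiv.neg ℤ).injective
  have p2 : qtgs (fun j : ℤ => (3 * j + 1) * (3 * j + 1)) (qt_sq.comp _ lj2_inj1)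
      (fun j => ((3 * j + 1).negOnePow : ℤ)) = - (X * lj2_C.expand 3 three_ne_zero) := by
    rw [hC, ← qt_neg, ← qt_equiv (Equiv.neg ℤ)
      (lj2_ff (jte_ff (α := 1) (β := 5) le_rfl (by norm_num)) three_ne_zero).succ hE
      (fun j => - jtw true j)]
    refine qt_congr _ (fun j => ?_) fun j => ?_
    · rw [Equiv.neg_apply, lj2_jte]
      push_cast
      ring
    · rw [lj2_sg1, jtw, if_pos rfl, Equiv.neg_apply, Int.negOnePow_neg]
  rw [h9, ← p1]
  nth_rewrite 1 [h0]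
  rw [p2, p3]
  ring

/-! ### The product for `C` -/

theorem lj2_fin (N : ℕ) : jtF true 1 5 N *
      ((∏ m ∈ Finset.range (3 * N), (1 - (X : PowerSeries ℤ) ^ (2 * (m + 1)))) *
      ∏ m ∈ Finset.range (2 * N), (1 - (X : PowerSeries ℤ) ^ (3 * (m + 1)))) =
    (∏ m ∈ Finset.range (6 * N), (1 - (X : PowerSeries ℤ) ^ (1 * (m + 1)))) *
      (∏ m ∈ Finset.range N, (1 - (X : PowerSeries ℤ) ^ (6 * (m + 1)))) ^ 2 := by
  unfold jtF jts
  rw [if_pos rfl, map_neg, map_one]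
  induction N with
  | zero => simp
  | succ N ih =>
    have e1 : 3 * (N + 1) = 3 * N + 1 + 1 + 1 := by ring
    have e2 : 2 * (N + 1) = 2 * N + 1 + 1 := by ring
    have e3 : Finset.range (6 * (N + 1)) = Finset.range (6 * N + 1 + 1 + 1 + 1 + 1 + 1) :=
      congrArg Finset.range (by ring)
    rw [e1, e2, e3]
    repeat rw [Finset.prod_range_succ]
    set P1 := ∏ i ∈ Finset.range N, ((1 + -1 * (X : PowerSeries ℤ) ^ (1 + (1 + 5) * i)) *
      (1 + -1 * X ^ (5 + (1 + 5) * i)) * (1 - X ^ ((1 + 5) * (i + 1))))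
    set P2 := ∏ m ∈ Finset.range (3 * N), (1 - (X : PowerSeries ℤ) ^ (2 * (m + 1)))
    set P3 := ∏ m ∈ Finset.range (2 * N), (1 - (X : PowerSeries ℤ) ^ (3 * (m + 1)))
    set P4 := ∏ m ∈ Finset.range (6 * N), (1 - (X : PowerSeries ℤ) ^ (1 * (m + 1)))
    set P5 := ∏ m ∈ Finset.range N, (1 - (X : PowerSeries ℤ) ^ (6 * (m + 1)))
    have a1 : 1 + (1 + 5) * N = 6 * N + 1 := by ring
    have a5 : 5 + (1 + 5) * N = 6 * N + 5 := by ring
    have a6 : (1 + 5) * (N + 1) = 6 * N + 6 := by ring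
    have b1 : 2 * (3 * N + 1) = 6 * N + 2 := by ring
    have b2 : 2 * (3 * N + 1 + 1) = 6 * N + 4 := by ring
    have b3 : 2 * (3 * N + 1 + 1 + 1) = 6 * N + 6 := by ring
    have c1 : 3 * (2 * N + 1) = 6 * N + 3 := by ring
    have c2 : 3 * (2 * N + 1 + 1) = 6 * N + 6 := by ring
    have f1 : 1 * (6 * N + 1) = 6 * N + 1 := by ring
    have f2 : 1 * (6 * N + 1 + 1) = 6 * N + 2 := by ring
    have f3 : 1 * (6 * N + 2 + 1) = 6 * N + 3 := by ring
    have f4 : 1 * (6 * N + 3 + 1) = 6 * N + 4 := by ring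
    have f5 : 1 * (6 * N + 4 + 1) = 6 * N + 5 := by ring
    have f6 : 1 * (6 * N + 5 + 1) = 6 * N + 6 := by ring
    rw [a1, a5, a6, b1, b2, b3, c1, c2, f1, f2, f3, f4, f5, f6]
    generalize (X : PowerSeries ℤ) ^ (6 * N + 1) = x1
    generalize (X : PowerSeries ℤ) ^ (6 * N + 2) = x2
    generalize (X : PowerSeries ℤ) ^ (6 * N + 3) = x3
    generalize (X : PowerSeries ℤ) ^ (6 * N + 4) = x4
    generalize (X : PowerSeries ℤ) ^ (6 * N + 5) = x5
    generalize (X : PowerSeries ℤ) ^ (6 * N + 6) = x6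
    linear_combination ((1 - x1) * (1 - x5) * (1 - x6) * ((1 - x2) * (1 - x4) * (1 - x6)) *
      ((1 - x3) * (1 - x6))) * ih

theorem lj2_prod (h : JTP) :
    lj2_C * (euler ℤ 2 * euler ℤ 3) = euler ℤ 1 * euler ℤ 6 ^ 2 := by
  ext n
  have key : Ideal.Quotient.mk (Ideal.span {(X : PowerSeries ℤ) ^ (n + 1)})
      (lj2_C * (euler ℤ 2 * euler ℤ 3)) =
      Ideal.Quotient.mk (Ideal.span {(X : PowerSeries ℤ) ^ (n + 1)})
        (euler ℤ 1 * euler ℤ 6 ^ 2) := by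
    have h0 := D3.d3_dvd (F := lj2_C) (n := n + 1) (G := jtF true 1 5 n)
      (fun m hm => h true 1 5 le_rfl (by norm_num) m n (by omega))
    have h2 := D3.d3_dvd (F := euler ℤ 2) (n := n + 1)
      (G := ∏ m ∈ Finset.range (3 * n), (1 - (X : PowerSeries ℤ) ^ (2 * (m + 1))))
      (fun m hm => D3.d3_coeff_euler ℤ 2 m (3 * n) (by norm_num) (by omega))
    have h3 := D3.d3_dvd (F := euler ℤ 3) (n := n + 1)
      (G := ∏ m ∈ Finset.range (2 * n), (1 - (X : PowerSeries ℤ) ^ (3 * (m + 1))))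
      (fun m hm => D3.d3_coeff_euler ℤ 3 m (2 * n) (by norm_num) (by omega))
    have h1 := D3.d3_dvd (F := euler ℤ 1) (n := n + 1)
      (G := ∏ m ∈ Finset.range (6 * n), (1 - (X : PowerSeries ℤ) ^ (1 * (m + 1))))
      (fun m hm => D3.d3_coeff_euler ℤ 1 m (6 * n) (by norm_num) (by omega))
    have h6 := D3.d3_dvd (F := euler ℤ 6) (n := n + 1)
      (G := ∏ m ∈ Finset.range n, (1 - (X : PowerSeries ℤ) ^ (6 * (m + 1))))
      (fun m hm => D3.d3_coeff_euler ℤ 6 m n (by norm_num) (by omega))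
    rw [map_mul, map_mul, map_mul, map_pow, h0, h1, h2, h3, h6, ← map_mul, ← map_mul, ← map_pow,
      ← map_mul, lj2_fin]
  rw [Ideal.Quotient.eq, Ideal.mem_span_singleton, PowerSeries.X_pow_dvd_iff] at key
  have := key n (Nat.lt_succ_self n)
  rwa [map_sub, sub_eq_zero] at this

/-! ### The norm -/

section norm

variable {K : Type*} [CommRing K] {z : K}

theorem lj2_rescale2 (z : K) (F : PowerSeries K) :
    rescale z (F.expand 2 two_ne_zero) = (rescale (z ^ 2) F).expand 2 two_ne_zero := by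
  ext n
  rw [coeff_rescale, PowerSeries.coeff_expand, PowerSeries.coeff_expand]
  split_ifs with h
  · obtain ⟨l, rfl⟩ := h
    rw [Nat.mul_div_cancel_left l two_pos, coeff_rescale, pow_mul]
  · rw [mul_zero]

theorem lj2_expand2 (k : ℕ) (hk : 1 ≤ k) :
    (euler K k).expand 2 two_ne_zero = euler K (2 * k) := by
  have h := congrArg (PowerSeries.map (Int.castRingHom K)) (qh_expand_euler k hk)
  rw [PowerSeries.map_expand, fx_map_euler, fx_map_euler] at h
  exact h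

theorem lj2_norm2 (hz : 1 + z + z ^ 2 = 0) :
    euler K 2 * rescale z (euler K 2) * rescale (z ^ 2) (euler K 2) * euler K 18 =
      euler K 6 ^ 4 := by
  have hc := D3.d3_cube hz
  have h4 : (z ^ 2) ^ 2 = z := by
    calc (z ^ 2) ^ 2 = z ^ 3 * z := by ring
      _ = z := by rw [hc, one_mul]
  have h := congrArg (PowerSeries.expand 2 two_ne_zero) (D3.d3_norm hz)
  rw [map_mul, map_mul, map_mul, map_pow, lj2_expand2 9 (by norm_num),
    lj2_expand2 3 (by norm_num), ← lj2_rescale2] at h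
  have h5 : (rescale z (euler K 1)).expand 2 two_ne_zero =
      rescale (z ^ 2) ((euler K 1).expand 2 two_ne_zero) := by
    rw [lj2_rescale2, h4]
  rw [h5, lj2_expand2 1 le_rfl] at h
  linear_combination h

end norm

theorem lj2_inj {F G : PowerSeries ℂ}
    (h : F.expand 3 three_ne_zero = G.expand 3 three_ne_zero) : F = G := by
  ext n
  rw [← PowerSeries.coeff_expand_mul 3 three_ne_zero F n, h, PowerSeries.coeff_expand_mul]

theorem lj2_ne (k : ℕ) : euler ℂ k ≠ 0 := by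
  intro h
  have h1 := fx_constantCoeff_euler ℂ k
  rw [h, map_zero] at h1
  exact zero_ne_one h1

theorem lj2_key_C (T C' : PowerSeries ℂ) (hT : T * euler ℂ 2 = euler ℂ 1 ^ 2)
    (hd : T = (T.expand 3 three_ne_zero).expand 3 three_ne_zero -
      2 * X * C'.expand 3 three_ne_zero) :
    T.expand 3 three_ne_zero * (T.expand 3 three_ne_zero ^ 3 - 8 * X * C' ^ 3) = T ^ 4 := by
  obtain ⟨z, hz⟩ : ∃ z : ℂ, 1 + z + z ^ 2 = 0 := by
    obtain ⟨z, hz⟩ := IsAlgClosed.exists_root (Polynomial.X ^ 2 + Polynomial.X + 1 : Polynomial ℂ)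
      (by
        have h : (Polynomial.X ^ 2 + Polynomial.X + 1 : Polynomial ℂ).degree = 2 := by
          compute_degree!
        rw [h]
        decide)
    refine ⟨z, ?_⟩
    rw [Polynomial.IsRoot.def] at hz
    simp only [Polynomial.eval_add, Polynomial.eval_pow, Polynomial.eval_X,
      Polynomial.eval_one] at hz
    linear_combination hz
  have hz2 : 1 + z ^ 2 + (z ^ 2) ^ 2 = 0 := by linear_combination (z ^ 2 - z + 1) * hz
  have hres : ∀ y : ℂ, 1 + y + y ^ 2 = 0 → rescale y T =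
      (T.expand 3 three_ne_zero).expand 3 three_ne_zero -
        C y * (2 * X * C'.expand 3 three_ne_zero) := by
    intro y hy
    nth_rewrite 1 [hd]
    rw [map_sub, D3.d3_rescale_expand hy, map_mul, map_mul, D3.d3_rescale_expand hy, rescale_X,
      map_ofNat]
    ring
  have hn1 := D3.d3_norm (K := ℂ) hz
  have hn2 := lj2_norm2 (K := ℂ) hz
  have h1 : (1 : PowerSeries ℂ) + C z + C z ^ 2 = 0 := by
    rw [← map_pow, ← map_one (C : ℂ →+* PowerSeries ℂ), ← map_add, ← map_add, hz, map_zero]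
  have h3 : (C z : PowerSeries ℂ) ^ 3 = 1 := by
    rw [← map_pow, D3.d3_cube hz, map_one]
  have e3 := congrArg (PowerSeries.expand 3 three_ne_zero) hT
  rw [map_mul, map_pow, D3.d3_expand_euler ℂ 2 (by norm_num),
    D3.d3_expand_euler ℂ 1 le_rfl] at e3
  have e9 := congrArg (PowerSeries.expand 3 three_ne_zero) e3
  rw [map_mul, map_pow, D3.d3_expand_euler ℂ (3 * 2) (by norm_num),
    D3.d3_expand_euler ℂ (3 * 1) (by norm_num)] at e9
  have r1 := congrArg (rescale z) hT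
  have r2 := congrArg (rescale (z ^ 2)) hT
  rw [map_mul, map_pow] at r1 r2
  apply lj2_inj
  rw [map_mul, map_sub, map_mul, map_mul, map_pow, map_pow, map_pow, PowerSeries.expand_X,
    map_ofNat]
  have hN : T * rescale z T * rescale (z ^ 2) T =
      ((T.expand 3 three_ne_zero).expand 3 three_ne_zero) ^ 3 -
        8 * X ^ 3 * C'.expand 3 three_ne_zero ^ 3 := by
    rw [hres z hz, hres (z ^ 2) hz2, map_pow]
    nth_rewrite 1 [hd]
    generalize (T.expand 3 three_ne_zero).expand 3 three_ne_zero = A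
    generalize C'.expand 3 three_ne_zero = B
    linear_combination (-2 * A ^ 2 * X * B + 4 * A * X ^ 2 * B ^ 2 * C z) * h1 -
      8 * X ^ 3 * B ^ 3 * h3
  rw [← hN]
  have b1 : euler ℂ (3 * 2) ^ 4 ≠ 0 := pow_ne_zero _ (lj2_ne _)
  have b2 : euler ℂ (3 * (3 * 2)) ≠ 0 := lj2_ne _
  have b3 : euler ℂ (3 * (3 * 1)) ^ 2 ≠ 0 := pow_ne_zero _ (lj2_ne _)
  apply mul_right_cancel₀ b1
  apply mul_right_cancel₀ b2
  apply mul_right_cancel₀ b3
  generalize (T.expand 3 three_ne_zero).expand 3 three_ne_zero = A at e9 ⊢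
  generalize T.expand 3 three_ne_zero = A' at e3 ⊢
  generalize rescale z T = T1 at r1 ⊢
  generalize rescale (z ^ 2) T = T2 at r2 ⊢
  generalize rescale z (euler ℂ 1) = u1 at r1 hn1
  generalize rescale (z ^ 2) (euler ℂ 1) = u2 at r2 hn1
  generalize rescale z (euler ℂ 2) = v1 at r1 hn2
  generalize rescale (z ^ 2) (euler ℂ 2) = v2 at r2 hn2
  norm_num only at e3 e9 ⊢
  generalize euler ℂ 18 = e18 at hn2 e9 ⊢
  generalize euler ℂ 9 = ee9 at hn1 e9 ⊢
  generalize euler ℂ 6 = e6 at hn2 e3 ⊢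
  generalize euler ℂ 3 = ee3 at hn1 e3 ⊢
  generalize euler ℂ 2 = e2 at hn2 hT
  generalize euler ℂ 1 = e1 at hn1 hT
  calc A * (T * T1 * T2) * e6 ^ 4 * e18 * ee9 ^ 2
      = (T * T1 * T2) * (e2 * v1 * v2 * e18) * (A * e18) * ee9 ^ 2 := by rw [hn2]; ring
    _ = (T * e2) * (T1 * v1) * (T2 * v2) * e18 * (A * e18) * ee9 ^ 2 := by ring
    _ = (e1 * u1 * u2 * ee9) ^ 2 * e18 * ee9 ^ 2 := by rw [hT, r1, r2, e9]; ring
    _ = (ee3 ^ 2) ^ 4 * e18 * ee9 ^ 2 := by rw [hn1]; ring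
    _ = A' ^ 4 * e6 ^ 4 * e18 * ee9 ^ 2 := by rw [← e3]; ring

theorem lj2_key : (theta ℤ).expand 3 three_ne_zero *
    ((theta ℤ).expand 3 three_ne_zero ^ 3 - 8 * X * lj2_C ^ 3) = theta ℤ ^ 4 := by
  have h1 := congrArg (PowerSeries.map (Int.castRingHom ℂ)) theta_mul_euler
  rw [map_mul, map_pow, fx_map_euler, fx_map_euler] at h1
  have h2 := congrArg (PowerSeries.map (Int.castRingHom ℂ)) lj2_dis
  rw [map_sub, PowerSeries.map_expand, PowerSeries.map_expand, map_mul, map_mul,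
    PowerSeries.map_expand, map_ofNat, PowerSeries.map_X] at h2
  have h3 := lj2_key_C _ _ h1 h2
  apply D3.d3_map_inj
  rw [map_mul, map_sub, map_pow, map_pow, map_mul, map_mul, map_pow, map_ofNat,
    PowerSeries.map_X, PowerSeries.map_expand]
  exact h3

/-! ### The Hauptmodul -/

theorem lj2_inv (k : ℕ) : euler ℤ k * invOfUnit (euler ℤ k) 1 = 1 := D3.d3_mul_inv ℤ k

theorem lj2_haupt : hauptN 3 2 ℤ * (euler ℤ 3 ^ 4 * euler ℤ 2 ^ 8) =
    X * (euler ℤ 6 ^ 8 * euler ℤ 1 ^ 4) := by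
  have h0 : hauptN 3 2 ℤ = X * (etaNp 3 2 ℤ * invOfUnit (etaN 2 ℤ) 1) ^ 4 := rfl
  have h1 : etaN 2 ℤ * euler ℤ 1 = euler ℤ 2 ^ 2 := by
    have : etaN 2 ℤ = euler ℤ 2 ^ 2 * invOfUnit (euler ℤ 1) 1 := rfl
    rw [this]
    linear_combination euler ℤ 2 ^ 2 * lj2_inv 1
  have h2 : etaNp 3 2 ℤ * euler ℤ 3 = euler ℤ 6 ^ 2 := by
    have : etaNp 3 2 ℤ = euler ℤ 6 ^ 2 * invOfUnit (euler ℤ 3) 1 := rfl
    rw [this]
    linear_combination euler ℤ 6 ^ 2 * lj2_inv 3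
  have h3 : etaN 2 ℤ * invOfUnit (etaN 2 ℤ) 1 = 1 :=
    PowerSeries.mul_invOfUnit _ _ (by rw [constantCoeff_etaN]; rfl)
  have h4 : etaNp 3 2 ℤ * invOfUnit (etaN 2 ℤ) 1 * (euler ℤ 3 * euler ℤ 2 ^ 2) =
      euler ℤ 6 ^ 2 * euler ℤ 1 := by
    rw [← h1]
    linear_combination (etaNp 3 2 ℤ * euler ℤ 3 * euler ℤ 1) * h3 + euler ℤ 1 * h2
  calc hauptN 3 2 ℤ * (euler ℤ 3 ^ 4 * euler ℤ 2 ^ 8)
      = X * (etaNp 3 2 ℤ * invOfUnit (etaN 2 ℤ) 1 * (euler ℤ 3 * euler ℤ 2 ^ 2)) ^ 4 := by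
        rw [h0]; ring
    _ = X * (euler ℤ 6 ^ 8 * euler ℤ 1 ^ 4) := by rw [h4]; ring

/-- `1 - 9f` for `(p, N) = (3, 2)`. -/
theorem j2 (h : JTP) (h1 : J1) : J2 := by
  have hC := lj2_prod h
  have hk := lj2_key
  have hf := lj2_haupt
  have hT := theta_mul_euler
  have hT3 := congrArg (PowerSeries.expand 3 three_ne_zero) hT
  rw [map_mul, map_pow, D3.d3_expand_euler ℤ 2 (by norm_num),
    D3.d3_expand_euler ℤ 1 le_rfl] at hT3
  norm_num only at hT3
  unfold J1 at h1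
  unfold J2
  have n3 : euler ℤ 3 ≠ 0 := qh_euler_ne 3
  have n6 : euler ℤ 6 ≠ 0 := qh_euler_ne 6
  generalize (theta ℤ).expand 3 three_ne_zero = T3 at hk hT3
  generalize theta ℤ = T at hk hT
  generalize lj2_C = Cc at hk hC
  generalize hauptN 3 2 ℤ = f at hf h1 ⊢
  generalize euler ℤ 1 = e1 at *
  generalize euler ℤ 2 = e2 at *
  generalize euler ℤ 3 = e3 at *
  generalize euler ℤ 6 = e6 at *
  -- the key identity in terms of the products
  have hI : e1 ^ 8 * e6 ^ 4 * e3 = e3 ^ 9 * e2 ^ 4 - 8 * X * (e1 ^ 3 * e6 ^ 9 * e2) := by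
    have n : e3 ^ 2 ≠ 0 := pow_ne_zero _ n3
    apply mul_right_cancel₀ n
    calc e1 ^ 8 * e6 ^ 4 * e3 * e3 ^ 2 = (T * e2) ^ 4 * e6 ^ 4 * e3 ^ 3 := by rw [hT]; ring
      _ = T ^ 4 * (e2 ^ 4 * e6 ^ 4 * e3 ^ 3) := by ring
      _ = (T3 * e6) ^ 4 * e2 ^ 4 * e3 ^ 3 -
          8 * X * ((T3 * e6) * (Cc * (e2 * e3)) ^ 3 * (e2 * e6 ^ 3)) := by rw [← hk]; ring
      _ = (e3 ^ 9 * e2 ^ 4 - 8 * X * (e1 ^ 3 * e6 ^ 9 * e2)) * e3 ^ 2 := by
        rw [hT3, hC]; ring
  have n : e3 * e6 ≠ 0 := mul_ne_zero n3 n6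
  apply mul_right_cancel₀ n
  calc (1 - 9 * f) * (e2 ^ 9 * e3 ^ 3) * (e3 * e6)
      = ((1 - f) * (e2 ^ 5 * e6)) * (e2 ^ 4 * e3 ^ 4) -
        8 * (f * (e3 ^ 4 * e2 ^ 8)) * (e2 * e6) := by ring
    _ = e1 * (e3 ^ 9 * e2 ^ 4 - 8 * X * (e1 ^ 3 * e6 ^ 9 * e2)) := by rw [h1, hf]; ring
    _ = e1 ^ 9 * e6 ^ 3 * (e3 * e6) := by rw [← hI]; ring

end LN

end GH
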