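import Pool.Agent.GH.LN.EStm
import Pool.Agent.GH.QGauss

/-!
# Level ten: `1 - f`
-/

open PowerSeries Filter Topology

noncomputable section

namespace GH

namespace LN

/-! ### Working modulo powers of `X` -/

/-- The projection modulo `X^(N+1)`. -/
def lk1_pi (N : ℕ) : PowerSeries ℤ →+* PowerSeries ℤ ⧸ Ideal.span {(X : PowerSeries ℤ) ^ (N + 1)} :=
  Ideal.Quotient.mk _

theorem lk1_pi_eq (N : ℕ) (A B : PowerSeries ℤ) :
    lk1_pi N A = lk1_pi N B ↔ (X : PowerSeries ℤ) ^ (N + 1) ∣ A - B := by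
  unfold lk1_pi
  rw [Ideal.Quotient.eq, Ideal.mem_span_singleton]

theorem lk1_ext {A B : PowerSeries ℤ} (h : ∀ N, lk1_pi N A = lk1_pi N B) : A = B := by
  ext n
  have h1 := (lk1_pi_eq n A B).1 (h n)
  rw [X_pow_dvd_iff] at h1
  have h2 := h1 n (Nat.lt_succ_self n)
  rwa [map_sub, sub_eq_zero] at h2

theorem lk1_euler (k N M : ℕ) (hk : 1 ≤ k) (hM : N ≤ M) : lk1_pi N (euler ℤ k) =
    lk1_pi N (∏ m ∈ Finset.range M, (1 - (X : PowerSeries ℤ) ^ (k * (m + 1)))) := by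
  rw [lk1_pi_eq]
  exact (pow_dvd_pow _ (by omega)).trans (qg_euler k M hk)

theorem lk1_jtp (h : JTP) (s : Bool) (α β : ℕ) (hα : 1 ≤ α) (hβ : 1 ≤ β) (N M : ℕ)
    (hM : N ≤ M) : lk1_pi N (rf s α β hα hβ) = lk1_pi N (jtF s α β M) := by
  rw [lk1_pi_eq, X_pow_dvd_iff]
  intro j hj
  rw [map_sub, sub_eq_zero]
  exact h s α β hα hβ j M (by omega)

/-! ### Generating series -/

theorem lk1_FF_mul {I : Type} {e : I → ℤ} (he : qtFF e) (p : ℕ) (hp : p ≠ 0) :
    qtFF fun i => (p : ℤ) * e i := by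
  have hp' : (0 : ℤ) < p := by exact_mod_cast Nat.pos_of_ne_zero hp
  refine ⟨fun i => mul_nonneg hp'.le (he.nonneg i), fun m => ?_⟩
  refine (he.fin (m / p)).subset fun i hi => ?_
  have h1 : (p : ℤ) * e i = m := hi
  show e i = m / p
  rw [← h1, Int.mul_ediv_cancel_left _ hp'.ne']

theorem lk1_expand {I : Type} {e : I → ℤ} (he : qtFF e) (w : I → ℤ) (p : ℕ) (hp : p ≠ 0) :
    (qtgs e he w).expand p hp = qtgs (fun i => (p : ℤ) * e i) (lk1_FF_mul he p hp) w := by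
  have hp' : (0 : ℤ) < p := by exact_mod_cast Nat.pos_of_ne_zero hp
  ext m
  rw [PowerSeries.coeff_expand, qt_coeff]
  split_ifs with h
  · obtain ⟨k, rfl⟩ := h
    rw [Nat.mul_div_cancel_left k (Nat.pos_of_ne_zero hp), qt_coeff]
    refine Finset.sum_congr ?_ fun _ _ => rfl
    ext i
    rw [Set.Finite.mem_toFinset, Set.Finite.mem_toFinset]
    show e i = (k : ℤ) ↔ (p : ℤ) * e i = ((p * k : ℕ) : ℤ)
    push_cast
    constructor
    · intro h; rw [h]
    · intro h; exact mul_left_cancel₀ hp'.ne' h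
  · symm
    refine Finset.sum_eq_zero fun i hi => ?_
    rw [Set.Finite.mem_toFinset] at hi
    have h1 : (p : ℤ) * e i = m := by simpa using hi
    exact absurd (by exact_mod_cast (Dvd.intro _ h1 : (p : ℤ) ∣ m)) h

theorem lk1_range {I J : Type} (σ : J → I) (hσ : Function.Injective σ) {e : I → ℤ}
    (he : qtFF e) (P : I → Prop) [DecidablePred P] (hP : ∀ i, P i ↔ ∃ j, σ j = i) (w : I → ℤ) :
    qtgs (fun j => e (σ j)) (he.comp σ hσ) (fun j => w (σ j)) =
      qtgs e he fun i => if P i then w i else 0 := by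
  classical
  ext m
  rw [qt_coeff, qt_coeff, ← Finset.sum_filter]
  refine Finset.sum_bij (fun j _ => σ j) ?_ ?_ ?_ ?_
  · intro j hj
    rw [Set.Finite.mem_toFinset] at hj
    rw [Finset.mem_filter, Set.Finite.mem_toFinset]
    exact ⟨hj, (hP _).2 ⟨j, rfl⟩⟩
  · intro j _ j' _ h
    exact hσ h
  · intro i hi
    rw [Finset.mem_filter, Set.Finite.mem_toFinset] at hi
    obtain ⟨j, rfl⟩ := (hP i).1 hi.2
    exact ⟨j, by rw [Set.Finite.mem_toFinset]; exact hi.1, rfl⟩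
  · intro j _
    rfl

theorem lk1_add {I : Type} {e : I → ℤ} (he : qtFF e) (w w' : I → ℤ) :
    qtgs e he (fun i => w i + w' i) = qtgs e he w + qtgs e he w' := by
  ext m
  rw [map_add, qt_coeff, qt_coeff, qt_coeff, Finset.sum_add_distrib]

theorem lk1_smul {I : Type} {e : I → ℤ} (he : qtFF e) (c : ℤ) (w : I → ℤ) :
    qtgs e he (fun i => c * w i) = C c * qtgs e he w := by
  ext m
  rw [PowerSeries.coeff_C_mul, qt_coeff, qt_coeff, Finset.mul_sum]

theorem lk1_zero {I : Type} {e : I → ℤ} (he : qtFF e) : qtgs e he (fun _ => 0) = 0 := by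
  ext m
  rw [map_zero, qt_coeff, Finset.sum_const_zero]

/-- Invariance under a symmetry. -/
theorem lk1_inv {I : Type} (σ : I ≃ I) {e : I → ℤ} (he : qtFF e) (h : ∀ i, e (σ i) = e i)
    (w : I → ℤ) : qtgs e he (fun i => w (σ i)) = qtgs e he w := by
  rw [← qt_equiv σ he (he.comp σ σ.injective) w]
  exact qt_congr he (fun i => (h i).symm) fun _ => rfl

/-- Averaging over the dihedral group. -/
theorem lk1_avg {I : Type} (σ₁ σ₂ σ₃ : I ≃ I) {e : I → ℤ} (he : qtFF e)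
    (h1 : ∀ i, e (σ₁ i) = e i) (h2 : ∀ i, e (σ₂ i) = e i) (h3 : ∀ i, e (σ₃ i) = e i)
    (w : I → ℤ) (hw : ∀ i, ((w i + w (σ₁ i)) + (w (σ₂ i) + w (σ₁ (σ₂ i)))) +
      ((w (σ₃ i) + w (σ₁ (σ₃ i))) + (w (σ₂ (σ₃ i)) + w (σ₁ (σ₂ (σ₃ i))))) = 0) :
    qtgs e he w = 0 := by
  have e1 : qtgs e he (fun i => w i + w (σ₁ i)) = 2 * qtgs e he w := by
    rw [lk1_add, lk1_inv σ₁ he h1 w]; ring
  have e2 : qtgs e he (fun i => (w i + w (σ₁ i)) + (w (σ₂ i) + w (σ₁ (σ₂ i)))) =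
      4 * qtgs e he w := by
    rw [lk1_add, lk1_inv σ₂ he h2 (fun i => w i + w (σ₁ i)), e1]; ring
  have e3 : qtgs e he (fun i => ((w i + w (σ₁ i)) + (w (σ₂ i) + w (σ₁ (σ₂ i)))) +
      ((w (σ₃ i) + w (σ₁ (σ₃ i))) + (w (σ₂ (σ₃ i)) + w (σ₁ (σ₂ (σ₃ i)))))) =
      8 * qtgs e he w := by
    rw [lk1_add, lk1_inv σ₃ he h3 (fun i => (w i + w (σ₁ i)) + (w (σ₂ i) + w (σ₁ (σ₂ i)))), e2]
    ring
  have e4 : qtgs e he (fun i => ((w i + w (σ₁ i)) + (w (σ₂ i) + w (σ₁ (σ₂ i)))) +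
      ((w (σ₃ i) + w (σ₁ (σ₃ i))) + (w (σ₂ (σ₃ i)) + w (σ₁ (σ₂ (σ₃ i)))))) = 0 := by
    simp only [hw]
    exact lk1_zero he
  rw [e4] at e3
  ext m
  have h5 := congrArg (PowerSeries.coeff m) e3
  have h6 : (8 * qtgs e he w : PowerSeries ℤ) = C (8 : ℤ) * qtgs e he w := by rw [map_ofNat]
  rw [h6, PowerSeries.coeff_C_mul, map_zero] at h5
  rw [map_zero]
  omega

/-! ### The identity -/

/-- The exponents. -/
def lk1_e (p : ℤ × ℤ) : ℤ := p.1 * (p.1 + 1) + p.2 * (p.2 + 1)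

theorem lk1_he : qtFF lk1_e := qt_tri.prod qt_tri

/-- The weights modulo five. -/
def lk1_W (x y : ZMod 5) : ℤ :=
  1 + (-1) * (if x = 2 * (y - 1) then 1 else 0) + (-4) * (if x = 2 * y then 1 else 0)

theorem lk1_W_sum : ∀ x y : ZMod 5,
    ((lk1_W x y + lk1_W (-1 - x) y) + (lk1_W x (-1 - y) + lk1_W (-1 - x) (-1 - y))) +
      ((lk1_W y x + lk1_W (-1 - y) x) + (lk1_W y (-1 - x) + lk1_W (-1 - y) (-1 - x))) = 0 := by
  decide

theorem lk1_dvd (a : ℤ) (h : (a : ZMod 5) = 0) : ∃ b, a = 5 * b := by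
  have h1 := (CharP.intCast_eq_zero_iff (ZMod 5) 5 a).1 h
  obtain ⟨b, hb⟩ := h1
  exact ⟨b, by exact_mod_cast hb⟩

theorem lk1_main : qtQ * qtQ - X ^ 2 * (qtQ * qtQ).expand 5 D52.five_ne =
    4 * ((rf false 2 3 (by norm_num) (by norm_num)) *
      (rf false 1 4 (by norm_num) (by norm_num))).expand 2 two_ne_zero := by
  -- the three series
  have hQ : qtQ * qtQ = qtgs lk1_e lk1_he fun _ => 1 := by
    rw [qtQ, qt_mul]
    exact qt_congr _ (fun _ => rfl) fun _ => by ring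
  have h5 : X ^ 2 * (qtQ * qtQ).expand 5 D52.five_ne = qtgs lk1_e lk1_he
      fun p => if (p.1 : ZMod 5) = 2 * ((p.2 : ZMod 5) - 1) then 1 else 0 := by
    have hσ : Function.Injective fun p : ℤ × ℤ => (2 * p.1 - p.2, p.1 + 2 * p.2 + 1) := by
      rintro ⟨a, b⟩ ⟨c, d⟩ h
      have h1 : 2 * a - b = 2 * c - d := congrArg Prod.fst h
      have h2 : a + 2 * b + 1 = c + 2 * d + 1 := congrArg Prod.snd h
      refine Prod.ext ?_ ?_
      · show a = c
        omega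
      · show b = d
        omega
    rw [← lk1_range _ hσ lk1_he (fun p => (p.1 : ZMod 5) = 2 * ((p.2 : ZMod 5) - 1)) ?_
      (fun _ => 1)]
    · rw [hQ, lk1_expand, pow_two, mul_assoc, qt_X, qt_X]
      refine qt_congr _ (fun p => ?_) fun _ => rfl
      show ((5 : ℕ) : ℤ) * lk1_e p + 1 + 1 = lk1_e (2 * p.1 - p.2, p.1 + 2 * p.2 + 1)
      unfold lk1_e
      push_cast
      ring
    · rintro ⟨m, n⟩
      constructor
      · intro h
        have h1 : ((m - 2 * (n - 1) : ℤ) : ZMod 5) = 0 := by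
          push_cast
          rw [sub_eq_zero]
          exact h
        obtain ⟨b, hb⟩ := lk1_dvd _ h1
        refine ⟨(n - 1 + 2 * b, -b), ?_⟩
        refine Prod.ext ?_ ?_
        · show 2 * (n - 1 + 2 * b) - (-b) = m
          omega
        · show (n - 1 + 2 * b) + 2 * (-b) + 1 = n
          ring
      · rintro ⟨⟨k, l⟩, h⟩
        have h1 : 2 * k - l = m := congrArg Prod.fst h
        have h2 : k + 2 * l + 1 = n := congrArg Prod.snd h
        show (m : ZMod 5) = 2 * ((n : ZMod 5) - 1)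
        rw [← h1, ← h2]
        push_cast
        have : (5 : ZMod 5) = 0 := by decide
        linear_combination (-(l : ZMod 5)) * this
  have h4 : ((rf false 2 3 (by norm_num) (by norm_num)) *
      (rf false 1 4 (by norm_num) (by norm_num))).expand 2 two_ne_zero = qtgs lk1_e lk1_he
      fun p => if (p.1 : ZMod 5) = 2 * (p.2 : ZMod 5) then 1 else 0 := by
    have hσ : Function.Injective fun p : ℤ × ℤ => (p.1 - 2 * p.2, -2 * p.1 - p.2) := by
      rintro ⟨a, b⟩ ⟨c, d⟩ h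
      have h1 : a - 2 * b = c - 2 * d := congrArg Prod.fst h
      have h2 : -2 * a - b = -2 * c - d := congrArg Prod.snd h
      refine Prod.ext ?_ ?_
      · show a = c
        omega
      · show b = d
        omega
    rw [← lk1_range _ hσ lk1_he (fun p => (p.1 : ZMod 5) = 2 * (p.2 : ZMod 5)) ?_
      (fun _ => 1)]
    · rw [rf, rf, qt_mul, qt_expand]
      refine qt_congr _ (fun p => ?_) fun _ => ?_
      · show 2 * (jte 2 3 p.1 + jte 1 4 p.2) = lk1_e (p.1 - 2 * p.2, -2 * p.1 - p.2)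
        rw [mul_add, two_jte, two_jte]
        unfold lk1_e
        push_cast
        ring
      · simp [jtw]
    · rintro ⟨m, n⟩
      constructor
      · intro h
        have h1 : ((m - 2 * n : ℤ) : ZMod 5) = 0 := by
          push_cast
          rw [sub_eq_zero]
          exact h
        obtain ⟨b, hb⟩ := lk1_dvd _ h1
        -- m = 2 n + 5 b; i = b, j = - (2 m + n) / 5 = - (n + 2 b)
        refine ⟨(b, -(n + 2 * b)), ?_⟩
        refine Prod.ext ?_ ?_
        · show b - 2 * -(n + 2 * b) = m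
          omega
        · show -2 * b - -(n + 2 * b) = n
          ring
      · rintro ⟨⟨k, l⟩, h⟩
        have h1 : k - 2 * l = m := congrArg Prod.fst h
        have h2 : -2 * k - l = n := congrArg Prod.snd h
        show (m : ZMod 5) = 2 * (n : ZMod 5)
        rw [← h1, ← h2]
        push_cast
        have : (5 : ZMod 5) = 0 := by decide
        linear_combination (k : ZMod 5) * this
  -- the symmetries
  let σ₁ : ℤ × ℤ ≃ ℤ × ℤ := ⟨fun p => (-1 - p.1, p.2), fun p => (-1 - p.1, p.2),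
    fun p => by ext <;> simp, fun p => by ext <;> simp⟩
  let σ₂ : ℤ × ℤ ≃ ℤ × ℤ := ⟨fun p => (p.1, -1 - p.2), fun p => (p.1, -1 - p.2),
    fun p => by ext <;> simp, fun p => by ext <;> simp⟩
  let σ₃ : ℤ × ℤ ≃ ℤ × ℤ := Equiv.prodComm ℤ ℤ
  have h0 : qtgs lk1_e lk1_he (fun p => lk1_W (p.1 : ZMod 5) (p.2 : ZMod 5)) = 0 := by
    refine lk1_avg σ₁ σ₂ σ₃ lk1_he ?_ ?_ ?_ _ ?_
    · rintro ⟨m, n⟩
      show lk1_e (-1 - m, n) = lk1_e (m, n)
      unfold lk1_e
      ring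
    · rintro ⟨m, n⟩
      show lk1_e (m, -1 - n) = lk1_e (m, n)
      unfold lk1_e
      ring
    · rintro ⟨m, n⟩
      show lk1_e (n, m) = lk1_e (m, n)
      unfold lk1_e
      ring
    · rintro ⟨m, n⟩
      have := lk1_W_sum (m : ZMod 5) (n : ZMod 5)
      show ((lk1_W ((m : ℤ) : ZMod 5) ((n : ℤ) : ZMod 5) +
        lk1_W ((-1 - m : ℤ) : ZMod 5) ((n : ℤ) : ZMod 5)) +
        (lk1_W ((m : ℤ) : ZMod 5) ((-1 - n : ℤ) : ZMod 5) +
        lk1_W ((-1 - m : ℤ) : ZMod 5) ((-1 - n : ℤ) : ZMod 5))) +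
        ((lk1_W ((n : ℤ) : ZMod 5) ((m : ℤ) : ZMod 5) +
        lk1_W ((-1 - n : ℤ) : ZMod 5) ((m : ℤ) : ZMod 5)) +
        (lk1_W ((n : ℤ) : ZMod 5) ((-1 - m : ℤ) : ZMod 5) +
        lk1_W ((-1 - n : ℤ) : ZMod 5) ((-1 - m : ℤ) : ZMod 5))) = 0
      push_cast
      exact this
  have hW : qtgs lk1_e lk1_he (fun p => lk1_W (p.1 : ZMod 5) (p.2 : ZMod 5)) =
      (qtgs lk1_e lk1_he fun _ => 1) + C (-1) * (qtgs lk1_e lk1_he
        fun p => if (p.1 : ZMod 5) = 2 * ((p.2 : ZMod 5) - 1) then 1 else 0) +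
      C (-4) * (qtgs lk1_e lk1_he fun p => if (p.1 : ZMod 5) = 2 * (p.2 : ZMod 5) then 1 else 0) := by
    rw [← lk1_smul, ← lk1_smul, ← lk1_add, ← lk1_add]
    rfl
  rw [hW] at h0
  rw [h4, h5, hQ]
  rw [map_neg, map_neg, map_one, map_ofNat] at h0
  linear_combination h0

/-! ### The product -/

theorem lk1_prod (m : ℕ) : jtF false 2 3 m * jtF false 1 4 m *
    ((∏ i ∈ Finset.range (5 * m), (1 - (X : PowerSeries ℤ) ^ (1 * (i + 1)))) *
      ∏ i ∈ Finset.range m, (1 - (X : PowerSeries ℤ) ^ (10 * (i + 1)))) =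
    (∏ i ∈ Finset.range (5 * m), (1 - (X : PowerSeries ℤ) ^ (2 * (i + 1)))) *
      (∏ i ∈ Finset.range m, (1 - (X : PowerSeries ℤ) ^ (5 * (i + 1)))) ^ 3 := by
  induction m with
  | zero => simp [jtF]
  | succ m ih =>
    have e5 : 5 * (m + 1) = 5 * m + 1 + 1 + 1 + 1 + 1 := by ring
    unfold jtF at ih ⊢
    rw [e5]
    simp only [Finset.prod_range_succ]
    have hs : (C (jts false) : PowerSeries ℤ) = 1 := by simp [jts]
    rw [hs] at ih ⊢
    simp only [one_mul] at ih ⊢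
    set P1 := ∏ x ∈ Finset.range m, (1 + (X : PowerSeries ℤ) ^ (2 + (2 + 3) * x)) *
      (1 + X ^ (3 + (2 + 3) * x)) * (1 - X ^ ((2 + 3) * (x + 1))) with hP1
    set P2 := ∏ x ∈ Finset.range m, (1 + (X : PowerSeries ℤ) ^ (1 + (1 + 4) * x)) *
      (1 + X ^ (4 + (1 + 4) * x)) * (1 - X ^ ((1 + 4) * (x + 1))) with hP2
    set P3 := ∏ i ∈ Finset.range (5 * m), (1 - (X : PowerSeries ℤ) ^ (i + 1)) with hP3
    set P4 := ∏ i ∈ Finset.range m, (1 - (X : PowerSeries ℤ) ^ (10 * (i + 1))) with hP4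
    set P5 := ∏ i ∈ Finset.range (5 * m), (1 - (X : PowerSeries ℤ) ^ (2 * (i + 1))) with hP5
    set P6 := ∏ i ∈ Finset.range m, (1 - (X : PowerSeries ℤ) ^ (5 * (i + 1))) with hP6
    set a := (X : PowerSeries ℤ) ^ (5 * m + 1) with ha
    set b := (X : PowerSeries ℤ) ^ (5 * m + 1 + 1) with hb
    set c := (X : PowerSeries ℤ) ^ (5 * m + 1 + 1 + 1) with hc
    set d := (X : PowerSeries ℤ) ^ (5 * m + 1 + 1 + 1 + 1) with hd
    set f := (X : PowerSeries ℤ) ^ (5 * m + 1 + 1 + 1 + 1 + 1) with hf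
    have x1 : (X : PowerSeries ℤ) ^ (2 + (2 + 3) * m) = b := by rw [hb]; congr 1; ring
    have x2 : (X : PowerSeries ℤ) ^ (3 + (2 + 3) * m) = c := by rw [hc]; congr 1; ring
    have x3 : (X : PowerSeries ℤ) ^ ((2 + 3) * (m + 1)) = f := by rw [hf]; congr 1
    have x4 : (X : PowerSeries ℤ) ^ (1 + (1 + 4) * m) = a := by rw [ha]; congr 1; ring
    have x5 : (X : PowerSeries ℤ) ^ (4 + (1 + 4) * m) = d := by rw [hd]; congr 1; ring
    have x8 : 1 - (X : PowerSeries ℤ) ^ (10 * (m + 1)) = (1 - f) * (1 + f) := by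
      have : (X : PowerSeries ℤ) ^ (10 * (m + 1)) = f ^ 2 := by rw [hf, ← pow_mul]; congr 1; ring
      rw [this]; ring
    have y1 : 1 - (X : PowerSeries ℤ) ^ (2 * (5 * m + 1)) = (1 - a) * (1 + a) := by
      have : (X : PowerSeries ℤ) ^ (2 * (5 * m + 1)) = a ^ 2 := by rw [ha, ← pow_mul]; congr 1; ring
      rw [this]; ring
    have y2 : 1 - (X : PowerSeries ℤ) ^ (2 * (5 * m + 1 + 1)) = (1 - b) * (1 + b) := by
      have : (X : PowerSeries ℤ) ^ (2 * (5 * m + 1 + 1)) = b ^ 2 := by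
        rw [hb, ← pow_mul]; congr 1; ring
      rw [this]; ring
    have y3 : 1 - (X : PowerSeries ℤ) ^ (2 * (5 * m + 2 + 1)) = (1 - c) * (1 + c) := by
      have : (X : PowerSeries ℤ) ^ (2 * (5 * m + 2 + 1)) = c ^ 2 := by
        rw [hc, ← pow_mul]; congr 1; ring
      rw [this]; ring
    have y4 : 1 - (X : PowerSeries ℤ) ^ (2 * (5 * m + 3 + 1)) = (1 - d) * (1 + d) := by
      have : (X : PowerSeries ℤ) ^ (2 * (5 * m + 3 + 1)) = d ^ 2 := by
        rw [hd, ← pow_mul]; congr 1; ring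
      rw [this]; ring
    have y5 : 1 - (X : PowerSeries ℤ) ^ (2 * (5 * m + 4 + 1)) =
        (1 - f) * (1 + f) := by
      have : (X : PowerSeries ℤ) ^ (2 * (5 * m + 4 + 1)) = f ^ 2 := by
        rw [hf, ← pow_mul]; congr 1; ring
      rw [this]; ring
    rw [x1, x2, x3, x4, x5, x8, y1, y2, y3, y4, y5]
    clear_value P1 P2 P3 P4 P5 P6 a b c d f
    generalize (1 - a) = A at *
    generalize (1 + a) = A' at *
    generalize (1 - b) = B at *
    generalize (1 + b) = B' at *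
    generalize (1 - c) = C at *
    generalize (1 + c) = C' at *
    generalize (1 - d) = D at *
    generalize (1 + d) = D' at *
    generalize (1 - f) = F at *
    generalize (1 + f) = F' at *
    linear_combination (B' * C' * F * A' * D' * F * A * B * C * D * F * F * F') * ih

theorem lk1_XY (h : JTP) : (rf false 2 3 (by norm_num) (by norm_num)) *
    (rf false 1 4 (by norm_num) (by norm_num)) * (euler ℤ 1 * euler ℤ 10) =
    euler ℤ 2 * euler ℤ 5 ^ 3 := by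
  refine lk1_ext fun N => ?_
  simp only [map_mul, map_pow]
  rw [lk1_jtp h false 2 3 _ _ N N le_rfl, lk1_jtp h false 1 4 _ _ N N le_rfl,
    lk1_euler 1 N (5 * N) le_rfl (by omega), lk1_euler 10 N N (by norm_num) le_rfl,
    lk1_euler 2 N (5 * N) (by norm_num) (by omega), lk1_euler 5 N N (by norm_num) le_rfl]
  simp only [← map_mul, ← map_pow]
  rw [lk1_prod]

theorem lk1_expand_inj (p : ℕ) (hp : p ≠ 0) {F G : PowerSeries ℤ}
    (h : F.expand p hp = G.expand p hp) : F = G := by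
  ext n
  have h1 := congrArg (PowerSeries.coeff (p * n)) h
  rwa [PowerSeries.coeff_expand_mul, PowerSeries.coeff_expand_mul] at h1

theorem lk1_haupt : hauptN 5 2 ℤ * (euler ℤ 5 ^ 2 * euler ℤ 2 ^ 4) =
    X * euler ℤ 10 ^ 4 * euler ℤ 1 ^ 2 := by
  have hH : hauptN 5 2 ℤ = X * ((euler ℤ 10 ^ 2 * invOfUnit (euler ℤ 5) 1) *
      invOfUnit (euler ℤ 2 ^ 2 * invOfUnit (euler ℤ 1) 1) 1) ^ 2 := rfl
  have c1 : PowerSeries.constantCoeff (euler ℤ 1) = 1 := fx_constantCoeff_euler ℤ 1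
  have c2 : PowerSeries.constantCoeff (euler ℤ 2) = 1 := fx_constantCoeff_euler ℤ 2
  have c5 : PowerSeries.constantCoeff (euler ℤ 5) = 1 := fx_constantCoeff_euler ℤ 5
  have h1 := mul_inv_of c1
  have h5 := mul_inv_of c5
  have cE : PowerSeries.constantCoeff (euler ℤ 2 ^ 2 * invOfUnit (euler ℤ 1) 1) = 1 := by
    rw [map_mul, map_pow, c2, constantCoeff_inv c1, one_pow, one_mul]
  have hE := mul_inv_of cE
  set a := euler ℤ 1
  set b := euler ℤ 2
  set c := euler ℤ 5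
  set d := euler ℤ 10
  set ai := invOfUnit a 1
  set ci := invOfUnit c 1
  set u := invOfUnit (b ^ 2 * ai) 1
  have h6 : b ^ 2 * u = a := by
    calc b ^ 2 * u = (a * ai) * (b ^ 2 * u) := by rw [h1, one_mul]
      _ = a * (b ^ 2 * ai * u) := by ring
      _ = a := by rw [hE, mul_one]
  rw [hH]
  calc X * (d ^ 2 * ci * u) ^ 2 * (c ^ 2 * b ^ 4) = X * d ^ 4 * (c * ci) ^ 2 * (b ^ 2 * u) ^ 2 := by
        ring
    _ = _ := by rw [h5, h6]; ring

theorem lk1_ne (k : ℕ) : euler ℤ k ≠ 0 := by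
  intro h
  have := fx_constantCoeff_euler ℤ k
  rw [h, map_zero] at this
  exact zero_ne_one this

/-- `1 - f` for `(p, N) = (5, 2)`. -/
theorem k1 (h : JTP) : K1 := by
  unfold K1
  refine lk1_expand_inj 2 two_ne_zero ?_
  have hm := lk1_main
  have hx := congrArg (fun F => F.expand 2 two_ne_zero) (lk1_XY h)
  have hh := congrArg (fun F => F.expand 2 two_ne_zero) lk1_haupt
  have hp1 := psi2_mul_euler
  have hp2 := congrArg (fun F => F.expand 5 D52.five_ne) hp1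
  rw [← qt_psi] at hm
  simp only [map_mul, map_pow, map_sub, map_one, map_ofNat, PowerSeries.expand_X,
    euler_expand ℤ 2 two_ne_zero 1 (by norm_num), euler_expand ℤ 2 two_ne_zero 2 (by norm_num),
    euler_expand ℤ 2 two_ne_zero 5 (by norm_num), euler_expand ℤ 2 two_ne_zero 10 (by norm_num),
    euler_expand ℤ 5 D52.five_ne 2 (by norm_num), euler_expand ℤ 5 D52.five_ne 4 (by norm_num)]
    at hm hx hh hp2 ⊢
  norm_num only at hx hh hp2 ⊢
  set XY1 := (rf false 2 3 (by norm_num) (by norm_num)).expand 2 two_ne_zero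
  set XY2 := (rf false 1 4 (by norm_num) (by norm_num)).expand 2 two_ne_zero
  set f := (hauptN 5 2 ℤ).expand 2 two_ne_zero
  set P := psi2 ℤ
  set P5 := (psi2 ℤ).expand 5 D52.five_ne
  set E2 := euler ℤ 2
  set E4 := euler ℤ 4
  set E10 := euler ℤ 10
  set E20 := euler ℤ 20
  have h40 : (4 : PowerSeries ℤ) ≠ 0 := by
    intro h
    have h0 : (PowerSeries.C (4 : ℤ) : PowerSeries ℤ) = 0 := by rw [map_ofNat]; exact h
    have h00 := congrArg (PowerSeries.coeff 0) h0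
    rw [PowerSeries.coeff_zero_C, map_zero] at h00
    norm_num at h00
  have hm' : P ^ 2 - X ^ 2 * P5 ^ 2 = XY1 * XY2 := by
    refine mul_left_cancel₀ h40 ?_
    linear_combination hm
  have hne : E4 * E10 ^ 2 ≠ 0 := mul_ne_zero (lk1_ne 4) (pow_ne_zero _ (lk1_ne 10))
  refine mul_right_cancel₀ hne ?_
  -- `(1 - f) E4^3 E20 E4 E10^2 = (E4^4 E10^2 - X^2 E20^4 E2^2) E20`
  calc (1 - f) * (E4 ^ 3 * E20) * (E4 * E10 ^ 2)
      = (E4 ^ 4 * E10 ^ 2 - f * (E10 ^ 2 * E4 ^ 4)) * E20 := by ring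
    _ = ((P * E2) ^ 2 * E10 ^ 2 - X ^ 2 * (P5 * E10) ^ 2 * E2 ^ 2) * E20 := by
        rw [hh, hp1, hp2]; ring
    _ = (P ^ 2 - X ^ 2 * P5 ^ 2) * (E2 ^ 2 * E10 ^ 2 * E20) := by ring
    _ = (XY1 * XY2 * (E2 * E20)) * (E2 * E10 ^ 2) := by rw [hm']; ring
    _ = _ := by rw [hx]; ring

end LN

end GH
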