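import Pool.Agent.GH.LN.K1x

/-!
# Level ten: `1 - 5f`
-/

open PowerSeries Filter Topology

noncomputable section

namespace GH

namespace LN

/-- The exponents. -/
def lk2_e (p : ℤ × ℤ) : ℤ := p.1 * p.1 + p.2 * p.2

theorem lk2_he : qtFF lk2_e := qt_sq.prod qt_sq

/-- The sign. -/
def lk2_s (p : ℤ × ℤ) : ℤ := ((p.1 + p.2).negOnePow : ℤ)

/-- The weights modulo five. -/
def lk2_W (x y : ZMod 5) : ℤ :=
  1 + (-1) * (if y = 3 * x then 1 else 0) + (-4) * (if y = 2 * (x - 1) then 1 else 0)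

theorem lk2_W_sum : ∀ x y : ZMod 5,
    ((lk2_W x y + lk2_W (-x) y) + (lk2_W x (-y) + lk2_W (-x) (-y))) +
      ((lk2_W y x + lk2_W (-y) x) + (lk2_W y (-x) + lk2_W (-y) (-x))) = 0 := by
  decide

theorem lk2_neg (a : ℤ) : ((-a).negOnePow : ℤ) = (a.negOnePow : ℤ) := by
  rw [Int.negOnePow_neg]

theorem lk2_main : (theta ℤ * theta ℤ).expand 5 D52.five_ne - theta ℤ * theta ℤ =
    4 * (X * ((rf true 1 9 (by norm_num) (by norm_num)) *
      (rf true 3 7 (by norm_num) (by norm_num)))) := by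
  rw [qt_theta]
  -- the three series
  have hQ : qtB * qtB = qtgs lk2_e lk2_he lk2_s := by
    rw [qtB, qt_mul]
    refine qt_congr _ (fun _ => rfl) fun p => ?_
    exact qt_sgn _ _
  have h5 : (qtB * qtB).expand 5 D52.five_ne = qtgs lk2_e lk2_he
      fun p => if (p.2 : ZMod 5) = 3 * (p.1 : ZMod 5) then lk2_s p else 0 := by
    have hσ : Function.Injective fun p : ℤ × ℤ => (2 * p.1 - p.2, p.1 + 2 * p.2) := by
      rintro ⟨a, b⟩ ⟨c, d⟩ h
      have h1 : 2 * a - b = 2 * c - d := congrArg Prod.fst h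
      have h2 : a + 2 * b = c + 2 * d := congrArg Prod.snd h
      refine Prod.ext ?_ ?_
      · show a = c
        omega
      · show b = d
        omega
    rw [← lk1_range _ hσ lk2_he (fun p => (p.2 : ZMod 5) = 3 * (p.1 : ZMod 5)) ?_ lk2_s]
    · rw [hQ, lk1_expand]
      refine qt_congr _ (fun p => ?_) fun p => ?_
      · show ((5 : ℕ) : ℤ) * lk2_e p = lk2_e (2 * p.1 - p.2, p.1 + 2 * p.2)
        unfold lk2_e
        push_cast
        ring
      · show ((p.1 + p.2).negOnePow : ℤ) = ((2 * p.1 - p.2 + (p.1 + 2 * p.2)).negOnePow : ℤ)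
        have : 2 * p.1 - p.2 + (p.1 + 2 * p.2) = 2 * p.1 + (p.1 + p.2) := by ring
        rw [this, Int.negOnePow_add (2 * p.1) (p.1 + p.2), Int.negOnePow_two_mul, one_mul]
    · rintro ⟨m, n⟩
      constructor
      · intro h
        have h1 : ((n - 3 * m : ℤ) : ZMod 5) = 0 := by
          push_cast
          rw [sub_eq_zero]
          exact h
        obtain ⟨b, hb⟩ := lk1_dvd _ h1
        -- `n = 3 m + 5 b`, `5 c = 2 m + n = 5 m + 5 b`
        refine ⟨(m + b, m + 2 * b), ?_⟩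
        refine Prod.ext ?_ ?_
        · show 2 * (m + b) - (m + 2 * b) = m
          ring
        · show (m + b) + 2 * (m + 2 * b) = n
          omega
      · rintro ⟨⟨k, l⟩, h⟩
        have h1 : 2 * k - l = m := congrArg Prod.fst h
        have h2 : k + 2 * l = n := congrArg Prod.snd h
        show (n : ZMod 5) = 3 * (m : ZMod 5)
        rw [← h1, ← h2]
        push_cast
        have : (5 : ZMod 5) = 0 := by decide
        linear_combination (-(k : ZMod 5) + l) * this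
  have h4 : X * ((rf true 1 9 (by norm_num) (by norm_num)) *
      (rf true 3 7 (by norm_num) (by norm_num))) = qtgs lk2_e lk2_he
      fun p => if (p.2 : ZMod 5) = 2 * ((p.1 : ZMod 5) - 1) then - lk2_s p else 0 := by
    have hσ : Function.Injective fun p : ℤ × ℤ => (1 - 2 * p.1 - p.2, p.1 - 2 * p.2) := by
      rintro ⟨a, b⟩ ⟨c, d⟩ h
      have h1 : 1 - 2 * a - b = 1 - 2 * c - d := congrArg Prod.fst h
      have h2 : a - 2 * b = c - 2 * d := congrArg Prod.snd h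
      refine Prod.ext ?_ ?_
      · show a = c
        omega
      · show b = d
        omega
    rw [← lk1_range _ hσ lk2_he (fun p => (p.2 : ZMod 5) = 2 * ((p.1 : ZMod 5) - 1)) ?_
      (fun p => - lk2_s p)]
    · rw [rf, rf, qt_mul, qt_X]
      refine qt_congr _ (fun p => ?_) fun p => ?_
      · show jte 1 9 p.1 + jte 3 7 p.2 + 1 = lk2_e (1 - 2 * p.1 - p.2, p.1 - 2 * p.2)
        have h1 := two_jte 1 9 p.1
        have h2 := two_jte 3 7 p.2
        have h3 : 2 * (jte 1 9 p.1 + jte 3 7 p.2 + 1) =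
            2 * lk2_e (1 - 2 * p.1 - p.2, p.1 - 2 * p.2) := by
          unfold lk2_e
          rw [mul_add, mul_add, h1, h2]
          push_cast
          ring
        omega
      · show (p.1.negOnePow : ℤ) * (p.2.negOnePow : ℤ) =
          -((1 - 2 * p.1 - p.2 + (p.1 - 2 * p.2)).negOnePow : ℤ)
        have e1 : 1 - 2 * p.1 - p.2 + (p.1 - 2 * p.2) =
            (p.1 + p.2) + (2 * (- p.1 - 2 * p.2) + 1) := by ring
        rw [e1, Int.negOnePow_add, Int.negOnePow_two_mul_add_one, qt_sgn]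
        simp
    · rintro ⟨m, n⟩
      constructor
      · intro h
        have h1 : ((n - 2 * (m - 1) : ℤ) : ZMod 5) = 0 := by
          push_cast
          rw [sub_eq_zero]
          exact h
        obtain ⟨b, hb⟩ := lk1_dvd _ h1
        -- `n = 2 (m - 1) + 5 b`, `i = b`, `j = 1 - m - 2 b`
        refine ⟨(b, 1 - m - 2 * b), ?_⟩
        refine Prod.ext ?_ ?_
        · show 1 - 2 * b - (1 - m - 2 * b) = m
          ring
        · show b - 2 * (1 - m - 2 * b) = n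
          omega
      · rintro ⟨⟨k, l⟩, h⟩
        have h1 : 1 - 2 * k - l = m := congrArg Prod.fst h
        have h2 : k - 2 * l = n := congrArg Prod.snd h
        show (n : ZMod 5) = 2 * ((m : ZMod 5) - 1)
        rw [← h1, ← h2]
        push_cast
        have : (5 : ZMod 5) = 0 := by decide
        linear_combination (k : ZMod 5) * this
  -- the symmetries
  let σ₁ : ℤ × ℤ ≃ ℤ × ℤ := ⟨fun p => (-p.1, p.2), fun p => (-p.1, p.2),
    fun p => by ext <;> simp, fun p => by ext <;> simp⟩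
  let σ₂ : ℤ × ℤ ≃ ℤ × ℤ := ⟨fun p => (p.1, -p.2), fun p => (p.1, -p.2),
    fun p => by ext <;> simp, fun p => by ext <;> simp⟩
  let σ₃ : ℤ × ℤ ≃ ℤ × ℤ := Equiv.prodComm ℤ ℤ
  have s1 : ∀ m n : ℤ, lk2_s (-m, n) = lk2_s (m, n) := by
    intro m n
    show ((-m + n).negOnePow : ℤ) = ((m + n).negOnePow : ℤ)
    rw [← qt_sgn, ← qt_sgn, lk2_neg]
  have s2 : ∀ m n : ℤ, lk2_s (m, -n) = lk2_s (m, n) := by
    intro m n
    show ((m + -n).negOnePow : ℤ) = ((m + n).negOnePow : ℤ)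
    rw [← qt_sgn, ← qt_sgn, lk2_neg]
  have s3 : ∀ m n : ℤ, lk2_s (n, m) = lk2_s (m, n) := by
    intro m n
    show ((n + m).negOnePow : ℤ) = ((m + n).negOnePow : ℤ)
    rw [add_comm]
  have h0 : qtgs lk2_e lk2_he (fun p => lk2_s p * lk2_W (p.1 : ZMod 5) (p.2 : ZMod 5)) = 0 := by
    refine lk1_avg σ₁ σ₂ σ₃ lk2_he ?_ ?_ ?_ _ ?_
    · rintro ⟨m, n⟩
      show lk2_e (-m, n) = lk2_e (m, n)
      unfold lk2_e
      ring
    · rintro ⟨m, n⟩
      show lk2_e (m, -n) = lk2_e (m, n)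
      unfold lk2_e
      ring
    · rintro ⟨m, n⟩
      show lk2_e (n, m) = lk2_e (m, n)
      unfold lk2_e
      ring
    · rintro ⟨m, n⟩
      have := lk2_W_sum (m : ZMod 5) (n : ZMod 5)
      show ((lk2_s (m, n) * lk2_W ((m : ℤ) : ZMod 5) ((n : ℤ) : ZMod 5) +
        lk2_s (-m, n) * lk2_W ((-m : ℤ) : ZMod 5) ((n : ℤ) : ZMod 5)) +
        (lk2_s (m, -n) * lk2_W ((m : ℤ) : ZMod 5) ((-n : ℤ) : ZMod 5) +
        lk2_s (-m, -n) * lk2_W ((-m : ℤ) : ZMod 5) ((-n : ℤ) : ZMod 5))) +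
        ((lk2_s (n, m) * lk2_W ((n : ℤ) : ZMod 5) ((m : ℤ) : ZMod 5) +
        lk2_s (-n, m) * lk2_W ((-n : ℤ) : ZMod 5) ((m : ℤ) : ZMod 5)) +
        (lk2_s (n, -m) * lk2_W ((n : ℤ) : ZMod 5) ((-m : ℤ) : ZMod 5) +
        lk2_s (-n, -m) * lk2_W ((-n : ℤ) : ZMod 5) ((-m : ℤ) : ZMod 5))) = 0
      rw [s1, s2, s1 m (-n), s2, s1 n m, s2 n m, s1 n (-m), s2 n m, s3 m n]
      push_cast
      linear_combination (lk2_s (m, n)) * this
  have hW : qtgs lk2_e lk2_he (fun p => lk2_s p * lk2_W (p.1 : ZMod 5) (p.2 : ZMod 5)) =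
      qtgs lk2_e lk2_he lk2_s + C (-1) * (qtgs lk2_e lk2_he
        fun p => if (p.2 : ZMod 5) = 3 * (p.1 : ZMod 5) then lk2_s p else 0) +
      C 4 * (qtgs lk2_e lk2_he fun p => if (p.2 : ZMod 5) = 2 * ((p.1 : ZMod 5) - 1)
        then - lk2_s p else 0) := by
    rw [← lk1_smul, ← lk1_smul, ← lk1_add, ← lk1_add]
    refine qt_congr _ (fun _ => rfl) fun p => ?_
    unfold lk2_W
    split_ifs <;> ring
  rw [hW] at h0
  rw [h4, h5, hQ]
  rw [map_neg, map_one, map_ofNat] at h0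
  linear_combination -h0

/-! ### The product -/

theorem lk2_prod (m : ℕ) : jtF true 1 9 m * jtF true 3 7 m *
    ((∏ i ∈ Finset.range (5 * m), (1 - (X : PowerSeries ℤ) ^ (2 * (i + 1)))) *
      ∏ i ∈ Finset.range (2 * m), (1 - (X : PowerSeries ℤ) ^ (5 * (i + 1)))) =
    (∏ i ∈ Finset.range (10 * m), (1 - (X : PowerSeries ℤ) ^ (1 * (i + 1)))) *
      (∏ i ∈ Finset.range m, (1 - (X : PowerSeries ℤ) ^ (10 * (i + 1)))) ^ 3 := by
  induction m with
  | zero => simp [jtF]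
  | succ m ih =>
    have e5 : 5 * (m + 1) = 5 * m + 1 + 1 + 1 + 1 + 1 := by ring
    have e2 : 2 * (m + 1) = 2 * m + 1 + 1 := by ring
    have e10 : 10 * (m + 1) = 10 * m + 1 + 1 + 1 + 1 + 1 + 1 + 1 + 1 + 1 + 1 := by ring
    have hs : (C (jts true) : PowerSeries ℤ) = -1 := by simp [jts]
    unfold jtF at ih ⊢
    rw [Finset.prod_range_succ _ m, Finset.prod_range_succ _ m, Finset.prod_range_succ _ m, e5, e2,
      e10]
    iterate 5 rw [Finset.prod_range_succ (fun i => (1 - (X : PowerSeries ℤ) ^ (2 * (i + 1))))]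
    iterate 2 rw [Finset.prod_range_succ (fun i => (1 - (X : PowerSeries ℤ) ^ (5 * (i + 1))))]
    iterate 10 rw [Finset.prod_range_succ (fun i => (1 - (X : PowerSeries ℤ) ^ (1 * (i + 1))))]
    rw [hs] at ih ⊢
    have key : ∀ a r : ℕ, a = 10 * m + r → (X : PowerSeries ℤ) ^ a = X ^ (10 * m + r) :=
      fun a r h => by rw [h]
    have hn : ∀ a : PowerSeries ℤ, 1 + -1 * a = 1 - a := fun a => by ring
    set P1 := ∏ i ∈ Finset.range m, (1 + -1 * (X : PowerSeries ℤ) ^ (1 + (1 + 9) * i)) *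
      (1 + -1 * X ^ (9 + (1 + 9) * i)) * (1 - X ^ ((1 + 9) * (i + 1))) with hP1
    set P2 := ∏ i ∈ Finset.range m, (1 + -1 * (X : PowerSeries ℤ) ^ (3 + (3 + 7) * i)) *
      (1 + -1 * X ^ (7 + (3 + 7) * i)) * (1 - X ^ ((3 + 7) * (i + 1))) with hP2
    set P3 := ∏ i ∈ Finset.range (5 * m), (1 - (X : PowerSeries ℤ) ^ (2 * (i + 1))) with hP3
    set P4 := ∏ i ∈ Finset.range (2 * m), (1 - (X : PowerSeries ℤ) ^ (5 * (i + 1))) with hP4
    set P5 := ∏ i ∈ Finset.range (10 * m), (1 - (X : PowerSeries ℤ) ^ (1 * (i + 1))) with hP5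
    set P6 := ∏ i ∈ Finset.range m, (1 - (X : PowerSeries ℤ) ^ (10 * (i + 1))) with hP6
    clear_value P1 P2 P3 P4 P5 P6
    rw [key (1 + (1 + 9) * m) 1 (by ring)]
    rw [key (9 + (1 + 9) * m) 9 (by ring)]
    rw [key (10 * m + 1 + 1 + 1 + 1 + 1 + 1 + 1 + 1 + 1 + 1) 10 (by ring)]
    rw [key (3 + (3 + 7) * m) 3 (by ring)]
    rw [key (7 + (3 + 7) * m) 7 (by ring)]
    rw [key (2 * (5 * m + 1)) 2 (by ring)]
    rw [key (2 * (5 * m + 1 + 1)) 4 (by ring)]
    rw [key (2 * (5 * m + 2 + 1)) 6 (by ring)]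
    rw [key (2 * (5 * m + 3 + 1)) 8 (by ring)]
    rw [key (2 * (5 * m + 4 + 1)) 10 (by ring)]
    rw [key (5 * (2 * m + 1)) 5 (by ring)]
    rw [key (5 * (2 * m + 1 + 1)) 10 (by ring)]
    rw [key (1 * (10 * m + 1)) 1 (by ring)]
    rw [key (1 * (10 * m + 1 + 1)) 2 (by ring)]
    rw [key (1 * (10 * m + 2 + 1)) 3 (by ring)]
    rw [key (1 * (10 * m + 3 + 1)) 4 (by ring)]
    rw [key (1 * (10 * m + 4 + 1)) 5 (by ring)]
    rw [key (1 * (10 * m + 5 + 1)) 6 (by ring)]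
    rw [key (1 * (10 * m + 6 + 1)) 7 (by ring)]
    rw [key (1 * (10 * m + 7 + 1)) 8 (by ring)]
    rw [key (1 * (10 * m + 8 + 1)) 9 (by ring)]
    rw [key (1 * (10 * m + 9 + 1)) 10 (by ring)]
    rw [hn, hn, hn, hn]
    generalize (1 - (X : PowerSeries ℤ) ^ (10 * m + 1)) = A1 at *
    generalize (1 - (X : PowerSeries ℤ) ^ (10 * m + 2)) = A2 at *
    generalize (1 - (X : PowerSeries ℤ) ^ (10 * m + 3)) = A3 at *
    generalize (1 - (X : PowerSeries ℤ) ^ (10 * m + 4)) = A4 at *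
    generalize (1 - (X : PowerSeries ℤ) ^ (10 * m + 5)) = A5 at *
    generalize (1 - (X : PowerSeries ℤ) ^ (10 * m + 6)) = A6 at *
    generalize (1 - (X : PowerSeries ℤ) ^ (10 * m + 7)) = A7 at *
    generalize (1 - (X : PowerSeries ℤ) ^ (10 * m + 8)) = A8 at *
    generalize (1 - (X : PowerSeries ℤ) ^ (10 * m + 9)) = A9 at *
    generalize (1 - (X : PowerSeries ℤ) ^ (10 * m + 10)) = A10 at *
    linear_combination (A1 * A9 * A10 * (A3 * A7 * A10) * (A2 * A4 * A6 * A8 * A10 *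
      (A5 * A10))) * ih

theorem lk2_G (h : JTP) : (rf true 1 9 (by norm_num) (by norm_num)) *
    (rf true 3 7 (by norm_num) (by norm_num)) * (euler ℤ 2 * euler ℤ 5) =
    euler ℤ 1 * euler ℤ 10 ^ 3 := by
  refine lk1_ext fun N => ?_
  simp only [map_mul, map_pow]
  rw [lk1_jtp h true 1 9 _ _ N N le_rfl, lk1_jtp h true 3 7 _ _ N N le_rfl,
    lk1_euler 2 N (5 * N) (by norm_num) (by omega),
    lk1_euler 5 N (2 * N) (by norm_num) (by omega),
    lk1_euler 1 N (10 * N) le_rfl (by omega), lk1_euler 10 N N (by norm_num) le_rfl]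
  simp only [← map_mul, ← map_pow]
  rw [lk2_prod]

/-- `1 - 5f` for `(p, N) = (5, 2)`. -/
theorem k2 (h : JTP) (h1 : K1) : K2 := by
  unfold K2
  unfold K1 at h1
  have hm := lk2_main
  have hG := lk2_G h
  have hh := lk1_haupt
  have hp1 := theta_mul_euler
  have hp2 := congrArg (fun F => F.expand 5 D52.five_ne) hp1
  simp only [map_mul, map_pow, euler_expand ℤ 5 D52.five_ne 2 (by norm_num),
    euler_expand ℤ 5 D52.five_ne 1 (by norm_num)] at hm hp2
  norm_num only at hp2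
  set G1 := rf true 1 9 (by norm_num) (by norm_num)
  set G2 := rf true 3 7 (by norm_num) (by norm_num)
  set f := hauptN 5 2 ℤ
  set T := theta ℤ
  set T5 := (theta ℤ).expand 5 D52.five_ne
  set E1 := euler ℤ 1
  set E2 := euler ℤ 2
  set E5 := euler ℤ 5
  set E10 := euler ℤ 10
  have hne : E5 * E10 ≠ 0 := mul_ne_zero (lk1_ne 5) (lk1_ne 10)
  have hk : E5 ^ 5 * E2 ^ 2 - 4 * X * E10 ^ 5 * E1 * E2 = E1 ^ 4 * E10 ^ 2 * E5 := by
    calc E5 ^ 5 * E2 ^ 2 - 4 * X * E10 ^ 5 * E1 * E2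
        = (E5 ^ 2) ^ 2 * E2 ^ 2 * E5 - 4 * X * (E1 * E10 ^ 3) * E10 ^ 2 * E2 := by ring
      _ = (T5 * E10) ^ 2 * E2 ^ 2 * E5 - (4 * (X * (G1 * G2))) * E10 ^ 2 * E2 ^ 2 * E5 := by
          rw [← hG, hp2]; ring
      _ = (T * E2) ^ 2 * E10 ^ 2 * E5 := by rw [← hm]; ring
      _ = _ := by rw [hp1]; ring
  refine mul_right_cancel₀ hne ?_
  calc (1 - 5 * f) * (E2 ^ 5 * E5) * (E5 * E10)
      = (1 - f) * (E2 ^ 3 * E10) * (E2 ^ 2 * E5 ^ 2) - 4 * (f * (E5 ^ 2 * E2 ^ 4)) * (E2 * E10) := by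
        ring
    _ = E1 * (E5 ^ 5 * E2 ^ 2 - 4 * X * E10 ^ 5 * E1 * E2) := by rw [h1, hh]; ring
    _ = _ := by rw [hk]; ring

end LN

end GH
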