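import Pool.Agent.GH.LN.EStm

/-!
# Level six: the relations

Bookkeeping of eta quotients: with `e_k = ∏ (1 - q^{kn})` everything is a product of powers of
`e_1, e_2, e_3, e_6` once `1 - f = e_1 e_3⁵/(e_2⁵ e_6)` and `1 - 9f = e_1⁹ e_6³/(e_2⁹ e_3³)`
are known.
-/

open PowerSeries Filter Topology

noncomputable section

namespace GH

namespace LN

/-- A series with constant term one is not zero. -/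
lemma lj5_ne {F : PowerSeries ℤ} (h : PowerSeries.constantCoeff F = 1) : F ≠ 0 := by
  rintro rfl
  simp at h

lemma lj5_euler_ne (k : ℕ) : euler ℤ k ≠ 0 := lj5_ne (fx_constantCoeff_euler ℤ k)

section

variable {R : Type*} [CommRing R] [IsDomain R]

omit [IsDomain R] in
/-- `A e_6⁸ e_1¹² = e_2²⁴ e_3⁴`. -/
lemma lj5_A {e1 e2 e3 e6 a b bi A : R} (ha : a * e1 = e2 ^ 2) (hb : b * e3 = e6 ^ 2)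
    (hbi : b * bi = 1) (hA : A = a ^ 12 * bi ^ 4) :
    A * (e6 ^ 8 * e1 ^ 12) = e2 ^ 24 * e3 ^ 4 := by
  have h1 : (b * bi) ^ 4 = 1 := by rw [hbi, one_pow]
  calc A * (e6 ^ 8 * e1 ^ 12) = a ^ 12 * bi ^ 4 * ((e6 ^ 2) ^ 4 * e1 ^ 12) := by rw [hA]; ring
    _ = a ^ 12 * bi ^ 4 * ((b * e3) ^ 4 * e1 ^ 12) := by rw [hb]
    _ = (a * e1) ^ 12 * e3 ^ 4 * (b * bi) ^ 4 := by ring
    _ = (e2 ^ 2) ^ 12 * e3 ^ 4 := by rw [h1, ha, mul_one]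
    _ = e2 ^ 24 * e3 ^ 4 := by ring

omit [IsDomain R] in
/-- `f e_2⁸ e_3⁴ = q e_6⁸ e_1⁴`. -/
lemma lj5_f {e1 e2 e3 e6 a b ai x f : R} (ha : a * e1 = e2 ^ 2) (hb : b * e3 = e6 ^ 2)
    (hai : a * ai = 1) (hf : f = x * (b * ai) ^ 4) :
    f * (e2 ^ 8 * e3 ^ 4) = x * (e6 ^ 8 * e1 ^ 4) := by
  have h1 : (a * ai) ^ 4 = 1 := by rw [hai, one_pow]
  calc f * (e2 ^ 8 * e3 ^ 4) = x * (b * ai) ^ 4 * ((e2 ^ 2) ^ 4 * e3 ^ 4) := by rw [hf]; ring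
    _ = x * (b * ai) ^ 4 * ((a * e1) ^ 4 * e3 ^ 4) := by rw [ha]
    _ = x * ((b * e3) ^ 4 * e1 ^ 4) * (a * ai) ^ 4 := by ring
    _ = x * ((e6 ^ 2) ^ 4 * e1 ^ 4) := by rw [h1, hb, mul_one]
    _ = x * (e6 ^ 8 * e1 ^ 4) := by ring

/-- The first relation. -/
lemma lj5_g1 {e1 e2 e3 e6 A u v : R} (h1 : e1 ≠ 0) (h2 : e2 ≠ 0) (h3 : e3 ≠ 0) (h6 : e6 ≠ 0)
    (hA : A * (e6 ^ 8 * e1 ^ 12) = e2 ^ 24 * e3 ^ 4)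
    (hu : u * (e2 ^ 5 * e6) = e1 * e3 ^ 5) (hv : v * (e2 ^ 9 * e3 ^ 3) = e1 ^ 9 * e6 ^ 3) :
    A * u * v ^ 3 * e2 ^ 8 = e1 ^ 16 := by
  have hc : (e6 ^ 8 * e1 ^ 12) * (e2 ^ 5 * e6) * (e2 ^ 9 * e3 ^ 3) ^ 3 ≠ 0 := by
    repeat' first
      | apply mul_ne_zero
      | apply pow_ne_zero
      | assumption
  refine mul_right_cancel₀ hc ?_
  calc A * u * v ^ 3 * e2 ^ 8 * ((e6 ^ 8 * e1 ^ 12) * (e2 ^ 5 * e6) * (e2 ^ 9 * e3 ^ 3) ^ 3)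
      = (A * (e6 ^ 8 * e1 ^ 12)) * (u * (e2 ^ 5 * e6)) * (v * (e2 ^ 9 * e3 ^ 3)) ^ 3 *
        e2 ^ 8 := by ring
    _ = (e2 ^ 24 * e3 ^ 4) * (e1 * e3 ^ 5) * (e1 ^ 9 * e6 ^ 3) ^ 3 * e2 ^ 8 := by
        rw [hA, hu, hv]
    _ = _ := by ring

/-- The second relation, before the comparison. -/
lemma lj5_g2 {e1 e2 e3 e6 A u v : R} (h1 : e1 ≠ 0) (h2 : e2 ≠ 0) (h3 : e3 ≠ 0) (h6 : e6 ≠ 0)
    (hA : A * (e6 ^ 8 * e1 ^ 12) = e2 ^ 24 * e3 ^ 4)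
    (hu : u * (e2 ^ 5 * e6) = e1 * e3 ^ 5) (hv : v * (e2 ^ 9 * e3 ^ 3) = e1 ^ 9 * e6 ^ 3) :
    A * u ^ 3 * v * e6 ^ 8 = e3 ^ 16 := by
  have hc : (e6 ^ 8 * e1 ^ 12) * (e2 ^ 5 * e6) ^ 3 * (e2 ^ 9 * e3 ^ 3) ≠ 0 := by
    repeat' first
      | apply mul_ne_zero
      | apply pow_ne_zero
      | assumption
  refine mul_right_cancel₀ hc ?_
  calc A * u ^ 3 * v * e6 ^ 8 * ((e6 ^ 8 * e1 ^ 12) * (e2 ^ 5 * e6) ^ 3 * (e2 ^ 9 * e3 ^ 3))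
      = (A * (e6 ^ 8 * e1 ^ 12)) * (u * (e2 ^ 5 * e6)) ^ 3 * (v * (e2 ^ 9 * e3 ^ 3)) *
        e6 ^ 8 := by ring
    _ = (e2 ^ 24 * e3 ^ 4) * (e1 * e3 ^ 5) ^ 3 * (e1 ^ 9 * e6 ^ 3) * e6 ^ 8 := by
        rw [hA, hu, hv]
    _ = _ := by ring

/-- The third relation. -/
lemma lj5_f1 {e1 e2 e3 e6 x f h u v : R} (h1 : e1 ≠ 0) (h2 : e2 ≠ 0) (h3 : e3 ≠ 0)
    (h6 : e6 ≠ 0) (hf : f * (e2 ^ 8 * e3 ^ 4) = x * (e6 ^ 8 * e1 ^ 4))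
    (hh : h * e1 ^ 12 = x * e3 ^ 12)
    (hu : u * (e2 ^ 5 * e6) = e1 * e3 ^ 5) (hv : v * (e2 ^ 9 * e3 ^ 3) = e1 ^ 9 * e6 ^ 3) :
    h * v ^ 2 = f * u ^ 2 := by
  have hc : (e2 ^ 8 * e3 ^ 4) * e1 ^ 12 * (e2 ^ 5 * e6) ^ 2 * (e2 ^ 9 * e3 ^ 3) ^ 2 ≠ 0 := by
    repeat' first
      | apply mul_ne_zero
      | apply pow_ne_zero
      | assumption
  refine mul_right_cancel₀ hc ?_
  calc h * v ^ 2 * ((e2 ^ 8 * e3 ^ 4) * e1 ^ 12 * (e2 ^ 5 * e6) ^ 2 * (e2 ^ 9 * e3 ^ 3) ^ 2)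
      = (h * e1 ^ 12) * (v * (e2 ^ 9 * e3 ^ 3)) ^ 2 *
        ((e2 ^ 8 * e3 ^ 4) * (e2 ^ 5 * e6) ^ 2) := by ring
    _ = (x * e3 ^ 12) * (e1 ^ 9 * e6 ^ 3) ^ 2 * ((e2 ^ 8 * e3 ^ 4) * (e2 ^ 5 * e6) ^ 2) := by
        rw [hh, hv]
    _ = (x * (e6 ^ 8 * e1 ^ 4)) * (e1 * e3 ^ 5) ^ 2 * (e1 ^ 12 * (e2 ^ 9 * e3 ^ 3) ^ 2) := by
        ring
    _ = (f * (e2 ^ 8 * e3 ^ 4)) * (u * (e2 ^ 5 * e6)) ^ 2 *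
        (e1 ^ 12 * (e2 ^ 9 * e3 ^ 3) ^ 2) := by rw [hf, hu]
    _ = _ := by ring

/-- The fourth relation. -/
lemma lj5_b1 {e1 e2 e3 e6 A β v : R} (h1 : e1 ≠ 0) (h2 : e2 ≠ 0) (h3 : e3 ≠ 0)
    (h6 : e6 ≠ 0) (hA : A * (e6 ^ 8 * e1 ^ 12) = e2 ^ 24 * e3 ^ 4)
    (hβ : β * e3 = e1 ^ 3) (hv : v * (e2 ^ 9 * e3 ^ 3) = e1 ^ 9 * e6 ^ 3) :
    β ^ 12 = A ^ 3 * v ^ 8 := by
  have hc : (e6 ^ 8 * e1 ^ 12) ^ 3 * (e2 ^ 9 * e3 ^ 3) ^ 8 * e3 ^ 12 ≠ 0 := by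
    repeat' first
      | apply mul_ne_zero
      | apply pow_ne_zero
      | assumption
  refine mul_right_cancel₀ hc ?_
  calc β ^ 12 * ((e6 ^ 8 * e1 ^ 12) ^ 3 * (e2 ^ 9 * e3 ^ 3) ^ 8 * e3 ^ 12)
      = (β * e3) ^ 12 * ((e6 ^ 8 * e1 ^ 12) ^ 3 * (e2 ^ 9 * e3 ^ 3) ^ 8) := by ring
    _ = (e1 ^ 3) ^ 12 * ((e6 ^ 8 * e1 ^ 12) ^ 3 * (e2 ^ 9 * e3 ^ 3) ^ 8) := by rw [hβ]
    _ = (e2 ^ 24 * e3 ^ 4) ^ 3 * (e1 ^ 9 * e6 ^ 3) ^ 8 * e3 ^ 12 := by ring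
    _ = (A * (e6 ^ 8 * e1 ^ 12)) ^ 3 * (v * (e2 ^ 9 * e3 ^ 3)) ^ 8 * e3 ^ 12 := by rw [hA, hv]
    _ = _ := by ring

end

lemma lj5_etaN : etaN 2 ℤ * euler ℤ 1 = euler ℤ 2 ^ 2 := by
  have h := mul_inv_of (fx_constantCoeff_euler ℤ 1)
  have h2 : etaN 2 ℤ = euler ℤ 2 ^ 2 * invOfUnit (euler ℤ 1) 1 := rfl
  rw [h2]
  linear_combination (euler ℤ 2 ^ 2) * h

lemma lj5_etaNp : etaNp 3 2 ℤ * euler ℤ 3 = euler ℤ 6 ^ 2 := by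
  have h := mul_inv_of (fx_constantCoeff_euler ℤ 3)
  have h2 : etaNp 3 2 ℤ = euler ℤ 6 ^ 2 * invOfUnit (euler ℤ 3) 1 := rfl
  rw [h2]
  linear_combination (euler ℤ 6 ^ 2) * h

lemma lj5_haupt : hauptmodul 3 ℤ * euler ℤ 1 ^ 12 = X * euler ℤ 3 ^ 12 := by
  have h := mul_inv_of (fx_constantCoeff_euler ℤ 1)
  have h2 : hauptmodul 3 ℤ = X * (euler ℤ 3 * invOfUnit (euler ℤ 1) 1) ^ 12 := rfl
  have h3 : (euler ℤ 1 * invOfUnit (euler ℤ 1) 1) ^ 12 = 1 := by rw [h, one_pow]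
  calc hauptmodul 3 ℤ * euler ℤ 1 ^ 12
      = X * euler ℤ 3 ^ 12 * (euler ℤ 1 * invOfUnit (euler ℤ 1) 1) ^ 12 := by rw [h2]; ring
    _ = X * euler ℤ 3 ^ 12 := by rw [h3, mul_one]

lemma lj5_bser : D3.bser ℤ * euler ℤ 3 = euler ℤ 1 ^ 3 := by
  have h := mul_inv_of (fx_constantCoeff_euler ℤ 3)
  have h2 : D3.bser ℤ = euler ℤ 1 ^ 3 * invOfUnit (euler ℤ 3) 1 := rfl
  rw [h2]
  linear_combination (euler ℤ 1 ^ 3) * h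

lemma lj5_AN : AN 3 2 ℤ * (euler ℤ 6 ^ 8 * euler ℤ 1 ^ 12) = euler ℤ 2 ^ 24 * euler ℤ 3 ^ 4 :=
  lj5_A lj5_etaN lj5_etaNp (mul_inv_of (constantCoeff_etaNp 3 2)) rfl

lemma lj5_fN : hauptN 3 2 ℤ * (euler ℤ 2 ^ 8 * euler ℤ 3 ^ 4) =
    X * (euler ℤ 6 ^ 8 * euler ℤ 1 ^ 4) :=
  lj5_f lj5_etaN lj5_etaNp (mul_inv_of (constantCoeff_etaN 2)) rfl

/-- **The relations of level six.** -/
theorem k32 (h1 : J1) (h2 : J2) : K32 := by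
  have g1 := lj5_g1 (lj5_euler_ne 1) (lj5_euler_ne 2) (lj5_euler_ne 3) (lj5_euler_ne 6)
    lj5_AN h1 h2
  refine ⟨g1, ?_, ?_, ?_⟩
  · refine mul_right_cancel₀ (pow_ne_zero 8 (lj5_euler_ne 6)) ?_
    rw [lj5_g2 (lj5_euler_ne 1) (lj5_euler_ne 2) (lj5_euler_ne 3) (lj5_euler_ne 6)
      lj5_AN h1 h2]
    have g := congrArg (fun F : PowerSeries ℤ => F.expand 3 D32.three_ne) g1
    simp only [map_mul, map_pow, map_sub, map_one] at g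
    rw [euler_expand ℤ 3 D32.three_ne 2 (by norm_num),
      euler_expand ℤ 3 D32.three_ne 1 le_rfl] at g
    have h9 : (PowerSeries.expand 3 D32.three_ne) (9 : PowerSeries ℤ) = 9 := map_ofNat _ 9
    rw [h9] at g
    exact g
  · exact lj5_f1 (lj5_euler_ne 1) (lj5_euler_ne 2) (lj5_euler_ne 3) (lj5_euler_ne 6)
      lj5_fN lj5_haupt h1 h2
  · exact lj5_b1 (lj5_euler_ne 1) (lj5_euler_ne 2) (lj5_euler_ne 3) (lj5_euler_ne 6)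
      lj5_AN lj5_bser h2

end LN

end GH
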