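import Pool.Agent.GH.LN.EStm
import Pool.Agent.GH.QGauss

/-!
# Level `N`: the relations of level twelve from those of level six
-/

set_option linter.unusedSimpArgs false

open PowerSeries Filter Topology

noncomputable section

namespace GH

namespace LN

/-! ### Roots and parity -/

theorem lj6_ne {F : PowerSeries ℤ} {c : ℤ} (hc : c ≠ 0)
    (h : PowerSeries.constantCoeff F = c) : F ≠ 0 := by
  rintro rfl
  rw [map_zero] at h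
  exact hc h.symm

theorem lj6_sq {F G : PowerSeries ℤ} (hF : PowerSeries.constantCoeff F = 1)
    (hG : PowerSeries.constantCoeff G = 1) (h : F ^ 2 = G ^ 2) : F = G := by
  have h1 : (F - G) * (F + G) = 0 := by linear_combination h
  have h2 : F + G ≠ 0 := lj6_ne (c := 2) (by norm_num) (by rw [map_add, hF, hG]; norm_num)
  exact sub_eq_zero.1 ((mul_eq_zero.1 h1).resolve_right h2)

theorem lj6_cube {F G : PowerSeries ℤ} (hF : PowerSeries.constantCoeff F = 1)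
    (hG : PowerSeries.constantCoeff G = 1) (h : F ^ 3 = G ^ 3) : F = G := by
  have h1 : (F - G) * (F ^ 2 + F * G + G ^ 2) = 0 := by linear_combination h
  have h2 : F ^ 2 + F * G + G ^ 2 ≠ 0 := lj6_ne (c := 3) (by norm_num) (by
    rw [map_add, map_add, map_pow, map_mul, map_pow, hF, hG]; norm_num)
  exact sub_eq_zero.1 ((mul_eq_zero.1 h1).resolve_right h2)

theorem lj6_neg_neg (F : PowerSeries ℤ) : evalNegHom (evalNegHom F) = F := by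
  ext n
  rw [evalNegHom, coeff_rescale, coeff_rescale, ← mul_assoc, ← mul_pow]
  norm_num

theorem lj6_neg_two (F : PowerSeries ℤ) :
    evalNegHom (F.expand 2 two_ne_zero) = F.expand 2 two_ne_zero := by
  ext n
  rw [evalNegHom, coeff_rescale, PowerSeries.coeff_expand]
  split_ifs with h
  · rw [(even_iff_two_dvd.2 h).neg_one_pow, one_mul]
  · rw [mul_zero]

theorem lj6_neg_three (F : PowerSeries ℤ) :
    evalNegHom (F.expand 3 D32.three_ne) = (evalNegHom F).expand 3 D32.three_ne := by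
  ext n
  rw [evalNegHom, coeff_rescale, PowerSeries.coeff_expand, PowerSeries.coeff_expand]
  split_ifs with h
  · obtain ⟨m, rfl⟩ := h
    rw [coeff_rescale, Nat.mul_div_cancel_left m (by norm_num : 0 < 3), pow_mul]
    norm_num
  · rw [mul_zero]

theorem lj6_neg_euler (k : ℕ) (hk : 1 ≤ k) : evalNegHom (euler ℤ (2 * k)) = euler ℤ (2 * k) := by
  rw [← euler_expand ℤ 2 two_ne_zero k hk]
  exact lj6_neg_two _

theorem lj6_neg_cc (F : PowerSeries ℤ) :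
    PowerSeries.constantCoeff (evalNegHom F) = PowerSeries.constantCoeff F := by
  rw [← PowerSeries.coeff_zero_eq_constantCoeff_apply,
    ← PowerSeries.coeff_zero_eq_constantCoeff_apply, evalNegHom, coeff_rescale, pow_zero, one_mul]

theorem lj6_en (k : ℕ) : euler ℤ k ≠ 0 := lj6_ne one_ne_zero (fx_constantCoeff_euler ℤ k)

/-- `E(-q) E(q) E(q⁴) = E(q²)³`. -/
theorem lj6_n1 : evalNegHom (euler ℤ 1) * euler ℤ 1 * euler ℤ 4 = euler ℤ 2 ^ 3 := by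
  have g1 := theta_mul_euler
  have t1 := neg_theta_mul_theta
  rw [map_pow] at t1
  have g2 := congrArg (PowerSeries.expand 2 two_ne_zero) g1
  rw [map_mul, map_pow, euler_expand ℤ 2 two_ne_zero 2 (by norm_num),
    euler_expand ℤ 2 two_ne_zero 1 le_rfl] at g2
  have g3 := congrArg evalNegHom g1
  have h2 : evalNegHom (euler ℤ 2) = euler ℤ 2 := lj6_neg_euler 1 le_rfl
  rw [map_mul, map_pow, h2] at g3
  norm_num at g2
  refine lj6_sq ?_ ?_ ?_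
  · rw [map_mul, map_mul, lj6_neg_cc]
    simp only [fx_constantCoeff_euler, one_mul]
  · rw [map_pow, fx_constantCoeff_euler, one_pow]
  · calc (evalNegHom (euler ℤ 1) * euler ℤ 1 * euler ℤ 4) ^ 2
        = evalNegHom (euler ℤ 1) ^ 2 * euler ℤ 1 ^ 2 * euler ℤ 4 ^ 2 := by ring
      _ = evalNegHom (theta ℤ) * euler ℤ 2 * (theta ℤ * euler ℤ 2) * euler ℤ 4 ^ 2 := by
          rw [g1, g3]
      _ = (evalNegHom (theta ℤ) * theta ℤ) * euler ℤ 2 ^ 2 * euler ℤ 4 ^ 2 := by ring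
      _ = ((theta ℤ).expand 2 two_ne_zero * euler ℤ 4) ^ 2 * euler ℤ 2 ^ 2 := by rw [t1]; ring
      _ = (euler ℤ 2 ^ 3) ^ 2 := by rw [g2]; ring

theorem lj6_n3 : evalNegHom (euler ℤ 3) * euler ℤ 3 * euler ℤ 12 = euler ℤ 6 ^ 3 := by
  have h := congrArg (PowerSeries.expand 3 D32.three_ne) lj6_n1
  rw [map_mul, map_mul, map_pow, ← lj6_neg_three, euler_expand ℤ 3 D32.three_ne 1 le_rfl,
    euler_expand ℤ 3 D32.three_ne 4 (by norm_num),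
    euler_expand ℤ 3 D32.three_ne 2 (by norm_num)] at h
  exact h

/-! ### The series -/

theorem lj6_cinv {F G : PowerSeries ℤ} (hF : PowerSeries.constantCoeff F = 1) (n : ℕ) :
    (G * invOfUnit F 1) ^ n * F ^ n = G ^ n := by
  have h := mul_inv_of hF
  rw [← mul_pow, mul_assoc, mul_comm (invOfUnit F 1), h, mul_one]

theorem lj6_eta2 : etaN 2 ℤ * euler ℤ 1 = euler ℤ 2 ^ 2 := by
  have h := mul_inv_of (fx_constantCoeff_euler ℤ 1)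
  have e : etaN 2 ℤ = euler ℤ 2 ^ 2 * invOfUnit (euler ℤ 1) 1 := by
    unfold etaN
    norm_num
  rw [e]
  linear_combination euler ℤ 2 ^ 2 * h

theorem lj6_eta4 : etaN 4 ℤ * euler ℤ 2 = euler ℤ 4 ^ 2 := by
  have h := mul_inv_of (fx_constantCoeff_euler ℤ 2)
  have e : etaN 4 ℤ = euler ℤ 4 ^ 2 * invOfUnit (euler ℤ 2) 1 := by
    unfold etaN
    norm_num
  rw [e]
  linear_combination euler ℤ 4 ^ 2 * h

theorem lj6_eta2p : etaNp 3 2 ℤ * euler ℤ 3 = euler ℤ 6 ^ 2 := by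
  have h := mul_inv_of (fx_constantCoeff_euler ℤ 3)
  have e : etaNp 3 2 ℤ = euler ℤ 6 ^ 2 * invOfUnit (euler ℤ 3) 1 := by
    unfold etaNp
    norm_num
  rw [e]
  linear_combination euler ℤ 6 ^ 2 * h

theorem lj6_eta4p : etaNp 3 4 ℤ * euler ℤ 6 = euler ℤ 12 ^ 2 := by
  have h := mul_inv_of (fx_constantCoeff_euler ℤ 6)
  have e : etaNp 3 4 ℤ = euler ℤ 12 ^ 2 * invOfUnit (euler ℤ 6) 1 := by
    unfold etaNp
    norm_num
  rw [e]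
  linear_combination euler ℤ 12 ^ 2 * h

theorem lj6_F : hauptN 3 2 ℤ * (euler ℤ 3 ^ 4 * euler ℤ 2 ^ 8) =
    X * (euler ℤ 6 ^ 8 * euler ℤ 1 ^ 4) := by
  have e : hauptN 3 2 ℤ = X * (etaNp 3 2 ℤ * invOfUnit (etaN 2 ℤ) 1) ^ 4 := rfl
  have h1 := lj6_cinv (F := etaN 2 ℤ) (G := etaNp 3 2 ℤ) (constantCoeff_etaN 2) 4
  have h2 := lj6_eta2
  have h3 := lj6_eta2p
  rw [e]
  calc X * (etaNp 3 2 ℤ * invOfUnit (etaN 2 ℤ) 1) ^ 4 * (euler ℤ 3 ^ 4 * euler ℤ 2 ^ 8)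
      = X * (etaNp 3 2 ℤ * invOfUnit (etaN 2 ℤ) 1) ^ 4 * (euler ℤ 3 ^ 4 *
          (euler ℤ 2 ^ 2) ^ 4) := by ring
    _ = X * ((etaNp 3 2 ℤ * invOfUnit (etaN 2 ℤ) 1) ^ 4 * etaN 2 ℤ ^ 4) *
          (euler ℤ 3 ^ 4 * euler ℤ 1 ^ 4) := by rw [← h2]; ring
    _ = X * (etaNp 3 2 ℤ * euler ℤ 3) ^ 4 * euler ℤ 1 ^ 4 := by rw [h1]; ring
    _ = X * (euler ℤ 6 ^ 8 * euler ℤ 1 ^ 4) := by rw [h3]; ring

theorem lj6_f : hauptN 3 4 ℤ * (euler ℤ 6 ^ 2 * euler ℤ 4 ^ 4) =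
    X * (euler ℤ 12 ^ 4 * euler ℤ 2 ^ 2) := by
  have e : hauptN 3 4 ℤ = X * (etaNp 3 4 ℤ * invOfUnit (etaN 4 ℤ) 1) ^ 2 := rfl
  have h1 := lj6_cinv (F := etaN 4 ℤ) (G := etaNp 3 4 ℤ) (constantCoeff_etaN 4) 2
  have h2 := lj6_eta4
  have h3 := lj6_eta4p
  rw [e]
  calc X * (etaNp 3 4 ℤ * invOfUnit (etaN 4 ℤ) 1) ^ 2 * (euler ℤ 6 ^ 2 * euler ℤ 4 ^ 4)
      = X * (etaNp 3 4 ℤ * invOfUnit (etaN 4 ℤ) 1) ^ 2 * (euler ℤ 6 ^ 2 *
          (euler ℤ 4 ^ 2) ^ 2) := by ring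
    _ = X * ((etaNp 3 4 ℤ * invOfUnit (etaN 4 ℤ) 1) ^ 2 * etaN 4 ℤ ^ 2) *
          (euler ℤ 6 ^ 2 * euler ℤ 2 ^ 2) := by rw [← h2]; ring
    _ = X * (etaNp 3 4 ℤ * euler ℤ 6) ^ 2 * euler ℤ 2 ^ 2 := by rw [h1]; ring
    _ = X * (euler ℤ 12 ^ 4 * euler ℤ 2 ^ 2) := by rw [h3]; ring

theorem lj6_A2 : AN 3 2 ℤ * (euler ℤ 1 ^ 12 * euler ℤ 6 ^ 8) =
    euler ℤ 2 ^ 24 * euler ℤ 3 ^ 4 := by
  have e : AN 3 2 ℤ = etaN 2 ℤ ^ 12 * invOfUnit (etaNp 3 2 ℤ) 1 ^ 4 := rfl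
  have h1 := mul_inv_of (constantCoeff_etaNp (R := ℤ) 3 2)
  have h2 := lj6_eta2
  have h3 := lj6_eta2p
  rw [e]
  calc etaN 2 ℤ ^ 12 * invOfUnit (etaNp 3 2 ℤ) 1 ^ 4 * (euler ℤ 1 ^ 12 * euler ℤ 6 ^ 8)
      = (etaN 2 ℤ * euler ℤ 1) ^ 12 * invOfUnit (etaNp 3 2 ℤ) 1 ^ 4 *
          (euler ℤ 6 ^ 2) ^ 4 := by ring
    _ = (etaN 2 ℤ * euler ℤ 1) ^ 12 * (etaNp 3 2 ℤ * invOfUnit (etaNp 3 2 ℤ) 1) ^ 4 *
          euler ℤ 3 ^ 4 := by rw [← h3]; ring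
    _ = euler ℤ 2 ^ 24 * euler ℤ 3 ^ 4 := by rw [h1, h2]; ring

theorem lj6_A4 : AN 3 4 ℤ * (euler ℤ 2 ^ 6 * euler ℤ 12 ^ 4) =
    euler ℤ 4 ^ 12 * euler ℤ 6 ^ 2 := by
  have e : AN 3 4 ℤ = etaN 4 ℤ ^ 6 * invOfUnit (etaNp 3 4 ℤ) 1 ^ 2 := rfl
  have h1 := mul_inv_of (constantCoeff_etaNp (R := ℤ) 3 4)
  have h2 := lj6_eta4
  have h3 := lj6_eta4p
  rw [e]
  calc etaN 4 ℤ ^ 6 * invOfUnit (etaNp 3 4 ℤ) 1 ^ 2 * (euler ℤ 2 ^ 6 * euler ℤ 12 ^ 4)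
      = (etaN 4 ℤ * euler ℤ 2) ^ 6 * invOfUnit (etaNp 3 4 ℤ) 1 ^ 2 *
          (euler ℤ 12 ^ 2) ^ 2 := by ring
    _ = (etaN 4 ℤ * euler ℤ 2) ^ 6 * (etaNp 3 4 ℤ * invOfUnit (etaNp 3 4 ℤ) 1) ^ 2 *
          euler ℤ 6 ^ 2 := by rw [← h3]; ring
    _ = euler ℤ 4 ^ 12 * euler ℤ 6 ^ 2 := by rw [h1, h2]; ring

/-- `f` is odd. -/
theorem lj6_fneg : evalNegHom (hauptN 3 4 ℤ) = -hauptN 3 4 ℤ := by
  have h := congrArg evalNegHom lj6_f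
  have e2 : evalNegHom (euler ℤ 2) = euler ℤ 2 := lj6_neg_euler 1 le_rfl
  have e4 : evalNegHom (euler ℤ 4) = euler ℤ 4 := lj6_neg_euler 2 (by norm_num)
  have e6 : evalNegHom (euler ℤ 6) = euler ℤ 6 := lj6_neg_euler 3 (by norm_num)
  have e12 : evalNegHom (euler ℤ 12) = euler ℤ 12 := lj6_neg_euler 6 (by norm_num)
  simp only [map_mul, map_pow, e2, e4, e6, e12, evalNegHom_X] at h
  have hne : euler ℤ 6 ^ 2 * euler ℤ 4 ^ 4 ≠ 0 :=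
    mul_ne_zero (pow_ne_zero _ (lj6_en 6)) (pow_ne_zero _ (lj6_en 4))
  apply mul_right_cancel₀ hne
  linear_combination h + lj6_f

/-- `A` is even. -/
theorem lj6_Aneg : evalNegHom (AN 3 4 ℤ) = AN 3 4 ℤ := by
  have h := congrArg evalNegHom lj6_A4
  have e2 : evalNegHom (euler ℤ 2) = euler ℤ 2 := lj6_neg_euler 1 le_rfl
  have e4 : evalNegHom (euler ℤ 4) = euler ℤ 4 := lj6_neg_euler 2 (by norm_num)
  have e6 : evalNegHom (euler ℤ 6) = euler ℤ 6 := lj6_neg_euler 3 (by norm_num)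
  have e12 : evalNegHom (euler ℤ 12) = euler ℤ 12 := lj6_neg_euler 6 (by norm_num)
  simp only [map_mul, map_pow, e2, e4, e6, e12] at h
  have hne : euler ℤ 2 ^ 6 * euler ℤ 12 ^ 4 ≠ 0 :=
    mul_ne_zero (pow_ne_zero _ (lj6_en 2)) (pow_ne_zero _ (lj6_en 12))
  apply mul_right_cancel₀ hne
  linear_combination h - lj6_A4

/-! ### Algebra over a field -/

/-- the relations for `s` and `t` -/
theorem lj6_alg {K : Type*} [Field K] (x e1 e2 e3 e4 e6 e12 F f nF n1 n3 s t : K)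
    (h1 : e1 ≠ 0) (h2 : e2 ≠ 0) (h3 : e3 ≠ 0) (h4 : e4 ≠ 0) (h6 : e6 ≠ 0) (h12 : e12 ≠ 0)
    (hF : F * (e3 ^ 4 * e2 ^ 8) = x * (e6 ^ 8 * e1 ^ 4))
    (hf : f * (e6 ^ 2 * e4 ^ 4) = x * (e12 ^ 4 * e2 ^ 2))
    (hn1 : n1 * e1 * e4 = e2 ^ 3) (hn3 : n3 * e3 * e12 = e6 ^ 3)
    (hnF : nF * (n3 ^ 4 * e2 ^ 8) = -x * (e6 ^ 8 * n1 ^ 4))
    (hs : s * (e6 ^ 2 * e1 ^ 4) = e3 ^ 4 * e2 ^ 2)
    (ht : t * (e3 ^ 4 * e12 ^ 4 * e2 ^ 10) = e6 ^ 10 * e1 ^ 4 * e4 ^ 4)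
    (hJ1 : (1 - F) * (e2 ^ 5 * e6) = e1 * e3 ^ 5)
    (hJ2 : (1 - 9 * F) * (e2 ^ 9 * e3 ^ 3) = e1 ^ 9 * e6 ^ 3)
    (hN1 : (1 - nF) * (e2 ^ 5 * e6) = n1 * n3 ^ 5)
    (hN2 : (1 - 9 * nF) * (e2 ^ 9 * n3 ^ 3) = n1 ^ 9 * e6 ^ 3) :
    F = f * t ∧ s ^ 2 * (1 - 9 * (f * t)) = 1 - f * t ∧
      t ^ 2 * (1 + 9 * (f * s)) = 1 + f * s := by
  have hn1' : n1 = e2 ^ 3 / (e1 * e4) := by
    rw [eq_div_iff (mul_ne_zero h1 h4)]
    linear_combination hn1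
  have hn3' : n3 = e6 ^ 3 / (e3 * e12) := by
    rw [eq_div_iff (mul_ne_zero h3 h12)]
    linear_combination hn3
  have hn1n : n1 ≠ 0 := by
    rw [hn1']
    simp [h1, h2, h4]
  have hn3n : n3 ≠ 0 := by
    rw [hn3']
    simp [h3, h6, h12]
  have hs' : s = e3 ^ 4 * e2 ^ 2 / (e6 ^ 2 * e1 ^ 4) := by
    rw [eq_div_iff (by simp [h1, h2, h3, h4, h6, h12, hn1n, hn3n])]
    exact hs
  have ht' : t = e6 ^ 10 * e1 ^ 4 * e4 ^ 4 / (e3 ^ 4 * e12 ^ 4 * e2 ^ 10) := by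
    rw [eq_div_iff (by simp [h1, h2, h3, h4, h6, h12, hn1n, hn3n])]
    exact ht
  have hf' : f = x * (e12 ^ 4 * e2 ^ 2) / (e6 ^ 2 * e4 ^ 4) := by
    rw [eq_div_iff (by simp [h1, h2, h3, h4, h6, h12, hn1n, hn3n])]
    exact hf
  have hF' : F = x * (e6 ^ 8 * e1 ^ 4) / (e3 ^ 4 * e2 ^ 8) := by
    rw [eq_div_iff (by simp [h1, h2, h3, h4, h6, h12, hn1n, hn3n])]
    exact hF
  have hFt : F = f * t := by
    rw [hF', hf', ht']
    field_simp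
  have hnFs : nF = -(f * s) := by
    have hnF' : nF = -x * (e6 ^ 8 * n1 ^ 4) / (n3 ^ 4 * e2 ^ 8) := by
      rw [eq_div_iff (by simp [h1, h2, h3, h4, h6, h12, hn1n, hn3n])]
      exact hnF
    rw [hnF', hf', hs', hn1', hn3']
    field_simp
  refine ⟨hFt, ?_, ?_⟩
  · rw [← hFt]
    have a1 : 1 - F = e1 * e3 ^ 5 / (e2 ^ 5 * e6) := by
      rw [eq_div_iff (by simp [h1, h2, h3, h4, h6, h12, hn1n, hn3n])]
      exact hJ1
    have a2 : 1 - 9 * F = e1 ^ 9 * e6 ^ 3 / (e2 ^ 9 * e3 ^ 3) := by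
      rw [eq_div_iff (by simp [h1, h2, h3, h4, h6, h12, hn1n, hn3n])]
      exact hJ2
    rw [a1, a2, hs']
    field_simp
  · have a1 : 1 + f * s = n1 * n3 ^ 5 / (e2 ^ 5 * e6) := by
      rw [eq_div_iff (by simp [h2, h6]), ← hN1, hnFs]
      ring
    have a2 : 1 + 9 * (f * s) = n1 ^ 9 * e6 ^ 3 / (e2 ^ 9 * n3 ^ 3) := by
      rw [eq_div_iff (by simp [h2, hn3n]), ← hN2, hnFs]
      ring
    rw [a1, a2, ht', hn1', hn3']
    field_simp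

/-- the relations for `a = φ(q)` and `a(-q) = φ(-q)` -/
theorem lj6_alg2 {K : Type*} [Field K] (e1 e2 e3 e4 e6 e12 A2 A4 n1 a na t : K)
    (h1 : e1 ≠ 0) (h2 : e2 ≠ 0) (h3 : e3 ≠ 0) (h4 : e4 ≠ 0) (h6 : e6 ≠ 0) (h12 : e12 ≠ 0)
    (hn1 : n1 * e1 * e4 = e2 ^ 3)
    (hA2 : A2 * (e1 ^ 12 * e6 ^ 8) = e2 ^ 24 * e3 ^ 4)
    (hA4 : A4 * (e2 ^ 6 * e12 ^ 4) = e4 ^ 12 * e6 ^ 2)
    (ha : a * (e1 ^ 2 * e4 ^ 2) = e2 ^ 5) (hna : na * (n1 ^ 2 * e4 ^ 2) = e2 ^ 5)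
    (ht : t * (e3 ^ 4 * e12 ^ 4 * e2 ^ 10) = e6 ^ 10 * e1 ^ 4 * e4 ^ 4) :
    A2 * t = A4 * a ^ 4 ∧ na * e2 = e1 ^ 2 := by
  have hn1' : n1 = e2 ^ 3 / (e1 * e4) := by
    rw [eq_div_iff (mul_ne_zero h1 h4)]
    linear_combination hn1
  have hn1n : n1 ≠ 0 := by
    rw [hn1']
    simp [h1, h2, h4]
  have ht' : t = e6 ^ 10 * e1 ^ 4 * e4 ^ 4 / (e3 ^ 4 * e12 ^ 4 * e2 ^ 10) := by
    rw [eq_div_iff (by simp [h2, h3, h12])]
    exact ht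
  have hA2' : A2 = e2 ^ 24 * e3 ^ 4 / (e1 ^ 12 * e6 ^ 8) := by
    rw [eq_div_iff (by simp [h1, h6])]
    exact hA2
  have hA4' : A4 = e4 ^ 12 * e6 ^ 2 / (e2 ^ 6 * e12 ^ 4) := by
    rw [eq_div_iff (by simp [h2, h12])]
    exact hA4
  have ha' : a = e2 ^ 5 / (e1 ^ 2 * e4 ^ 2) := by
    rw [eq_div_iff (by simp [h1, h4])]
    exact ha
  have hna' : na = e2 ^ 5 / (n1 ^ 2 * e4 ^ 2) := by
    rw [eq_div_iff (by simp [hn1n, h4])]
    exact hna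
  constructor
  · rw [hA2', ht', hA4', ha']
    field_simp
  · rw [hna', hn1']
    field_simp

/-! ### Existence and uniqueness -/

theorem lj6_inv (k : ℕ) : euler ℤ k * invOfUnit (euler ℤ k) 1 = 1 :=
  mul_inv_of (fx_constantCoeff_euler ℤ k)

theorem lj6_cc_inv (k : ℕ) : PowerSeries.constantCoeff (invOfUnit (euler ℤ k) 1) = 1 :=
  constantCoeff_inv (fx_constantCoeff_euler ℤ k)

theorem lj6_st (h1 : J1) (h2 : J2) : ∃ s t : PowerSeries ℤ,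
    PowerSeries.constantCoeff s = 1 ∧ PowerSeries.constantCoeff t = 1 ∧
    t * (euler ℤ 3 ^ 4 * euler ℤ 12 ^ 4 * euler ℤ 2 ^ 10) =
      euler ℤ 6 ^ 10 * euler ℤ 1 ^ 4 * euler ℤ 4 ^ 4 ∧
    hauptN 3 2 ℤ = hauptN 3 4 ℤ * t ∧
    s ^ 2 * (1 - 9 * (hauptN 3 4 ℤ * t)) = 1 - hauptN 3 4 ℤ * t ∧
    t ^ 2 * (1 + 9 * (hauptN 3 4 ℤ * s)) = 1 + hauptN 3 4 ℤ * s := by
  have i1 := lj6_inv 1
  have i2 := lj6_inv 2
  have i3 := lj6_inv 3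
  have i6 := lj6_inv 6
  have i12 := lj6_inv 12
  set j1 := invOfUnit (euler ℤ 1) 1 with hj1
  set j2 := invOfUnit (euler ℤ 2) 1 with hj2
  set j3 := invOfUnit (euler ℤ 3) 1 with hj3
  set j6 := invOfUnit (euler ℤ 6) 1 with hj6
  set j12 := invOfUnit (euler ℤ 12) 1 with hj12
  set s : PowerSeries ℤ := euler ℤ 3 ^ 4 * euler ℤ 2 ^ 2 * (j6 ^ 2 * j1 ^ 4) with hs
  set t : PowerSeries ℤ := euler ℤ 6 ^ 10 * euler ℤ 1 ^ 4 * euler ℤ 4 ^ 4 *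
    (j3 ^ 4 * j12 ^ 4 * j2 ^ 10) with ht
  have hsE : s * (euler ℤ 6 ^ 2 * euler ℤ 1 ^ 4) = euler ℤ 3 ^ 4 * euler ℤ 2 ^ 2 := by
    calc s * (euler ℤ 6 ^ 2 * euler ℤ 1 ^ 4)
        = euler ℤ 3 ^ 4 * euler ℤ 2 ^ 2 * ((euler ℤ 6 * j6) ^ 2 * (euler ℤ 1 * j1) ^ 4) := by
          rw [hs]; ring
      _ = euler ℤ 3 ^ 4 * euler ℤ 2 ^ 2 := by rw [i6, i1]; ring
  have htE : t * (euler ℤ 3 ^ 4 * euler ℤ 12 ^ 4 * euler ℤ 2 ^ 10) =
      euler ℤ 6 ^ 10 * euler ℤ 1 ^ 4 * euler ℤ 4 ^ 4 := by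
    calc t * (euler ℤ 3 ^ 4 * euler ℤ 12 ^ 4 * euler ℤ 2 ^ 10)
        = euler ℤ 6 ^ 10 * euler ℤ 1 ^ 4 * euler ℤ 4 ^ 4 *
            ((euler ℤ 3 * j3) ^ 4 * (euler ℤ 12 * j12) ^ 4 * (euler ℤ 2 * j2) ^ 10) := by
          rw [ht]; ring
      _ = euler ℤ 6 ^ 10 * euler ℤ 1 ^ 4 * euler ℤ 4 ^ 4 := by rw [i3, i12, i2]; ring
  -- the relations at `-q`
  have e2 : evalNegHom (euler ℤ 2) = euler ℤ 2 := lj6_neg_euler 1 le_rfl
  have e6 : evalNegHom (euler ℤ 6) = euler ℤ 6 := lj6_neg_euler 3 (by norm_num)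
  have hnF := congrArg evalNegHom lj6_F
  simp only [map_mul, map_pow, e2, e6, evalNegHom_X] at hnF
  have hN1 := congrArg evalNegHom h1
  simp only [map_mul, map_pow, map_sub, map_one, e2, e6] at hN1
  have hN2 := congrArg evalNegHom h2
  simp only [map_mul, map_pow, map_sub, map_one, e2, e6, map_ofNat] at hN2
  -- the fraction field
  let ι : PowerSeries ℤ →+* FractionRing (PowerSeries ℤ) :=
    algebraMap (PowerSeries ℤ) (FractionRing (PowerSeries ℤ))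
  have hι : Function.Injective ι := IsFractionRing.injective _ _
  have hn : ∀ k, ι (euler ℤ k) ≠ 0 := fun k h => lj6_en k (hι (h.trans (map_zero ι).symm))
  have q1 := congrArg ι lj6_F
  have q2 := congrArg ι lj6_f
  have q3 := congrArg ι lj6_n1
  have q4 := congrArg ι lj6_n3
  have q5 := congrArg ι hnF
  have q6 := congrArg ι hsE
  have q7 := congrArg ι htE
  have q8 := congrArg ι (show (1 - hauptN 3 2 ℤ) * (euler ℤ 2 ^ 5 * euler ℤ 6) =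
    euler ℤ 1 * euler ℤ 3 ^ 5 from h1)
  have q9 := congrArg ι (show (1 - 9 * hauptN 3 2 ℤ) * (euler ℤ 2 ^ 9 * euler ℤ 3 ^ 3) =
    euler ℤ 1 ^ 9 * euler ℤ 6 ^ 3 from h2)
  have q10 := congrArg ι hN1
  have q11 := congrArg ι hN2
  simp only [map_mul, map_pow, map_sub, map_one, map_neg, map_ofNat] at q1 q2 q3 q4 q5 q6 q7 q8
  simp only [map_mul, map_pow, map_sub, map_one, map_neg, map_ofNat] at q9 q10 q11
  obtain ⟨r1, r2, r3⟩ := lj6_alg (ι X) (ι (euler ℤ 1)) (ι (euler ℤ 2)) (ι (euler ℤ 3))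
    (ι (euler ℤ 4)) (ι (euler ℤ 6)) (ι (euler ℤ 12)) (ι (hauptN 3 2 ℤ)) (ι (hauptN 3 4 ℤ))
    (ι (evalNegHom (hauptN 3 2 ℤ))) (ι (evalNegHom (euler ℤ 1))) (ι (evalNegHom (euler ℤ 3)))
    (ι s) (ι t) (hn 1) (hn 2) (hn 3) (hn 4) (hn 6) (hn 12) q1 q2 q3 q4 q5 q6 q7 q8 q9 q10 q11
  refine ⟨s, t, ?_, ?_, htE, hι ?_, hι ?_, hι ?_⟩
  · rw [hs]
    simp only [map_mul, map_pow, fx_constantCoeff_euler, hj6, hj1, lj6_cc_inv, one_pow, one_mul]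
  · rw [ht]
    simp only [map_mul, map_pow, fx_constantCoeff_euler, hj3, hj12, hj2, lj6_cc_inv, one_pow,
      one_mul]
  · rw [map_mul]
    exact r1
  · simp only [map_mul, map_pow, map_sub, map_one, map_ofNat]
    exact r2
  · simp only [map_mul, map_pow, map_add, map_one, map_ofNat]
    exact r3

theorem lj6_uniq {f s t : PowerSeries ℤ} (cf : PowerSeries.constantCoeff f = 0)
    (cs : PowerSeries.constantCoeff s = 1) (ct : PowerSeries.constantCoeff t = 1)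
    (hA : s ^ 2 * (1 - 9 * (f * t)) = 1 - f * t)
    (hB : t ^ 2 * (1 + 9 * (f * s)) = 1 + f * s) :
    s * (1 - 3 * f) = 1 + f ∧ t * (1 + 3 * f) = 1 - f := by
  have hA' : (s * (1 - 3 * f) - (1 + f)) * ((s * (1 - 3 * f) + (1 + f)) * (1 - 3 * f) ^ 2) =
      (t * (1 + 3 * f) - (1 - f)) * (f * (9 * (s * (1 - 3 * f)) ^ 2 - (1 - 3 * f) ^ 2)) := by
    linear_combination ((1 - 3 * f) ^ 2 * (1 + 3 * f)) * hA
  have hB' : (t * (1 + 3 * f) - (1 - f)) * ((t * (1 + 3 * f) + (1 - f)) * (1 + 3 * f) ^ 2) =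
      -((s * (1 - 3 * f) - (1 + f)) * (f * (9 * (t * (1 + 3 * f)) ^ 2 - (1 + 3 * f) ^ 2))) := by
    linear_combination ((1 + 3 * f) ^ 2 * (1 - 3 * f)) * hB
  have hu : (s * (1 - 3 * f) - (1 + f)) * (((s * (1 - 3 * f) + (1 + f)) * (1 - 3 * f) ^ 2) *
      ((t * (1 + 3 * f) + (1 - f)) * (1 + 3 * f) ^ 2) +
      (f * (9 * (s * (1 - 3 * f)) ^ 2 - (1 - 3 * f) ^ 2)) *
        (f * (9 * (t * (1 + 3 * f)) ^ 2 - (1 + 3 * f) ^ 2))) = 0 := by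
    linear_combination ((t * (1 + 3 * f) + (1 - f)) * (1 + 3 * f) ^ 2) * hA' +
      (f * (9 * (s * (1 - 3 * f)) ^ 2 - (1 - 3 * f) ^ 2)) * hB'
  have hne : ((s * (1 - 3 * f) + (1 + f)) * (1 - 3 * f) ^ 2) *
      ((t * (1 + 3 * f) + (1 - f)) * (1 + 3 * f) ^ 2) +
      (f * (9 * (s * (1 - 3 * f)) ^ 2 - (1 - 3 * f) ^ 2)) *
        (f * (9 * (t * (1 + 3 * f)) ^ 2 - (1 + 3 * f) ^ 2)) ≠ 0 := by
    refine lj6_ne (c := 4) (by norm_num) ?_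
    simp only [map_add, map_mul, map_sub, map_pow, map_one, map_ofNat, cf, cs, ct]
    norm_num
  have hu0 := (mul_eq_zero.1 hu).resolve_right hne
  rw [hu0, zero_mul, neg_zero] at hB'
  have hne2 : (t * (1 + 3 * f) + (1 - f)) * (1 + 3 * f) ^ 2 ≠ 0 := by
    refine lj6_ne (c := 2) (by norm_num) ?_
    simp only [map_add, map_mul, map_sub, map_pow, map_one, map_ofNat, cf, ct]
    norm_num
  have hv0 := (mul_eq_zero.1 hB').resolve_right hne2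
  exact ⟨sub_eq_zero.1 hu0, sub_eq_zero.1 hv0⟩

theorem lj6_app {a b c d : PowerSeries ℤ} (h : a ^ 8 * b = c ^ 4 * d ^ 2) :
    evalNegHom a ^ 8 * evalNegHom b = evalNegHom c ^ 4 * evalNegHom d ^ 2 := by
  have h' := congrArg evalNegHom h
  rw [map_mul, map_mul, map_pow, map_pow, map_pow] at h'
  exact h'

theorem lj6_ccf : PowerSeries.constantCoeff (hauptN 3 4 ℤ) = 0 := by
  have e : hauptN 3 4 ℤ = X * (etaNp 3 4 ℤ * invOfUnit (etaN 4 ℤ) 1) ^ 2 := rfl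
  rw [e, map_mul, PowerSeries.constantCoeff_X, zero_mul]

/-- `φ(q)⁴ = A (1 - f) (1 + 3f)³` and `A₂ (1 - f) = A φ(q)⁴ (1 + 3f)`. -/
theorem lj6_phi (h : K32) {t : PowerSeries ℤ}
    (htE : t * (euler ℤ 3 ^ 4 * euler ℤ 12 ^ 4 * euler ℤ 2 ^ 10) =
      euler ℤ 6 ^ 10 * euler ℤ 1 ^ 4 * euler ℤ 4 ^ 4)
    (hl1 : hauptN 3 2 ℤ * (1 + 3 * hauptN 3 4 ℤ) = hauptN 3 4 ℤ * (1 - hauptN 3 4 ℤ))
    (htf : t * (1 + 3 * hauptN 3 4 ℤ) = 1 - hauptN 3 4 ℤ) :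
    ∃ a : PowerSeries ℤ, a ^ 4 = AN 3 4 ℤ * (1 - hauptN 3 4 ℤ) * (1 + 3 * hauptN 3 4 ℤ) ^ 3 ∧
      AN 3 2 ℤ * (1 - hauptN 3 4 ℤ) = AN 3 4 ℤ * a ^ 4 * (1 + 3 * hauptN 3 4 ℤ) := by
  have i1 := lj6_inv 1
  have i4 := lj6_inv 4
  have hg1 := h.g1
  set f := hauptN 3 4 ℤ with hfd
  set F := hauptN 3 2 ℤ with hFd
  set A2 := AN 3 2 ℤ with hA2d
  set A4 := AN 3 4 ℤ with hA4d
  set a : PowerSeries ℤ := euler ℤ 2 ^ 5 *
    (invOfUnit (euler ℤ 1) 1 ^ 2 * invOfUnit (euler ℤ 4) 1 ^ 2) with had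
  have haE : a * (euler ℤ 1 ^ 2 * euler ℤ 4 ^ 2) = euler ℤ 2 ^ 5 := by
    calc a * (euler ℤ 1 ^ 2 * euler ℤ 4 ^ 2)
        = euler ℤ 2 ^ 5 * ((euler ℤ 1 * invOfUnit (euler ℤ 1) 1) ^ 2 *
            (euler ℤ 4 * invOfUnit (euler ℤ 4) 1) ^ 2) := by rw [had]; ring
      _ = euler ℤ 2 ^ 5 := by rw [i1, i4]; ring
  have hca : PowerSeries.constantCoeff a = 1 := by
    rw [had]
    simp only [map_mul, map_pow, fx_constantCoeff_euler, lj6_cc_inv, one_pow, one_mul]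
  have e2 : evalNegHom (euler ℤ 2) = euler ℤ 2 := lj6_neg_euler 1 le_rfl
  have e4 : evalNegHom (euler ℤ 4) = euler ℤ 4 := lj6_neg_euler 2 (by norm_num)
  have hna := congrArg evalNegHom haE
  simp only [map_mul, map_pow, e2, e4] at hna
  set na := evalNegHom a with hnad
  have hcna : PowerSeries.constantCoeff na = 1 := by rw [hnad, lj6_neg_cc, hca]
  -- the fraction field
  let ι : PowerSeries ℤ →+* FractionRing (PowerSeries ℤ) :=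
    algebraMap (PowerSeries ℤ) (FractionRing (PowerSeries ℤ))
  have hι : Function.Injective ι := IsFractionRing.injective _ _
  have hn : ∀ k, ι (euler ℤ k) ≠ 0 := fun k h => lj6_en k (hι (h.trans (map_zero ι).symm))
  have q3 := congrArg ι lj6_n1
  have q4 := congrArg ι lj6_A2
  have q5 := congrArg ι lj6_A4
  have q6 := congrArg ι haE
  have q7 := congrArg ι hna
  have q8 := congrArg ι htE
  simp only [map_mul, map_pow] at q3 q4 q5 q6 q7 q8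
  obtain ⟨r1, r2⟩ := lj6_alg2 (ι (euler ℤ 1)) (ι (euler ℤ 2)) (ι (euler ℤ 3))
    (ι (euler ℤ 4)) (ι (euler ℤ 6)) (ι (euler ℤ 12)) (ι A2) (ι A4) (ι (evalNegHom (euler ℤ 1)))
    (ι a) (ι na) (ι t) (hn 1) (hn 2) (hn 3) (hn 4) (hn 6) (hn 12) q3 q4 q5 q6 q7 q8
  have s1 : A2 * t = A4 * a ^ 4 := hι (by rw [map_mul, map_mul, map_pow]; exact r1)
  have s2 : na * euler ℤ 2 = euler ℤ 1 ^ 2 := hι (by rw [map_mul, map_pow]; exact r2)
  have s3 : A2 * (1 - f) = A4 * a ^ 4 * (1 + 3 * f) := by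
    linear_combination (1 + 3 * f) * s1 - A2 * htf
  have hF1 : (1 - F) * (1 + 3 * f) = (1 + f) ^ 2 := by linear_combination -hl1
  have hF2 : (1 - 9 * F) * (1 + 3 * f) = (1 - 3 * f) ^ 2 := by linear_combination -9 * hl1
  have s4 : na ^ 8 = A2 * (1 - F) * (1 - 9 * F) ^ 3 := by
    have hne : euler ℤ 2 ^ 8 ≠ 0 := pow_ne_zero _ (lj6_en 2)
    apply mul_right_cancel₀ hne
    rw [hg1, ← mul_pow, s2]
    ring
  have hfn : evalNegHom f = -f := lj6_fneg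
  have hAn : evalNegHom A4 = A4 := lj6_Aneg
  set D := A4 * (1 - f) * (1 + 3 * f) ^ 3 with hD
  set nD := A4 * (1 + f) * (1 - 3 * f) ^ 3 with hnD
  have s5 : na ^ 8 * D = a ^ 4 * nD ^ 2 := by
    calc na ^ 8 * D = (A2 * (1 - f)) * A4 * (1 - F) * (1 - 9 * F) ^ 3 * (1 + 3 * f) ^ 3 := by
          rw [s4, hD]; ring
      _ = A4 * a ^ 4 * (1 + 3 * f) * A4 * (1 - F) * (1 - 9 * F) ^ 3 * (1 + 3 * f) ^ 3 := by
          rw [s3]
      _ = A4 ^ 2 * a ^ 4 * ((1 - F) * (1 + 3 * f)) * ((1 - 9 * F) * (1 + 3 * f)) ^ 3 := by ring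
      _ = a ^ 4 * nD ^ 2 := by rw [hF1, hF2, hnD]; ring
  have hND : evalNegHom D = nD := by
    rw [hD, hnD]
    simp only [map_mul, map_pow, map_sub, map_add, map_one, map_ofNat, hfn, hAn]
    ring
  have hNnD : evalNegHom nD = D := by
    rw [hD, hnD]
    simp only [map_mul, map_pow, map_sub, map_add, map_one, map_ofNat, hfn, hAn]
    ring
  have s6 : a ^ 8 * nD = na ^ 4 * D ^ 2 := by
    have h6 := lj6_app s5
    rw [hND, hNnD, hnad, lj6_neg_neg, ← hnad] at h6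
    exact h6
  have hcD : PowerSeries.constantCoeff D = 1 := by
    rw [hD]
    simp only [map_mul, map_pow, map_sub, map_add, map_one, map_ofNat]
    rw [lj6_ccf, constantCoeff_AN]
    norm_num
  have hcnD : PowerSeries.constantCoeff nD = 1 := by rw [← hND, lj6_neg_cc, hcD]
  have s7 : (a ^ 4) ^ 3 = D ^ 3 := by
    have hne : a ^ 4 * nD ^ 2 ≠ 0 := lj6_ne one_ne_zero (by
      rw [map_mul, map_pow, map_pow, hca, hcnD]; norm_num)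
    apply mul_right_cancel₀ hne
    calc (a ^ 4) ^ 3 * (a ^ 4 * nD ^ 2) = (a ^ 8 * nD) ^ 2 := by ring
      _ = na ^ 8 * D * D ^ 3 := by rw [s6]; ring
      _ = D ^ 3 * (a ^ 4 * nD ^ 2) := by rw [s5]; ring
  refine ⟨a, lj6_cube ?_ hcD s7, s3⟩
  rw [map_pow, hca, one_pow]

/-- **Row LN-E6.** -/
theorem k34 (h : K32) (h1 : J1) (h2 : J2) : K34 := by
  obtain ⟨s, t, cs, ct, htE, hFt, hA, hB⟩ := lj6_st h1 h2
  obtain ⟨hs, ht⟩ := lj6_uniq lj6_ccf cs ct hA hB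
  have l1 : hauptN 3 2 ℤ * (1 + 3 * hauptN 3 4 ℤ) = hauptN 3 4 ℤ * (1 - hauptN 3 4 ℤ) := by
    rw [hFt, mul_assoc, ht]
  obtain ⟨a, ha, hA2⟩ := lj6_phi h htE l1 ht
  have cf := lj6_ccf
  have hfn : evalNegHom (hauptN 3 4 ℤ) = -hauptN 3 4 ℤ := lj6_fneg
  have hAn : evalNegHom (AN 3 4 ℤ) = AN 3 4 ℤ := lj6_Aneg
  have cA : PowerSeries.constantCoeff (AN 3 4 ℤ) = 1 := constantCoeff_AN 3 4 ℤ
  have hrel := h.rel
  have hf1 := h.f1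
  have hb1 := h.b1
  have hF1 : (1 - hauptN 3 2 ℤ) * (1 + 3 * hauptN 3 4 ℤ) = (1 + hauptN 3 4 ℤ) ^ 2 := by
    linear_combination -l1
  have hF2 : (1 - 9 * hauptN 3 2 ℤ) * (1 + 3 * hauptN 3 4 ℤ) = (1 - 3 * hauptN 3 4 ℤ) ^ 2 := by
    linear_combination -9 * l1
  have l2 : AN 3 2 ℤ = AN 3 4 ℤ ^ 2 * (1 + 3 * hauptN 3 4 ℤ) ^ 4 := by
    have hne : 1 - hauptN 3 4 ℤ ≠ 0 := lj6_ne one_ne_zero (by rw [map_sub, map_one, cf, sub_zero])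
    apply mul_right_cancel₀ hne
    rw [hA2, ha]
    ring
  -- level thirty-six
  have l1' := congrArg (PowerSeries.expand 3 D32.three_ne) l1
  have l2' := congrArg (PowerSeries.expand 3 D32.three_ne) l2
  simp only [map_mul, map_add, map_sub, map_one, map_ofNat, map_pow] at l1' l2'
  have cg : PowerSeries.constantCoeff ((hauptN 3 4 ℤ).expand 3 D32.three_ne) = 0 := by
    rw [PowerSeries.constantCoeff_expand, cf]
  have cA' : PowerSeries.constantCoeff ((AN 3 4 ℤ).expand 3 D32.three_ne) = 1 := by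
    rw [PowerSeries.constantCoeff_expand, cA]
  have hgn : evalNegHom ((hauptN 3 4 ℤ).expand 3 D32.three_ne) =
      -(hauptN 3 4 ℤ).expand 3 D32.three_ne := by rw [lj6_neg_three, hfn, map_neg]
  have hA'n : evalNegHom ((AN 3 4 ℤ).expand 3 D32.three_ne) =
      (AN 3 4 ℤ).expand 3 D32.three_ne := by rw [lj6_neg_three, hAn]
  set f := hauptN 3 4 ℤ with hfd
  set F := hauptN 3 2 ℤ with hFd
  set A2 := AN 3 2 ℤ with hA2d
  set A4 := AN 3 4 ℤ with hA4d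
  set g := f.expand 3 D32.three_ne with hgd
  set G := F.expand 3 D32.three_ne with hGd
  set A2' := A2.expand 3 D32.three_ne with hA2'd
  set A4' := A4.expand 3 D32.three_ne with hA4'd
  have hG1 : (1 - G) * (1 + 3 * g) = (1 + g) ^ 2 := by linear_combination -l1'
  have hG2 : (1 - 9 * G) * (1 + 3 * g) = (1 - 3 * g) ^ 2 := by linear_combination -9 * l1'
  have relp : A4' * (1 + g) * (1 - 3 * g) ^ 3 = A4 * (1 + f) ^ 3 * (1 - 3 * f) := by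
    refine lj6_sq ?_ ?_ ?_
    · simp only [map_mul, map_pow, map_sub, map_add, map_one, map_ofNat, cg, cA']
      norm_num
    · simp only [map_mul, map_pow, map_sub, map_add, map_one, map_ofNat, cf, cA]
      norm_num
    · calc (A4' * (1 + g) * (1 - 3 * g) ^ 3) ^ 2
          = A4' ^ 2 * ((1 + g) ^ 2) * ((1 - 3 * g) ^ 2) ^ 3 := by ring
        _ = A4' ^ 2 * (1 + 3 * g) ^ 4 * (1 - G) * (1 - 9 * G) ^ 3 := by
            rw [← hG1, ← hG2]; ring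
        _ = A2 * (1 - F) ^ 3 * (1 - 9 * F) := by rw [← l2', hrel]
        _ = A4 ^ 2 * ((1 - F) * (1 + 3 * f)) ^ 3 * ((1 - 9 * F) * (1 + 3 * f)) := by
            rw [l2]; ring
        _ = (A4 * (1 + f) ^ 3 * (1 - 3 * f)) ^ 2 := by rw [hF1, hF2]; ring
  refine ⟨l1, l2, relp, ?_, ?_, ?_⟩
  · have h3 := congrArg evalNegHom relp
    simp only [map_mul, map_pow, map_sub, map_add, map_one, map_ofNat, hfn, hAn, hgn, hA'n] at h3
    linear_combination h3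
  · have hne : (1 + 3 * f) ^ 2 ≠ 0 := lj6_ne one_ne_zero (by
      simp only [map_pow, map_add, map_mul, map_one, map_ofNat, cf]
      norm_num)
    apply mul_right_cancel₀ hne
    calc hauptmodul 3 ℤ * ((1 + 3 * f) * (1 - 3 * f) ^ 4) * (1 + 3 * f) ^ 2
        = hauptmodul 3 ℤ * ((1 - 3 * f) ^ 2) ^ 2 * (1 + 3 * f) ^ 3 := by ring
      _ = hauptmodul 3 ℤ * (1 - 9 * F) ^ 2 * (1 + 3 * f) ^ 5 := by rw [← hF2]; ring
      _ = (F * (1 + 3 * f)) * ((1 - F) * (1 + 3 * f)) ^ 2 * (1 + 3 * f) ^ 2 := by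
          rw [hf1]; ring
      _ = f * (1 - f) * (1 + f) ^ 4 * (1 + 3 * f) ^ 2 := by rw [l1, hF1]; ring
  · refine lj6_sq ?_ ?_ ?_
    · unfold D3.bser
      simp only [map_pow, map_mul, fx_constantCoeff_euler, lj6_cc_inv, one_pow, one_mul]
    · simp only [map_mul, map_pow, map_sub, map_add, map_one, map_ofNat, lj6_ccf,
        constantCoeff_AN]
      norm_num
    · calc (D3.bser ℤ ^ 6) ^ 2 = D3.bser ℤ ^ 12 := by ring
        _ = A4 ^ 6 * (1 + 3 * f) ^ 4 * ((1 - 9 * F) * (1 + 3 * f)) ^ 8 := by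
            rw [hb1, l2]; ring
        _ = (A4 ^ 3 * ((1 + 3 * f) * (1 - 3 * f) ^ 4) ^ 2) ^ 2 := by rw [hF2]; ring

end LN

end GH
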