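import Pool.Agent.GH.LN.EStm
import Pool.Agent.GH.QHaupt

/-!
# Level `N`, row LN-E7: the relations of level ten
-/

open PowerSeries Filter Topology

noncomputable section

namespace GH

namespace LN

theorem lk5_inv (k : ℕ) : euler ℤ k * invOfUnit (euler ℤ k) 1 = 1 :=
  mul_inv_of (fx_constantCoeff_euler ℤ k)

theorem lk5_eN : etaN 2 ℤ * euler ℤ 1 = euler ℤ 2 ^ 2 := by
  have h : etaN 2 ℤ = euler ℤ 2 ^ 2 * invOfUnit (euler ℤ 1) 1 := by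
    unfold etaN
    rw [if_neg (by norm_num), if_pos rfl]
  rw [h]
  linear_combination (euler ℤ 2 ^ 2) * lk5_inv 1

theorem lk5_eP : etaNp 5 2 ℤ * euler ℤ 5 = euler ℤ 10 ^ 2 := by
  have h : etaNp 5 2 ℤ = euler ℤ 10 ^ 2 * invOfUnit (euler ℤ 5) 1 := by
    unfold etaNp
    rw [if_neg (by norm_num), if_pos rfl]
  rw [h]
  linear_combination (euler ℤ 10 ^ 2) * lk5_inv 5

/-- the Hauptmodul -/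
theorem lk5_f : hauptN 5 2 ℤ * (euler ℤ 2 ^ 4 * euler ℤ 5 ^ 2) =
    X * (euler ℤ 10 ^ 4 * euler ℤ 1 ^ 2) := by
  have h1 : hauptN 5 2 ℤ * etaN 2 ℤ ^ 2 = X * etaNp 5 2 ℤ ^ 2 := by
    have h2 : hauptN 5 2 ℤ = X * (etaNp 5 2 ℤ * invOfUnit (etaN 2 ℤ) 1) ^ 2 := rfl
    have h3 := mul_inv_of (constantCoeff_etaN (R := ℤ) 2)
    rw [h2]
    linear_combination (X * etaNp 5 2 ℤ ^ 2 * (etaN 2 ℤ * invOfUnit (etaN 2 ℤ) 1 + 1)) * h3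
  have e1 := lk5_eN
  have e2 := lk5_eP
  calc hauptN 5 2 ℤ * (euler ℤ 2 ^ 4 * euler ℤ 5 ^ 2)
      = hauptN 5 2 ℤ * ((euler ℤ 2 ^ 2) ^ 2 * euler ℤ 5 ^ 2) := by ring
    _ = hauptN 5 2 ℤ * etaN 2 ℤ ^ 2 * (euler ℤ 1 ^ 2 * euler ℤ 5 ^ 2) := by rw [← e1]; ring
    _ = X * (etaNp 5 2 ℤ * euler ℤ 5) ^ 2 * euler ℤ 1 ^ 2 := by rw [h1]; ring
    _ = X * (euler ℤ 10 ^ 4 * euler ℤ 1 ^ 2) := by rw [e2]; ring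

/-- the series `A` -/
theorem lk5_A : AN 5 2 ℤ * (euler ℤ 10 ^ 4 * euler ℤ 1 ^ 10) =
    euler ℤ 2 ^ 20 * euler ℤ 5 ^ 2 := by
  have h1 : AN 5 2 ℤ * etaNp 5 2 ℤ ^ 2 = etaN 2 ℤ ^ 10 := by
    have h2 : AN 5 2 ℤ = etaN 2 ℤ ^ 10 * invOfUnit (etaNp 5 2 ℤ) 1 ^ 2 := rfl
    have h3 := mul_inv_of (constantCoeff_etaNp (R := ℤ) 5 2)
    rw [h2]
    linear_combination (etaN 2 ℤ ^ 10 * (etaNp 5 2 ℤ * invOfUnit (etaNp 5 2 ℤ) 1 + 1)) * h3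
  have e1 := lk5_eN
  have e2 := lk5_eP
  calc AN 5 2 ℤ * (euler ℤ 10 ^ 4 * euler ℤ 1 ^ 10)
      = AN 5 2 ℤ * ((euler ℤ 10 ^ 2) ^ 2 * euler ℤ 1 ^ 10) := by ring
    _ = AN 5 2 ℤ * etaNp 5 2 ℤ ^ 2 * (euler ℤ 5 ^ 2 * euler ℤ 1 ^ 10) := by rw [← e2]; ring
    _ = (etaN 2 ℤ * euler ℤ 1) ^ 10 * euler ℤ 5 ^ 2 := by rw [h1]; ring
    _ = euler ℤ 2 ^ 20 * euler ℤ 5 ^ 2 := by rw [e1]; ring

theorem lk5_h : hauptmodul 5 ℤ * euler ℤ 1 ^ 6 = X * euler ℤ 5 ^ 6 := by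
  have h2 : hauptmodul 5 ℤ = X * (euler ℤ 5 * invOfUnit (euler ℤ 1) 1) ^ 6 := rfl
  rw [h2]
  have h3 : (invOfUnit (euler ℤ 1) 1 * euler ℤ 1) ^ 6 = 1 := by
    rw [mul_comm, lk5_inv 1, one_pow]
  calc X * (euler ℤ 5 * invOfUnit (euler ℤ 1) 1) ^ 6 * euler ℤ 1 ^ 6
      = X * euler ℤ 5 ^ 6 * (invOfUnit (euler ℤ 1) 1 * euler ℤ 1) ^ 6 := by ring
    _ = X * euler ℤ 5 ^ 6 := by rw [h3, mul_one]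

theorem lk5_p : D5.phi5 ℤ * euler ℤ 5 = euler ℤ 1 ^ 5 := by
  have h2 : D5.phi5 ℤ = euler ℤ 1 ^ 5 * invOfUnit (euler ℤ 5) 1 := rfl
  rw [h2]
  linear_combination (euler ℤ 1 ^ 5) * lk5_inv 5

theorem lk5_ne (a b c d : ℕ) :
    euler ℤ 1 ^ a * euler ℤ 2 ^ b * euler ℤ 5 ^ c * euler ℤ 10 ^ d ≠ 0 :=
  mul_ne_zero (mul_ne_zero (mul_ne_zero (pow_ne_zero _ (qh_euler_ne 1))
    (pow_ne_zero _ (qh_euler_ne 2))) (pow_ne_zero _ (qh_euler_ne 5)))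
    (pow_ne_zero _ (qh_euler_ne 10))

theorem lk5_g1 (h1 : K1) (h2 : K2) :
    AN 5 2 ℤ * (1 - hauptN 5 2 ℤ) * (1 - 5 * hauptN 5 2 ℤ) ^ 5 * euler ℤ 2 ^ 8 =
      euler ℤ 1 ^ 16 := by
  refine mul_right_cancel₀ (lk5_ne 10 28 5 5) ?_
  calc AN 5 2 ℤ * (1 - hauptN 5 2 ℤ) * (1 - 5 * hauptN 5 2 ℤ) ^ 5 * euler ℤ 2 ^ 8 *
        (euler ℤ 1 ^ 10 * euler ℤ 2 ^ 28 * euler ℤ 5 ^ 5 * euler ℤ 10 ^ 5)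
      = (AN 5 2 ℤ * (euler ℤ 10 ^ 4 * euler ℤ 1 ^ 10)) *
          ((1 - hauptN 5 2 ℤ) * (euler ℤ 2 ^ 3 * euler ℤ 10)) *
          ((1 - 5 * hauptN 5 2 ℤ) * (euler ℤ 2 ^ 5 * euler ℤ 5)) ^ 5 * euler ℤ 2 ^ 8 := by ring
    _ = euler ℤ 1 ^ 16 *
        (euler ℤ 1 ^ 10 * euler ℤ 2 ^ 28 * euler ℤ 5 ^ 5 * euler ℤ 10 ^ 5) := by
      rw [lk5_A, h1, h2]
      ring

theorem lk5_g2 (h1 : K1) (h2 : K2) :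
    AN 5 2 ℤ * (1 - hauptN 5 2 ℤ) ^ 5 * (1 - 5 * hauptN 5 2 ℤ) * euler ℤ 10 ^ 8 =
      euler ℤ 5 ^ 16 := by
  refine mul_right_cancel₀ (lk5_ne 10 20 1 9) ?_
  calc AN 5 2 ℤ * (1 - hauptN 5 2 ℤ) ^ 5 * (1 - 5 * hauptN 5 2 ℤ) * euler ℤ 10 ^ 8 *
        (euler ℤ 1 ^ 10 * euler ℤ 2 ^ 20 * euler ℤ 5 ^ 1 * euler ℤ 10 ^ 9)
      = (AN 5 2 ℤ * (euler ℤ 10 ^ 4 * euler ℤ 1 ^ 10)) *
          ((1 - hauptN 5 2 ℤ) * (euler ℤ 2 ^ 3 * euler ℤ 10)) ^ 5 *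
          ((1 - 5 * hauptN 5 2 ℤ) * (euler ℤ 2 ^ 5 * euler ℤ 5)) * euler ℤ 10 ^ 8 := by ring
    _ = euler ℤ 5 ^ 16 *
        (euler ℤ 1 ^ 10 * euler ℤ 2 ^ 20 * euler ℤ 5 ^ 1 * euler ℤ 10 ^ 9) := by
      rw [lk5_A, h1, h2]
      ring

/-- The relations of level ten. -/
theorem k52 (h1 : K1) (h2 : K2) : K52 where
  g1 := lk5_g1 h1 h2
  rel := by
    have e := congrArg (fun F => F.expand 5 D52.five_ne) (lk5_g1 h1 h2)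
    simp only [map_mul, map_sub, map_pow, map_one, map_ofNat] at e
    rw [euler_expand ℤ 5 D52.five_ne 2 (by norm_num), euler_expand ℤ 5 D52.five_ne 1 le_rfl] at e
    refine mul_right_cancel₀ (pow_ne_zero 8 (qh_euler_ne 10)) ?_
    rw [lk5_g2 h1 h2]
    exact e
  f1 := by
    refine mul_right_cancel₀ (lk5_ne 6 20 4 4) ?_
    calc hauptmodul 5 ℤ * (1 - 5 * hauptN 5 2 ℤ) ^ 2 *
          (euler ℤ 1 ^ 6 * euler ℤ 2 ^ 20 * euler ℤ 5 ^ 4 * euler ℤ 10 ^ 4)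
        = (hauptmodul 5 ℤ * euler ℤ 1 ^ 6) *
          ((1 - 5 * hauptN 5 2 ℤ) * (euler ℤ 2 ^ 5 * euler ℤ 5)) ^ 2 *
          (euler ℤ 2 ^ 10 * euler ℤ 5 ^ 2 * euler ℤ 10 ^ 4) := by ring
      _ = (X * euler ℤ 5 ^ 6) * (euler ℤ 1 ^ 5 * euler ℤ 10) ^ 2 *
          (euler ℤ 2 ^ 10 * euler ℤ 5 ^ 2 * euler ℤ 10 ^ 4) := by rw [lk5_h, h2]
      _ = (X * (euler ℤ 10 ^ 4 * euler ℤ 1 ^ 2)) * (euler ℤ 1 * euler ℤ 5 ^ 3) ^ 2 *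
          (euler ℤ 1 ^ 6 * euler ℤ 2 ^ 10 * euler ℤ 5 ^ 2 * euler ℤ 10 ^ 2) := by ring
      _ = (hauptN 5 2 ℤ * (euler ℤ 2 ^ 4 * euler ℤ 5 ^ 2)) *
          ((1 - hauptN 5 2 ℤ) * (euler ℤ 2 ^ 3 * euler ℤ 10)) ^ 2 *
          (euler ℤ 1 ^ 6 * euler ℤ 2 ^ 10 * euler ℤ 5 ^ 2 * euler ℤ 10 ^ 2) := by
        rw [lk5_f, h1]
      _ = hauptN 5 2 ℤ * (1 - hauptN 5 2 ℤ) ^ 2 *
          (euler ℤ 1 ^ 6 * euler ℤ 2 ^ 20 * euler ℤ 5 ^ 4 * euler ℤ 10 ^ 4) := by ring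
  b1 := by
    refine mul_right_cancel₀ (lk5_ne 10 20 4 4) ?_
    calc D5.phi5 ℤ ^ 2 * (euler ℤ 1 ^ 10 * euler ℤ 2 ^ 20 * euler ℤ 5 ^ 4 * euler ℤ 10 ^ 4)
        = (D5.phi5 ℤ * euler ℤ 5) ^ 2 *
          (euler ℤ 1 ^ 10 * euler ℤ 2 ^ 20 * euler ℤ 5 ^ 2 * euler ℤ 10 ^ 4) := by ring
      _ = (euler ℤ 2 ^ 20 * euler ℤ 5 ^ 2) * (euler ℤ 1 ^ 5 * euler ℤ 10) ^ 4 := by
        rw [lk5_p]
        ring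
      _ = (AN 5 2 ℤ * (euler ℤ 10 ^ 4 * euler ℤ 1 ^ 10)) *
          ((1 - 5 * hauptN 5 2 ℤ) * (euler ℤ 2 ^ 5 * euler ℤ 5)) ^ 4 := by rw [lk5_A, h2]
      _ = AN 5 2 ℤ * (1 - 5 * hauptN 5 2 ℤ) ^ 4 *
          (euler ℤ 1 ^ 10 * euler ℤ 2 ^ 20 * euler ℤ 5 ^ 4 * euler ℤ 10 ^ 4) := by ring

end LN

end GH
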