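import Pool.Agent.GH.LN.EStm
import Pool.Agent.GH.D5.EisW2

/-!
# Level `N`: the Eisenstein series of weight two, level ten

`2 E_2(2z) - E_2(z)` is the logarithmic derivative of `q (E(q²)/E(q))^24`, which is
`f/((1-f)(1-5f)^5)` for the Hauptmodul `f` of level ten.
-/

set_option autoImplicit false

open PowerSeries

noncomputable section

namespace GH

namespace LN

/-- the coefficients of `2 E_2(2z) - E_2(z)` -/
lemma lk8_eis : eisTwo ℚ = 1 + 24 * (D5.d5S ℚ 1 - D5.d5S ℚ 2) := by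
  unfold eisTwo
  congr 1
  ext n
  have h24 : (24 : PowerSeries ℚ) = C (24 : ℚ) := by rw [map_ofNat]
  rw [h24, PowerSeries.coeff_C_mul, map_sub, PowerSeries.coeff_mk]
  unfold D5.d5S
  rw [PowerSeries.coeff_mk, PowerSeries.coeff_mk, ← Finset.sum_sub_distrib]
  congr 1
  refine Finset.sum_congr rfl fun d _ => ?_
  rw [if_pos (one_dvd d)]
  by_cases h : 2 ∣ d
  · rw [if_pos h, if_neg (by omega), sub_self]
  · rw [if_neg h, if_pos (by omega), sub_zero]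

lemma lk8_euler (k : ℕ) (hk : 1 ≤ k) (m : ℕ) : thqN (euler ℚ k ^ m) =
    -((m : PowerSeries ℚ) * D5.d5S ℚ k * euler ℚ k ^ m) := by
  have h := D5.d5_pow (euler ℚ k) (-D5.d5S ℚ k) (by rw [D5.d5_euler k hk]; ring) m
  have h1 : thqN (euler ℚ k ^ m) = (m : PowerSeries ℚ) * -D5.d5S ℚ k * euler ℚ k ^ m := h
  rw [h1]
  ring

lemma lk8_ne {F : PowerSeries ℚ} (h : PowerSeries.constantCoeff F = 1) : F ≠ 0 := by
  intro h0
  rw [h0, map_zero] at h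
  exact zero_ne_one h

/-- `A f E(q)^8 = q E(q²)^16`. -/
lemma lk8_Af : AN 5 2 ℚ * hauptN 5 2 ℚ * euler ℚ 1 ^ 8 = X * euler ℚ 2 ^ 16 := by
  have h1 : etaN 2 ℚ * invOfUnit (etaN 2 ℚ) 1 = 1 := mul_inv_of (constantCoeff_etaN 2)
  have h2 : etaNp 5 2 ℚ * invOfUnit (etaNp 5 2 ℚ) 1 = 1 := mul_inv_of (constantCoeff_etaNp 5 2)
  have h3 : euler ℚ 1 * invOfUnit (euler ℚ 1) 1 = 1 := mul_inv_of (fx_constantCoeff_euler ℚ _)
  have hA : AN 5 2 ℚ = etaN 2 ℚ ^ 10 * invOfUnit (etaNp 5 2 ℚ) 1 ^ 2 := rfl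
  have hf : hauptN 5 2 ℚ = X * (etaNp 5 2 ℚ * invOfUnit (etaN 2 ℚ) 1) ^ 2 := rfl
  have he : etaN 2 ℚ = euler ℚ 2 ^ 2 * invOfUnit (euler ℚ 1) 1 := rfl
  have h4 : AN 5 2 ℚ * hauptN 5 2 ℚ = X * etaN 2 ℚ ^ 8 := by
    rw [hA, hf]
    calc etaN 2 ℚ ^ 10 * invOfUnit (etaNp 5 2 ℚ) 1 ^ 2 *
          (X * (etaNp 5 2 ℚ * invOfUnit (etaN 2 ℚ) 1) ^ 2)
        = X * etaN 2 ℚ ^ 8 * (etaN 2 ℚ * invOfUnit (etaN 2 ℚ) 1) ^ 2 *
          (etaNp 5 2 ℚ * invOfUnit (etaNp 5 2 ℚ) 1) ^ 2 := by ring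
      _ = X * etaN 2 ℚ ^ 8 := by rw [h1, h2]; ring
  rw [h4, he]
  calc X * (euler ℚ 2 ^ 2 * invOfUnit (euler ℚ 1) 1) ^ 8 * euler ℚ 1 ^ 8
      = X * euler ℚ 2 ^ 16 * (euler ℚ 1 * invOfUnit (euler ℚ 1) 1) ^ 8 := by ring
    _ = X * euler ℚ 2 ^ 16 := by rw [h3]; ring

/-- The relation between `f` and `q (E(q²)/E(q))^24`. -/
lemma lk8_rel (h : K52) : X * euler ℚ 2 ^ 24 *
    ((1 - hauptN 5 2 ℚ) * (1 - 5 * hauptN 5 2 ℚ) ^ 5) = hauptN 5 2 ℚ * euler ℚ 1 ^ 24 := by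
  have h1 := congrArg (PowerSeries.map (Int.castRingHom ℚ)) h.g1
  rw [map_mul, map_mul, map_mul, map_pow, map_pow, map_pow, map_sub, map_sub, map_mul, map_AN,
    map_hauptN, fx_map_euler, fx_map_euler, map_one, map_ofNat] at h1
  have h2 := lk8_Af
  linear_combination (-(euler ℚ 2 ^ 8 * ((1 - hauptN 5 2 ℚ) * (1 - 5 * hauptN 5 2 ℚ) ^ 5))) * h2 +
    hauptN 5 2 ℚ * euler ℚ 1 ^ 8 * h1

theorem w52 (h : K52) : W52 := by
  have h1 := lk8_rel h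
  have h2 := congrArg thqN h1
  have hf : thqN (hauptN 5 2 ℚ) = hauptN 5 2 ℚ * dlogN 5 2 ℚ := thq_hauptN 5 2
  have hX : thqN (X : PowerSeries ℚ) = X := by
    rw [lg_thq_eq, derivative_X, mul_one]
  have h5 : thqN (1 - hauptN 5 2 ℚ) = -(hauptN 5 2 ℚ * dlogN 5 2 ℚ) := by
    rw [lg_thq_eq, map_sub, mul_sub, ← lg_thq_eq, ← lg_thq_eq, lg_thq_one, hf, zero_sub]
  have h6 : thqN (1 - 5 * hauptN 5 2 ℚ) = -(5 * (hauptN 5 2 ℚ * dlogN 5 2 ℚ)) := by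
    have h50 : thqN (5 : PowerSeries ℚ) = 0 := by
      have h5c : (5 : PowerSeries ℚ) = ((5 : ℕ) : PowerSeries ℚ) := by norm_num
      rw [h5c, lg_thq_eq, Derivation.map_natCast, mul_zero]
    rw [lg_thq_eq, map_sub, mul_sub, ← lg_thq_eq, ← lg_thq_eq, lg_thq_one, lg_thq_mul, hf, h50]
    ring
  have h7 := lg_thq_pow_gen (1 - 5 * hauptN 5 2 ℚ) 5
  rw [h6] at h7
  rw [lg_thq_mul, lg_thq_mul, lg_thq_mul, lg_thq_mul, hX, hf, h5, lk8_euler 2 (by norm_num) 24,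
    lk8_euler 1 le_rfl 24] at h2
  show eisTwo ℚ * _ = _
  rw [lk8_eis]
  set f := hauptN 5 2 ℚ with hfd
  set d := dlogN 5 2 ℚ with hd
  set s1 := D5.d5S ℚ 1
  set s2 := D5.d5S ℚ 2
  set E1 := euler ℚ 1
  set E2 := euler ℚ 2
  have hf0 : PowerSeries.constantCoeff f = 0 := by
    rw [← PowerSeries.coeff_zero_eq_constantCoeff_apply]
    exact coeff_zero_hauptN 5 2
  have hn : X * E2 ^ 24 * (1 - 5 * f) ^ 5 ≠ 0 := by
    refine mul_ne_zero (mul_ne_zero X_ne_zero (pow_ne_zero _ (lk8_ne ?_))) (pow_ne_zero _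
      (lk8_ne ?_))
    · exact fx_constantCoeff_euler ℚ _
    · rw [map_sub, map_mul, hf0, map_one, mul_zero, sub_zero]
  refine mul_left_cancel₀ hn ?_
  push_cast at h2 h7
  linear_combination (1 - 5 * f) * h2 - X * E2 ^ 24 * (1 - f) * h7 -
    (1 - 5 * f) * (d - 24 * s1) * h1

end LN

end GH
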