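import Pool.Agent.GH.LN.Jtp
import Pool.Agent.GH.LN.J1x
import Pool.Agent.GH.LN.J2x
import Pool.Agent.GH.LN.K1x
import Pool.Agent.GH.LN.K2x
import Pool.Agent.GH.LN.K32x
import Pool.Agent.GH.LN.K34x
import Pool.Agent.GH.LN.K52x
import Pool.Agent.GH.LN.W52x
import Pool.Agent.GH.D32.Fix32
import Pool.Agent.GH.D34.Fix34
import Pool.Agent.GH.D52.Fix52

/-!
# Level `N`: the identities, unconditionally
-/

namespace GH

namespace LN

theorem allJ1 : J1 := j1 jtp
theorem allJ2 : J2 := j2 jtp allJ1
theorem allK1 : K1 := k1 jtp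
theorem allK2 : K2 := k2 jtp allK1
theorem allK32 : K32 := k32 allJ1 allJ2
theorem allK34 : K34 := k34 allK32 allJ1 allJ2
theorem allK52 : K52 := k52 allK1 allK2
theorem allW52 : W52 := w52 allK52

end LN

namespace D32

theorem allEq32 : Eq32 := eq32 LN.allK32

theorem allGr32 : Gr32 := gr32 allEq32

end D32

namespace D34

theorem allEq34 : Eq34 := eq34 LN.allK34

theorem allGr34 : Gr34 := gr34 allEq34

end D34

namespace D52

theorem allEq52 : Eq52 := eq52 LN.allK52

theorem allGr52 : Gr52 := gr52 allEq52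

end D52

end GH
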