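import Pool.Agent.GH.LN.PStm
import Pool.Agent.GH.D3.Main3

/-!
# Level `N`: transfer of the Eisenstein family for `p = 3`
-/

open PowerSeries Filter Topology

noncomputable section

namespace GH

namespace LN

open GP DP

theorem lp4_ev (w : D3.C3) (F : PowerSeries ℤ_[3]) : D3.ev3 w F = evp w F := rfl

theorem lp4_evS (w : D3.C3) (F : PowerSeries (PowerSeries ℤ_[3])) :
    D3.evS3 w F = evSp w F := rfl

theorem lp4_eisStab (k : ℕ) : eisStabP 3 k = D3.eisStab3 k := by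
  unfold eisStabP D3.eisStab3
  simp only [Nat.cast_ofNat]

theorem lp4_triv (κ : Weight 3) (hκ : κ.IsEven) : Triv κ := by
  intro ζ hζ
  have h1 : (ζ : ℤ_[3]) * ζ = 1 := by
    have h := congrArg (fun u : (ℤ_[3])ˣ => (u : ℤ_[3])) hζ
    have h2 : ((ζ ^ 2 : (ℤ_[3])ˣ) : ℤ_[3]) = 1 := h
    rw [Units.val_pow_eq_pow_val, sq] at h2
    exact h2
  rcases mul_self_eq_one_iff.1 h1 with h | h
  · have h3 : ζ = 1 := Units.ext h
    rw [h3, map_one]
  · have h3 : ζ = -1 := Units.ext h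
    rw [h3]
    exact hκ

theorem lp4_eisFam (E : PowerSeries (PowerSeries ℤ_[3])) (hE : EisFamilyP E) :
    D3.EisFamily3 E where
  c0 := hE.c0
  dvd := hE.dvd
  eig := hE.eig
  eis κ hκ := by
    rw [lp4_evS]
    exact hE.eis κ (lp4_triv κ hκ)
  cls m hm := by
    have h := hE.cls (6 * m) (by omega)
    have e1 : (3 - 1) * (6 * m) = 12 * m := by omega
    rw [e1, lp4_eisStab] at h
    have e2 : (1 + 2 * ((3 : ℕ) : PadicComplex 3)) = 7 := by norm_num
    rw [e2] at h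
    rw [lp4_evS]
    exact h

theorem tr3 : Tr3 := by
  intro E hE
  have hE3 := lp4_eisFam E hE
  obtain ⟨u, hu1, hu2, hu3⟩ := D3.exists_ord3 (fun x ↦ D3.Mat3_zero_zero x)
    (fun x hx i j h ↦ D3.norm_Mat3_le (by norm_num) hx h)
    (fun x hx i j h ↦ D3.norm_Mat3_lt hx h) (fun i j ↦ D3.Mat3_isPoly 0 i j)
  have hu : D3.OrdVec3 u := ⟨hu1, hu2, hu3⟩
  refine ⟨u, fun x hx => ⟨(hu.eqs x hx).1, (hu.eqs x hx).2.1, ?_⟩, fun w hw l => ?_⟩
  · rw [← lp4_evS]
    exact D3.evS3_eisFam E hE3 u hu x hx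
  · have hw' : ‖w‖ ≤ 1 / 3 := by
      refine hw.trans (le_of_eq ?_)
      norm_num
    exact D3.norm_Phi3_central E hE3 u hu hw' l

end LN

end GH
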