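import Pool.Agent.GH.LN.PStm
import Pool.Agent.GH.D5.Phi5
import Pool.Agent.GH.D5.UMat5C
import Pool.Agent.GH.D5.Ghost5

/-!
# Level `N`: the transfer of the Eisenstein family for `p = 5`
-/

open PowerSeries Filter Topology

noncomputable section

namespace GH

namespace LN

open GP DP CombU D5

theorem tr5 : Tr5 := by
  intro E hE
  obtain ⟨u, hu⟩ := exists_ord5 (fun y ↦ Mat5_zero_zero 0 y) (fun y hy i j h ↦
    norm_Mat5_zero_le hy h) (Mat5_isPoly 0)
  exact ⟨u, fun x hx ↦ ⟨(hu.eqs x hx).1, (hu.eqs x hx).2.1, evSp_eisFam5 E hE u hu x hx⟩,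
    fun w hw l ↦ norm_Phi5_central E hE u hu hw l⟩

end LN

end GH
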