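import Pool.Agent.GH.LN.PStm
import Pool.Agent.GH.CombU.PLN

/-!
# Level `N`: strict vertices
-/

noncomputable section

namespace GH

namespace LN

open CombU

theorem vtxB_all (i : ℕ) (hi : i ≤ 3) : VtxLN i := by
  intro n
  by_contra hcon
  push Not at hcon
  have hc : ∀ b, n ≤ b → BLN i b + BLN i (b + 2) = 2 * BLN i (b + 1) := by
    intro b hb
    have h1 := hcon b hb
    have h2 := BLN_conv i hi b
    omega
  have hinc : ∀ k, (BLN i (n + k + 1) : ℤ) - BLN i (n + k) = (BLN i (n + 1) : ℤ) - BLN i n := by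
    intro k
    induction k with
    | zero => rfl
    | succ k ih =>
      have h1 := hc (n + k) (by omega)
      have e1 : n + (k + 1) + 1 = n + k + 2 := by omega
      have e2 : n + (k + 1) = n + k + 1 := by omega
      rw [e1, e2]
      omega
  obtain ⟨K, hK⟩ := (sysLN_isG i hi).grows 0 0 ((BLN i (n + 1) : ℤ) - BLN i n + 1)
  have h1 := hK (n + K) (by omega)
  have h2 := hinc K
  have h3 := B_eq_FZ i hi 0 (n + K)
  have h4 := B_eq_FZ i hi 0 (n + K + 1)
  push_cast at h1 h3 h4
  linarith

end LN

end GH
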