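import Pool.Agent.GH.LN.PFin
import Pool.Agent.GH.LN.KAll
import Pool.Agent.GH.LN.InN
import Pool.Agent.GH.LN.Tr3x
import Pool.Agent.GH.LN.Tr5x
import Pool.Agent.GH.LN.GhoA
import Pool.Agent.GH.LN.VtxB
import Pool.Agent.GH.D32.BndA32
import Pool.Agent.GH.D34.BndA34
import Pool.Agent.GH.D52.BndA52
import Pool.Agent.GH.D32.Glu32
import Pool.Agent.GH.D34.Glu34
import Pool.Agent.GH.D52.Glu52
import Pool.Agent.GH.D32.Cen32x
import Pool.Agent.GH.D34.Cen34x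
import Pool.Agent.GH.D52.Cen52x
import Pool.Agent.GH.D52.Vev52x
import Pool.Agent.GH.D32.UM32y
import Pool.Agent.GH.D34.UM34x
import Pool.Agent.GH.D52.UM52x
import Pool.Agent.GH.LM.IFinal
import Pool.Agent.GH.LM.IFinal32

/-!
# The ghost conjecture for `(3,2)`, `(3,4)`, `(5,2)`
-/

open PowerSeries Filter Topology

noncomputable section

namespace GH

namespace LN

theorem allBnd32 : D32.Bnd32 := D32.bnd32 D32.allEq32 D32.allGr32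

theorem allBnd34 : D34.Bnd34 := D34.bnd34 D34.allEq34 D34.allGr34

theorem allBnd52 : D52.Bnd52 := D52.bnd52 D52.allEq52 D52.allGr52

/-- **The ghost conjecture for `p = 3`, `N = 2`.** -/
theorem ghost32 : GhostConjectureN 3 2 :=
  D32.ghost32_of allBnd32 (D32.cen32 allBnd32 (LM.central32 (in32 allK32))) (D32.um32y allBnd32)
    (D32.glu32 tr3 allK32) (D32.ph32 tr3 allK32) gho32 (norm_zeroLN 3) (vtxB_all 0 (by norm_num))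

/-- **The ghost conjecture for `p = 3`, `N = 4`.** -/
theorem ghost34 : GhostConjectureN 3 4 :=
  D34.ghost34_of allBnd34 (D34.cen34 allBnd34 (LM.central34 (in34 allK34))) (D34.um34 allBnd34)
    (D34.glu34 tr3 allK34) (D34.ph34 tr3 allK34) gho34 (norm_zeroLN 3) (vtxB_all 1 (by norm_num))

theorem allVev52 : D52.Vev52 := D52.vev52 allK52 allW52 allBnd52.hR

/-- **The ghost conjecture for `p = 5`, `N = 2`.** -/
theorem ghost52 : GhostConjectureN 5 2 :=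
  D52.ghost52_of allBnd52 (D52.cen52 allBnd52 allVev52 (LM.central52 (in52 allK52)))
    (D52.um52 allBnd52 allW52) (D52.glu52 tr5 allK52) (D52.ph52 tr5 allK52)
    (fun c hc ↦ gho52 c hc) (norm_zeroLN 5) vtxB_all

/-- `U_p` is completely continuous on the overconvergent cusp forms. -/
theorem compactN_of {p N : ℕ} [Fact p.Prime] (κ : Weight p)
    (h : ∃ R : ℝ, 1 < R ∧ ∃ c : ℝ, 0 < c ∧
      (∀ i j : ℕ, 1 ≤ j → j ≤ p * i → ‖κ.uMatrixN N i j‖ ≤ c * R⁻¹ ^ (p * i - j)) ∧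
      (∀ i j : ℕ, 1 ≤ j → p * i < j → κ.uMatrixN N i j = 0)) :
    ∃ R : ℝ, 1 < R ∧ ∀ r : ℝ, 1 < r → r < R →
    (∀ F : PowerSeries (PadicComplex p), κ.IsCuspFormN N r F → κ.IsCuspFormN N (r ^ p) (U p F)) ∧
    (∀ F : PowerSeries (PadicComplex p), κ.IsCuspFormN N r F → ∀ i : ℕ,
      fcoeffN p N ((κ.cframeN N)⁻¹ * U p F) i =
        ∑ j ∈ Finset.range (p * i + 1), κ.uMatrixN N i j * fcoeffN p N ((κ.cframeN N)⁻¹ * F) j) ∧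
    (∃ ε : ℕ → ℝ, Tendsto ε atTop (𝓝 0) ∧
      ∀ i j : ℕ, 1 ≤ j → ‖κ.uMatrixN N i j‖ * r ^ i ≤ ε i * r ^ j) := by
  obtain ⟨R, hR, c, hc, hA, hA0⟩ := h
  exact ⟨R, hR, fun r hr hrR ↦ compactN_of_decay κ hR hc hA hA0 r hr hrR⟩

/-- `U_3` is completely continuous, `(p, N) = (3, 2)`. -/
theorem compact32 (κ : Weight 3) (hκ : κ.IsEven) : ∃ R : ℝ, 1 < R ∧ ∀ r : ℝ, 1 < r → r < R →
    (∀ F : PowerSeries (PadicComplex 3), κ.IsCuspFormN 2 r F → κ.IsCuspFormN 2 (r ^ 3) (U 3 F)) ∧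
    (∀ F : PowerSeries (PadicComplex 3), κ.IsCuspFormN 2 r F → ∀ i : ℕ,
      fcoeffN 3 2 ((κ.cframeN 2)⁻¹ * U 3 F) i =
        ∑ j ∈ Finset.range (3 * i + 1), κ.uMatrixN 2 i j * fcoeffN 3 2 ((κ.cframeN 2)⁻¹ * F) j) ∧
    (∃ ε : ℕ → ℝ, Tendsto ε atTop (𝓝 0) ∧
      ∀ i j : ℕ, 1 ≤ j → ‖κ.uMatrixN 2 i j‖ * r ^ i ≤ ε i * r ^ j) :=
  compactN_of κ (D32.decay32_of allBnd32 (D32.um32y allBnd32) (D32.ph32 tr3 allK32) κ hκ)

/-- `U_3` is completely continuous, `(p, N) = (3, 4)`. -/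
theorem compact34 (κ : Weight 3) (hκ : κ.IsEven) : ∃ R : ℝ, 1 < R ∧ ∀ r : ℝ, 1 < r → r < R →
    (∀ F : PowerSeries (PadicComplex 3), κ.IsCuspFormN 4 r F → κ.IsCuspFormN 4 (r ^ 3) (U 3 F)) ∧
    (∀ F : PowerSeries (PadicComplex 3), κ.IsCuspFormN 4 r F → ∀ i : ℕ,
      fcoeffN 3 4 ((κ.cframeN 4)⁻¹ * U 3 F) i =
        ∑ j ∈ Finset.range (3 * i + 1), κ.uMatrixN 4 i j * fcoeffN 3 4 ((κ.cframeN 4)⁻¹ * F) j) ∧
    (∃ ε : ℕ → ℝ, Tendsto ε atTop (𝓝 0) ∧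
      ∀ i j : ℕ, 1 ≤ j → ‖κ.uMatrixN 4 i j‖ * r ^ i ≤ ε i * r ^ j) :=
  compactN_of κ (D34.decay34_of allBnd34 (D34.um34 allBnd34) (D34.ph34 tr3 allK34) κ hκ)

/-- `U_5` is completely continuous, `(p, N) = (5, 2)`. -/
theorem compact52 (κ : Weight 5) (hκ : κ.IsEven) : ∃ R : ℝ, 1 < R ∧ ∀ r : ℝ, 1 < r → r < R →
    (∀ F : PowerSeries (PadicComplex 5), κ.IsCuspFormN 2 r F → κ.IsCuspFormN 2 (r ^ 5) (U 5 F)) ∧
    (∀ F : PowerSeries (PadicComplex 5), κ.IsCuspFormN 2 r F → ∀ i : ℕ,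
      fcoeffN 5 2 ((κ.cframeN 2)⁻¹ * U 5 F) i =
        ∑ j ∈ Finset.range (5 * i + 1), κ.uMatrixN 2 i j * fcoeffN 5 2 ((κ.cframeN 2)⁻¹ * F) j) ∧
    (∃ ε : ℕ → ℝ, Tendsto ε atTop (𝓝 0) ∧
      ∀ i j : ℕ, 1 ≤ j → ‖κ.uMatrixN 2 i j‖ * r ^ i ≤ ε i * r ^ j) :=
  compactN_of κ (D52.decay52_of allBnd52 (D52.um52 allBnd52 allW52) (D52.ph52 tr5 allK52) κ hκ)

end LN

end GH
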