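import Pool.Agent.GH.DP.BaseP
import Pool.Agent.GH.LN.FExpN

/-!
# Level `N`: definitions used in the proof

`DP.evSp`, `DP.EisFamilyP`, `DP.cst`, `DP.cpl`, `DP.Dec` do not depend on the Hauptmodul.
-/

open PowerSeries Filter Topology

noncomputable section

namespace GH

namespace LN

open GP DP

variable {p : ℕ} [Fact p.Prime]

/-- `Φ_l`: the coefficients of `E(q)/E(q^p)` in powers of `f = hauptN p N`. -/
def PhiN (N : ℕ) (E : PowerSeries (PowerSeries ℤ_[p])) (l : ℕ) : PowerSeries ℤ_[p] :=
  fcoeffN p N (E * invOfUnit (E.expand p (Fact.out : p.Prime).ne_zero) 1) l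

/-- The family matrix: `U_p` in the basis `E D f^j`. -/
def famN (N : ℕ) (D : PowerSeries ℤ_[p]) (E : PowerSeries (PowerSeries ℤ_[p])) (i j : ℕ) :
    PowerSeries ℤ_[p] :=
  fcoeffN p N (invOfUnit (E * cst D) 1 *
    U p (E * cst D * hauptN p N (PowerSeries ℤ_[p]) ^ j)) i

/-- `M` is the matrix of `U_p` in the basis `B f^j`, `j ≥ 1`, `B` a series with constant
term `1`. -/
structure IsUMatN (N : ℕ) (B : PowerSeries (PadicComplex p)) (M : ℕ → ℕ → PadicComplex p) :
    Prop where
  c0 : PowerSeries.constantCoeff B = 1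
  zero : ∀ i j : ℕ, p * i < j → M i j = 0
  mat : ∀ u : PowerSeries (PadicComplex p), PowerSeries.coeff 0 u = 0 →
    U p (B * u.subst (hauptN p N (PadicComplex p))) =
      B * (PowerSeries.mk fun i ↦
        ∑ j ∈ Finset.range (p * i + 1), M i j * PowerSeries.coeff j u).subst
        (hauptN p N (PadicComplex p))

end LN

end GH
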