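import Pool.Agent.GH.LN.LagN
import Pool.Agent.GH.D3.FredFam3

/-!
# Level `N`: matrices `[h^{pi-j}] P S^i`, definitions
-/

open PowerSeries Filter Topology

noncomputable section

namespace GH

namespace LN

/-- One eigenvalue `1`, then the sequence `b`. -/
def shf {K : Type*} [One K] (b : ℕ → K) (n : ℕ) : K := if n < 1 then 1 else b (n - 1)

/-- The matrix `[h^{pi-j}] P S^i`. -/
def mt (p : ℕ) {K : Type*} [Field K] (S P : PowerSeries K) (i j : ℕ) : K :=
  if j ≤ p * i then PowerSeries.coeff (p * i - j) (P * S ^ i) else 0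

/-- `|F_n| ρ^n ≤ c`. -/
def Bd {K : Type*} [NormedField K] (ρ c : ℝ) (F : PowerSeries K) : Prop :=
  ∀ n, ‖PowerSeries.coeff n F‖ * ρ ^ n ≤ c

end LN

end GH
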