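import Pool.Agent.GH.DP.CompactP
import Pool.Agent.GH.LN.FExpN

/-!
# `U_p` is completely continuous on the overconvergent cusp forms

Not used for the proof of the ghost conjecture; `uMatrixU κ` is the matrix of the completely
continuous operator `U_p` on the Banach spaces of `r`-overconvergent cusp forms of weight `κ`,
`r > 1` small.
-/

open PowerSeries Filter Topology

noncomputable section

namespace GH

namespace LN

variable {p : ℕ} [hp : Fact p.Prime] {N : ℕ}

lemma lncp_constantCoeff_eis (κ : Weight p) : PowerSeries.constantCoeff κ.eis = 1 := by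
  rw [← PowerSeries.coeff_zero_eq_constantCoeff_apply, Weight.eis, map_add, PowerSeries.coeff_mk]
  simp

lemma lncp_constantCoeff_eisTwo : PowerSeries.constantCoeff (eisTwo (PadicComplex p)) = 1 := by
  rw [← PowerSeries.coeff_zero_eq_constantCoeff_apply, eisTwo, map_add, PowerSeries.coeff_mk]
  simp

lemma lncp_constantCoeff_frame (κ : Weight p) (N : ℕ) :
    PowerSeries.constantCoeff (κ.cframeN N) = 1 := by
  rw [Weight.cframeN, Weight.frameN, map_mul, map_mul, lncp_constantCoeff_eis,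
    constantCoeff_cuspN, mul_one, one_mul]
  split_ifs
  · rw [lncp_constantCoeff_eis]
  · rw [map_pow, lncp_constantCoeff_eisTwo, one_pow]

omit hp in
lemma lncp_fcoeff_zero {R : Type*} [CommRing R] (F : PowerSeries R) {i : ℕ}
    (h : ∀ n ≤ i, PowerSeries.coeff n F = 0) : ∀ n ≤ i, fcoeffN p N F n = 0 := by
  intro n
  induction n using Nat.strong_induction_on with
  | _ n ih =>
    intro hn
    rw [fx_fcoeff, h n hn, Finset.sum_eq_zero, sub_zero]
    intro m hm
    rw [Finset.mem_range] at hm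
    rw [ih m hm (by omega), zero_mul]

lemma lncp_fcoeff_add (F G : PowerSeries (PadicComplex p)) (n : ℕ) :
    fcoeffN p N (F + G) n = fcoeffN p N F n + fcoeffN p N G n := by
  have h : F + G = (PowerSeries.mk (fcoeffN p N F) + PowerSeries.mk (fcoeffN p N G)).subst
      (hauptN p N (PadicComplex p)) := by
    rw [← coe_substAlgHom (fx_hasSubst p N), map_add, coe_substAlgHom, subst_fcoeff, subst_fcoeff]
  have h2 := congrFun (fcoeff_subst p N (PowerSeries.mk (fcoeffN p N F) + PowerSeries.mk (fcoeffN p N G))) n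
  rw [← h] at h2
  rw [h2]
  simp

lemma lncp_fcoeff_smul (c : PadicComplex p) (F : PowerSeries (PadicComplex p)) (n : ℕ) :
    fcoeffN p N (C c * F) n = c * fcoeffN p N F n := by
  have h : C c * F = (C c * PowerSeries.mk (fcoeffN p N F)).subst (hauptN p N (PadicComplex p)) := by
    rw [PowerSeries.subst_mul (fx_hasSubst p N), subst_fcoeff]
    congr 1
    rw [← PowerSeries.algebraMap_eq, ← coe_substAlgHom (fx_hasSubst p N), AlgHom.commutes]
  have h2 := congrFun (fcoeff_subst p N (C c * PowerSeries.mk (fcoeffN p N F))) n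
  rw [← h] at h2
  rw [h2]
  simp

lemma lncp_fcoeff_sum {ι : Type*} (s : Finset ι) (F : ι → PowerSeries (PadicComplex p)) (n : ℕ) :
    fcoeffN p N (∑ i ∈ s, F i) n = ∑ i ∈ s, fcoeffN p N (F i) n := by
  classical
  induction s using Finset.induction_on with
  | empty =>
    rw [Finset.sum_empty, Finset.sum_empty]
    have := lncp_fcoeff_smul (p := p) (N := N) 0 0 n
    simpa using this
  | insert a s ha ih =>
    rw [Finset.sum_insert ha, Finset.sum_insert ha, lncp_fcoeff_add, ih]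

lemma lncp_U_add (F G : PowerSeries (PadicComplex p)) : U p (F + G) = U p F + U p G := by
  ext n
  simp [U]

lemma lncp_U_smul (c : PadicComplex p) (F : PowerSeries (PadicComplex p)) : U p (C c * F) = C c * U p F := by
  ext n
  simp [U]

lemma lncp_U_sum {ι : Type*} (s : Finset ι) (F : ι → PowerSeries (PadicComplex p)) :
    U p (∑ i ∈ s, F i) = ∑ i ∈ s, U p (F i) := by
  ext n
  simp [U]

/-- splitting off the first `nn` coefficients -/
lemma lncp_split (g : PowerSeries (PadicComplex p)) (nn : ℕ) : ∃ g' : PowerSeries (PadicComplex p),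
    g = ∑ j ∈ Finset.range nn, C (PowerSeries.coeff j g) * X ^ j + X ^ nn * g' := by
  refine ⟨PowerSeries.mk fun n ↦ PowerSeries.coeff (n + nn) g, ?_⟩
  ext n
  rw [map_add, map_sum]
  simp only [PowerSeries.coeff_C_mul, PowerSeries.coeff_X_pow, mul_ite, mul_one, mul_zero]
  rw [PowerSeries.coeff_X_pow_mul', Finset.sum_ite_eq, PowerSeries.coeff_mk]
  rcases lt_or_ge n nn with h | h
  · rw [if_pos (Finset.mem_range.2 h), if_neg (by omega), add_zero]
  · rw [if_neg (by rw [Finset.mem_range]; omega), if_pos h, zero_add, Nat.sub_add_cancel h]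

/-- `U_2` acts on the coefficients by the matrix. -/
lemma lncp_fcoeff_U (κ : Weight p) (F : PowerSeries (PadicComplex p)) (i : ℕ) :
    fcoeffN p N ((κ.cframeN N)⁻¹ * U p F) i =
      ∑ j ∈ Finset.range (p * i + 1), κ.uMatrixN N i j * fcoeffN p N ((κ.cframeN N)⁻¹ * F) j := by
  set e := κ.cframeN N with he
  have hc : PowerSeries.constantCoeff e ≠ 0 := by
    rw [he, lncp_constantCoeff_frame]
    exact one_ne_zero
  set f := hauptN p N (PadicComplex p) with hf
  set g : PowerSeries (PadicComplex p) := PowerSeries.mk (fcoeffN p N (e⁻¹ * F)) with hg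
  have h1 : g.subst f = e⁻¹ * F := subst_fcoeff p N _
  have h2 : F = e * g.subst f := by
    rw [h1, ← mul_assoc, PowerSeries.mul_inv_cancel _ hc, one_mul]
  obtain ⟨g', hg'⟩ := lncp_split g (p * i + 1)
  have h3 : g.subst f = ∑ j ∈ Finset.range (p * i + 1), C (PowerSeries.coeff j g) * f ^ j +
      f ^ (p * i + 1) * g'.subst f := by
    conv_lhs => rw [hg']
    rw [← coe_substAlgHom (fx_hasSubst p N), map_add, map_sum, map_mul, map_pow, substAlgHom_X]
    congr 1
    refine Finset.sum_congr rfl fun j _ ↦ ?_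
    rw [map_mul, map_pow, substAlgHom_X, ← PowerSeries.algebraMap_eq, AlgHom.commutes]
  have h4 : F = ∑ j ∈ Finset.range (p * i + 1), C (PowerSeries.coeff j g) * (e * f ^ j) +
      e * f ^ (p * i + 1) * g'.subst f := by
    rw [h2, h3, mul_add, Finset.mul_sum, mul_assoc]
    congr 1
    refine Finset.sum_congr rfl fun j _ ↦ ?_
    ring
  have h5 : e⁻¹ * U p F = ∑ j ∈ Finset.range (p * i + 1), C (PowerSeries.coeff j g) *
      (e⁻¹ * U p (e * f ^ j)) + e⁻¹ * U p (e * f ^ (p * i + 1) * g'.subst f) := by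
    conv_lhs => rw [h4]
    rw [lncp_U_add, lncp_U_sum, mul_add, Finset.mul_sum]
    congr 1
    refine Finset.sum_congr rfl fun j _ ↦ ?_
    rw [lncp_U_smul]
    ring
  have h6 : fcoeffN p N (e⁻¹ * U p (e * f ^ (p * i + 1) * g'.subst f)) i = 0 := by
    refine lncp_fcoeff_zero _ (i := i) (fun n hn => ?_) i le_rfl
    rw [PowerSeries.coeff_mul]
    refine Finset.sum_eq_zero fun ab hab => ?_
    rw [Finset.HasAntidiagonal.mem_antidiagonal] at hab
    have h7 : PowerSeries.coeff ab.2 (U p (e * f ^ (p * i + 1) * g'.subst f)) = 0 := by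
      unfold U
      rw [PowerSeries.coeff_mk, mul_right_comm, PowerSeries.coeff_mul]
      refine Finset.sum_eq_zero fun cd hcd => ?_
      rw [Finset.HasAntidiagonal.mem_antidiagonal] at hcd
      have h8 : p * ab.2 ≤ p * i := Nat.mul_le_mul_left p (by omega)
      rw [hf, fx_coeff_pow_lt p N (by omega), mul_zero]
    rw [h7, mul_zero]
  rw [h5, lncp_fcoeff_add, h6, add_zero, lncp_fcoeff_sum]
  refine Finset.sum_congr rfl fun j _ ↦ ?_
  rw [lncp_fcoeff_smul, hg, PowerSeries.coeff_mk, Weight.uMatrixN, mul_comm]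

/-- the estimate for the image of `U_2` -/
lemma lncp_tendsto {R c r : ℝ} (hR : 1 < R) (hc : 0 < c) (hr : 1 < r) (hrR : r < R)
    (A : ℕ → ℕ → PadicComplex p) (b : ℕ → PadicComplex p)
    (hA : ∀ i j : ℕ, j ≤ p * i → ‖A i j‖ ≤ c * R⁻¹ ^ (p * i - j))
    (hb : Tendsto (fun n : ℕ ↦ ‖b n‖ * r ^ n) atTop (𝓝 0)) :
    Tendsto (fun i : ℕ ↦ ‖∑ j ∈ Finset.range (p * i + 1), A i j * b j‖ * (r ^ p) ^ i) atTop
      (𝓝 0) := by
  have hR0 : 0 < R := by linarith
  have hr0 : 0 < r := by linarith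
  have hq0 : 0 < r / R := div_pos hr0 hR0
  have hq1 : r / R < 1 := (div_lt_one hR0).2 hrR
  obtain ⟨M, hM⟩ := hb.bddAbove_range
  have hM' : ∀ n, ‖b n‖ * r ^ n ≤ M := fun n ↦ hM ⟨n, rfl⟩
  have hM0 : 0 ≤ M := (by positivity : 0 ≤ ‖b 0‖ * r ^ 0).trans (hM' 0)
  -- term by term
  have hterm : ∀ i j : ℕ, j ≤ p * i → ‖A i j * b j‖ * (r ^ p) ^ i ≤
      c * ((r / R) ^ (p * i - j) * (‖b j‖ * r ^ j)) := by
    intro i j hij
    have h1 : (r ^ p) ^ i = r ^ (p * i - j) * r ^ j := by
      rw [← pow_mul, ← pow_add]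
      congr 1
      omega
    rw [norm_mul, h1, div_pow, div_eq_mul_inv, ← inv_pow]
    calc ‖A i j‖ * ‖b j‖ * (r ^ (p * i - j) * r ^ j)
        = ‖A i j‖ * (r ^ (p * i - j) * (‖b j‖ * r ^ j)) := by ring
      _ ≤ (c * R⁻¹ ^ (p * i - j)) * (r ^ (p * i - j) * (‖b j‖ * r ^ j)) :=
          mul_le_mul_of_nonneg_right (hA i j hij) (by positivity)
      _ = _ := by ring
  rw [Metric.tendsto_atTop]
  intro ε hε
  obtain ⟨J, hJ⟩ := (Metric.tendsto_atTop.1 hb) (ε / (2 * c)) (by positivity)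
  have hJ' : ∀ n, J ≤ n → ‖b n‖ * r ^ n ≤ ε / (2 * c) := by
    intro n hn
    have := hJ n hn
    rw [Real.dist_eq, sub_zero, abs_of_nonneg (by positivity)] at this
    exact this.le
  obtain ⟨K, hK⟩ := exists_pow_lt_of_lt_one (show 0 < ε / (2 * (c * (M + 1))) by positivity) hq1
  refine ⟨J + K, fun i hi ↦ ?_⟩
  rw [Real.dist_eq, sub_zero, abs_of_nonneg (by positivity)]
  have hri : 0 < (r ^ p) ^ i := by positivity
  refine lt_of_le_of_lt ?_ (half_lt_self hε)
  rw [← le_div_iff₀ hri]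
  refine IsUltrametricDist.norm_sum_le_of_forall_le_of_nonneg (by positivity) fun j hj => ?_
  rw [le_div_iff₀ hri]
  have hj2 : j ≤ p * i := by
    rw [Finset.mem_range] at hj
    omega
  refine (hterm i j hj2).trans ?_
  rcases lt_or_ge j J with h | h
  · have hpi : i ≤ p * i := Nat.le_mul_of_pos_left i hp.out.pos
    have h1 : (r / R) ^ (p * i - j) ≤ ε / (2 * (c * (M + 1))) :=
      (pow_le_pow_of_le_one hq0.le hq1.le (by omega)).trans hK.le
    calc c * ((r / R) ^ (p * i - j) * (‖b j‖ * r ^ j))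
        ≤ c * (ε / (2 * (c * (M + 1))) * (M + 1)) := by
          refine mul_le_mul_of_nonneg_left ?_ hc.le
          exact mul_le_mul h1 ((hM' j).trans (by linarith)) (by positivity) (by positivity)
      _ = ε / 2 := by
          field_simp
  · calc c * ((r / R) ^ (p * i - j) * (‖b j‖ * r ^ j))
        ≤ c * (1 * (ε / (2 * c))) := by
          refine mul_le_mul_of_nonneg_left ?_ hc.le
          exact mul_le_mul (pow_le_one₀ hq0.le hq1.le) (hJ' j h) (by positivity) zero_le_one
      _ = ε / 2 := by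
          field_simp


/-- Decay of the matrix gives the properties of `U_p`. -/
theorem compactN_of_decay (κ : Weight p) {R c : ℝ} (hR : 1 < R) (hc : 0 < c)
    (hA : ∀ i j : ℕ, 1 ≤ j → j ≤ p * i → ‖κ.uMatrixN N i j‖ ≤ c * R⁻¹ ^ (p * i - j))
    (hA0 : ∀ i j : ℕ, 1 ≤ j → p * i < j → κ.uMatrixN N i j = 0) (r : ℝ) (hr : 1 < r) (hrR : r < R) :
    (∀ F : PowerSeries (PadicComplex p), κ.IsCuspFormN N r F → κ.IsCuspFormN N (r ^ p) (U p F)) ∧
    (∀ F : PowerSeries (PadicComplex p), κ.IsCuspFormN N r F → ∀ i : ℕ,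
      fcoeffN p N ((κ.cframeN N)⁻¹ * U p F) i =
        ∑ j ∈ Finset.range (p * i + 1), κ.uMatrixN N i j * fcoeffN p N ((κ.cframeN N)⁻¹ * F) j) ∧
    (∃ ε : ℕ → ℝ, Tendsto ε atTop (𝓝 0) ∧
      ∀ i j : ℕ, 1 ≤ j → ‖κ.uMatrixN N i j‖ * r ^ i ≤ ε i * r ^ j) := by
  have hp2 : 2 ≤ p := hp.out.two_le
  refine ⟨fun F hF ↦ ⟨?_, ?_⟩, fun F _ i ↦ lncp_fcoeff_U κ F i,
    fun i ↦ c * r⁻¹ ^ i, ?_, fun i j hj ↦ ?_⟩
  · rw [lncp_fcoeff_U κ F 0]
    simp only [mul_zero, zero_add, Finset.range_one, Finset.sum_singleton]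
    rw [hF.1, mul_zero]
  · have h0 : Tendsto (fun i : ℕ ↦ ‖∑ j ∈ Finset.range (p * i + 1),
        (if j = 0 then 0 else κ.uMatrixN N i j) * fcoeffN p N ((κ.cframeN N)⁻¹ * F) j‖ * (r ^ p) ^ i) atTop
        (𝓝 0) := by
      refine lncp_tendsto hR hc hr hrR (fun i j ↦ if j = 0 then 0 else κ.uMatrixN N i j) _ ?_ hF.2
      intro i j hij
      split_ifs with hj
      · rw [norm_zero]
        positivity
      · exact hA i j (by omega) hij
    refine h0.congr fun i ↦ ?_
    rw [lncp_fcoeff_U κ F i]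
    congr 2
    refine Finset.sum_congr rfl fun j _ ↦ ?_
    split_ifs with hj
    · rw [hj, hF.1, mul_zero, mul_zero]
    · rfl
  · have h1 : Tendsto (fun i : ℕ ↦ r⁻¹ ^ i) atTop (𝓝 0) :=
      tendsto_pow_atTop_nhds_zero_of_lt_one (by positivity) (inv_lt_one_of_one_lt₀ hr)
    simpa using h1.const_mul c
  · have hr0 : 0 < r := by linarith
    rcases lt_or_ge (p * i) j with h | h
    · rw [hA0 i j hj h, norm_zero, zero_mul]
      positivity
    · have h1 : R⁻¹ ≤ r⁻¹ := inv_anti₀ hr0 hrR.le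
      have h2 : 0 ≤ R⁻¹ := by positivity
      have hri : r⁻¹ ≤ 1 := (inv_lt_one_of_one_lt₀ hr).le
      have hri0 : 0 < r⁻¹ := by positivity
      -- `r^(-(p i - j)) r^i ≤ r^(-i) r^j` since `p i - j ≥ 2 i - j`
      have h3 : r⁻¹ ^ (p * i - j) * r ^ i ≤ r⁻¹ ^ i * r ^ j := by
        have h6 : 2 * i ≤ p * i := Nat.mul_le_mul_right i hp2
        have e1 : r⁻¹ ^ (p * i - j) * r ^ j * r ^ (p * i - j) = r ^ j := by
          rw [mul_right_comm, ← mul_pow, inv_mul_cancel₀ hr0.ne', one_pow, one_mul]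
        have e2 : r ^ (p * i - j) * r ^ j = r ^ (p * i) := by
          rw [← pow_add]
          congr 1
          omega
        have e3 : r ^ (2 * i) ≤ r ^ (p * i) := pow_le_pow_right₀ hr.le h6
        rw [inv_pow, inv_pow, inv_mul_le_iff₀ (by positivity)]
        have e4 : r ^ (p * i - j) * ((r ^ i)⁻¹ * r ^ j) = r ^ (p * i) * (r ^ i)⁻¹ := by
          rw [← e2]
          ring
        rw [e4, le_mul_inv_iff₀ (by positivity), ← pow_add, ← two_mul]
        exact e3
      calc ‖κ.uMatrixN N i j‖ * r ^ i ≤ (c * R⁻¹ ^ (p * i - j)) * r ^ i :=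
            mul_le_mul_of_nonneg_right (hA i j hj h) (by positivity)
        _ ≤ (c * r⁻¹ ^ (p * i - j)) * r ^ i := by
            refine mul_le_mul_of_nonneg_right ?_ (by positivity)
            exact mul_le_mul_of_nonneg_left (pow_le_pow_left₀ h2 h1 _) hc.le
        _ = c * (r⁻¹ ^ (p * i - j) * r ^ i) := by ring
        _ ≤ c * (r⁻¹ ^ i * r ^ j) := mul_le_mul_of_nonneg_left h3 hc.le
        _ = c * r⁻¹ ^ i * r ^ j := by ring

end LN

end GH
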