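import Pool.Agent.GH.LN.CDef

/-!
# Level `N`: splitting off the eigenvalue `1` at a cusp
-/

open PowerSeries Filter Topology

noncomputable section

namespace GH.LN

/-- The new matrix: eigenvalue `1`, first column `y`, then the matrix `M'`. -/
def lc1_N {K : Type*} [Field K] (y : ℕ → K) (M' : ℕ → ℕ → K) : ℕ → ℕ → K
  | 0, 0 => 1
  | 0, _ + 1 => 0
  | i + 1, 0 => y (i + 1)
  | i + 1, j + 1 => M' (i + 1) (j + 1)

/-- The product of the new matrix with the inverse of the change of basis. -/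
def lc1_A {K : Type*} [Field K] (a : K) (N : ℕ → ℕ → K) (i : ℕ) : ℕ → K
  | 0 => N i 0
  | j + 1 => a * (lc1_A a N i j - N i (j + 1))

/-- The change of basis. -/
def lc1_T {K : Type*} [Field K] (a : K) (i j : ℕ) : K :=
  if j = i + 1 then 1 else if j = i then (if i = 0 then 1 else -a) else 0

section

variable {K : Type*} [NormedField K]

theorem lc1_sub [IsUltrametricDist K] (x z : K) : ‖x - z‖ ≤ max ‖x‖ ‖z‖ := by
  rw [sub_eq_add_neg, ← norm_neg z]
  exact IsUltrametricDist.norm_add_le_max x (-z)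

theorem lc1_na {a : K} (ha : a * a = 1) : ‖a‖ = 1 := by
  have h1 : ‖a‖ * ‖a‖ = 1 := by rw [← norm_mul, ha, norm_one]
  nlinarith [norm_nonneg a]

theorem lc1_row (a : K) (A : ℕ → ℕ → K) (i j : ℕ) :
    ∑' k, lc1_T a i k * A k j = (if i = 0 then 1 else -a) * A i j + A (i + 1) j := by
  rw [tsum_eq_sum (s := {i, i + 1})]
  · rw [Finset.sum_pair (Nat.ne_of_lt (Nat.lt_succ_self i))]
    unfold lc1_T
    rw [if_neg (Nat.ne_of_lt (Nat.lt_succ_self i)), if_pos rfl, if_pos rfl, one_mul]
  · intro k hk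
    rw [Finset.mem_insert, Finset.mem_singleton, not_or] at hk
    unfold lc1_T
    rw [if_neg hk.2, if_neg hk.1, zero_mul]

theorem lc1_col0 (a : K) (A : ℕ → ℕ → K) (i : ℕ) :
    ∑' k, A i k * lc1_T a k 0 = A i 0 := by
  rw [tsum_eq_single 0]
  · unfold lc1_T
    rw [if_neg (by omega), if_pos rfl, if_pos rfl, mul_one]
  · intro k hk
    unfold lc1_T
    rw [if_neg (by omega), if_neg (by omega), mul_zero]

theorem lc1_col (a : K) (A : ℕ → ℕ → K) (i j : ℕ) :
    ∑' k, A i k * lc1_T a k (j + 1) = A i j + A i (j + 1) * -a := by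
  rw [tsum_eq_sum (s := {j, j + 1})]
  · rw [Finset.sum_pair (Nat.ne_of_lt (Nat.lt_succ_self j))]
    unfold lc1_T
    rw [if_pos rfl, if_neg (by omega), if_pos rfl, if_neg (by omega), mul_one]
  · intro k hk
    rw [Finset.mem_insert, Finset.mem_singleton, not_or] at hk
    unfold lc1_T
    rw [if_neg (by omega), if_neg (by omega), mul_zero]

/-- The block determinant. -/
theorem lc1_block (y : ℕ → K) (M' : ℕ → ℕ → K) (n m : ℕ) :
    fredBlock (fun i j => lc1_N y M' (i - 1) (j - 1)) (n + 1) (m + 1) =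
      fredBlock M' n (m + 1) - fredBlock M' n m := by
  have key : Matrix.charpolyRev (Matrix.of fun i j : Fin (n + 1) =>
      lc1_N y M' ((i : ℕ) + 1 - 1) ((j : ℕ) + 1 - 1)) =
      (1 - Polynomial.X) * Matrix.charpolyRev
        (Matrix.of fun i j : Fin n => M' ((i : ℕ) + 1) ((j : ℕ) + 1)) := by
    unfold Matrix.charpolyRev
    rw [Matrix.det_succ_row_zero, Fin.sum_univ_succ]
    rw [Finset.sum_eq_zero (s := Finset.univ), add_zero]
    · rw [Fin.val_zero, pow_zero, one_mul]
      congr 1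
      · simp [lc1_N]
      · congr 1
        ext i j : 2
        simp [lc1_N, Matrix.one_apply]
    · intro j _
      have h1 : (1 - (Polynomial.X : Polynomial K) • (Matrix.of fun i j : Fin (n + 1) =>
          lc1_N y M' ((i : ℕ) + 1 - 1) ((j : ℕ) + 1 - 1)).map Polynomial.C) 0 j.succ = 0 := by
        simp [lc1_N, (Fin.succ_ne_zero j).symm]
      rw [h1, mul_zero, zero_mul]
  unfold fredBlock
  rw [key, sub_mul, one_mul, Polynomial.coeff_sub, Polynomial.coeff_X_mul]

end

theorem fred_cusp {K : Type*} [NormedField K] [IsUltrametricDist K] [CompleteSpace K] {p : ℕ}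
    (hp : 2 ≤ p) (M M' : ℕ → ℕ → K) (a : K) (ha : a * a = 1) (R c : ℝ) (hR : 1 < R)
    (h0 : ∀ i j, p * i < j → M i j = 0) (h0' : ∀ i j, p * i < j → M' i j = 0)
    (hd : ∀ i j, j ≤ p * i → ‖M i j‖ ≤ c * R⁻¹ ^ (p * i - j))
    (hd' : ∀ i j, j ≤ p * i → ‖M' i j‖ ≤ c * R⁻¹ ^ (p * i - j))
    (h1 : ∀ i j, 1 ≤ j → ‖M i j‖ ≤ 1) (h1' : ∀ i j, 1 ≤ j → ‖M' i j‖ ≤ 1)
    (hrel : ∀ i j, 1 ≤ i → 1 ≤ j → M i j - a * M i (j + 1) = M' i j - a * M' (i - 1) j)
    (hev : Tendsto (fun n ↦ ∑ i ∈ Finset.range (n + 1), a ^ i * M i 1) atTop (𝓝 a)) (m : ℕ) :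
    fred M (m + 1) = fred M' (m + 1) - fred M' m := by
  have hR0 : 0 < R := zero_lt_one.trans hR
  have hs : 1 < Real.sqrt R := by
    rw [Real.lt_sqrt zero_le_one]
    simpa using hR
  set s := Real.sqrt R with hsdef
  have hs0 : 0 < s := zero_lt_one.trans hs
  have hss : s * s = R := Real.mul_self_sqrt hR0.le
  have hc : 0 ≤ c := by
    have h2 := (norm_nonneg (M 0 0)).trans (hd 0 0 (Nat.zero_le _))
    simpa using h2
  have hna := lc1_na ha
  have hD : D3.DecayP p R c M := ⟨hR, h0, fun i j hij => by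
    have h2 := hd i j hij
    rw [inv_pow, ← div_eq_mul_inv, le_div_iff₀ (pow_pos hR0 _)] at h2
    exact h2⟩
  have hD' : D3.DecayP p R c M' := ⟨hR, h0', fun i j hij => by
    have h2 := hd' i j hij
    rw [inv_pow, ← div_eq_mul_inv, le_div_iff₀ (pow_pos hR0 _)] at h2
    exact h2⟩
  have hcM := D3.DecayP.cpt hp hD
  have hcM' := D3.DecayP.cpt hp hD'
  -- the first column
  set E : ℕ → K := fun n => ∑ i ∈ Finset.range (n + 1), a ^ i * M i 1 with hE
  set y : ℕ → K := fun k => a ^ k * (E k - a) with hy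
  have hM01 : M 0 1 = 0 := h0 0 1 (by omega)
  have hy0 : y 0 = -a := by
    simp only [hy, hE]
    simp [hM01]
  have hpow : ∀ k : ℕ, a ^ k * a ^ k = 1 := fun k => by
    rw [← mul_pow, ha, one_pow]
  have hys : ∀ k, y (k + 1) = M (k + 1) 1 + a * y k := by
    intro k
    have h2 : E (k + 1) = E k + a ^ (k + 1) * M (k + 1) 1 := by
      simp only [hE]
      rw [Finset.sum_range_succ]
    show a ^ (k + 1) * (E (k + 1) - a) = M (k + 1) 1 + a * (a ^ k * (E k - a))
    rw [h2]
    have h3 := hpow (k + 1)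
    have h4 : a ^ (k + 1) * (E k + a ^ (k + 1) * M (k + 1) 1 - a) =
        (a ^ (k + 1) * a ^ (k + 1)) * M (k + 1) 1 + a ^ (k + 1) * (E k - a) := by ring
    rw [h4, h3, one_mul, pow_succ]
    ring
  have hyb : ∀ k, ‖y k‖ ≤ c * R⁻¹ ^ (p * (k + 1) - 1) := by
    intro k
    have h2 : ∀ n, k ≤ n → ‖E k - E n‖ ≤ c * R⁻¹ ^ (p * (k + 1) - 1) := by
      intro n hn
      induction n, hn using Nat.le_induction with
      | base =>
        rw [sub_self, norm_zero]
        positivity
      | succ n hn ih =>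
        have h3 : E k - E (n + 1) = (E k - E n) - a ^ (n + 1) * M (n + 1) 1 := by
          simp only [hE]
          rw [Finset.sum_range_succ _ (n + 1)]
          ring
        rw [h3]
        refine (lc1_sub _ _).trans (max_le ih ?_)
        rw [norm_mul, norm_pow, hna, one_pow, one_mul]
        have h4 : 1 ≤ p * (n + 1) := Nat.mul_pos (by omega) (by omega)
        refine (hd (n + 1) 1 h4).trans (mul_le_mul_of_nonneg_left ?_ hc)
        refine pow_le_pow_of_le_one (by positivity) (inv_le_one_of_one_le₀ hR.le) ?_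
        have h5 : p * (k + 1) ≤ p * (n + 1) := Nat.mul_le_mul_left _ (by omega)
        omega
    have h3 : Tendsto (fun n => ‖E k - E n‖) atTop (𝓝 ‖E k - a‖) :=
      (hev.const_sub (E k)).norm
    have h4 : ‖E k - a‖ ≤ c * R⁻¹ ^ (p * (k + 1) - 1) :=
      le_of_tendsto h3 (eventually_atTop.2 ⟨k, h2⟩)
    show ‖a ^ k * (E k - a)‖ ≤ _
    rw [norm_mul, norm_pow, hna, one_pow, one_mul]
    exact h4
  -- the new matrix is compact
  set N : ℕ → ℕ → K := lc1_N y M' with hN
  set w : ℕ → ℝ := fun i => R ^ (i + 1) with hw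
  set C : ℝ := (c + 1) * s with hC
  set cc : ℕ → ℝ := fun j => C * s⁻¹ ^ (j + 1) with hcc
  have hC0 : 0 < C := by positivity
  have hwc : ∀ j, w j * cc j = C * s ^ (j + 1) := by
    intro j
    simp only [hw, hcc]
    rw [← hss, mul_pow, inv_pow]
    field_simp
  have hlim : Tendsto cc cofinite (𝓝 0) := by
    rw [Nat.cofinite_eq_atTop]
    have h2 : s⁻¹ < 1 := inv_lt_one_of_one_lt₀ hs
    have h3 := (tendsto_pow_atTop_nhds_zero_of_lt_one (by positivity) h2).comp
      (tendsto_add_atTop_nat 1)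
    have h4 := h3.const_mul C
    rw [mul_zero] at h4
    exact h4
  have hwpos : ∀ i, 0 < w i := fun i => pow_pos hR0 _
  have hNle : ∀ i j, w i * ‖N i j‖ ≤ C * s ^ (j + 1) := by
    intro i j
    rcases i with _ | i
    · rcases j with _ | j
      · show R ^ (0 + 1) * ‖(1 : K)‖ ≤ C * s ^ (0 + 1)
        rw [norm_one, zero_add, pow_one, pow_one, mul_one, ← hss, hC]
        have h2 : 0 ≤ c * (s * s) := by positivity
        nlinarith
      · show R ^ (0 + 1) * ‖(0 : K)‖ ≤ _
        rw [norm_zero, mul_zero]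
        positivity
    · rcases j with _ | j
      · show R ^ (i + 1 + 1) * ‖y (i + 1)‖ ≤ C * s ^ (0 + 1)
        have h2 := hyb (i + 1)
        have h3 : R ^ (i + 1 + 1) * (c * R⁻¹ ^ (p * (i + 1 + 1) - 1)) ≤ c := by
          have h4 : R⁻¹ ^ (p * (i + 1 + 1) - 1) ≤ R⁻¹ ^ (i + 1 + 1) := by
            refine pow_le_pow_of_le_one (by positivity) (inv_le_one_of_one_le₀ hR.le) ?_
            have h5 : 2 * (i + 1 + 1) ≤ p * (i + 1 + 1) := Nat.mul_le_mul_right _ hp
            omega
          calc R ^ (i + 1 + 1) * (c * R⁻¹ ^ (p * (i + 1 + 1) - 1))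
              ≤ R ^ (i + 1 + 1) * (c * R⁻¹ ^ (i + 1 + 1)) := by gcongr
            _ = c := by
              rw [inv_pow]
              field_simp
        refine (mul_le_mul_of_nonneg_left h2 (by positivity)).trans (h3.trans ?_)
        rw [hC, zero_add, pow_one]
        have h6 : 1 ≤ s * s := by nlinarith
        nlinarith
      · show R ^ (i + 1 + 1) * ‖M' (i + 1) (j + 1)‖ ≤ C * s ^ (j + 1 + 1)
        have h2 := hcM'.le i j
        have h3 : R ^ (i + 1) * ‖M' (i + 1) (j + 1)‖ ≤ R ^ (j + 1) * (c * s⁻¹ ^ (j + 1)) := h2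
        have h4 : R ^ (j + 1) * (c * s⁻¹ ^ (j + 1)) = c * s ^ (j + 1) := by
          rw [← hss, mul_pow, inv_pow]
          field_simp
        rw [h4] at h3
        have h5 : R ^ (i + 1 + 1) * ‖M' (i + 1) (j + 1)‖ =
            s * s * (R ^ (i + 1) * ‖M' (i + 1) (j + 1)‖) := by
          rw [hss]
          ring
        rw [h5]
        calc s * s * (R ^ (i + 1) * ‖M' (i + 1) (j + 1)‖) ≤ s * s * (c * s ^ (j + 1)) := by
              gcongr
          _ ≤ C * s ^ (j + 1 + 1) := by
              rw [hC]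
              have h6 : 0 ≤ s * s * s ^ (j + 1) := by positivity
              have h7 : (c + 1) * s * s ^ (j + 1 + 1) - s * s * (c * s ^ (j + 1)) =
                  s * s * s ^ (j + 1) := by ring
              linarith
  have hcN : Cpt w cc N := ⟨hwpos, hlim, fun i j => by
    rw [hwc]
    exact hNle i j⟩
  -- the matrix `A`
  set A : ℕ → ℕ → K := lc1_A a N with hA
  have hcA : Cpt w cc A := by
    refine ⟨hwpos, hlim, fun i j => ?_⟩
    rw [hwc]
    induction j with
    | zero => exact hNle i 0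
    | succ j ih =>
      show w i * ‖a * (A i j - N i (j + 1))‖ ≤ _
      rw [norm_mul, hna, one_mul]
      have h2 : w i * ‖A i j‖ ≤ C * s ^ (j + 1 + 1) := by
        refine ih.trans (mul_le_mul_of_nonneg_left ?_ hC0.le)
        exact pow_le_pow_right₀ hs.le (by omega)
      rcases max_cases ‖A i j‖ ‖N i (j + 1)‖ with h3 | h3
      · refine (mul_le_mul_of_nonneg_left ((lc1_sub _ _).trans
          h3.1.le) (hwpos i).le).trans h2
      · refine (mul_le_mul_of_nonneg_left ((lc1_sub _ _).trans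
          h3.1.le) (hwpos i).le).trans (hNle i (j + 1))
  have hT : ∀ i j, w i * ‖lc1_T a i j‖ ≤ w j * 1 := by
    intro i j
    unfold lc1_T
    rw [mul_one]
    split_ifs with h2 h3 h4
    · rw [norm_one, mul_one, h2]
      exact pow_le_pow_right₀ hR.le (by omega)
    · rw [norm_one, mul_one, h3]
    · rw [norm_neg, hna, mul_one, h3]
    · rw [norm_zero, mul_zero]
      exact (hwpos j).le
  have hrow : ∀ i, {k | lc1_T a i k ≠ 0}.Finite := by
    intro i
    refine (({i, i + 1} : Finset ℕ).finite_toSet).subset fun k hk => ?_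
    by_contra hc2
    rw [Finset.mem_coe, Finset.mem_insert, Finset.mem_singleton, not_or] at hc2
    apply hk
    unfold lc1_T
    rw [if_neg hc2.2, if_neg hc2.1]
  have hcomm := fun n => fredCoeff_mul_comm hcA hT hrow n
  -- `A T = N`
  have e1 : (fun i j => ∑' k, A i k * lc1_T a k j) = N := by
    funext i j
    rcases j with _ | j
    · rw [lc1_col0]
      rfl
    · rw [lc1_col]
      have h2 : A i (j + 1) = a * (A i j - N i (j + 1)) := rfl
      rw [h2]
      linear_combination (-(A i j - N i (j + 1))) * ha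
  -- `T A = M`
  have e2 : (fun i j => ∑' k, lc1_T a i k * A k j) = sh M := by
    funext i j
    rw [lc1_row]
    show _ = M (i + 1) (j + 1)
    induction j with
    | zero =>
      show (if i = 0 then 1 else -a) * N i 0 + N (i + 1) 0 = M (i + 1) 1
      have h2 : N (i + 1) 0 = y (i + 1) := rfl
      rcases i with _ | i
      · have h3 : N 0 0 = 1 := rfl
        rw [if_pos rfl, h3, h2, hys, hy0]
        linear_combination -ha
      · have h3 : N (i + 1) 0 = y (i + 1) := rfl
        rw [if_neg (by omega), h2, h3, hys (i + 1)]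
        ring
    | succ j ih =>
      have h2 : ∀ r, A r (j + 1) = a * (A r j - N r (j + 1)) := fun r => rfl
      rw [h2, h2]
      have h3 : (if i = 0 then 1 else -a) * N i (j + 1) + N (i + 1) (j + 1) =
          M (i + 1) (j + 1) - a * M (i + 1) (j + 1 + 1) := by
        rw [hrel (i + 1) (j + 1) (by omega) (by omega)]
        have h4 : N (i + 1) (j + 1) = M' (i + 1) (j + 1) := rfl
        rcases i with _ | i
        · have h5 : N 0 (j + 1) = 0 := rfl
          rw [h4, h5, Nat.add_sub_cancel, h0' 0 (j + 1) (by omega)]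
          ring
        · have h5 : N (i + 1) (j + 1) = M' (i + 1) (j + 1) := rfl
          rw [h4, h5, if_neg (by omega), Nat.add_sub_cancel]
          ring
      have h6 : (if i = 0 then 1 else -a) * (a * (A i j - N i (j + 1))) +
          a * (A (i + 1) j - N (i + 1) (j + 1)) =
          a * (((if i = 0 then 1 else -a) * A i j + A (i + 1) j) -
            ((if i = 0 then 1 else -a) * N i (j + 1) + N (i + 1) (j + 1))) := by ring
      rw [h6, ih, h3]
      linear_combination M (i + 1) (j + 1 + 1) * ha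
  have hfM : ∀ n, fred M n = fredCoeff N n := fun n => by
    rw [D3.DecayP.fred_eq hp hD, ← e2, ← hcomm n, e1]
  have hshN : sh (fun i j => N (i - 1) (j - 1)) = N := rfl
  have hcN' : Cpt w cc (sh (fun i j => N (i - 1) (j - 1))) := hcN
  have hfN : fred (fun i j => N (i - 1) (j - 1)) (m + 1) = fredCoeff N (m + 1) := by
    rw [GH.fred_eq hcN', hshN]
  have ht1 : Tendsto (fun n => fredBlock (fun i j => N (i - 1) (j - 1)) (n + 1) (m + 1)) atTop
      (𝓝 (fredCoeff N (m + 1))) :=
    (fredBlock_tendsto hcN' (m + 1)).comp (tendsto_add_atTop_nat 1)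
  have ht2 : Tendsto (fun n => fredBlock M' n (m + 1) - fredBlock M' n m) atTop
      (𝓝 (fred M' (m + 1) - fred M' m)) :=
    (D3.DecayP.tendsto hp hD' (m + 1)).sub (D3.DecayP.tendsto hp hD' m)
  rw [hfM]
  refine tendsto_nhds_unique ht1 ?_
  exact ht2.congr fun n => (lc1_block y M' n m).symm

end GH.LN
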