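import Pool.Agent.GH.DefsU

/-!
# The ghost conjecture for the pairs `(p, N)` with `X_0(Np)` of genus zero: definitions

The pairs `(p, N)` of the ghost conjecture (`p` odd and `Γ_0(N)`-regular, or `p = 2` and `N = 1`)
for which `X_0(Np)` has genus zero are `(2,1)`, `(3,1)`, `(3,2)`, `(3,4)`, `(5,1)`, `(5,2)`,
`(7,1)`, `(13,1)`.

* `hauptN p N`: let `F_1 = Δ = η(z)^24`, `F_2 = η(2z)^16/η(z)^8`, `F_4 = η(4z)^8/η(2z)^4`, of weight
  `12, 4, 2` on `Γ_0(N)`, whose only zero on `X_0(N)` is a simple one at `∞`. The function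
  `f = (F_N(pz)/F_N(z))^{1/(p-1)} = q + ⋯` is a Hauptmodul of `X_0(Np)` with its zero at `∞` and
  its pole at the cusp `1/N = W_p(∞)`; the component of the ordinary locus that contains `∞` is
  the disc `|f| ≤ 1`, and the overconvergent functions of tame level `N` are the power series in
  `f` that converge on `|f| ≤ r` for some `r > 1`. For `N = 1` this is `hauptmodul p`.
* `cuspN p N`: the function `1`, `1 - f`, `1 - f²` for `N = 1, 2, 4`: the cusps in this disc are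
  `f = 0` for `N = 1`, `f = 0, 1` for `N = 2` and `f = 0, 1, -1` for `N = 4`.
* `Weight.frameN κ N`: for the weight `κ = κ₀ z^{2ν}` (`κ₀` trivial on the torsion,
  `0 ≤ 2ν ≤ p - 3`) the form `E_{κ₀} W_{2ν}`, `W_{2ν}` a form of weight `2ν` with constant term `1`
  whose only zeros on the ordinary disc are the zeros at the elliptic points which every form of
  weight `2ν` has: for `N = 1` it is `E_{z^{2ν}}` as in `DefsU`, for `ν = 0` it is `1`, and for
  `(p, N) = (5, 2)`, `ν = 1` it is the Eisenstein series `2 E_2(2z) - E_2(z)` of weight two on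
  `Γ_0(2)`. So `S_κ^† = E_{κ₀} W_{2ν} S_0^†` consists of the series
  `E_{κ₀} W_{2ν} (f ∏ (1 - f/f_c)) ∑_{n ≥ 0} c_n f^n`, the product over the cusps `f_c ≠ 0` of the
  disc, with `|c_n| r^n → 0` for some `r > 1`.
* `dimS M k`: the classical formula for `dim S_k(Γ_0(M))`, `k` even, `X_0(M)` of genus zero.
-/

open PowerSeries Filter Topology

noncomputable section

namespace GH

/-! ### The Hauptmodul -/

/-- `∏ (1-q^n)`, `∏ (1-q^{2n})²/(1-q^n)`, `∏ (1-q^{4n})²/(1-q^{2n})` for `N = 1, 2, 4`. -/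
def etaN (N : ℕ) (R : Type*) [CommRing R] : PowerSeries R :=
  if N = 1 then euler R 1
  else if N = 2 then euler R 2 ^ 2 * invOfUnit (euler R 1) 1
  else euler R 4 ^ 2 * invOfUnit (euler R 2) 1

/-- The same series with `q^p` for `q`. -/
def etaNp (p N : ℕ) (R : Type*) [CommRing R] : PowerSeries R :=
  if N = 1 then euler R p
  else if N = 2 then euler R (2 * p) ^ 2 * invOfUnit (euler R p) 1
  else euler R (4 * p) ^ 2 * invOfUnit (euler R (2 * p)) 1

/-- `24, 8, 4`: `F_N = q (etaN N)^{24}, q (etaN N)^8, q (etaN N)^4`. -/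
def orderN (N : ℕ) : ℕ := if N = 1 then 24 else if N = 2 then 8 else 4

/-- The Hauptmodul `f = (F_N(q^p)/F_N(q))^{1/(p-1)}`. -/
def hauptN (p N : ℕ) (R : Type*) [CommRing R] : PowerSeries R :=
  X * (etaNp p N R * invOfUnit (etaN N R) 1) ^ (orderN N / (p - 1))

/-- The function `∏ (1 - f/f_c)` over the cusps `f_c ≠ 0` of the ordinary disc. -/
def cuspN (p N : ℕ) (R : Type*) [CommRing R] : PowerSeries R :=
  if N = 1 then 1 else if N = 2 then 1 - hauptN p N R else 1 - hauptN p N R ^ 2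

/-- The coefficients `c_n` of the unique expansion `F = ∑ c_n f^n`, `f` the series
`hauptN = q + ⋯`: by recursion `c_n` is the coefficient of `q^n` of `F - ∑_{m < n} c_m f^m`. -/
def fcoeffN (p N : ℕ) {R : Type*} [CommRing R] (F : PowerSeries R) (n : ℕ) : R :=
  PowerSeries.coeff n F -
    ∑ m : Fin n, fcoeffN p N F m * PowerSeries.coeff n (hauptN p N R ^ (m : ℕ))
termination_by n
decreasing_by exact m.2

/-! ### Overconvergent cusp forms and the matrix of `U_p` -/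

/-- `2 E_2(2z) - E_2(z) = 1 + 24 ∑_{n ≥ 1} (∑_{d ∣ n} d - 2 ∑_{2 d ∣ n} d) q^n
= 1 + 24 ∑_{n ≥ 1} (∑_{d ∣ n, d odd} d) q^n`. -/
def eisTwo (R : Type*) [CommRing R] : PowerSeries R :=
  1 + PowerSeries.mk fun n ↦ 24 * ∑ d ∈ n.divisors, if d % 2 = 1 then (d : R) else 0

section

variable {p : ℕ} [Fact p.Prime]

/-- The form `E_{κ₀} W_{2ν}`. -/
def Weight.frameN (κ : Weight p) (N : ℕ) : PowerSeries (PadicComplex p) :=
  κ.base.eis * (if N = 1 then Weight.eis ((Weight.incl p) ^ (2 * κ.nu))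
    else eisTwo (PadicComplex p) ^ κ.nu)

/-- The form `E_{κ₀} W_{2ν} ∏ (1 - f/f_c)`. -/
def Weight.cframeN (κ : Weight p) (N : ℕ) : PowerSeries (PadicComplex p) :=
  κ.frameN N * cuspN p N (PadicComplex p)

/-- The `r`-overconvergent cusp forms of weight `κ` and tame level `N`: the `q`-expansions
`E_{κ₀} W_{2ν} ∏ (1 - f/f_c) ∑_{n ≥ 1} c_n f^n` with `|c_n| r^n → 0`. The space
`S_κ^†(Γ_0(Np))` is the union over `r > 1`. -/
def Weight.IsCuspFormN (κ : Weight p) (N : ℕ) (r : ℝ) (F : PowerSeries (PadicComplex p)) :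
    Prop :=
  fcoeffN p N ((κ.cframeN N)⁻¹ * F) 0 = 0 ∧
    Tendsto (fun n : ℕ ↦ ‖fcoeffN p N ((κ.cframeN N)⁻¹ * F) n‖ * r ^ n) atTop (𝓝 0)

/-- The matrix of `U_p` in the basis `E_{κ₀} W_{2ν} ∏ (1 - f/f_c) f^j`, `j ≥ 1`, of
`S_κ^†(Γ_0(Np))`. -/
def Weight.uMatrixN (κ : Weight p) (N : ℕ) (i j : ℕ) : PadicComplex p :=
  fcoeffN p N ((κ.cframeN N)⁻¹ *
    U p (κ.cframeN N * hauptN p N (PadicComplex p) ^ j)) i

/-- The coefficients of the Fredholm series `P_κ(t) = det (1 - t U_p | S_κ^†(Γ_0(Np)))`. -/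
def Weight.charSeriesN (κ : Weight p) (N : ℕ) (m : ℕ) : PadicComplex p :=
  fred (κ.uMatrixN N) m

end

/-! ### The ghost series -/

/-- The number of cusps of `X_0(M)`. -/
def numCusps (M : ℕ) : ℕ := ∑ d ∈ M.divisors, Nat.totient (Nat.gcd d (M / d))

/-- The number of elliptic points of order two of `X_0(M)`. -/
def numEll2 (M : ℕ) : ℕ := ((Finset.range M).filter fun x ↦ M ∣ x ^ 2 + 1).card

/-- The number of elliptic points of order three of `X_0(M)`. -/
def numEll3 (M : ℕ) : ℕ := ((Finset.range M).filter fun x ↦ M ∣ x ^ 2 + x + 1).card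

/-- `dim S_k(Γ_0(M))` for even `k ≥ 0` and `X_0(M)` of genus zero (classical formula
`(k/2 - 1) c + ε_2 ⌊k/4⌋ + ε_3 ⌊k/3⌋ - (k - 1)` for `k ≥ 4`, and `0` for `k = 0, 2`). -/
def dimS (M k : ℕ) : ℕ :=
  (k / 2 - 1) * numCusps M + numEll2 M * (k / 4) + numEll3 M * (k / 3) - (k - 1)

/-- `d_k^new = dim S_k(Γ_0(Np))^{p-new} = dim S_k(Γ_0(Np)) - 2 dim S_k(Γ_0(N))`. -/
def dimNewN (p N k : ℕ) : ℕ := dimS (N * p) k - 2 * dimS N k

/-- The multiplicity `m_i(k)` of the ghost zero `w_k` of `g_i`. -/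
def multN (p N i k : ℕ) : ℕ :=
  if dimS N k < i ∧ i < dimS N k + dimNewN p N k then
    sfun (i - dimS N k) (dimNewN p N k - 1) else 0

/-- The ghost coefficient `g_i(w) = ∏_k (w - w_k)^{m_i(k)}` of the component of the characters
`ζ ↦ ζ^{2ν}`: the product over all even `k ≡ 2ν mod p - 1`, `w_k = (1+2p)^k - 1` (the factors
with `k ≤ 0` are trivial). -/
def ghostN (p N ν : ℕ) {K : Type*} [Field K] (w : K) (i : ℕ) : K :=
  ∏ᶠ k : ℕ, if Even k ∧ k ≡ 2 * ν [MOD p - 1] then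
    (w - ((1 + 2 * (p : K)) ^ k - 1)) ^ multN p N i k else 1

/-- **The ghost conjecture for `p` and tame level `N`**, `X_0(Np)` of genus zero. -/
def GhostConjectureN (p N : ℕ) [Fact p.Prime] : Prop :=
  ∀ κ : Weight p, κ.IsEven →
    (∀ m : ℕ, ∃ c : PadicComplex p,
      Tendsto (fun n : ℕ ↦ fredBlock (κ.uMatrixN N) n m) atTop (𝓝 c)) ∧
    newtonPolygon p (κ.charSeriesN N) = newtonPolygon p (ghostN p N κ.nu κ.w)

end GH
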