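import Pool.Agent.GH.LN.EStm
import Pool.Agent.GH.QGauss

/-!
# Level `N`: Jacobi's triple product in finite form
-/

open PowerSeries Filter Topology

noncomputable section

namespace GH

namespace LN

/-! ### The finite form -/

section

variable {R : Type*} [CommRing R]

/-- The weights `a^(j(j+1)/2) b^(j(j-1)/2)`, `x = a b`. -/
def lj0_u (a x : R) : ℕ → R
  | 0 => 1
  | j + 1 => lj0_u a x j * (a * x ^ j)

/-- The product of the first `n` factors times the Gaussian binomial `(2n, n-j)`. -/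
def lj0_b (x : R) (n j : ℕ) : R :=
  (∏ i ∈ Finset.range j, (1 - x ^ (n - i))) *
    ∏ i ∈ Finset.Ico (n + j) (2 * n), (1 - x ^ (i + 1))

theorem lj0_b_zero_of_lt (x : R) (n j : ℕ) (h : n < j) : lj0_b x n j = 0 := by
  unfold lj0_b
  rw [Finset.prod_eq_zero (Finset.mem_range.2 h), zero_mul]
  simp

theorem lj0_b_succ (x : R) (n j : ℕ) : lj0_b x (n + 1) (j + 1) =
    (1 - x ^ (n + 1)) * (∏ i ∈ Finset.range j, (1 - x ^ (n - i))) *
      ∏ i ∈ Finset.Ico (n + j + 2) (2 * n + 2), (1 - x ^ (i + 1)) := by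
  unfold lj0_b
  rw [Finset.prod_range_succ']
  have h1 : ∀ i : ℕ, n + 1 - (i + 1) = n - i := fun i => by omega
  simp only [h1, Nat.sub_zero]
  rw [show n + 1 + (j + 1) = n + j + 2 by ring, show 2 * (n + 1) = 2 * n + 2 by ring]
  ring

theorem lj0_step (x : R) (n j : ℕ) (h : j ≤ n) : lj0_b x (n + 1) (j + 1) = (1 - x ^ (n + 1)) *
    ((1 + x ^ (2 * n + 1)) * lj0_b x n (j + 1) + x ^ (n - j) * lj0_b x n j +
      x ^ (n + j + 2) * lj0_b x n (j + 2)) := by
  rw [lj0_b_succ]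
  rcases h.eq_or_lt with h | h
  · subst h
    rw [lj0_b_zero_of_lt x j (j + 1) (by omega), lj0_b_zero_of_lt x j (j + 2) (by omega)]
    unfold lj0_b
    rw [Finset.Ico_eq_empty (by omega), Finset.Ico_eq_empty (by omega), Finset.prod_empty,
      Nat.sub_self]
    ring
  · obtain ⟨m, rfl⟩ : ∃ m, n = m + j + 1 := ⟨n - j - 1, by omega⟩
    rcases m with _ | m
    · have p0 : ∏ i ∈ Finset.Ico (0 + j + 1 + j + 2) (2 * (0 + j + 1) + 2),
          (1 - x ^ (i + 1)) = 1 - x ^ (2 * j + 4) := by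
        rw [show 0 + j + 1 + j + 2 = 2 * j + 3 by ring,
          show 2 * (0 + j + 1) + 2 = 2 * j + 3 + 1 by ring, Finset.prod_Ico_succ_top le_rfl,
          Finset.Ico_self, Finset.prod_empty, one_mul]
      have p1 : ∏ i ∈ Finset.Ico (0 + j + 1 + j) (2 * (0 + j + 1)), (1 - x ^ (i + 1)) =
          1 - x ^ (2 * j + 2) := by
        rw [show 0 + j + 1 + j = 2 * j + 1 by ring,
          show 2 * (0 + j + 1) = 2 * j + 1 + 1 by ring, Finset.prod_Ico_succ_top le_rfl,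
          Finset.Ico_self, Finset.prod_empty, one_mul]
      have p2 : ∏ i ∈ Finset.Ico (0 + j + 1 + (j + 1)) (2 * (0 + j + 1)), (1 - x ^ (i + 1)) =
          1 := by
        rw [Finset.Ico_eq_empty (by omega), Finset.prod_empty]
      rw [lj0_b_zero_of_lt x (0 + j + 1) (j + 2) (by omega)]
      unfold lj0_b
      rw [p0, p1, p2, Finset.prod_range_succ _ j, show 0 + j + 1 - j = 1 by omega]
      ring
    · have q0 : m + 1 + j + 1 + j + 2 = m + 2 * j + 4 := by ring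
      have q1 : 2 * (m + 1 + j + 1) + 2 = 2 * m + 2 * j + 4 + 1 + 1 := by ring
      have q2 : 2 * (m + 1 + j + 1) = 2 * m + 2 * j + 4 := by ring
      have p0 : ∏ i ∈ Finset.Ico (m + 1 + j + 1 + j + 2) (2 * (m + 1 + j + 1) + 2),
          (1 - x ^ (i + 1)) = (∏ i ∈ Finset.Ico (m + 2 * j + 4) (2 * m + 2 * j + 4),
            (1 - x ^ (i + 1))) * (1 - x ^ (2 * m + 2 * j + 5)) *
            (1 - x ^ (2 * m + 2 * j + 6)) := by
        rw [q0, q1, Finset.prod_Ico_succ_top (by omega), Finset.prod_Ico_succ_top (by omega)]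
      have p1 : ∏ i ∈ Finset.Ico (m + 1 + j + 1 + j) (2 * (m + 1 + j + 1)),
          (1 - x ^ (i + 1)) = (1 - x ^ (m + 2 * j + 3)) * ((1 - x ^ (m + 2 * j + 4)) *
            ∏ i ∈ Finset.Ico (m + 2 * j + 4) (2 * m + 2 * j + 4), (1 - x ^ (i + 1))) := by
        rw [q2, show m + 1 + j + 1 + j = m + 2 * j + 2 by ring,
          Finset.prod_eq_prod_Ico_succ_bot (by omega), Finset.prod_eq_prod_Ico_succ_bot (by omega)]
      have p2 : ∏ i ∈ Finset.Ico (m + 1 + j + 1 + (j + 1)) (2 * (m + 1 + j + 1)),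
          (1 - x ^ (i + 1)) = (1 - x ^ (m + 2 * j + 4)) *
            ∏ i ∈ Finset.Ico (m + 2 * j + 4) (2 * m + 2 * j + 4), (1 - x ^ (i + 1)) := by
        rw [q2, show m + 1 + j + 1 + (j + 1) = m + 2 * j + 3 by ring,
          Finset.prod_eq_prod_Ico_succ_bot (by omega)]
      have p3 : ∏ i ∈ Finset.Ico (m + 1 + j + 1 + (j + 2)) (2 * (m + 1 + j + 1)),
          (1 - x ^ (i + 1)) =
            ∏ i ∈ Finset.Ico (m + 2 * j + 4) (2 * m + 2 * j + 4), (1 - x ^ (i + 1)) := by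
        rw [q2, show m + 1 + j + 1 + (j + 2) = m + 2 * j + 4 by ring]
      unfold lj0_b
      rw [p0, p1, p2, p3, Finset.prod_range_succ _ (j + 1), Finset.prod_range_succ _ j,
        show m + 1 + j + 1 - j = m + 2 by omega,
        show m + 1 + j + 1 - (j + 1) = m + 1 by omega]
      generalize ∏ i ∈ Finset.Ico (m + 2 * j + 4) (2 * m + 2 * j + 4), (1 - x ^ (i + 1)) = D
      generalize ∏ i ∈ Finset.range j, (1 - x ^ (m + 1 + j + 1 - i)) = A
      ring

theorem lj0_step0 (x : R) (n : ℕ) : lj0_b x (n + 1) 0 = (1 - x ^ (n + 1)) *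
    ((1 + x ^ (2 * n + 1)) * lj0_b x n 0 + 2 * x ^ (n + 1) * lj0_b x n 1) := by
  unfold lj0_b
  rcases n with _ | n
  · simp
    ring
  · have p0 : ∏ i ∈ Finset.Ico (n + 1 + 1 + 0) (2 * (n + 1 + 1)), (1 - x ^ (i + 1)) =
        (∏ i ∈ Finset.Ico (n + 2) (2 * n + 2), (1 - x ^ (i + 1))) *
          (1 - x ^ (2 * n + 3)) * (1 - x ^ (2 * n + 4)) := by
      rw [show n + 1 + 1 + 0 = n + 2 by ring, show 2 * (n + 1 + 1) = 2 * n + 2 + 1 + 1 by ring,
        Finset.prod_Ico_succ_top (by omega), Finset.prod_Ico_succ_top (by omega)]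
    have p1 : ∏ i ∈ Finset.Ico (n + 1 + 0) (2 * (n + 1)), (1 - x ^ (i + 1)) =
        (1 - x ^ (n + 2)) * ∏ i ∈ Finset.Ico (n + 2) (2 * n + 2), (1 - x ^ (i + 1)) := by
      rw [show n + 1 + 0 = n + 1 by ring, show 2 * (n + 1) = 2 * n + 2 by ring,
        Finset.prod_eq_prod_Ico_succ_bot (by omega)]
    have p2 : ∏ i ∈ Finset.Ico (n + 1 + 1) (2 * (n + 1)), (1 - x ^ (i + 1)) =
        ∏ i ∈ Finset.Ico (n + 2) (2 * n + 2), (1 - x ^ (i + 1)) := by
      rw [show n + 1 + 1 = n + 2 by ring, show 2 * (n + 1) = 2 * n + 2 by ring]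
    rw [p0, p1, p2]
    simp only [Finset.range_zero, Finset.prod_empty, Finset.prod_range_one, one_mul,
      Nat.sub_zero]
    generalize ∏ i ∈ Finset.Ico (n + 2) (2 * n + 2), (1 - x ^ (i + 1)) = D
    ring

theorem lj0_half (a b x : R) (hx : a * b = x) (n : ℕ) :
    ∑ j ∈ Finset.range (n + 1), lj0_u a x (j + 1) * lj0_b x (n + 1) (j + 1) =
      (1 - x ^ (n + 1)) * ((1 + x ^ (2 * n + 1) + (a + b) * x ^ n) *
        ∑ j ∈ Finset.range n, lj0_u a x (j + 1) * lj0_b x n (j + 1) +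
        a * x ^ n * lj0_b x n 0 - x ^ (n + 1) * lj0_b x n 1) := by
  obtain ⟨f, hf⟩ : ∃ f : ℕ → R, ∀ j, f j = lj0_u a x j * lj0_b x n j := ⟨_, fun _ => rfl⟩
  have h0 : ∀ j, n < j → f j = 0 := by
    intro j hj
    rw [hf, lj0_b_zero_of_lt x n j hj, mul_zero]
  have ht : ∀ j ∈ Finset.range (n + 1), lj0_u a x (j + 1) * lj0_b x (n + 1) (j + 1) =
      (1 - x ^ (n + 1)) * ((1 + x ^ (2 * n + 1)) * f (j + 1) + a * x ^ n * f j +
        b * x ^ n * f (j + 2)) := by
    intro j hj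
    have hj' : j ≤ n := Nat.lt_succ_iff.1 (Finset.mem_range.1 hj)
    rw [hf, hf, hf, lj0_step x n j hj']
    obtain ⟨k, rfl⟩ : ∃ k, n = k + j := ⟨n - j, by omega⟩
    rw [show k + j - j = k by omega]
    have e1 : lj0_u a x (j + 2) = lj0_u a x (j + 1) * (a * x ^ (j + 1)) := rfl
    have e2 : lj0_u a x (j + 1) = lj0_u a x j * (a * x ^ j) := rfl
    rw [e1, e2]
    linear_combination (-(1 - x ^ (k + j + 1)) * x ^ (k + j) * x ^ (j + 1) * lj0_u a x j *
      (a * x ^ j) * lj0_b x (k + j) (j + 2)) * hx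
  have s1 : ∑ j ∈ Finset.range (n + 1), f (j + 1) = ∑ j ∈ Finset.range n, f (j + 1) := by
    rw [Finset.sum_range_succ, h0 (n + 1) (Nat.lt_succ_self n), add_zero]
  have s2 : ∑ j ∈ Finset.range (n + 1), f j = ∑ j ∈ Finset.range n, f (j + 1) + f 0 :=
    Finset.sum_range_succ' f n
  have s3 : ∑ j ∈ Finset.range (n + 1), f (j + 2) = ∑ j ∈ Finset.range n, f (j + 1) - f 1 := by
    have h1 := Finset.sum_range_succ' (fun j => f (j + 1)) (n + 1)
    rw [Finset.sum_range_succ, Finset.sum_range_succ, h0 (n + 1) (by omega),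
      h0 (n + 1 + 1) (by omega), add_zero, add_zero] at h1
    rw [h1]
    simp
  have e0 : f 0 = lj0_b x n 0 := by
    rw [hf]
    exact one_mul _
  have e1 : f 1 = a * lj0_b x n 1 := by
    rw [hf]
    have : lj0_u a x 1 = 1 * (a * x ^ 0) := rfl
    rw [this]
    ring
  rw [Finset.sum_congr rfl ht, ← Finset.mul_sum, Finset.sum_add_distrib, Finset.sum_add_distrib,
    ← Finset.mul_sum, ← Finset.mul_sum, ← Finset.mul_sum, s1, s2, s3, e0, e1]
  have hs : ∑ j ∈ Finset.range n, lj0_u a x (j + 1) * lj0_b x n (j + 1) =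
      ∑ j ∈ Finset.range n, f (j + 1) := Finset.sum_congr rfl fun j _ => (hf _).symm
  rw [hs]
  linear_combination (-(1 - x ^ (n + 1)) * x ^ n * lj0_b x n 1) * hx

/-- Jacobi's triple product, finite form. -/
theorem lj0_finite (a b x : R) (hx : a * b = x) (n : ℕ) :
    ∏ i ∈ Finset.range n, ((1 + a * x ^ i) * (1 + b * x ^ i) * (1 - x ^ (i + 1))) =
      lj0_b x n 0 + (∑ j ∈ Finset.range n, lj0_u a x (j + 1) * lj0_b x n (j + 1) +
        ∑ j ∈ Finset.range n, lj0_u b x (j + 1) * lj0_b x n (j + 1)) := by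
  induction n with
  | zero => simp [lj0_b]
  | succ n ih =>
    rw [Finset.prod_range_succ, ih, lj0_half a b x hx, lj0_half b a x (by rw [mul_comm, hx]),
      lj0_step0]
    generalize ∑ j ∈ Finset.range n, lj0_u a x (j + 1) * lj0_b x n (j + 1) = P
    generalize ∑ j ∈ Finset.range n, lj0_u b x (j + 1) * lj0_b x n (j + 1) = Q
    linear_combination (1 - x ^ (n + 1)) * x ^ (2 * n) * (lj0_b x n 0 + (P + Q)) * hx

end

/-! ### The exponents and the signs -/

/-- The exponents. -/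
def lj0_e (α M : ℕ) : ℕ → ℕ
  | 0 => 0
  | j + 1 => lj0_e α M j + (α + M * j)

theorem lj0_two_e (α M j : ℕ) : 2 * (lj0_e α M j : ℤ) =
    α * (j * (j + 1)) + (M - α) * (j * (j - 1)) := by
  induction j with
  | zero => simp [lj0_e]
  | succ j ih =>
    have h : lj0_e α M (j + 1) = lj0_e α M j + (α + M * j) := rfl
    rw [h]
    push_cast
    linear_combination ih

theorem lj0_le_e {α : ℕ} (hα : 1 ≤ α) (M j : ℕ) : j ≤ lj0_e α M j := by
  induction j with
  | zero => exact Nat.zero_le _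
  | succ j ih =>
    have h : lj0_e α M (j + 1) = lj0_e α M j + (α + M * j) := rfl
    rw [h]
    omega

theorem lj0_jte_pos (α β j : ℕ) : jte α β (j : ℤ) = lj0_e α (α + β) j := by
  have h1 := two_jte α β (j : ℤ)
  have h2 := lj0_two_e α (α + β) j
  push_cast at h2
  linarith

theorem lj0_jte_neg (α β j : ℕ) : jte α β (-(j : ℤ)) = lj0_e β (α + β) j := by
  have h1 := two_jte α β (-(j : ℤ))
  have h2 := lj0_two_e β (α + β) j
  push_cast at h2
  linarith

theorem lj0_jtw_pos (s : Bool) (j : ℕ) : jtw s (j : ℤ) = jts s ^ j := by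
  cases s
  · simp [jtw, jts]
  · simp [jtw, jts, Int.negOnePow_def]

theorem lj0_jtw_neg (s : Bool) (j : ℕ) : jtw s (-(j : ℤ)) = jts s ^ j := by
  cases s
  · simp [jtw, jts]
  · simp [jtw, jts, Int.negOnePow_def]

theorem lj0_jts_mul (s : Bool) : jts s * jts s = 1 := by
  cases s <;> simp [jts]

theorem lj0_u_eq (s : Bool) (α M j : ℕ) :
    lj0_u (C (jts s) * (X : PowerSeries ℤ) ^ α) (X ^ M) j =
      C (jts s ^ j) * X ^ lj0_e α M j := by
  induction j with
  | zero => simp [lj0_u, lj0_e]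
  | succ j ih =>
    have h1 : lj0_u (C (jts s) * (X : PowerSeries ℤ) ^ α) (X ^ M) (j + 1) =
      lj0_u (C (jts s) * (X : PowerSeries ℤ) ^ α) (X ^ M) j *
        ((C (jts s) * (X : PowerSeries ℤ) ^ α) * (X ^ M) ^ j) := rfl
    have h2 : lj0_e α M (j + 1) = lj0_e α M j + (α + M * j) := rfl
    rw [h1, h2, ih, pow_succ (jts s) j, map_mul, pow_add, pow_add, pow_mul]
    ring

theorem lj0_b_one {M : ℕ} (hM : 1 ≤ M) (n j : ℕ) (h : j ≤ n) :
    (X : PowerSeries ℤ) ^ (n - j + 1) ∣ lj0_b ((X : PowerSeries ℤ) ^ M) n j - 1 := by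
  unfold lj0_b
  simp only [← pow_mul]
  have h1 := qg_prod_sub_one (fun i => M * (n - i)) (n - j + 1) (Finset.range j) (by
    intro m hm
    have h2 := Finset.mem_range.1 hm
    have h3 : 1 * (n - m) ≤ M * (n - m) := Nat.mul_le_mul_right _ hM
    omega)
  have h2 := qg_prod_sub_one (fun i => M * (i + 1)) (n - j + 1)
    (Finset.Ico (n + j) (2 * n)) (by
    intro m hm
    have h2 := Finset.mem_Ico.1 hm
    have h3 : 1 * (m + 1) ≤ M * (m + 1) := Nat.mul_le_mul_right _ hM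
    omega)
  obtain ⟨a, ha⟩ := h1
  obtain ⟨b, hb⟩ := h2
  rw [sub_eq_iff_eq_add] at ha hb
  rw [ha, hb]
  exact ⟨a * (X ^ (n - j + 1) * b + 1) + b, by ring⟩

theorem lj0_term (s : Bool) {α M : ℕ} (hα : 1 ≤ α) (hM : 1 ≤ M) {m n j : ℕ} (hn : n ≤ m)
    (hj : j ≤ m) :
    PowerSeries.coeff n (lj0_u (C (jts s) * (X : PowerSeries ℤ) ^ α) (X ^ M) j *
      lj0_b ((X : PowerSeries ℤ) ^ M) m j) = if lj0_e α M j = n then jts s ^ j else 0 := by
  obtain ⟨c, hc⟩ := lj0_b_one hM m j hj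
  rw [sub_eq_iff_eq_add] at hc
  obtain ⟨d, hd⟩ : (X : PowerSeries ℤ) ^ (m + 1) ∣ X ^ lj0_e α M j * X ^ (m - j + 1) := by
    rw [← pow_add]
    refine pow_dvd_pow _ ?_
    have := lj0_le_e hα M j
    omega
  have h1 : lj0_u (C (jts s) * (X : PowerSeries ℤ) ^ α) (X ^ M) j *
      lj0_b ((X : PowerSeries ℤ) ^ M) m j = C (jts s ^ j) * X ^ lj0_e α M j +
        X ^ (m + 1) * (d * (C (jts s ^ j) * c)) := by
    rw [lj0_u_eq, hc]
    linear_combination C (jts s ^ j) * c * hd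
  rw [h1, map_add, coeff_C_mul, coeff_X_pow, PowerSeries.coeff_X_pow_mul',
    if_neg (show ¬ m + 1 ≤ n by omega), add_zero]
  by_cases h : lj0_e α M j = n
  · rw [if_pos h, if_pos h.symm, mul_one]
  · rw [if_neg h, if_neg (Ne.symm h), mul_zero]

theorem lj0_split {A : Type*} [AddCommMonoid A] (f : ℤ → A) (m : ℕ) :
    ∑ i ∈ Finset.Icc (-(m : ℤ)) m, f i =
      f 0 + (∑ j ∈ Finset.range m, f ((j + 1 : ℕ) : ℤ) +
        ∑ j ∈ Finset.range m, f (-((j + 1 : ℕ) : ℤ))) := by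
  induction m with
  | zero => simp
  | succ m ih =>
    have h : Finset.Icc (-((m + 1 : ℕ) : ℤ)) ((m + 1 : ℕ) : ℤ) =
        insert ((m + 1 : ℕ) : ℤ) (insert (-((m + 1 : ℕ) : ℤ)) (Finset.Icc (-(m : ℤ)) m)) := by
      ext i
      simp only [Finset.mem_insert, Finset.mem_Icc]
      omega
    rw [h, Finset.sum_insert (by simp only [Finset.mem_insert, Finset.mem_Icc]; omega),
      Finset.sum_insert (by simp only [Finset.mem_Icc]; omega), ih, Finset.sum_range_succ,
      Finset.sum_range_succ]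
    abel

theorem lj0_coeff_rf (s : Bool) (α β : ℕ) (hα : 1 ≤ α) (hβ : 1 ≤ β) (n m : ℕ) (h : n ≤ m) :
    PowerSeries.coeff n (rf s α β hα hβ) =
      ∑ i ∈ Finset.Icc (-(m : ℤ)) m, if jte α β i = n then jtw s i else 0 := by
  rw [rf, qt_coeff, ← Finset.sum_filter]
  refine Finset.sum_congr ?_ fun _ _ => rfl
  ext i
  rw [Set.Finite.mem_toFinset, Finset.mem_filter, Finset.mem_Icc]
  have h1 := le_jte hα hβ i
  constructor
  · intro hi
    have hi' : jte α β i = n := hi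
    have h2 : i * i ≤ m := by
      rw [hi'] at h1
      exact h1.trans (by exact_mod_cast h)
    refine ⟨⟨?_, ?_⟩, hi'⟩
    · nlinarith
    · nlinarith
  · rintro ⟨_, hi⟩
    exact hi

theorem jtp : JTP := by
  intro s α β hα hβ n m hnm
  have hM : 1 ≤ α + β := by omega
  have hx : (C (jts s) * (X : PowerSeries ℤ) ^ α) * (C (jts s) * X ^ β) = X ^ (α + β) := by
    have h1 : (C (jts s) : PowerSeries ℤ) * C (jts s) = 1 := by
      rw [← map_mul, lj0_jts_mul, map_one]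
    rw [pow_add]
    linear_combination (X : PowerSeries ℤ) ^ α * X ^ β * h1
  have hF : jtF s α β m = ∏ i ∈ Finset.range m, ((1 + (C (jts s) * (X : PowerSeries ℤ) ^ α) *
      (X ^ (α + β)) ^ i) * (1 + (C (jts s) * (X : PowerSeries ℤ) ^ β) * (X ^ (α + β)) ^ i) *
      (1 - (X ^ (α + β)) ^ (i + 1))) := by
    unfold jtF
    refine Finset.prod_congr rfl fun i _ => ?_
    rw [pow_add X α, pow_add X β, pow_mul, pow_mul, mul_assoc, mul_assoc (C (jts s)) (X ^ β)]
    simp only [mul_assoc]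
  rw [hF, lj0_finite _ _ _ hx, map_add, map_add, map_sum, map_sum,
    lj0_coeff_rf s α β hα hβ n m hnm, lj0_split]
  have t0 := lj0_term s hα hM hnm (Nat.zero_le m)
  have t1 : lj0_u (C (jts s) * (X : PowerSeries ℤ) ^ α) (X ^ (α + β)) 0 = 1 := rfl
  rw [t1, one_mul] at t0
  rw [t0]
  have u0 : jte α β 0 = lj0_e α (α + β) 0 := lj0_jte_pos α β 0
  have w0 : jtw s 0 = jts s ^ 0 := lj0_jtw_pos s 0
  rw [u0, w0]
  congr 1
  · simp only [Nat.cast_inj]
  · congr 1
    · refine Finset.sum_congr rfl fun j hj => ?_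
      have hj' := Finset.mem_range.1 hj
      rw [lj0_term s hα hM hnm (by omega), lj0_jte_pos, lj0_jtw_pos]
      simp only [Nat.cast_inj]
    · refine Finset.sum_congr rfl fun j hj => ?_
      have hj' := Finset.mem_range.1 hj
      rw [lj0_term s hβ hM hnm (by omega), lj0_jte_neg, lj0_jtw_neg]
      simp only [Nat.cast_inj]

end LN

end GH
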