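import Pool.Agent.GH.LN.FamN
import Pool.Agent.GH.DP.MainP
import Pool.Agent.GH.DP.ExtW

/-!
# Level `N`: assembly
-/

open PowerSeries Filter Topology

noncomputable section

namespace GH

namespace LN

open GP DP

variable {p : ℕ} [Fact p.Prime] {N : ℕ}

/-- The assembly (the number of zeros of the ghost coefficients is convex, with arbitrarily large
strict vertices). `B y` is the form of weight `y`, `E_{κ₀} = B y u_y(f)` for `κ₀.w = w(y)`, `M y`
the matrix of `U_p` in the basis `B y D f^j`, `D = W_{2e} ∏ (1 - f/f_c)`. -/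
theorem ghost_of_centralN (hp2 : p ≠ 2) (E : PowerSeries (PowerSeries ℤ_[p]))
    (hE : EisFamilyP E) (e : ℕ)
    (D : PowerSeries ℤ_[p]) (hD : PowerSeries.constantCoeff D = 1)
    (hDe : ∀ κ : Weight p, κ.nu = e → κ.cframeN N = κ.base.eis * cpl D)
    (wy : PadicComplex p → PadicComplex p)
    (hws : ∀ w : PadicComplex p, ‖w‖ ≤ (p : ℝ)⁻¹ → ∃ y : PadicComplex p, ‖y‖ ≤ 1 ∧ wy y = w)
    (B : PadicComplex p → PowerSeries (PadicComplex p))
    (hB : ∀ y : PadicComplex p, ‖y‖ ≤ 1 → PowerSeries.constantCoeff (B y) = 1)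
    (u : ℕ → PadicComplex p → PadicComplex p) (R r c : ℝ) (hr : 1 < r) (hrR : r ≤ R)
    (hu0 : ∀ y : PadicComplex p, ‖y‖ ≤ 1 → u 0 y = 1)
    (hu : ∀ y : PadicComplex p, ‖y‖ ≤ 1 → ∀ n, ‖u n y‖ * R ^ n ≤ 1)
    (hglue : ∀ y : PadicComplex p, ‖y‖ ≤ 1 → evSp (wy y) E =
      B y * (PowerSeries.mk fun n ↦ u n y).subst (hauptN p N (PadicComplex p)))
    (M : PadicComplex p → ℕ → ℕ → PadicComplex p)
    (hM : ∀ y : PadicComplex p, ‖y‖ ≤ 1 → IsUMatN N (B y * cpl D) (M y))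
    (hMd : ∀ y : PadicComplex p, ‖y‖ ≤ 1 → Dec R c (M y))
    (M0 : ℕ → ℕ → PadicComplex p) (hM0 : IsUMatN N (cpl D) M0) (hM0d : Dec R c M0)
    (hPhi : ∀ w : PadicComplex p, ‖w‖ ≤ (p : ℝ)⁻¹ → ∀ l, ‖evp w (PhiN N E l)‖ * r ^ l ≤ 1)
    (G : PadicComplex p → ℕ → PadicComplex p) (K : ℕ → ℕ) (t : ℕ → ℤ_[p]) (m : ℕ → ℕ → ℕ)
    (ht : ∀ k, ‖t k‖ ≤ (p : ℝ)⁻¹)
    (hG : ∀ w : PadicComplex p, ‖w‖ < 1 → ∀ n, ‖G w n‖ =
      ∏ k ∈ Finset.range (K n), ‖w - io p (t k)‖ ^ m n k)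
    (hdeg : ∀ n, 2 * (∑ k ∈ Finset.range (K (n + 1)), m (n + 1) k) ≤
      (∑ k ∈ Finset.range (K n), m n k) + ∑ k ∈ Finset.range (K (n + 2)), m (n + 2) k)
    (hvtx : ∀ n, ∃ b, n ≤ b ∧ VtxW (fun n => ∑ k ∈ Finset.range (K n), m n k) b)
    (hcent : ∀ y : PadicComplex p, ‖y‖ ≤ 1 →
      newtonPolygon p (fred (M y)) = newtonPolygon p (G (wy y)))
    (κ : Weight p) (hκ : κ.IsEven) (hν : κ.nu = e) :
    (∀ m : ℕ, ∃ c : PadicComplex p,
      Tendsto (fun nn : ℕ ↦ fredBlock (κ.uMatrixN N) nn m) atTop (𝓝 c)) ∧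
    newtonPolygon p (κ.charSeriesN N) = newtonPolygon p (G κ.base.w) := by
  have hp1 : (1 : ℝ) < p := by exact_mod_cast (Fact.out : p.Prime).one_lt
  have hpi : (p : ℝ)⁻¹ < 1 := inv_lt_one_of_one_lt₀ hp1
  have hr0 : 0 < r := by linarith
  have hb := norm_famN_le E hE D hD M0 hM0 r c hr (hM0d.mono hr0 hrR) hPhi
  obtain ⟨Cc, hCc⟩ : ∃ Cc : ℕ → ℕ → PowerSeries ℤ_[p],
    Cc = fun i j ↦ if j = 0 then 0 else famN N D E i j := ⟨_, rfl⟩
  have hCc0 : ∀ w : PadicComplex p, ‖w‖ < 1 → evp w (0 : PowerSeries ℤ_[p]) = 0 := by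
    intro w hw
    have := evp_C hw (0 : ℤ_[p])
    simpa using this
  obtain ⟨a, ha⟩ := exists_fred_familyP Cc (fun i j h ↦ by
      rw [hCc]
      change (if j = 0 then 0 else famN N D E i j) = 0
      split_ifs
      · rfl
      · exact famN_of_lt E hE D hD h) (by
      intro ρ hρ
      obtain ⟨R', hR', c', hc', hb'⟩ := hb ρ hρ
      refine ⟨R', hR', c', hc', fun w hw i j hij ↦ ?_⟩
      rw [hCc]
      change ‖evp w (if j = 0 then 0 else famN N D E i j)‖ ≤ _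
      split_ifs with hj
      · rw [hCc0 w (lt_of_le_of_lt hw hρ), norm_zero]
        positivity
      · exact hb' w hw i j (by omega) hij)
  have hblock : ∀ (w : PadicComplex p) (nn m : ℕ),
      fredBlock (fun i j ↦ evp w (Cc i j)) nn m =
        fredBlock (fun i j ↦ evp w (famN N D E i j)) nn m := by
    intro w nn m
    unfold fredBlock
    congr 3
    funext i j
    rw [hCc]
    simp
  have ha2 : ∀ w : PadicComplex p, ‖w‖ < 1 → ∀ m : ℕ,
      Tendsto (fun nn ↦ fredBlock (fun i j ↦ evp w (famN N D E i j)) nn m) atTop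
        (𝓝 (evp w (a m))) := by
    intro w hw m
    refine (ha w hw m).congr fun nn ↦ ?_
    exact hblock w nn m
  have ha' : ∀ w : PadicComplex p, ‖w‖ < 1 → fred (fun i j ↦ evp w (famN N D E i j)) =
      fun m ↦ evp w (a m) := by
    intro w hw
    funext m
    exact (ha2 w hw m).limUnder_eq
  have hfred : ∀ C : ℕ → ℕ → PadicComplex p,
      fred (fun i j ↦ if j = 0 then 0 else C i j) = fred C := by
    intro C
    funext m
    unfold fred
    congr 1
  have hcent' : ∀ w : PadicComplex p, ‖w‖ ≤ (p : ℝ)⁻¹ →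
      newtonPolygon p (fun n ↦ evp w (a n)) = newtonPolygon p (G w) := by
    intro w hw
    obtain ⟨y, hy, rfl⟩ := hws w hw
    have hw1 : ‖wy y‖ < 1 := lt_of_le_of_lt hw hpi
    rw [← ha' _ hw1, ← hcent y hy]
    congr 1
    funext n
    symm
    obtain ⟨c', hc'⟩ : ∃ c' : ℝ, c' = max c 1 := ⟨_, rfl⟩
    have hcc : c ≤ c' := by rw [hc']; exact le_max_left _ _
    have hc1 : 1 ≤ c' := by rw [hc']; exact le_max_right _ _
    have hpw : ∀ n : ℕ, (0 : ℝ) ≤ r⁻¹ ^ n := fun n ↦ by positivity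
    rw [← hfred (M y), ← hfred (fun i j ↦ evp (wy y) (famN N D E i j))]
    refine D3.fred_eq_of_toeplitz_p p (Fact.out : p.Prime).two_le _ _ (fun n ↦ u n y) r c'
      hr ?_ ?_ ?_ ?_ (hu0 y hy) ?_ ?_ n
    · intro i j h
      simp only [(hM y hy).zero i j h, ite_self]
    · intro i j h
      simp only [famN_of_lt E hE D hD h, hCc0 _ hw1, ite_self]
    · intro i j h
      change ‖(if j = 0 then 0 else M y i j)‖ ≤ _
      split_ifs
      · rw [norm_zero]
        exact mul_nonneg (by linarith) (hpw _)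
      · exact ((hMd y hy).mono hr0 hrR i j h).trans (mul_le_mul_of_nonneg_right hcc (hpw _))
    · intro i j h
      change ‖(if j = 0 then 0 else evp (wy y) (famN N D E i j))‖ ≤ _
      split_ifs with hj0
      · rw [norm_zero]
        exact mul_nonneg (by linarith) (hpw _)
      rw [evp_famN E hE D hD M0 hM0 hw1 i (by omega)]
      refine IsUltrametricDist.norm_sum_le_of_forall_le_of_nonneg
        (mul_nonneg (by linarith) (hpw _)) ?_
      intro k hk
      have hk2 : k ≤ p * i := by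
        simpa [Nat.lt_succ_iff] using Finset.mem_range.mp hk
      split_ifs with hjk
      · rw [norm_mul]
        have h1 : ‖M0 i k‖ ≤ c' * r⁻¹ ^ (p * i - k) :=
          (hM0d.mono hr0 hrR i k hk2).trans (mul_le_mul_of_nonneg_right hcc (hpw _))
        have h2 : ‖evp (wy y) (PhiN N E (k - j))‖ ≤ r⁻¹ ^ (k - j) := by
          have := hPhi (wy y) hw (k - j)
          rw [inv_pow]
          rwa [← le_div_iff₀ (by positivity), one_div] at this
        have h3 : p * i - j = (p * i - k) + (k - j) := by omega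
        rw [h3, pow_add, ← mul_assoc]
        exact mul_le_mul h1 h2 (norm_nonneg _) (mul_nonneg (by linarith) (hpw _))
      · rw [norm_zero]
        exact mul_nonneg (by linarith) (hpw _)
    · intro n
      refine le_trans ?_ (hu y hy n)
      exact mul_le_mul_of_nonneg_left (pow_le_pow_left₀ hr0.le hrR n) (norm_nonneg _)
    · intro i j _ hj
      have h1 := mat_mul_uN E hE D hD (B y) (hB y hy) (M y) (hM y hy) hw1 (fun n ↦ u n y)
        (hu0 y hy) (hglue y hy) i hj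
      refine Eq.trans ?_ (h1.trans ?_)
      · refine Finset.sum_congr rfl fun k _ ↦ ?_
        by_cases hjk : j ≤ k
        · rw [if_pos hjk, if_pos hjk, if_neg (by omega)]
        · rw [if_neg hjk, if_neg hjk]
      · refine Finset.sum_congr rfl fun k _ ↦ ?_
        rw [if_neg (by omega)]
  have hκt := triv_base hp2 κ hκ
  have hw : ‖κ.base.w‖ < 1 := by
    obtain ⟨kap, hk⟩ := exists_kapP (p := p) hp2
    exact hk.wlt _ hκt
  have hm : κ.uMatrixN N = fun i j ↦ evp κ.base.w (famN N D E i j) := by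
    funext i j
    exact uMatrixN_eq hp2 E hE D hD κ hκ (hDe κ hν) i j
  refine ⟨fun m ↦ ⟨evp κ.base.w (a m), ?_⟩, ?_⟩
  · rw [hm]
    exact ha2 κ.base.w hw m
  · have : κ.charSeriesN N = fun m ↦ evp κ.base.w (a m) := by
      rw [← ha' κ.base.w hw]
      funext m
      rw [Weight.charSeriesN, hm]
    rw [this]
    exact extendW hp2 a G K t m ht hG hdeg hvtx hcent' hw

/-- The decay of the matrix of `U_p` for every even weight of the component `e`. -/
theorem decay_of_centralN (hp2 : p ≠ 2) (E : PowerSeries (PowerSeries ℤ_[p]))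
    (hE : EisFamilyP E) (e : ℕ)
    (D : PowerSeries ℤ_[p]) (hD : PowerSeries.constantCoeff D = 1)
    (hDe : ∀ κ : Weight p, κ.nu = e → κ.cframeN N = κ.base.eis * cpl D) (R r c : ℝ) (hr : 1 < r)
    (hrR : r ≤ R)
    (M0 : ℕ → ℕ → PadicComplex p) (hM0 : IsUMatN N (cpl D) M0) (hM0d : Dec R c M0)
    (hPhi : ∀ w : PadicComplex p, ‖w‖ ≤ (p : ℝ)⁻¹ → ∀ l, ‖evp w (PhiN N E l)‖ * r ^ l ≤ 1)
    (κ : Weight p) (hκ : κ.IsEven) (hν : κ.nu = e) :
    ∃ R' : ℝ, 1 < R' ∧ ∃ c' : ℝ, 0 < c' ∧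
      (∀ i j : ℕ, 1 ≤ j → j ≤ p * i → ‖κ.uMatrixN N i j‖ ≤ c' * R'⁻¹ ^ (p * i - j)) ∧
      (∀ i j : ℕ, 1 ≤ j → p * i < j → κ.uMatrixN N i j = 0) := by
  have hr0 : 0 < r := by linarith
  have hb := norm_famN_le E hE D hD M0 hM0 r c hr (hM0d.mono hr0 hrR) hPhi
  have hκt := triv_base hp2 κ hκ
  have hw : ‖κ.base.w‖ < 1 := by
    obtain ⟨kap, hk⟩ := exists_kapP (p := p) hp2
    exact hk.wlt _ hκt
  have hm : ∀ i j, κ.uMatrixN N i j = evp κ.base.w (famN N D E i j) := by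
    intro i j
    exact uMatrixN_eq hp2 E hE D hD κ hκ (hDe κ hν) i j
  obtain ⟨R', hR', c', hc', h⟩ := hb ‖κ.base.w‖ hw
  refine ⟨R', hR', c', hc', fun i j hj hij ↦ ?_, fun i j _ hij ↦ ?_⟩
  · rw [hm]
    exact h _ le_rfl i j hj hij
  · rw [hm, famN_of_lt E hE D hD hij]
    have := evp_C hw (0 : ℤ_[p])
    simpa using this

end LN

end GH
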