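import Pool.Agent.GH.LN.DefsN

/-!
# Tame level one: `GhostConjectureN p 1` is `GhostConjectureU p`
-/

open PowerSeries Filter Topology

noncomputable section

namespace GH

namespace LN

theorem lvl_hauptN_one (p : ℕ) (R : Type*) [CommRing R] : hauptN p 1 R = hauptmodul p R := by
  simp [hauptN, hauptmodul, etaNp, etaN, orderN]

theorem lvl_cuspN_one (p : ℕ) (R : Type*) [CommRing R] : cuspN p 1 R = 1 := by
  simp [cuspN]

theorem lvl_fcoeffN_one (p : ℕ) {R : Type*} [CommRing R] (F : PowerSeries R) (n : ℕ) :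
    fcoeffN p 1 F n = fcoeff p F n := by
  induction n using Nat.strong_induction_on with
  | _ n ih =>
    rw [fcoeffN, fcoeff, lvl_hauptN_one]
    congr 1
    exact Finset.sum_congr rfl fun m _ ↦ by rw [ih m m.2]

section

variable {p : ℕ} [Fact p.Prime]

theorem lvl_cframeN_one (κ : Weight p) : κ.cframeN 1 = κ.frame := by
  simp [Weight.cframeN, Weight.frameN, Weight.frame, lvl_cuspN_one]

theorem lvl_uMatrixN_one (κ : Weight p) : κ.uMatrixN 1 = κ.uMatrixU := by
  funext i j
  rw [Weight.uMatrixN, Weight.uMatrixU, lvl_cframeN_one, lvl_hauptN_one, lvl_fcoeffN_one]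

theorem lvl_charSeriesN_one (κ : Weight p) : κ.charSeriesN 1 = κ.charSeriesU := by
  funext m
  rw [Weight.charSeriesN, Weight.charSeriesU, lvl_uMatrixN_one]

end

theorem lvl_dimS_one (k : ℕ) (hk : Even k) : dimS 1 k = dimOne k := by
  have h1 : numCusps 1 = 1 := by decide
  have h2 : numEll2 1 = 1 := by decide
  have h3 : numEll3 1 = 1 := by decide
  obtain ⟨j, rfl⟩ := hk
  unfold dimS dimOne
  rw [h1, h2, h3]
  split_ifs <;> omega

theorem lvl_dimS_prime (p : ℕ) (h1 : numCusps p = 2) (h2 : numEll2 p = nell2 p)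
    (h3 : numEll3 p = nell3 p) (k : ℕ) (hk : Even k) : dimS p k = dimG p k := by
  obtain ⟨j, rfl⟩ := hk
  unfold dimS dimG
  rw [h1, h2, h3]
  rcases Nat.eq_zero_or_pos j with rfl | hj
  · simp
  · omega

/-- The numbers of cusps and elliptic points. -/
def NumOk (p : ℕ) : Prop := numCusps p = 2 ∧ numEll2 p = nell2 p ∧ numEll3 p = nell3 p

theorem lvl_multN_one (p : ℕ) (h : NumOk p) (i k : ℕ) (hk : Even k) :
    multN p 1 i k = multG p i k := by
  have h1 : dimNewN p 1 k = dimNewG p k := by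
    rw [dimNewN, dimNewG, one_mul, lvl_dimS_one k hk, lvl_dimS_prime p h.1 h.2.1 h.2.2 k hk]
  rw [multN, multG, lvl_dimS_one k hk, h1]

theorem lvl_ghostN_one (p : ℕ) (h : NumOk p) (ν : ℕ) {K : Type*} [Field K] (w : K) (i : ℕ) :
    ghostN p 1 ν w i = ghostG p ν w i := by
  unfold ghostN ghostG
  refine finprod_congr fun k ↦ ?_
  split_ifs with hk
  · rw [lvl_multN_one p h i k hk.1]
  · rfl

theorem numOk (p : ℕ) (hp : p = 2 ∨ p = 3 ∨ p = 5 ∨ p = 7 ∨ p = 13) : NumOk p := by
  rcases hp with rfl | rfl | rfl | rfl | rfl <;> exact ⟨by decide, by decide, by decide⟩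

/-- For `N = 1` the statement of the ghost conjecture is that of level one. -/
theorem ghostConjectureN_one (p : ℕ) [Fact p.Prime]
    (hp : p = 2 ∨ p = 3 ∨ p = 5 ∨ p = 7 ∨ p = 13) :
    GhostConjectureN p 1 ↔ GhostConjectureU p := by
  have h := numOk p hp
  unfold GhostConjectureN GhostConjectureU
  refine forall_congr' fun κ ↦ forall_congr' fun _ ↦ ?_
  rw [lvl_uMatrixN_one, lvl_charSeriesN_one]
  have hg : (ghostN p 1 κ.nu κ.w : ℕ → PadicComplex p) = ghostG p κ.nu κ.w :=
    funext fun i ↦ lvl_ghostN_one p h κ.nu κ.w i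
  rw [hg]

end LN

end GH
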