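import Pool.Agent.GH.LN.PMain

/-!
# Level `N`: the ghost conjecture for `(3,2)`, `(3,4)`, `(5,2)` from its parts
-/

open PowerSeries Filter Topology

noncomputable section

namespace GH

namespace LN

open GP DP CombU

theorem SB.one {K : Type*} [NormedField K] [IsUltrametricDist K] {S : PowerSeries K} {a : K}
    (h : SB S a) : Bd (41 / 40) 1 S := by
  have h1 : S = 1 + (S - 1) := by ring
  rw [h1]
  exact (Bd.one le_rfl).add (by norm_num) (h.bS.mono_c (by norm_num))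

theorem p3_ne_two : (3 : ℕ) ≠ 2 := by norm_num
theorem p5_ne_two : (5 : ℕ) ≠ 2 := by norm_num

theorem ex_wx3 {c : D3.C3} (hc : ‖c‖ = 1) (w : PadicComplex 3) (hw : ‖w‖ ≤ ((3 : ℕ) : ℝ)⁻¹) :
    ∃ y : PadicComplex 3, ‖y‖ ≤ 1 ∧ D3.wx3 (c * y) = w := by
  have h3 : ((3 : ℕ) : ℝ)⁻¹ = 1 / 3 := by norm_num
  rw [h3] at hw
  obtain ⟨x, hx, h⟩ := D3.exists_wx3_eq hw
  have hc0 : c ≠ 0 := norm_pos_iff.1 (by rw [hc]; exact one_pos)
  refine ⟨c⁻¹ * x, ?_, ?_⟩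
  · rw [norm_mul, norm_inv, hc, inv_one, one_mul]
    exact hx
  · rw [← mul_assoc, mul_inv_cancel₀ hc0, one_mul]
    exact h

theorem ex_wx5 {c : D5.C5} (hc : ‖c‖ = 1) (w : PadicComplex 5) (hw : ‖w‖ ≤ ((5 : ℕ) : ℝ)⁻¹) :
    ∃ y : PadicComplex 5, ‖y‖ ≤ 1 ∧ D5.wx5 (c * y) = w := by
  have h3 : ((5 : ℕ) : ℝ)⁻¹ = 1 / 5 := by norm_num
  rw [h3] at hw
  obtain ⟨x, hx, h⟩ := D5.exists_wx5_eq hw
  have hc0 : c ≠ 0 := norm_pos_iff.1 (by rw [hc]; exact one_pos)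
  refine ⟨c⁻¹ * x, ?_, ?_⟩
  · rw [norm_mul, norm_inv, hc, inv_one, one_mul]
    exact hx
  · rw [← mul_assoc, mul_inv_cancel₀ hc0, one_mul]
    exact h

theorem norm_two3 : ‖(2 : D3.C3)‖ = 1 := D3.d3pm_norm_two

theorem norm_four3 : ‖(4 : D3.C3)‖ = 1 := by
  have h : (4 : D3.C3) = 2 * 2 := by norm_num
  rw [h, norm_mul, norm_two3, one_mul]

theorem norm_two5 : ‖(2 : D5.C5)‖ = 1 := by
  have h := D5.d5pm_norm_natCast 2
  have h2 : ‖((2 : ℕ) : ℚ_[5])‖ = 1 := by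
    rw [Padic.norm_natCast_eq_one_iff]
    decide
  rw [h2] at h
  simpa using h

end LN

/-! ### `(3, 2)` -/

namespace D32

open LN D3 GP DP CombU

theorem const_APow32 (y : C3) : PowerSeries.constantCoeff (APow32 y) = 1 :=
  ub_const_ppow (constantCoeff_AN 3 2 C3) y

theorem APow32_zero : APow32 (0 : C3) = 1 := ub_ppow_zero (constantCoeff_AN 3 2 C3)

theorem um32_cpl (h : UM32) (y : C3) :
    IsUMatN (p := 3) 2 (APow32 y * cpl (cuspN 3 2 ℤ_[3])) (Mc32 y) := by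
  have h1 : cpl (cuspN 3 2 ℤ_[3]) = cuspN 3 2 C3 := by
    unfold cpl
    rw [map_cuspN]
  rw [h1]
  exact h y

theorem dec_Mc32 (hb : Bnd32) {y : C3} (hy : ‖y‖ ≤ 1) :
    Dec (p := 3) (41 / 40) 2 (Mc32 y) := by
  have hT : Bd (41 / 40) 1 (GH.ppow (S32 C3) (-y)) :=
    Bd.ppow (by norm_num) hb.s.bS (constantCoeff_SN 3 2 three_ne C3) fac3 (by norm_num)
      fun l ↦ by
        rw [← neg_add', norm_neg]
        exact (IsUltrametricDist.norm_add_le_max _ _).trans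
          (max_le hy (IsUltrametricDist.norm_natCast_le_one C3 l))
  exact dec_mt (p := 3) hb.s.one (hb.c.bPc.mul1 (by norm_num) hT)

/-- **The ghost conjecture for `(3, 2)`** from its parts. -/
theorem ghost32_of (hb : Bnd32) (hcen : Cen32) (hum : UM32)
    (hglu : GluN 3 2 (fun y ↦ wx3 (4 * y)) (fun y ↦ APow32 y)) (hph : PhN 3 2)
    (hgho : GhoLN 3 2 0 0 1) (hzero : ∀ k, ‖zeroLN 3 k‖ ≤ ((3 : ℕ) : ℝ)⁻¹) (hvtx : VtxLN 0) :
    GhostConjectureN 3 2 := by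
  intro κ hκ
  have hν : κ.nu = 0 := by
    have h1 := (Weight.nu_spec κ hκ).1
    omega
  refine pair_comp (p := 3) (N := 2) (ν := 0) (i := 0) (a := 1) p3_ne_two (by norm_num)
    (cuspN 3 2 ℤ_[3]) (constantCoeff_cuspN 3 2) (fun κ h ↦ frame_zero κ h (by norm_num))
    (fun y ↦ wx3 (4 * y)) (ex_wx3 norm_four3) (fun y ↦ APow32 y) const_APow32 APow32_zero hglu
    hph Mc32 (um32_cpl hum) (fun y hy ↦ dec_Mc32 hb hy) hgho hzero hvtx (fun y hy ↦ ?_) κ hκ hν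
  have h1 : ((1 + 2 * ((3 : ℕ) : PadicComplex 3)) ^ (2 * 0) * (1 + wx3 (4 * y)) - 1) =
      wx3 (4 * y) := by
    rw [mul_zero, pow_zero, one_mul]
    ring
  rw [h1]
  exact hcen y hy

theorem decay32_of (hb : Bnd32) (hum : UM32) (hph : PhN 3 2) (κ : Weight 3)
    (hκ : κ.IsEven) :
    ∃ R : ℝ, 1 < R ∧ ∃ c : ℝ, 0 < c ∧
      (∀ i j : ℕ, 1 ≤ j → j ≤ 3 * i → ‖κ.uMatrixN 2 i j‖ ≤ c * R⁻¹ ^ (3 * i - j)) ∧
      (∀ i j : ℕ, 1 ≤ j → 3 * i < j → κ.uMatrixN 2 i j = 0) := by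
  have hν : κ.nu = 0 := by
    have h1 := (Weight.nu_spec κ hκ).1
    omega
  have hM0 := um32_cpl hum 0
  rw [APow32_zero, one_mul] at hM0
  exact pair_decay (p := 3) (N := 2) (ν := 0) p3_ne_two (cuspN 3 2 ℤ_[3])
    (constantCoeff_cuspN 3 2) (fun κ h ↦ frame_zero κ h (by norm_num)) hph (Mc32 0) hM0
    (dec_Mc32 hb (by simp)) κ hκ hν

end D32

/-! ### `(3, 4)` -/

namespace D34

open LN D3 GP DP CombU

theorem const_APow34 (y : C3) : PowerSeries.constantCoeff (APow34 y) = 1 :=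
  ub_const_ppow (constantCoeff_AN 3 4 C3) y

theorem APow34_zero : APow34 (0 : C3) = 1 := ub_ppow_zero (constantCoeff_AN 3 4 C3)

theorem um34_cpl (h : UM34) (y : C3) :
    IsUMatN (p := 3) 4 (APow34 y * cpl (cuspN 3 4 ℤ_[3])) (Mc34 y) := by
  have h1 : cpl (cuspN 3 4 ℤ_[3]) = cuspN 3 4 C3 := by
    unfold cpl
    rw [map_cuspN]
  rw [h1]
  exact h y

theorem dec_Mc34 (hb : Bnd34) {y : C3} (hy : ‖y‖ ≤ 1) :
    Dec (p := 3) (41 / 40) 2 (Mc34 y) := by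
  have hT : Bd (41 / 40) 1 (GH.ppow (S34 C3) (-y)) :=
    Bd.ppow (by norm_num) hb.sp.bS (constantCoeff_SN 3 4 three_ne C3) fac3 (by norm_num)
      fun l ↦ by
        rw [← neg_add', norm_neg]
        exact (IsUltrametricDist.norm_add_le_max _ _).trans
          (max_le hy (IsUltrametricDist.norm_natCast_le_one C3 l))
  exact dec_mt (p := 3) hb.sp.one (hb.c2.bPc.mul1 (by norm_num) hT)

/-- **The ghost conjecture for `(3, 4)`** from its parts. -/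
theorem ghost34_of (hb : Bnd34) (hcen : Cen34) (hum : UM34)
    (hglu : GluN 3 4 (fun y ↦ wx3 (2 * y)) (fun y ↦ APow34 y)) (hph : PhN 3 4)
    (hgho : GhoLN 3 4 0 1 2) (hzero : ∀ k, ‖zeroLN 3 k‖ ≤ ((3 : ℕ) : ℝ)⁻¹) (hvtx : VtxLN 1) :
    GhostConjectureN 3 4 := by
  intro κ hκ
  have hν : κ.nu = 0 := by
    have h1 := (Weight.nu_spec κ hκ).1
    omega
  refine pair_comp (p := 3) (N := 4) (ν := 0) (i := 1) (a := 2) p3_ne_two (by norm_num)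
    (cuspN 3 4 ℤ_[3]) (constantCoeff_cuspN 3 4) (fun κ h ↦ frame_zero κ h (by norm_num))
    (fun y ↦ wx3 (2 * y)) (ex_wx3 norm_two3) (fun y ↦ APow34 y) const_APow34 APow34_zero hglu
    hph Mc34 (um34_cpl hum) (fun y hy ↦ dec_Mc34 hb hy) hgho hzero hvtx (fun y hy ↦ ?_) κ hκ hν
  have h1 : ((1 + 2 * ((3 : ℕ) : PadicComplex 3)) ^ (2 * 0) * (1 + wx3 (2 * y)) - 1) =
      wx3 (2 * y) := by
    rw [mul_zero, pow_zero, one_mul]
    ring
  rw [h1]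
  exact hcen y hy

theorem decay34_of (hb : Bnd34) (hum : UM34) (hph : PhN 3 4) (κ : Weight 3)
    (hκ : κ.IsEven) :
    ∃ R : ℝ, 1 < R ∧ ∃ c : ℝ, 0 < c ∧
      (∀ i j : ℕ, 1 ≤ j → j ≤ 3 * i → ‖κ.uMatrixN 4 i j‖ ≤ c * R⁻¹ ^ (3 * i - j)) ∧
      (∀ i j : ℕ, 1 ≤ j → 3 * i < j → κ.uMatrixN 4 i j = 0) := by
  have hν : κ.nu = 0 := by
    have h1 := (Weight.nu_spec κ hκ).1
    omega
  have hM0 := um34_cpl hum 0
  rw [APow34_zero, one_mul] at hM0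
  exact pair_decay (p := 3) (N := 4) (ν := 0) p3_ne_two (cuspN 3 4 ℤ_[3])
    (constantCoeff_cuspN 3 4) (fun κ h ↦ frame_zero κ h (by norm_num)) hph (Mc34 0) hM0
    (dec_Mc34 hb (by simp)) κ hκ hν

end D34

/-! ### `(5, 2)` -/

namespace D52

open LN D5 GP DP CombU

theorem const_APow52 (y : C5) : PowerSeries.constantCoeff (APow52 y) = 1 :=
  ub_const_ppow (constantCoeff_AN 5 2 C5) y

theorem APow52_zero : APow52 (0 : C5) = 1 := ub_ppow_zero (constantCoeff_AN 5 2 C5)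

theorem map_eisTwo {R S : Type*} [CommRing R] [CommRing S] (φ : R →+* S) :
    PowerSeries.map φ (eisTwo R) = eisTwo S := by
  unfold eisTwo
  rw [map_add, map_one]
  congr 1
  ext n
  rw [PowerSeries.coeff_map, PowerSeries.coeff_mk, PowerSeries.coeff_mk, map_mul, map_sum]
  have h : φ 24 = 24 := map_ofNat φ 24
  rw [h]
  congr 1
  refine Finset.sum_congr rfl fun d _ ↦ ?_
  split_ifs
  · exact map_natCast φ d
  · exact map_zero φ

/-- The frame `W^c (1 - f)`. -/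
def Dc52 (c : ℕ) (R : Type*) [CommRing R] : PowerSeries R := eisTwo R ^ c * cuspN 5 2 R

theorem const_Dc52 (c : ℕ) : PowerSeries.constantCoeff (Dc52 c ℤ_[5]) = 1 := by
  unfold Dc52
  rw [map_mul, map_pow, constantCoeff_cuspN, mul_one]
  have h : PowerSeries.constantCoeff (eisTwo ℤ_[5]) = 1 := by
    rw [← PowerSeries.coeff_zero_eq_constantCoeff_apply, eisTwo, map_add, PowerSeries.coeff_mk]
    simp
  rw [h, one_pow]

theorem cpl_Dc52 (c : ℕ) : cpl (Dc52 c ℤ_[5]) = Dc52 c C5 := by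
  unfold cpl Dc52
  rw [map_mul, map_pow, map_eisTwo, map_cuspN]

theorem frame_c52 {c : ℕ} (κ : Weight 5) (hν : κ.nu = c) :
    κ.cframeN 2 = κ.base.eis * cpl (Dc52 c ℤ_[5]) := by
  rw [cpl_Dc52, Weight.cframeN, Weight.frameN, if_neg (by norm_num), hν, Dc52, mul_assoc]

theorem um52_cpl (h : UM52) {c : ℕ} (hc : c ≤ 1) (y : C5) :
    IsUMatN (p := 5) 2 (APow52 y * cpl (Dc52 c ℤ_[5])) (Mc52 c y) := by
  rw [cpl_Dc52]
  exact h c hc y

theorem dec_Mc52 (hb : Bnd52) {c : ℕ} (_hc : c ≤ 1) {y : C5} (hy : ‖y‖ ≤ 1) :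
    Dec (p := 5) (41 / 40) 2 (Mc52 c y) := by
  have hT : Bd (41 / 40) 1 (GH.ppow (S52 C5) (-y)) :=
    Bd.ppow (by norm_num) hb.s.bS (constantCoeff_SN 5 2 five_ne C5) fac5 (by norm_num)
      fun l ↦ by
        rw [← neg_add', norm_neg]
        exact (IsUltrametricDist.norm_add_le_max _ _).trans
          (max_le hy (IsUltrametricDist.norm_natCast_le_one C5 l))
  refine dec_mt (p := 5) hb.s.one (Bd.mul1 (by norm_num) ?_ hT)
  split_ifs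
  · exact (hb.c 0 (by norm_num)).bPc
  · exact hb.e.mono_c (by norm_num)

/-- **The ghost conjecture for `(5, 2)`** from its parts. -/
theorem ghost52_of (hb : Bnd52) (hcen : Cen52) (hum : UM52)
    (hglu : GluN 5 2 (fun y ↦ wx5 (2 * y)) (fun y ↦ APow52 y)) (hph : PhN 5 2)
    (hgho : ∀ c ≤ 1, GhoLN 5 2 c (2 + c) 1) (hzero : ∀ k, ‖zeroLN 5 k‖ ≤ ((5 : ℕ) : ℝ)⁻¹)
    (hvtx : ∀ i ≤ 3, VtxLN i) :
    GhostConjectureN 5 2 := by
  intro κ hκ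
  have hν : κ.nu ≤ 1 := by
    have h1 := (Weight.nu_spec κ hκ).1
    omega
  refine pair_comp (p := 5) (N := 2) (ν := κ.nu) (i := 2 + κ.nu) (a := 1) p5_ne_two (by omega)
    (Dc52 κ.nu ℤ_[5]) (const_Dc52 κ.nu) (fun κ' h ↦ frame_c52 κ' h)
    (fun y ↦ wx5 (2 * y)) (ex_wx5 norm_two5) (fun y ↦ APow52 y) const_APow52 APow52_zero hglu
    hph (Mc52 κ.nu) (um52_cpl hum hν) (fun y hy ↦ dec_Mc52 hb hν hy) (hgho κ.nu hν) hzero
    (hvtx _ (by omega)) (fun y hy ↦ ?_) κ hκ rfl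
  have h1 : ((1 + 2 * ((5 : ℕ) : PadicComplex 5)) ^ (2 * κ.nu) * (1 + wx5 (2 * y)) - 1) =
      121 ^ κ.nu * (1 + wx5 (2 * y)) - 1 := by
    rw [pow_mul]
    norm_num
  rw [h1]
  exact hcen κ.nu hν y hy

theorem decay52_of (hb : Bnd52) (hum : UM52) (hph : PhN 5 2) (κ : Weight 5)
    (hκ : κ.IsEven) :
    ∃ R : ℝ, 1 < R ∧ ∃ c : ℝ, 0 < c ∧
      (∀ i j : ℕ, 1 ≤ j → j ≤ 5 * i → ‖κ.uMatrixN 2 i j‖ ≤ c * R⁻¹ ^ (5 * i - j)) ∧
      (∀ i j : ℕ, 1 ≤ j → 5 * i < j → κ.uMatrixN 2 i j = 0) := by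
  have hν : κ.nu ≤ 1 := by
    have h1 := (Weight.nu_spec κ hκ).1
    omega
  have hM0 := um52_cpl hum hν 0
  rw [APow52_zero, one_mul] at hM0
  exact pair_decay (p := 5) (N := 2) (ν := κ.nu) p5_ne_two (Dc52 κ.nu ℤ_[5])
    (const_Dc52 κ.nu) (fun κ' h ↦ frame_c52 κ' h) hph (Mc52 κ.nu 0) hM0
    (dec_Mc52 hb hν (by simp)) κ hκ rfl

end D52

end GH
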