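import Pool.Agent.GH.LN.PHelp
import Pool.Agent.GH.LN.MainN
import Pool.Agent.GH.LN.CompactN
import Pool.Agent.GH.DP.EisFamP
import Pool.Agent.GH.CombU.PLN
import Pool.Agent.GH.D3.Param3
import Pool.Agent.GH.D5.Param5

/-!
# Level `N`: assembly for one component
-/

open PowerSeries Filter Topology

noncomputable section

namespace GH

namespace LN

open GP DP CombU

section comp

variable {p : ℕ} [Fact p.Prime] {N ν i a : ℕ}

/-- The ghost conjecture for one component, and the decay of the matrices. -/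
theorem pair_comp (hp2 : p ≠ 2) (hi : i ≤ 3) (D : PowerSeries ℤ_[p])
    (hD0 : PowerSeries.constantCoeff D = 1)
    (hDe : ∀ κ : Weight p, κ.nu = ν → κ.cframeN N = κ.base.eis * cpl D)
    (wy : PadicComplex p → PadicComplex p)
    (hws : ∀ w : PadicComplex p, ‖w‖ ≤ (p : ℝ)⁻¹ → ∃ y : PadicComplex p, ‖y‖ ≤ 1 ∧ wy y = w)
    (B : PadicComplex p → PowerSeries (PadicComplex p))
    (hB : ∀ y : PadicComplex p, PowerSeries.constantCoeff (B y) = 1) (hB0 : B 0 = 1)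
    (hglu : GluN p N wy B) (hph : PhN p N)
    (M : PadicComplex p → ℕ → ℕ → PadicComplex p)
    (hM : ∀ y : PadicComplex p, IsUMatN N (B y * cpl D) (M y))
    (hMd : ∀ y : PadicComplex p, ‖y‖ ≤ 1 → Dec (41 / 40) 2 (M y))
    (hgho : GhoLN p N ν i a) (hzero : ∀ k, ‖zeroLN p k‖ ≤ (p : ℝ)⁻¹) (hvtx : VtxLN i)
    (hcen : ∀ y : PadicComplex p, ‖y‖ ≤ 1 → newtonPolygon p (fred (M y)) = newtonPolygon p
      (ghostN p N ν ((1 + 2 * (p : PadicComplex p)) ^ (2 * ν) * (1 + wy y) - 1)))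
    (κ : Weight p) (hκ : κ.IsEven) (hν : κ.nu = ν) :
    (∀ m : ℕ, ∃ c : PadicComplex p,
      Tendsto (fun n : ℕ ↦ fredBlock (κ.uMatrixN N) n m) atTop (𝓝 c)) ∧
    newtonPolygon p (κ.charSeriesN N) = newtonPolygon p (ghostN p N κ.nu κ.w) := by
  obtain ⟨E, hE⟩ := exists_eisFamP (p := p) hp2
  obtain ⟨u, hu⟩ := hglu E hE
  have hM0 : IsUMatN N (cpl D) (M 0) := by
    have h := hM 0
    rwa [hB0, one_mul] at h
  have hBLN : ∀ n, (∑ k ∈ Finset.range (ZLN (n + a)), TLN i (n + a) k) = BLN i (n + a) :=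
    fun n ↦ rfl
  have h := ghost_of_centralN (p := p) (N := N) hp2 E hE ν D hD0 hDe wy hws B
    (fun y _ ↦ hB y) u (41 / 40) (41 / 40) 2 (by norm_num) le_rfl (fun y hy ↦ (hu y hy).1)
    (fun y hy ↦ (hu y hy).2.1) (fun y hy ↦ (hu y hy).2.2) M (fun y _ ↦ hM y) hMd (M 0) hM0
    (hMd 0 (by simp)) (hph E hE)
    (fun w n ↦ ghostN p N ν ((1 + 2 * (p : PadicComplex p)) ^ (2 * ν) * (1 + w) - 1) n)
    (fun n ↦ ZLN (n + a)) (zeroLN p) (fun n k ↦ TLN i (n + a) k) hzero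
    (fun w hw n ↦ hgho w hw n) ?_ ?_ (fun y hy ↦ hcen y hy) κ hκ hν
  · refine ⟨h.1, ?_⟩
    rw [h.2]
    congr 1
    funext n
    rw [w_base κ, hν]
  · intro n
    rw [hBLN, hBLN, hBLN]
    have h1 := BLN_conv i hi (n + a)
    have e1 : n + 1 + a = n + a + 1 := by omega
    have e2 : n + 2 + a = n + a + 2 := by omega
    rw [e1, e2]
    exact h1
  · intro n
    obtain ⟨b, hb, hb2⟩ := hvtx (n + a)
    refine ⟨b + 1 - a, by omega, Or.inr ?_⟩
    simp only [hBLN]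
    have e0 : b + 1 - a + a = b + 1 := by omega
    have e1 : b + 1 - a - 1 + a = b := by omega
    have e2 : b + 1 - a + 1 + a = b + 2 := by omega
    rw [e0, e1, e2]
    exact hb2

/-- The decay of the matrices. -/
theorem pair_decay (hp2 : p ≠ 2) (D : PowerSeries ℤ_[p])
    (hD0 : PowerSeries.constantCoeff D = 1)
    (hDe : ∀ κ : Weight p, κ.nu = ν → κ.cframeN N = κ.base.eis * cpl D)
    (hph : PhN p N) (M0 : ℕ → ℕ → PadicComplex p) (hM0 : IsUMatN N (cpl D) M0)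
    (hMd : Dec (41 / 40) 2 M0) (κ : Weight p) (hκ : κ.IsEven) (hν : κ.nu = ν) :
    ∃ R : ℝ, 1 < R ∧ ∃ c : ℝ, 0 < c ∧
      (∀ i j : ℕ, 1 ≤ j → j ≤ p * i → ‖κ.uMatrixN N i j‖ ≤ c * R⁻¹ ^ (p * i - j)) ∧
      (∀ i j : ℕ, 1 ≤ j → p * i < j → κ.uMatrixN N i j = 0) := by
  obtain ⟨E, hE⟩ := exists_eisFamP (p := p) hp2
  exact decay_of_centralN (p := p) (N := N) hp2 E hE ν D hD0 hDe (41 / 40) (41 / 40) 2
    (by norm_num) le_rfl M0 hM0 hMd (hph E hE) κ hκ hν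

theorem dec_mt {S P : PowerSeries (PadicComplex p)} (hS : Bd (41 / 40) 1 S)
    (hP : Bd (41 / 40) 2 P) : Dec (41 / 40) 2 (mt p S P) := fun i j h ↦
  mt_dec (by norm_num) hS hP i j h

/-- The frames for the component `0`. -/
theorem frame_zero (κ : Weight p) (hν : κ.nu = 0) (hN : N ≠ 1) :
    κ.cframeN N = κ.base.eis * cpl (cuspN p N ℤ_[p]) := by
  rw [Weight.cframeN, Weight.frameN, if_neg hN, hν, pow_zero, mul_one]
  unfold cpl
  rw [map_cuspN]

end comp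

end LN

end GH
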