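import Pool.Agent.GH.LN.CDef
import Pool.Agent.GH.LN.EStm
import Pool.Agent.GH.LN.BaseN
import Pool.Agent.GH.DP.ExtW
import Pool.Agent.GH.CombU.DefsLN

/-!
# Level `N`: the three pairs, statements
-/

open PowerSeries Filter Topology

noncomputable section

namespace GH

namespace LN

open GP DP CombU

/-! ### The cusps -/

/-- Change of the frame from `P` to `P_c`, one cusp `f = a`, `a = 1, -1`. -/
structure CB {K : Type*} [NormedField K] (g P Pc : PowerSeries K) (a : K) : Prop where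
  rel : P * (1 - C a * X) = (1 - C a * g) * Pc
  bP : Bd (41 / 40) 2 P
  bPc : Bd (41 / 40) 2 Pc
  bP1 : Bd 1 1 P
  bPc1 : Bd 1 1 Pc

/-- The bounds for `S`. -/
structure SB {K : Type*} [NormedField K] (S : PowerSeries K) (a : K) : Prop where
  bS : Bd (41 / 40) (2 / 5) (S - 1)
  cS : ∃ S1 : PowerSeries K, Bd (41 / 40) 2 S1 ∧ S = 1 + (1 - C a * X) * S1

/-- `U_p` on functions: `p S R = p S - h S'`. -/
def RelR (p : ℕ) {K : Type*} [Field K] (S R : PowerSeries K) : Prop :=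
  (p : PowerSeries K) * (S * R) = (p : PowerSeries K) * S - X * derivative K S

/-! ### The ghost series -/

/-- The ghost zeros of weight `k ≡ 2ν mod p - 1`, relative to the weight `2ν`. -/
def zeroLN (p : ℕ) [Fact p.Prime] (k : ℕ) : ℤ_[p] := (1 + 2 * (p : ℤ_[p])) ^ ((p - 1) * k) - 1

/-- The norms of the ghost coefficients; `a` is the number of the cusps `f ≠ 0` of the ordinary
disc: `a = 1, 2, 1, 1` for the types `i = 0, 1, 2, 3`. -/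
def GhoLN (p N ν i a : ℕ) [Fact p.Prime] : Prop :=
  ∀ w : PadicComplex p, ‖w‖ < 1 → ∀ n,
    ‖ghostN p N ν ((1 + 2 * (p : PadicComplex p)) ^ (2 * ν) * (1 + w) - 1) n‖ =
      ∏ k ∈ Finset.range (ZLN (n + a)), ‖w - io p (zeroLN p k)‖ ^ TLN i (n + a) k

/-- There are arbitrarily large strict vertices. -/
def VtxLN (i : ℕ) : Prop := ∀ n, ∃ b, n ≤ b ∧ 2 * BLN i (b + 1) + 1 ≤ BLN i b + BLN i (b + 2)

/-! ### The Eisenstein family -/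

/-- The glue: `E_{κ₀} = A^y v(f)`, `v` overconvergent. -/
def GluN (p N : ℕ) [Fact p.Prime] (wy : PadicComplex p → PadicComplex p)
    (B : PadicComplex p → PowerSeries (PadicComplex p)) : Prop :=
  ∀ E : PowerSeries (PowerSeries ℤ_[p]), EisFamilyP E →
    ∃ u : ℕ → PadicComplex p → PadicComplex p, ∀ y : PadicComplex p, ‖y‖ ≤ 1 →
      u 0 y = 1 ∧ (∀ n, ‖u n y‖ * (41 / 40 : ℝ) ^ n ≤ 1) ∧
      evSp (wy y) E = B y * (PowerSeries.mk fun n ↦ u n y).subst (hauptN p N (PadicComplex p))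

/-- The decay of `E(q)/E(q^p)`. -/
def PhN (p N : ℕ) [Fact p.Prime] : Prop :=
  ∀ E : PowerSeries (PowerSeries ℤ_[p]), EisFamilyP E →
    ∀ w : PadicComplex p, ‖w‖ ≤ (p : ℝ)⁻¹ → ∀ l, ‖evp w (PhiN N E l)‖ * (41 / 40 : ℝ) ^ l ≤ 1

/-- The transfer for `p = 3`. -/
def Tr3 : Prop := ∀ E : PowerSeries (PowerSeries ℤ_[3]), EisFamilyP E →
  ∃ u : ℕ → D3.C3 → D3.C3, (∀ x : D3.C3, ‖x‖ ≤ 1 → u 0 x = 1 ∧
    (∀ n, ‖u n x‖ * (5 / 3 : ℝ) ^ n ≤ 1) ∧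
    evSp (D3.wx3 x) E = D3.bPow x * (PowerSeries.mk fun n ↦ u n x).subst (hauptmodul 3 D3.C3)) ∧
    ∀ w : D3.C3, ‖w‖ ≤ ((3 : ℕ) : ℝ)⁻¹ → ∀ l, ‖evp w (PhiP E l)‖ * (7 / 6 : ℝ) ^ l ≤ 1

/-- The same for `p = 5`. -/
def Tr5 : Prop := ∀ E : PowerSeries (PowerSeries ℤ_[5]), EisFamilyP E →
  ∃ u : ℕ → D5.C5 → D5.C5, (∀ x : D5.C5, ‖x‖ ≤ 1 → u 0 x = 1 ∧
    (∀ n, ‖u n x‖ * (9 / 5 : ℝ) ^ n ≤ 1) ∧
    evSp (D5.wx5 x) E = D5.phiPow x * (PowerSeries.mk fun n ↦ u n x).subst (hauptmodul 5 D5.C5)) ∧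
    ∀ w : D5.C5, ‖w‖ ≤ ((5 : ℕ) : ℝ)⁻¹ → ∀ l, ‖evp w (PhiP E l)‖ * (11 / 10 : ℝ) ^ l ≤ 1

end LN

/-! ### `(3, 2)` -/

namespace D32

open LN D3

/-- `R = S⁻¹ n_s(h)/ψ_s(g)`. -/
def R32 (K : Type*) [Field K] : PowerSeries K :=
  invOfUnit (S32 K) 1 * (ns32 (X : PowerSeries K) * invOfUnit (ps32 (gs32 K)) 1)

/-- `R (1-h)/(1-g) = (1-6h-3h²)(1-9g)/((1-9h)(1+18g-27g²))`. -/
def Rc32 (K : Type*) [Field K] : PowerSeries K :=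
  (1 - 6 * X - 3 * X ^ 2) * (1 - 9 * gs32 K) *
    invOfUnit ((1 - 9 * X) * (1 + 18 * gs32 K - 27 * gs32 K ^ 2)) 1

/-- The matrix of `U_3` in the basis `A^x (1-f) f^j`. -/
def Mc32 (x : C3) (i j : ℕ) : C3 := mt 3 (S32 C3) (Rc32 C3 * ppow (S32 C3) (-x)) i j

/-- The bounds. -/
structure Bnd32 : Prop where
  hR : RelR 3 (S32 C3) (R32 C3)
  s : SB (S32 C3) 1
  c : CB (gs32 C3) (R32 C3) (Rc32 C3) 1

/-- The central theorem for the cusp forms. -/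
def Cen32 : Prop := ∀ x : C3, ‖x‖ ≤ 1 →
  newtonPolygon 3 (fred (Mc32 x)) = newtonPolygon 3 (ghostN 3 2 0 (wx3 (4 * x)))

/-- The matrix. -/
def UM32 : Prop := ∀ x : C3, IsUMatN (p := 3) 2 (APow32 x * cuspN 3 2 C3) (Mc32 x)

end D32

/-! ### `(3, 4)` -/

namespace D34

open LN D3

/-- `R = S⁻¹ n_s(h)/ψ_s(g)`. -/
def R34 (K : Type*) [Field K] : PowerSeries K :=
  invOfUnit (S34 K) 1 * (ns34 (X : PowerSeries K) * invOfUnit (ps34 (gs34 K)) 1)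

/-- `R (1-h)/(1-g) = (1+h)²(1+3g)/((1+3h)(1-3g)²)`. -/
def Rp34 (K : Type*) [Field K] : PowerSeries K :=
  (1 + X) ^ 2 * (1 + 3 * gs34 K) * invOfUnit ((1 + 3 * X) * (1 - 3 * gs34 K) ^ 2) 1

/-- `R (1+h)/(1+g) = (1-h)²(1-3g)/((1-3h)(1+3g)²)`. -/
def Rm34 (K : Type*) [Field K] : PowerSeries K :=
  (1 - X) ^ 2 * (1 - 3 * gs34 K) * invOfUnit ((1 - 3 * X) * (1 + 3 * gs34 K) ^ 2) 1

/-- `R (1-h²)/(1-g²) = S (1-9g²)/(1-9h²)`. -/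
def Rc34 (K : Type*) [Field K] : PowerSeries K :=
  S34 K * (1 - 9 * gs34 K ^ 2) * invOfUnit (1 - 9 * X ^ 2) 1

/-- The matrix of `U_3` in the basis `A^x (1-f²) f^j`. -/
def Mc34 (x : C3) (i j : ℕ) : C3 := mt 3 (S34 C3) (Rc34 C3 * ppow (S34 C3) (-x)) i j

/-- The bounds. -/
structure Bnd34 : Prop where
  hR : RelR 3 (S34 C3) (R34 C3)
  sp : SB (S34 C3) 1
  sm : SB (S34 C3) (-1)
  c1 : CB (gs34 C3) (R34 C3) (Rp34 C3) 1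
  c2 : CB (gs34 C3) (Rp34 C3) (Rc34 C3) (-1)
  c3 : CB (gs34 C3) (R34 C3) (Rm34 C3) (-1)

/-- The central theorem for the cusp forms. -/
def Cen34 : Prop := ∀ x : C3, ‖x‖ ≤ 1 →
  newtonPolygon 3 (fred (Mc34 x)) = newtonPolygon 3 (ghostN 3 4 0 (wx3 (2 * x)))

/-- The matrix. -/
def UM34 : Prop := ∀ x : C3, IsUMatN (p := 3) 4 (APow34 x * cuspN 3 4 C3) (Mc34 x)

end D34

/-! ### `(5, 2)` -/

namespace D52

open LN D5

/-- `S⁻¹ n_s(h)/ψ_s(g)`; for `c = 0` this is `R`. -/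
def R52 (c : ℕ) (K : Type*) [Field K] : PowerSeries K :=
  invOfUnit (S52 K) 1 * (ns52 c (X : PowerSeries K) * invOfUnit (ps52 c (gs52 K)) 1)

/-- `R_c (1-h)/(1-g) = (1-5g)(1-4h-h²)^{1-c}/((1-5h)(1+20g-25g²)^{1-c})`. -/
def Rc52 (c : ℕ) (K : Type*) [Field K] : PowerSeries K :=
  (1 - 5 * gs52 K) * (1 - 4 * X - X ^ 2) ^ (1 - c) *
    invOfUnit ((1 - 5 * X) * (1 + 20 * gs52 K - 25 * gs52 K ^ 2) ^ (1 - c)) 1

/-- `(1-5g)(1+20h-25h²)/((1-5h)(1+20g-25g²))`. -/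
def Re52 (K : Type*) [Field K] : PowerSeries K :=
  (1 - 5 * gs52 K) * (1 + 20 * X - 25 * X ^ 2) *
    invOfUnit ((1 - 5 * X) * (1 + 20 * gs52 K - 25 * gs52 K ^ 2)) 1

/-- The matrices of `U_5` in the bases `A^x (1-f) f^j`, `c = 0`, and `A^x W (1-f) f^j`, `c = 1`,
`W = 2E_2(2z) - E_2(z)`. -/
def Mc52 (c : ℕ) (x : C5) (i j : ℕ) : C5 :=
  mt 5 (S52 C5) ((if c = 0 then Rc52 0 C5 else Re52 C5) * ppow (S52 C5) (-x)) i j

/-- The bounds. -/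
structure Bnd52 : Prop where
  hR : RelR 5 (S52 C5) (R52 0 C5)
  s : SB (S52 C5) 1
  c : ∀ c ≤ 1, CB (gs52 C5) (R52 c C5) (Rc52 c C5) 1
  e : Bd (41 / 40) 1 (Re52 C5)
  e1 : Bd 1 1 (Re52 C5)

/-- `1 - 10h + 5h²`. -/
def v52 (K : Type*) [Field K] : PowerSeries K := 1 - 10 * X + 5 * X ^ 2

/-- `U_5 (D v(f)) = D v(f)`: the eigenform is `(W - 5 W(q⁵))/(-4)`. -/
def Vev52 : Prop := ∀ i : ℕ,
  PowerSeries.coeff (5 * i) (R52 1 C5 * v52 C5 * S52 C5 ^ i) = PowerSeries.coeff i (v52 C5)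

/-- The central theorem for the cusp forms. -/
def Cen52 : Prop := ∀ c ≤ 1, ∀ x : C5, ‖x‖ ≤ 1 →
  newtonPolygon 5 (fred (Mc52 c x)) =
    newtonPolygon 5 (ghostN 5 2 c (121 ^ c * (1 + wx5 (2 * x)) - 1))

/-- The matrices. -/
def UM52 : Prop := ∀ c ≤ 1, ∀ x : C5,
  IsUMatN (p := 5) 2 (APow52 x * (eisTwo C5 ^ c * cuspN 5 2 C5)) (Mc52 c x)

end D52

end GH
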